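import Pool.Agent.FD.Primes
import Pool.Agent.FD.LinesDefs

/-! # S: the sizes `ψ_j(N)` are log-dense -/

set_option autoImplicit false

namespace Pool.Agent.FF

open Polynomial

/-- `ψ_j(N)`: the product of the `(R_i ^ (j + 1) - 1) / (R_i - 1)`, `R_i = r ^ deg M_i` -/
noncomputable def psiJ {F : Type*} [Field F] (j : ℕ) {s : ℕ} (M : Fin s → F[X]) : ℕ :=
  ∏ i, ∑ l ∈ Finset.range (j + 1), Nat.card F ^ (l * (M i).natDegree)

/-- the error term of one factor -/
noncomputable def epJ (r : ℝ) (j d : ℕ) : ℝ := ∑ l ∈ Finset.range j, 1 / (r ^ d) ^ (l + 1)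

theorem sum_epJ {r : ℝ} (hr : 0 < r) (j d : ℕ) :
    ∑ l ∈ Finset.range (j + 1), r ^ (l * d) = (r ^ d) ^ j * (1 + epJ r j d) := by
  have h0 : (r ^ d) ≠ 0 := by positivity
  rw [epJ, mul_add, mul_one, Finset.mul_sum, Finset.sum_range_succ, add_comm, mul_comm j d, pow_mul]
  congr 1
  rw [← Finset.sum_range_reflect]
  refine Finset.sum_congr rfl fun l hl => ?_
  have hl' := Finset.mem_range.1 hl
  rw [mul_one_div, eq_div_iff (by positivity), mul_comm _ d, pow_mul, ← pow_add]
  congr 1
  omega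

theorem epJ_nonneg {r : ℝ} (hr : 0 < r) (j d : ℕ) : 0 ≤ epJ r j d :=
  Finset.sum_nonneg fun _ _ => by positivity

theorem le_epJ {r : ℝ} (hr : 0 < r) {j : ℕ} (hj : 1 ≤ j) (d : ℕ) : 1 / r ^ d ≤ epJ r j d := by
  rw [epJ]
  have h := Finset.single_le_sum (f := fun l => 1 / (r ^ d) ^ (l + 1))
    (fun _ _ => by positivity) (Finset.mem_range.2 (show 0 < j by omega))
  simpa using h

theorem epJ_le {r : ℝ} (hr : 2 ≤ r) (j : ℕ) {d : ℕ} (hd : 1 ≤ d) :
    epJ r j d ≤ 2 / r ^ d := by
  have h2 : 2 ≤ r ^ d := by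
    calc (2 : ℝ) ≤ r := hr
      _ = r ^ 1 := (pow_one r).symm
      _ ≤ r ^ d := pow_le_pow_right₀ (by linarith) hd
  set x : ℝ := 1 / r ^ d with hx
  have hx0 : 0 < x := by rw [hx]; positivity
  have hx1 : x ≤ 1 / 2 := one_div_le_one_div_of_le (by norm_num) h2
  have h1 : epJ r j d = ∑ l ∈ Finset.range j, x ^ (l + 1) := by
    rw [epJ]
    refine Finset.sum_congr rfl fun l _ => ?_
    rw [hx, one_div_pow]
  have key : ∀ j : ℕ, ∑ l ∈ Finset.range j, x ^ (l + 1) ≤ 2 * x - 2 * x * (1 / 2) ^ j := by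
    intro j
    induction j with
    | zero => simp
    | succ j ih =>
      rw [Finset.sum_range_succ]
      have h3 : x ^ (j + 1) ≤ x * (1 / 2) ^ j := by
        rw [pow_succ, mul_comm]
        exact mul_le_mul_of_nonneg_left (pow_le_pow_left₀ hx0.le hx1 j) hx0.le
      calc ∑ l ∈ Finset.range j, x ^ (l + 1) + x ^ (j + 1)
          ≤ (2 * x - 2 * x * (1 / 2) ^ j) + x * (1 / 2) ^ j := add_le_add ih h3
        _ = 2 * x - 2 * x * (1 / 2) ^ (j + 1) := by rw [pow_succ]; ring
  rw [h1]
  have h4 := key j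
  have h5 : 0 ≤ 2 * x * (1 / 2) ^ j := by positivity
  have h6 : 2 / r ^ d = 2 * x := by rw [hx]; ring
  rw [h6]
  linarith

theorem sizesJ (F : Type*) [Field F] [Finite F] {j : ℕ} (hj : 1 ≤ j) {eta : ℝ} (he : 0 < eta) :
    ∃ X0 : ℝ, ∀ X : ℝ,
    X0 ≤ X → ∃ (s : ℕ) (M : Fin s → F[X]), Function.Injective M ∧
      (∀ i, (M i).Monic ∧ Irreducible (M i) ∧ (M i).eval 1 ≠ 0) ∧
      X ≤ psiJ j M ∧ (psiJ j M : ℝ) ≤ (1 + eta) * X := by
  classical
  have hr2 : 2 ≤ Nat.card F := Finite.one_lt_card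
  set r : ℝ := (Nat.card F : ℝ) with hr
  have hr1 : (2 : ℝ) ≤ r := by rw [hr]; exact_mod_cast hr2
  have hr0 : 0 < r := by linarith
  set b : ℝ := r ^ j with hb
  have hb2 : 2 ≤ b := by
    calc (2 : ℝ) ≤ r := hr1
      _ = r ^ 1 := (pow_one r).symm
      _ ≤ r ^ j := pow_le_pow_right₀ (by linarith) hj
  have hb0 : 0 < b := by linarith
  -- the small parameter
  set δ : ℝ := min eta 1 / 3 with hδ
  have hδ0 : 0 < δ := by rw [hδ]; positivity
  have hδ1 : (1 + δ) * (1 + δ) ≤ 1 + eta := by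
    have h1 : min eta 1 ≤ eta := min_le_left _ _
    have h2 : min eta 1 ≤ 1 := min_le_right _ _
    have h3 : min eta 1 = 3 * δ := by rw [hδ]; ring
    rw [h3] at h1 h2
    nlinarith
  obtain ⟨D0, hD0⟩ := exists_pow_lt_of_lt_one (show 0 < δ / 2 by positivity) (show 1 / r < 1 by
    rw [div_lt_one hr0]; linarith)
  have hsmall : ∀ n, D0 < n → epJ r j n ≤ δ := by
    intro n hn
    have h1 : 1 / r ^ n ≤ 1 / r ^ D0 :=
      one_div_le_one_div_of_le (by positivity) (pow_le_pow_right₀ (by linarith) hn.le)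
    rw [one_div_pow] at hD0
    have h2 := epJ_le hr1 j (show 1 ≤ n by omega)
    have h3 : 2 / r ^ n = 2 * (1 / r ^ n) := by ring
    linarith
  obtain ⟨T, M, hinj, hM, hB⟩ := exists_seq (F := F) (D0 + 1) b
  set N : ℕ → F[X] := fun i => if h : i < T then M ⟨i, h⟩ else 1 with hN
  have hNi : ∀ i (h : i < T), N i = M ⟨i, h⟩ := fun i h => by rw [hN]; simp only [dif_pos h]
  set dd : ℕ → ℕ := fun i => (N i).natDegree with hdd
  have hdd1 : ∀ i < T, D0 + 1 < dd i := fun i h => by
    rw [hdd]; simp only; rw [hNi i h]; exact (hM _).2.2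
  set κ : ℕ → ℝ := fun t => ∏ i ∈ Finset.range t, (1 + epJ r j (dd i)) with hκ
  have hκT : b ≤ κ T := by
    refine hB.trans ?_
    rw [hκ]
    simp only
    rw [← Fin.prod_univ_eq_prod_range (fun i => 1 + epJ r j (dd i)) T]
    refine Finset.prod_le_prod (fun i _ => by positivity) fun i _ => ?_
    have h1 := le_epJ hr0 hj (dd i)
    rw [hdd] at h1 ⊢
    simp only at h1 ⊢
    rw [hNi i i.isLt] at h1 ⊢
    simpa using h1
  have hκ0 : ∀ t, 0 < κ t := fun t => Finset.prod_pos fun i _ => by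
    have := epJ_nonneg hr0 j (dd i)
    linarith
  set S : ℕ := ∑ i ∈ Finset.range T, dd i with hS
  refine ⟨b ^ (S + (S + D0 + 2)), fun X hX => ?_⟩
  have hX1 : 1 ≤ X := (one_le_pow₀ (by linarith)).trans hX
  obtain ⟨m, hm1, hm2⟩ := exists_nat_pow_near hX1 (show 1 < b by linarith)
  have hrm : 0 < b ^ m := by positivity
  have hmS : S + (S + D0 + 2) ≤ m := by
    have h1 : b ^ (S + (S + D0 + 2)) < b ^ (m + 1) := lt_of_le_of_lt hX hm2
    have h2 := (pow_lt_pow_iff_right₀ (show 1 < b by linarith)).1 h1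
    omega
  -- the index
  have hex : ∃ t, X / b ^ m ≤ κ t := by
    refine ⟨T, le_trans ?_ hκT⟩
    rw [div_le_iff₀ hrm, ← pow_succ']
    exact hm2.le
  set t := Nat.find hex with ht
  have htT : t ≤ T := by
    apply Nat.find_min' hex
    refine le_trans ?_ hκT
    rw [div_le_iff₀ hrm, ← pow_succ']
    exact hm2.le
  have ht1 : X / b ^ m ≤ κ t := Nat.find_spec hex
  have hlow : X ≤ b ^ m * κ t := by
    rw [div_le_iff₀ hrm] at ht1
    linarith
  have hupp : b ^ m * κ t ≤ (1 + δ) * X := by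
    rcases Nat.eq_zero_or_pos t with h0 | h0
    · rw [h0, hκ]
      simp only [Finset.range_zero, Finset.prod_empty, mul_one]
      nlinarith
    · have h1 : ¬ X / b ^ m ≤ κ (t - 1) := Nat.find_min hex (by omega)
      push Not at h1
      have h2 : κ t = κ (t - 1) * (1 + epJ r j (dd (t - 1))) := by
        rw [hκ]
        simp only
        conv_lhs => rw [show t = (t - 1) + 1 by omega]
        rw [Finset.prod_range_succ]
      have h3 : epJ r j (dd (t - 1)) ≤ δ :=
        hsmall _ (by have := hdd1 (t - 1) (by omega); omega)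
      have h4 := epJ_nonneg hr0 j (dd (t - 1))
      rw [lt_div_iff₀ hrm] at h1
      rw [h2]
      calc b ^ m * (κ (t - 1) * (1 + epJ r j (dd (t - 1))))
          = (κ (t - 1) * b ^ m) * (1 + epJ r j (dd (t - 1))) := by ring
        _ ≤ X * (1 + δ) := by
            apply mul_le_mul h1.le (by linarith) (by positivity) (by linarith)
        _ = (1 + δ) * X := by ring
  -- the last polynomial
  set St : ℕ := ∑ i ∈ Finset.range t, dd i with hSt
  have hStS : St ≤ S := Finset.sum_le_sum_of_subset (Finset.range_mono htT)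
  obtain ⟨f, hf1, hf2, hf3⟩ := exists_irr (F := F) (n := m - St) (by omega)
  have hle : ∀ i < T, dd i ≤ S := fun i hi =>
    Finset.single_le_sum (f := dd) (fun _ _ => Nat.zero_le _) (Finset.mem_range.2 hi)
  have hfN : ∀ i < T, N i ≠ f := by
    intro i hi h
    have h1 := hle i hi
    have h2 : dd i = m - St := by rw [hdd]; simp only; rw [h, hf3]
    have h3 : m - St ≤ S := h2 ▸ h1
    clear_value S St
    omega
  have heval : ∀ g : F[X], Irreducible g → 1 < g.natDegree → g.eval 1 ≠ 0 := by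
    intro g h1 h2 h3
    have h4 := degree_eq_one_of_irreducible_of_root h1 (x := 1) h3
    have h5 : g.natDegree = 1 := natDegree_eq_of_degree_eq_some h4
    omega
  refine ⟨t + 1, Fin.snoc (fun i : Fin t => N i) f, ?_, ?_, ?_⟩
  · intro i k hij
    induction i using Fin.lastCases with
    | last =>
      induction k using Fin.lastCases with
      | last => rfl
      | cast k =>
        rw [Fin.snoc_last, Fin.snoc_castSucc] at hij
        exact absurd hij.symm (hfN k (by have := k.isLt; omega))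
    | cast i =>
      induction k using Fin.lastCases with
      | last =>
        rw [Fin.snoc_last, Fin.snoc_castSucc] at hij
        exact absurd hij (hfN i (by have := i.isLt; omega))
      | cast k =>
        rw [Fin.snoc_castSucc, Fin.snoc_castSucc] at hij
        rw [hNi i (by have := i.isLt; omega), hNi k (by have := k.isLt; omega)] at hij
        have h1 := hinj hij
        have h2 : (i : ℕ) = k := by simpa using h1
        rw [Fin.ext h2]
  · intro i
    induction i using Fin.lastCases with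
    | last =>
      rw [Fin.snoc_last]
      exact ⟨hf1, hf2, heval f hf2 (by omega)⟩
    | cast i =>
      rw [Fin.snoc_castSucc]
      have hi : (i : ℕ) < T := by have := i.isLt; omega
      rw [hNi i hi]
      exact ⟨(hM _).1, (hM _).2.1, heval _ (hM _).2.1 (by have := (hM ⟨i, hi⟩).2.2; omega)⟩
  · have hpsi : ((psiJ j (Fin.snoc (fun i : Fin t => N i) f : Fin (t + 1) → F[X]) : ℕ) : ℝ) =
        b ^ m * κ t * (1 + epJ r j (m - St)) := by
      rw [psiJ, Fin.prod_univ_castSucc]
      simp only [Fin.snoc_castSucc, Fin.snoc_last]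
      push_cast
      rw [hf3, ← hr, sum_epJ hr0]
      have h1 : ∏ i : Fin t, ∑ l ∈ Finset.range (j + 1), r ^ (l * (N i).natDegree) =
          b ^ St * κ t := by
        rw [Fin.prod_univ_eq_prod_range
          (fun i => ∑ l ∈ Finset.range (j + 1), r ^ (l * (N i).natDegree)) t, hSt,
          ← Finset.prod_pow_eq_pow_sum, hκ, ← Finset.prod_mul_distrib]
        refine Finset.prod_congr rfl fun i _ => ?_
        rw [sum_epJ hr0, hb, ← pow_mul, ← pow_mul, mul_comm j]
      rw [h1]
      have h2 : b ^ m = b ^ St * b ^ (m - St) := by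
        rw [← pow_add]; congr 1; omega
      rw [h2, hb, ← pow_mul, ← pow_mul, ← pow_mul, mul_comm (m - St) j]
      ring
    rw [hpsi]
    have hd : epJ r j (m - St) ≤ δ := hsmall _ (by omega)
    have hd0 := epJ_nonneg hr0 j (m - St)
    constructor
    · have : 0 < b ^ m * κ t := mul_pos hrm (hκ0 t)
      nlinarith
    · calc b ^ m * κ t * (1 + epJ r j (m - St)) ≤ ((1 + δ) * X) * (1 + δ) := by
            apply mul_le_mul hupp (by linarith) (by positivity) (by positivity)
        _ = (1 + δ) * (1 + δ) * X := by ring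
        _ ≤ (1 + eta) * X := mul_le_mul_of_nonneg_right hδ1 (by linarith)

/-- the degree is at most the logarithm of the size -/
theorem pow_dgM_le_psiJ {F : Type*} [Field F] [Finite F] (j : ℕ) {s : ℕ} (M : Fin s → F[X]) :
    Nat.card F ^ (j * dgM M Finset.univ) ≤ psiJ j M := by
  rw [dgM, psiJ, mul_comm, pow_mul, ← Finset.prod_pow_eq_pow_sum, ← Finset.prod_pow]
  refine Finset.prod_le_prod' fun i _ => ?_
  rw [← pow_mul, mul_comm]
  exact Finset.single_le_sum (f := fun l => Nat.card F ^ (l * (M i).natDegree))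
    (fun _ _ => Nat.zero_le _) (Finset.mem_range.2 (Nat.lt_succ_self j))

end Pool.Agent.FF
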