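import Pool.Agent.FE.CuspC
import Pool.Agent.FD.Cusp

/-! # D3: the degree (49, 36) -/

set_option autoImplicit false

namespace Pool.Agent.FF.Rk

section

variable {F k H : Type} {j : ℕ} [Field F] [Finite F] [Field k] [Finite k] [Field H] [Algebra F k]
  [Algebra F H] [Algebra k H] [Algebra (RatFunc k) H] [IsScalarTower k (RatFunc k) H]

variable {s : ℕ} {M : Fin s → Polynomial F}

/-- the degree -/
theorem finrank_EL (h : DrS F j k H (∏ i, M i)) {L : Fin s → Submodule F H}
    (hL : LT j (gX k H) M L) {R : DV (EL k L)} (hR : R.Rat k) :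
    Module.finrank (RatFunc k) (EL k L) = psiJ j M := (cusp_main h hL hR).1

/-- all line tuples are conjugate -/
theorem exists_actL (h : DrS F j k H (∏ i, M i)) {L L' : Fin s → Submodule F H}
    (hL : LT j (gX k H) M L) (hL' : LT j (gX k H) M L') {R : DV (EL k L)} (hR : R.Rat k) :
    ∃ σ : H ≃ₐ[RatFunc k] H, actL σ L L' := exists_act_of h hL hL' (finrank_EL h hL hR)

/-- the index of the intersection with the inertia group: a power of `r` divides `e` -/
theorem pow_dvd_e (h : DrS F j k H (∏ i, M i)) {L : Fin s → Submodule F H}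
    (hL : LT j (gX k H) M L) {R : DV (EL k L)} (hR : R.Rat k) {P : DV (EL k L)} {e : ℕ}
    (hP : OverE P (Rat.inf k) e) {Q : DV H} (hQ : Over Q P) :
    Nat.card F ^ (j * dgM M (typ F j (gX k H) Q M L)) ∣ e := (cusp_main h hL hR).2 P Q e hP hQ

/-- the type does not depend on the place above -/
theorem typ_eq (h : DrS F j k H (∏ i, M i)) {L : Fin s → Submodule F H}
    {P : DV (EL k L)} {Q Q' : DV H} (hQ : Over Q P) (hQ' : Over Q' P) :
    typ F j (gX k H) Q M L = typ F j (gX k H) Q' M L := typ_eq' h hQ hQ'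

/-- the type of the image -/
theorem typ_act (h : DrS F j k H (∏ i, M i)) {σ : H ≃ₐ[RatFunc k] H}
    {L L' : Fin s → Submodule F H} (ha : actL σ L L') (Q : DV H) :
    typ F j (gX k H) (Q.act σ) M L' = typ F j (gX k H) Q M L := typ_act' h.tower ha Q M

/-- the image of a line tuple is a line tuple -/
theorem exists_img (h : DrS F j k H (∏ i, M i)) (σ : H ≃ₐ[RatFunc k] H)
    {L : Fin s → Submodule F H} (hL : LT j (gX k H) M L) :
    ∃ L' : Fin s → Submodule F H, LT j (gX k H) M L' ∧ actL σ L L' := hL.exists_img h.tower σ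

end

end Pool.Agent.FF.Rk
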