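import Pool.Agent.FD.CuspA
import Pool.Agent.FE.Base

/-! # T5, D3: action of the Galois group on line tuples (49) -/

set_option autoImplicit false

namespace Pool.Agent.FF.Rk

section

variable {F k H : Type} [Field F] [Finite F] [Field k] [Finite k] [Field H] [Algebra F k]
  [Algebra F H] [Algebra k H] [Algebra (RatFunc k) H] [IsScalarTower k (RatFunc k) H]

variable {s j : ℕ}

omit [Finite k] [Algebra F k] [Algebra k H] [IsScalarTower k (RatFunc k) H] in
theorem sig_phT (σ : H ≃ₐ[RatFunc k] H) (x : H) :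
    σ (phT F j (gX k H) x) = phT F j (gX k H) (σ x) := by
  rw [phT_apply, phT_apply, map_sub, map_add, map_mul, map_pow, map_pow, AlgEquiv.commutes]

omit [Finite k] [Algebra k H] [IsScalarTower k (RatFunc k) H] in
theorem sig_phN (ht : ∀ c : F, algebraMap F H c = algebraMap (RatFunc k) H
    (RatFunc.C (algebraMap F k c))) (σ : H ≃ₐ[RatFunc k] H) (N : Polynomial F) (x : H) :
    σ (phN F j (gX k H) N x) = phN F j (gX k H) N (σ x) := by
  unfold phN
  induction N using Polynomial.induction_on' generalizing x with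
  | add p q hp hq =>
    rw [map_add, LinearMap.add_apply, LinearMap.add_apply, map_add, hp, hq]
  | monomial n a =>
    rw [Polynomial.aeval_monomial, Module.End.mul_apply, Module.End.mul_apply,
      Module.algebraMap_end_apply, Module.algebraMap_end_apply, Algebra.smul_def,
      Algebra.smul_def, map_mul]
    congr 1
    · rw [ht a, AlgEquiv.commutes]
    · induction n generalizing x with
      | zero => rfl
      | succ n ih => rw [pow_succ, Module.End.mul_apply, Module.End.mul_apply, ih, sig_phT]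

omit [Finite k] [Algebra k H] [IsScalarTower k (RatFunc k) H] in
theorem mem_VN_map (ht : ∀ c : F, algebraMap F H c = algebraMap (RatFunc k) H
    (RatFunc.C (algebraMap F k c))) (σ : H ≃ₐ[RatFunc k] H) (N : Polynomial F) (x : H) :
    σ x ∈ VN F j (gX k H) N ↔ x ∈ VN F j (gX k H) N := by
  unfold VN
  rw [LinearMap.mem_ker, LinearMap.mem_ker, ← sig_phN ht, map_eq_zero_iff σ σ.injective]

omit [Finite k] [Algebra k H] [IsScalarTower k (RatFunc k) H] in
theorem IsLine.mapS (ht : ∀ c : F, algebraMap F H c = algebraMap (RatFunc k) H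
    (RatFunc.C (algebraMap F k c))) (σ : H ≃ₐ[RatFunc k] H) {M : Polynomial F}
    {L : Submodule F H} (h : IsLine F j (gX k H) M L) :
    IsLine F j (gX k H) M (L.map (sigF ht σ)) where
  le := by
    rintro _ ⟨x, hx, rfl⟩
    exact (mem_VN_map ht σ M x).2 (h.le hx)
  st := by
    rintro _ ⟨x, hx, rfl⟩
    exact ⟨phT F j (gX k H) x, h.st x hx, sig_phT σ x⟩
  card := by
    rw [← h.card]
    exact (Nat.card_congr (Submodule.equivMapOfInjective (sigF ht σ) σ.injective L).toEquiv).symm

/-! ### Types -/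

omit [Finite k] [Algebra k H] [IsScalarTower k (RatFunc k) H] in
theorem mem_V0_act (ht : ∀ c : F, algebraMap F H c = algebraMap (RatFunc k) H
    (RatFunc.C (algebraMap F k c))) (σ : H ≃ₐ[RatFunc k] H) (Q : DV H) (N : Polynomial F) (x : H) :
    σ x ∈ V0 F j (gX k H) (Q.act σ) N ↔ x ∈ V0 F j (gX k H) Q N := by
  have h1 : (Q.act σ).ord (σ x) = Q.ord x := by
    show Q.ord (σ.symm (σ x)) = _
    rw [AlgEquiv.symm_apply_apply]
  have h2 : (Q.act σ).ord (gX k H) = Q.ord (gX k H) := by
    show Q.ord (σ.symm (algebraMap _ _ _)) = _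
    rw [AlgEquiv.commutes]
  show (σ x ∈ VN F j (gX k H) N ∧ (σ x = 0 ∨ 0 ≤ (Q.act σ).ord (σ x)) ∧
    (σ x = 0 ∨ - (Q.act σ).ord (gX k H) ≤ ((Nat.card F : ℤ) ^ j - 1) * (Q.act σ).ord (σ x))) ↔
    (x ∈ VN F j (gX k H) N ∧ (x = 0 ∨ 0 ≤ Q.ord x) ∧
    (x = 0 ∨ - Q.ord (gX k H) ≤ ((Nat.card F : ℤ) ^ j - 1) * Q.ord x))
  rw [h1, h2, mem_VN_map ht, map_eq_zero_iff σ σ.injective]

omit [Finite k] [Algebra k H] [IsScalarTower k (RatFunc k) H] in
theorem typ_act' (ht : ∀ c : F, algebraMap F H c = algebraMap (RatFunc k) H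
    (RatFunc.C (algebraMap F k c))) {σ : H ≃ₐ[RatFunc k] H} {L L' : Fin s → Submodule F H}
    (h : actL σ L L') (Q : DV H) (M : Fin s → Polynomial F) :
    typ F j (gX k H) (Q.act σ) M L' = typ F j (gX k H) Q M L := by
  classical
  have key : ∀ i, L' i ≤ V0 F j (gX k H) (Q.act σ) (M i) ↔ L i ≤ V0 F j (gX k H) Q (M i) := by
    intro i
    constructor
    · intro hi x hx
      rw [← mem_V0_act ht]
      exact hi ((h i x).1 hx)
    · intro hi y hy
      obtain ⟨x, rfl⟩ := σ.surjective y
      rw [mem_V0_act ht]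
      exact hi ((h i x).2 hy)
  unfold typ
  refine Finset.filter_congr fun i _ => ?_
  rw [key i]

omit [Finite k] [Algebra k H] [IsScalarTower k (RatFunc k) H] in
/-- the image tuple -/
theorem LT.exists_img (ht : ∀ c : F, algebraMap F H c = algebraMap (RatFunc k) H
    (RatFunc.C (algebraMap F k c))) (σ : H ≃ₐ[RatFunc k] H) {M : Fin s → Polynomial F}
    {L : Fin s → Submodule F H} (hL : LT j (gX k H) M L) :
    ∃ L' : Fin s → Submodule F H, LT j (gX k H) M L' ∧ actL σ L L' :=
  ⟨fun i => (L i).map (sigF ht σ), ⟨hL.pos, hL.monic, hL.irr, hL.one, hL.inj, hL.full,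
    fun i => (hL.line i).mapS ht σ⟩, actL_map ht σ L⟩

end

end Pool.Agent.FF.Rk
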