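import Mathlib

/-! # T5, D3: the interpolation, rank `j + 1` (49, after 36) -/

set_option autoImplicit false

namespace Pool.Agent.FF.Rk

/-- number of lines of an `n`-dimensional space over a field with `R` elements -/
def lnN (R n : ℕ) : ℕ := ∑ a ∈ Finset.range n, R ^ a

theorem lnN_zero (R : ℕ) : lnN R 0 = 0 := rfl

theorem lnN_succ (R n : ℕ) : lnN R (n + 1) = lnN R n + R ^ n := Finset.sum_range_succ _ _

theorem lnN_succ' (R n : ℕ) : lnN R (n + 1) = R * lnN R n + 1 := by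
  rw [lnN, Finset.sum_range_succ', lnN, Finset.mul_sum, pow_zero]
  congr 1
  exact Finset.sum_congr rfl fun a _ => by rw [pow_succ, mul_comm]

theorem lnN_pos {R n : ℕ} (hn : 0 < n) : 0 < lnN R n := by
  obtain ⟨m, rfl⟩ : ∃ m, n = m + 1 := ⟨n - 1, by omega⟩
  rw [lnN_succ']
  omega

theorem lnN_mul (R n : ℕ) : ((R : ℚ) - 1) * lnN R n = (R : ℚ) ^ n - 1 := by
  induction n with
  | zero => simp [lnN_zero]
  | succ n ih =>
    rw [lnN_succ]
    push_cast
    linear_combination ih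

theorem lnN_coprime {r d : ℕ} (hd : 0 < d) (n : ℕ) (hn : 0 < n) : Nat.Coprime r (lnN (r ^ d) n) := by
  obtain ⟨m, rfl⟩ : ∃ m, n = m + 1 := ⟨n - 1, by omega⟩
  rw [lnN_succ']
  obtain ⟨c, rfl⟩ : ∃ c, d = c + 1 := ⟨d - 1, by omega⟩
  have : r ^ (c + 1) * lnN (r ^ (c + 1)) m + 1 = r * (r ^ c * lnN (r ^ (c + 1)) m) + 1 := by ring
  rw [this]
  rw [Nat.coprime_mul_left_add_right]
  exact Nat.coprime_one_right r

open Classical in
theorem cuspsJ_key {α : Type*} (T : Finset α) {s : ℕ} (d : Fin s → ℕ) (r j : ℕ) (hr : 2 ≤ r)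
    (hd : ∀ i, 0 < d i) (w : α → ℚ) (ty : α → Finset (Fin s))
    (h : ∀ J : Finset (Fin s), ∑ P ∈ T, w P *
      ((r : ℚ) ^ (∑ i ∈ J \ ty P, d i) / (r : ℚ) ^ (j * ∑ i ∈ J ∩ ty P, d i)) = ∑ P ∈ T, w P)
    (I : Finset (Fin s)) :
    (∑ P ∈ T with ty P = I, w P) * ∏ i, (lnN (r ^ d i) (j + 1) : ℚ) =
      (∑ P ∈ T, w P) * ∏ i, (if i ∈ I then ((r : ℚ) ^ d i) ^ j else (lnN (r ^ d i) j : ℚ)) := by
  set q : Fin s → ℚ := fun i => (r : ℚ) ^ d i with hq
  have hq1 : ∀ i, 1 < q i := fun i =>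
    one_lt_pow₀ (by exact_mod_cast (by omega : 1 < r)) (hd i).ne'
  have hq0 : ∀ i, q i ≠ 0 := fun i => (zero_lt_one.trans (hq1 i)).ne'
  have hqj : ∀ i, q i ^ j ≠ 0 := fun i => pow_ne_zero _ (hq0 i)
  have hqq : ∀ i, q i ^ (j + 1) - 1 ≠ 0 := fun i => by
    have h2 : 1 < q i ^ (j + 1) := one_lt_pow₀ (hq1 i) (by omega)
    linarith
  have hqm : ∀ i, q i - 1 ≠ 0 := fun i => by
    have := hq1 i
    linarith
  have hg : ∀ i n, (q i - 1) * (lnN (r ^ d i) n : ℚ) = q i ^ n - 1 := by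
    intro i n
    have := lnN_mul (r ^ d i) n
    push_cast at this
    exact this
  have hgn : ∀ i, (lnN (r ^ d i) (j + 1) : ℚ) ≠ 0 := fun i => by
    exact_mod_cast (lnN_pos (Nat.succ_pos j)).ne'
  set ε : Fin s → α → ℚ := fun i P => if i ∈ ty P then (q i ^ j)⁻¹ else q i with hε
  have hprod : ∀ (J : Finset (Fin s)) (P : α), ∏ i ∈ J, ε i P =
      (r : ℚ) ^ (∑ i ∈ J \ ty P, d i) / (r : ℚ) ^ (j * ∑ i ∈ J ∩ ty P, d i) := by
    intro J P
    rw [hε]
    simp only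
    rw [Finset.prod_ite, Finset.filter_mem_eq_inter, Finset.prod_inv_distrib,
      show (J.filter fun i => i ∉ ty P) = J \ ty P by ext i; simp, hq]
    simp only
    rw [Finset.prod_pow_eq_pow_sum, Finset.prod_pow, Finset.prod_pow_eq_pow_sum, div_eq_mul_inv,
      mul_comm, ← pow_mul, mul_comm j]
  set a : Fin s → ℚ := fun i => if i ∈ I then -(q i ^ j) / (q i ^ (j + 1) - 1) else
    q i ^ j / (q i ^ (j + 1) - 1) with ha
  set b : Fin s → ℚ := fun i => if i ∈ I then q i ^ (j + 1) / (q i ^ (j + 1) - 1) else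
    -1 / (q i ^ (j + 1) - 1) with hb
  have hg1 : ∀ i P, ε i P * a i + b i = if (i ∈ ty P ↔ i ∈ I) then 1 else 0 := by
    intro i P
    have h1 := hqj i
    have h2 := hqq i
    simp only [hε, ha, hb]
    by_cases h3 : i ∈ ty P <;> by_cases h4 : i ∈ I <;>
      simp only [h3, h4, if_true, if_false, iff_self, iff_true, iff_false,
        not_true] <;> field_simp <;> ring
  have hG : ∀ P, ∏ i, (ε i P * a i + b i) = if ty P = I then 1 else 0 := by
    intro P
    rw [Finset.prod_congr rfl fun i _ => hg1 i P]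
    by_cases h1 : ty P = I
    · rw [if_pos h1]
      exact Finset.prod_eq_one fun i _ => by rw [h1, if_pos Iff.rfl]
    · rw [if_neg h1]
      obtain ⟨i, hi⟩ : ∃ i, ¬ (i ∈ ty P ↔ i ∈ I) := by
        by_contra hcon
        push Not at hcon
        exact h1 (Finset.ext hcon)
      exact Finset.prod_eq_zero (Finset.mem_univ i) (if_neg hi)
  have hab : ∀ i, (a i + b i) * (lnN (r ^ d i) (j + 1) : ℚ) =
      if i ∈ I then q i ^ j else (lnN (r ^ d i) j : ℚ) := by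
    intro i
    have h2 := hqq i
    have h4 := hqm i
    have h5 := hg i (j + 1)
    have h6 := hg i j
    have h7 : (lnN (r ^ d i) (j + 1) : ℚ) = (q i ^ (j + 1) - 1) / (q i - 1) := by
      rw [eq_div_iff h4, mul_comm, h5]
    have h8 : (lnN (r ^ d i) j : ℚ) = (q i ^ j - 1) / (q i - 1) := by
      rw [eq_div_iff h4, mul_comm, h6]
    simp only [ha, hb]
    rw [h7, h8]
    by_cases h9 : i ∈ I
    · simp only [h9, if_true]
      field_simp
      ring
    · simp only [h9, if_false]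
      field_simp
      ring
  have hsum : ∑ P ∈ T, w P * ∏ i, (ε i P * a i + b i) = (∑ P ∈ T, w P) * ∏ i, (a i + b i) := by
    have e1 : ∀ P ∈ T, w P * ∏ i, (ε i P * a i + b i) =
        ∑ J ∈ (Finset.univ : Finset (Fin s)).powerset,
          ((∏ i ∈ J, a i) * ∏ i ∈ Finset.univ \ J, b i) * (w P * ∏ i ∈ J, ε i P) := by
      intro P _
      rw [Finset.prod_add, Finset.mul_sum]
      refine Finset.sum_congr rfl fun J _ => ?_
      rw [Finset.prod_mul_distrib]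
      ring
    rw [Finset.sum_congr rfl e1, Finset.sum_comm]
    have e2 : ∀ J ∈ (Finset.univ : Finset (Fin s)).powerset, ∑ P ∈ T,
        ((∏ i ∈ J, a i) * ∏ i ∈ Finset.univ \ J, b i) * (w P * ∏ i ∈ J, ε i P) =
        ((∏ i ∈ J, a i) * ∏ i ∈ Finset.univ \ J, b i) * ∑ P ∈ T, w P := by
      intro J _
      rw [← Finset.mul_sum]
      congr 1
      rw [← h J]
      exact Finset.sum_congr rfl fun P _ => by rw [hprod]
    rw [Finset.sum_congr rfl e2, ← Finset.sum_mul, Finset.prod_add, mul_comm]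
  have e3 : ∑ P ∈ T, w P * ∏ i, (ε i P * a i + b i) = ∑ P ∈ T with ty P = I, w P := by
    rw [Finset.sum_filter]
    refine Finset.sum_congr rfl fun P _ => ?_
    rw [hG]
    split_ifs <;> simp
  rw [← e3, hsum, mul_assoc, ← Finset.prod_mul_distrib]
  congr 1
  exact Finset.prod_congr rfl fun i _ => hab i

open Classical in
/-- T5, D3: from the product formulas to the degree and the sizes of the types. -/
theorem cuspsJ_pure {α : Type*} (T : Finset α) {s : ℕ} (d : Fin s → ℕ) (r j : ℕ) (hr : 2 ≤ r)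
    (hd : ∀ i, 0 < d i) (e f : α → ℕ) (he : ∀ P ∈ T, 0 < e P) (hf : ∀ P ∈ T, 0 < f P)
    (hT : T.Nonempty) (ty : α → Finset (Fin s))
    (h : ∀ J : Finset (Fin s), ∑ P ∈ T, ((e P * f P : ℕ) : ℚ) *
      ((r : ℚ) ^ (∑ i ∈ J \ ty P, d i) / (r : ℚ) ^ (j * ∑ i ∈ J ∩ ty P, d i)) =
      ∑ P ∈ T, ((e P * f P : ℕ) : ℚ))
    (hle : ∑ P ∈ T, e P * f P ≤ ∏ i, lnN (r ^ d i) (j + 1)) :
    ∑ P ∈ T, e P * f P = ∏ i, lnN (r ^ d i) (j + 1) ∧
    ∀ I : Finset (Fin s), ∑ P ∈ T with ty P = I, e P * f P =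
      ∏ i, (if i ∈ I then (r ^ d i) ^ j else lnN (r ^ d i) j) := by
  have hr0 : 0 < r := by omega
  have key : ∀ I : Finset (Fin s), (∑ P ∈ T with ty P = I, e P * f P) *
      ∏ i, lnN (r ^ d i) (j + 1) =
      (∑ P ∈ T, e P * f P) * ∏ i, (if i ∈ I then (r ^ d i) ^ j else lnN (r ^ d i) j) := by
    intro I
    have h1 := cuspsJ_key T d r j hr hd (fun P => ((e P * f P : ℕ) : ℚ)) ty h I
    have h2 : (((∑ P ∈ T with ty P = I, e P * f P) * ∏ i, lnN (r ^ d i) (j + 1) : ℕ) : ℚ) =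
        (((∑ P ∈ T, e P * f P) * ∏ i, (if i ∈ I then (r ^ d i) ^ j else lnN (r ^ d i) j) : ℕ) :
          ℚ) := by
      push_cast at h1 ⊢
      exact h1
    exact_mod_cast h2
  set m := ∑ P ∈ T, e P * f P with hm
  set ψ := ∏ i, lnN (r ^ d i) (j + 1) with hψ
  have hψ0 : 0 < ψ := Finset.prod_pos fun i _ => lnN_pos (Nat.succ_pos j)
  have hm0 : 0 < m := Finset.sum_pos (fun P hP => Nat.mul_pos (he P hP) (hf P hP)) hT
  have hco : Nat.Coprime ψ (∏ i, (r ^ d i) ^ j) := by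
    rw [hψ]
    refine Nat.Coprime.prod_left fun i _ => Nat.Coprime.prod_right fun i' _ => ?_
    rw [← pow_mul]
    exact (Nat.Coprime.pow_left _ (lnN_coprime (hd i) (j + 1) (Nat.succ_pos j))).symm
  have hdvd : ψ ∣ m := by
    have h1 := key Finset.univ
    have h2 : ∏ i, (if i ∈ (Finset.univ : Finset (Fin s)) then (r ^ d i) ^ j else
        lnN (r ^ d i) j) = ∏ i, (r ^ d i) ^ j :=
      Finset.prod_congr rfl fun i _ => if_pos (Finset.mem_univ i)
    rw [h2] at h1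
    exact hco.dvd_of_dvd_mul_right (h1 ▸ Dvd.intro_left _ rfl)
  have hmψ : m = ψ := le_antisymm hle (Nat.le_of_dvd hm0 hdvd)
  refine ⟨hmψ, fun I => ?_⟩
  have h1 := key I
  rw [hmψ, mul_comm] at h1
  exact Nat.eq_of_mul_eq_mul_left hψ0 h1

end Pool.Agent.FF.Rk
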