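import Pool.Agent.FE.Inf
import Pool.Agent.FD.LinesD

/-! # D2: the order of `V_0`, the products `c(L)` at integral places -/

set_option autoImplicit false

namespace Pool.Agent.FF.Rk

namespace LnD

section

variable {F : Type*} {j : ℕ} {H : Type*} [Field F] [Finite F] [Field H] [Algebra F H]

theorem VN_mono (g : H) {M N : Polynomial F} (h : M ∣ N) : VN F j g M ≤ VN F j g N := by
  obtain ⟨M', rfl⟩ := h
  intro x hx
  rw [VN, LinearMap.mem_ker] at hx ⊢
  rw [mul_comm, phN_mul, hx, map_zero]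

theorem sup_le_VN {g : H} {s : ℕ} {M : Fin s → Polynomial F} {L : Fin s → Submodule F H}
    (h : ∀ i, L i ≤ VN F j g (M i)) (J : Finset (Fin s)) :
    ⨆ i ∈ J, L i ≤ VN F j g (∏ i ∈ J, M i) :=
  iSup₂_le fun i hi => (h i).trans (VN_mono g (Finset.dvd_prod_of_mem M hi))

omit [Finite F] in
theorem prod_one {s : ℕ} {M : Fin s → Polynomial F} (h1 : ∀ i, (M i).eval 1 ≠ 0)
    (J : Finset (Fin s)) : (∏ i ∈ J, M i).eval 1 ≠ 0 := by
  rw [Polynomial.eval_prod, Finset.prod_ne_zero_iff]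
  exact fun i _ => h1 i

/-- the sum of the lines is finite -/
theorem finite_sup {g : H} {s : ℕ} {M : Fin s → Polynomial F} {L : Fin s → Submodule F H}
    (h1 : ∀ i, (M i).eval 1 ≠ 0) (h : ∀ i, L i ≤ VN F j g (M i)) (J : Finset (Fin s)) :
    Finite (⨆ i ∈ J, L i : Submodule F H) := by
  have he := prod_one h1 J
  have hN : (∏ i ∈ J, M i) ≠ 0 := fun h0 => he (by rw [h0, Polynomial.eval_zero])
  have hf1 := finite_VN (j := j) g hN
  exact Finite.Set.subset (VN F j g (∏ i ∈ J, M i) : Set H) (sup_le_VN h J)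

theorem cL_ne_zero {g : H} {s : ℕ} {M : Fin s → Polynomial F} {L : Fin s → Submodule F H}
    (h : LT j g M L) (J : Finset (Fin s)) : cL F (⨆ i ∈ J, L i) ≠ 0 :=
  FF.LnD.cL_ne_zero (finite_sup h.one (fun i => (h.line i).le) J)

/-- at the places where `g` is integral the `c(L_J)` are units -/
theorem cL_unit {g : H} {s : ℕ} {M : Fin s → Polynomial F} {L : Fin s → Submodule F H}
    (h : LT j g M L) {Q : DV H} (hg : Q.G 0 g) (J : Finset (Fin s)) :
    Q.ord (cL F (⨆ i ∈ J, L i)) = 0 := by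
  have hle := sup_le_VN (fun i => (h.line i).le) J
  have hL := finite_sup h.one (fun i => (h.line i).le) J
  rw [FF.LnD.cL_eq (FF.LnD.finite_set hL)]
  apply FF.LnD.ord_prod
  intro v hv
  have h2 := (FF.LnD.finite_set hL).mem_toFinset.1 hv
  exact ⟨h2.2, VN_unit h.pos hg (prod_one h.one J) (hle h2.1) h2.2⟩

end

end LnD

end Pool.Agent.FF.Rk
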