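import Pool.Agent.FD.LinesE

/-! # D2: the quotient of the products of two lines of the same type, without the power -/

set_option autoImplicit false

namespace Pool.Agent.FF

namespace LnE

theorem core_one {F H : Type*} [Field F] [Finite F] [Field H] [Algebra F H] (Q : DV H)
    {L L' : Submodule F H} (hL : Finite L) (h : H → H)
    (hb : Set.BijOn (fun v => v + h v) (L : Set H) (L' : Set H)) {x0 : H} (hx : x0 ∈ L)
    (h0 : x0 ≠ 0) (ha : ∀ a : F, h (a • x0) = a • h x0) (h1 : h x0 ≠ 0) {θ : ℤ} (hθ : 0 < θ)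
    (h2 : Q.ord (h x0) = Q.ord x0 + θ)
    (h3 : ∀ v ∈ L, v ∉ Submodule.span F {x0} → Q.G (Q.ord v + θ + 1) (h v)) :
    cL F L' / cL F L - 1 ≠ 0 ∧ Q.ord (cL F L' / cL F L - 1) = θ := by
  classical
  have := Fintype.ofFinite F
  have hh0 : h 0 = 0 := by simpa using ha 0
  have hLf : {v : H | v ∈ L ∧ v ≠ 0}.Finite :=
    Set.Finite.subset (Set.toFinite (L : Set H)) fun _ hv => hv.1
  have hL'f : {v : H | v ∈ L' ∧ v ≠ 0}.Finite := by
    refine Set.Finite.subset ?_ fun v (hv : v ∈ L' ∧ v ≠ 0) => (hv.1 : v ∈ (L' : Set H))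
    rw [← hb.image_eq]
    exact (Set.toFinite (L : Set H)).image _
  have hc : cL F L = ∏ v ∈ hLf.toFinset, v := finprod_mem_eq_finite_toFinset_prod _ hLf
  have hc' : cL F L' = ∏ v ∈ hLf.toFinset, (v + h v) := by
    have e : cL F L' = ∏ v ∈ hL'f.toFinset, v := finprod_mem_eq_finite_toFinset_prod _ hL'f
    rw [e]
    symm
    refine Finset.prod_nbij (fun v => v + h v) ?_ ?_ ?_ fun _ _ => rfl
    · intro v hv
      have hv := hLf.mem_toFinset.1 hv
      refine hL'f.mem_toFinset.2 ⟨hb.mapsTo hv.1, fun h4 => hv.2 ?_⟩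
      exact hb.injOn hv.1 (zero_mem L : (0 : H) ∈ (L : Set H)) (h4.trans (by
        show (0 : H) = 0 + h 0
        rw [hh0, add_zero]))
    · intro v hv w hw hvw
      have hv := hLf.mem_toFinset.1 hv
      have hw := hLf.mem_toFinset.1 hw
      exact hb.injOn hv.1 hw.1 hvw
    · intro w hw
      have hw := hL'f.mem_toFinset.1 hw
      obtain ⟨v, hv, hvw⟩ := hb.surjOn hw.1
      refine ⟨v, ?_, hvw⟩
      refine hLf.mem_toFinset.2 ⟨hv, ?_⟩
      rintro rfl
      apply hw.2
      rw [← hvw]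
      show (0 : H) + h 0 = 0
      rw [hh0, add_zero]
  set S := hLf.toFinset with hS
  have hS0 : ∀ v ∈ S, v ≠ 0 := fun v hv => (hLf.mem_toFinset.1 hv).2
  have hSL : ∀ v ∈ S, v ∈ L := fun v hv => (hLf.mem_toFinset.1 hv).1
  have hq : cL F L' / cL F L = ∏ v ∈ S, (1 + h v / v) := by
    rw [hc, hc', ← Finset.prod_div_distrib]
    refine Finset.prod_congr rfl fun v hv => ?_
    rw [add_div, div_self (hS0 v hv)]
  set z := h x0 / x0 with hz
  have hz0 : z ≠ 0 := div_ne_zero h1 h0
  have hzord : Q.ord z = θ := by rw [hz, Q.ord_div h1 h0, h2]; ring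
  -- the multiples of `x0`
  have hfil : S.filter (fun v => v ∈ Submodule.span F {x0}) =
      (Finset.univ.erase (0 : F)).image fun a => a • x0 := by
    ext v
    rw [Finset.mem_filter, Finset.mem_image]
    constructor
    · rintro ⟨hv, hv'⟩
      obtain ⟨a, rfl⟩ := Submodule.mem_span_singleton.1 hv'
      refine ⟨a, Finset.mem_erase.2 ⟨?_, Finset.mem_univ _⟩, rfl⟩
      rintro rfl
      exact hS0 _ hv (zero_smul _ _)
    · rintro ⟨a, ha', rfl⟩
      have ha0 := (Finset.mem_erase.1 ha').1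
      exact ⟨hLf.mem_toFinset.2 ⟨Submodule.smul_mem _ _ hx, smul_ne_zero ha0 h0⟩,
        Submodule.mem_span_singleton.2 ⟨a, rfl⟩⟩
  have hprod1 : ∏ v ∈ S.filter (fun v => v ∈ Submodule.span F {x0}), (1 + h v / v) =
      (1 + z) ^ (Nat.card F - 1) := by
    have hcard : (S.filter (fun v => v ∈ Submodule.span F {x0})).card = Nat.card F - 1 := by
      rw [hfil, Finset.card_image_of_injective _ (smul_left_injective F h0),
        Finset.card_erase_of_mem (Finset.mem_univ _), Finset.card_univ, Nat.card_eq_fintype_card]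
    rw [← hcard, ← Finset.prod_const]
    refine Finset.prod_congr rfl fun v hv => ?_
    obtain ⟨a, rfl⟩ := Submodule.mem_span_singleton.1 (Finset.mem_filter.1 hv).2
    have ha0 : a ≠ 0 := by
      rintro rfl
      exact hS0 _ (Finset.mem_filter.1 hv).1 (zero_smul _ _)
    rw [ha, hz, Algebra.smul_def, Algebra.smul_def, mul_div_mul_left]
    rwa [Ne, map_eq_zero]
  -- the others
  set ε := ∏ v ∈ S.filter (fun v => ¬ v ∈ Submodule.span F {x0}), (1 + h v / v) - 1 with hε
  have hεG : Q.G (θ + 1) ε := by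
    refine prod_one_add (by omega) _ _ fun v hv => ?_
    have hvS := (Finset.mem_filter.1 hv).1
    have h4 := h3 v (hSL v hvS) (Finset.mem_filter.1 hv).2
    have h5 : Q.G (- Q.ord v) v⁻¹ := DV.G_of_le (by rw [Q.ord_inv (hS0 v hvS)])
    rw [div_eq_mul_inv]
    exact (h4.mul h5).mono (by omega)
  have hq2 : cL F L' / cL F L = (1 + z) ^ (Nat.card F - 1) * (1 + ε) := by
    rw [hq, ← hprod1, hε, add_sub_cancel]
    exact (Finset.prod_filter_mul_prod_filter_not S _ _).symm
  set n := Nat.card F - 1 with hn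
  have hn1 : (n : H) = -1 := by
    have hr : 1 < Nat.card F := Finite.one_lt_card
    have h4 : ((Nat.card F : ℕ) : H) = 0 := by
      have h5 : ((Nat.card F : ℕ) : F) = 0 := by
        rw [Nat.card_eq_fintype_card]
        exact FiniteField.cast_card_eq_zero F
      have h6 := congrArg (algebraMap F H) h5
      rwa [map_natCast, map_zero] at h6
    have h5 : (n : H) + 1 = 0 := by
      rw [← h4, ← Nat.cast_succ, hn]
      congr 1
      omega
    linear_combination h5
  have hA := one_add_pow (Q := Q) hθ.le (DV.G_of_le hzord.ge) n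
  rw [hn1] at hA
  set A := (1 + z) ^ n - 1 - -1 * z with hA'
  have hfin : cL F L' / cL F L - 1 = -z + (A + (1 - z + A) * ε) := by
    rw [hq2]
    have h4 : (1 + z) ^ n = 1 - z + A := by rw [hA']; ring
    rw [h4]
    ring
  have hz1 : -z ≠ 0 := neg_ne_zero.2 hz0
  have hzord1 : Q.ord (-z) = θ := by rw [Q.ord_neg, hzord]
  have hrest : Q.G (Q.ord (-z) + 1) (A + (1 - z + A) * ε) := by
    rw [hzord1]
    refine DV.G.add (hA.mono (by omega)) ?_
    have h4 : Q.G 0 (1 - z + A) :=
      (DV.G_one.sub (DV.G_of_le (by omega))).add (hA.mono (by omega))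
    have h5 := h4.mul hεG
    rwa [zero_add] at h5
  rw [hfin]
  have h4 := DV.ord_add_of_lt hz1 hrest
  exact ⟨h4.1, h4.2.trans hzord1⟩

end LnE

end Pool.Agent.FF
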