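import Pool.Agent.FE.LinesF
import Pool.Agent.FE.LinesE
import Pool.Agent.FD.LinesG

/-! # Two tuples of the same type, rank `j + 1` (42) -/

set_option autoImplicit false

namespace Pool.Agent.FF.Rk

open Polynomial

section

variable {F : Type*} {j : ℕ} {H : Type*} [Field F] [Finite F] [Field H] [Algebra F H]
variable {g : H} {Q : DV H} {s : ℕ} {M : Fin s → F[X]} {L L' : Fin s → Submodule F H}

theorem LnJ.c_smul {x : H} {c : F} (hc : c ≠ 0) :
    LnJ.c F j g Q (c • x) = LnJ.c F j g Q x := by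
  by_cases hx : x = 0
  · rw [hx, smul_zero]
  · rw [LnJ.c_ne (smul_ne_zero hc hx), LnJ.c_ne hx, LnF.ord_smul hc hx]

theorem LnJ.c_smul' {x : H} {c : F} (hx : 0 ≤ LnJ.c F j g Q x) :
    LnJ.c F j g Q (c • x) ≤ LnJ.c F j g Q x := by
  by_cases hc : c = 0
  · rw [hc, zero_smul, LnJ.c_zero]
    exact hx
  · rw [LnJ.c_smul hc]

/-- the shortest elements -/
theorem LnJ.exists_min (h : LT j g M L) (hg : Q.ord g < 0) {K : Finset (Fin s)}
    (hK : K ⊆ typ F j g Q M L) (hD : 0 < dgM M K) :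
    ∃ x0 ∈ ⨆ i ∈ K, L i, x0 ≠ 0 ∧
      (Nat.card F : ℤ) ^ (j * dgM M K) * (((Nat.card F : ℤ) - 1) * LnJ.c F j g Q x0) =
        ((Nat.card F : ℤ) ^ (j + 1) - 1) * (- Q.ord g) ∧
      ∀ v ∈ ⨆ i ∈ K, L i, v ∉ Submodule.span F {x0} → LnJ.c F j g Q x0 < LnJ.c F j g Q v := by
  classical
  have hF : 0 < Nat.card F := Nat.card_pos
  have hr := LnF.r_pos (F := F)
  set D := dgM M K with hDdef
  have hcard := LnJ.card_A h hg hK (t := D - 1) (by omega)
  have h1 : dgM M K - (D - 1) = 1 := by omega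
  rw [h1, pow_one] at hcard
  have hfin : ({x : H | x ∈ (⨆ i ∈ K, L i) ∧ InU F j g Q (D - 1) x} : Set H).Finite := by
    have h2 : Finite {x : H // x ∈ (⨆ i ∈ K, L i) ∧ InU F j g Q (D - 1) x} := by
      apply Nat.finite_of_card_ne_zero
      rw [hcard]
      exact Nat.card_pos.ne'
    exact h2
  have hnc : ({x : H | x ∈ (⨆ i ∈ K, L i) ∧ InU F j g Q (D - 1) x} : Set H).ncard =
      Nat.card F := hcard
  -- an element which is not zero
  obtain ⟨x0, hx0, hx00⟩ : ∃ x0 ∈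
      ({x : H | x ∈ (⨆ i ∈ K, L i) ∧ InU F j g Q (D - 1) x} : Set H), x0 ≠ 0 := by
    apply Set.exists_ne_of_one_lt_ncard
    rw [hnc]
    exact Finite.one_lt_card
  have hval : ∀ x ∈ (⨆ i ∈ K, L i), x ≠ 0 → InU F j g Q (D - 1) x →
      (Nat.card F : ℤ) ^ (j * D) * (((Nat.card F : ℤ) - 1) * LnJ.c F j g Q x) =
        ((Nat.card F : ℤ) ^ (j + 1) - 1) * (- Q.ord g) := by
    intro x hx hx0 hxU
    rw [LnJ.inU hF hg] at hxU
    obtain ⟨t, ht, h2⟩ := LnJ.c_val h hg hK hx hx0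
    have hcp : 0 < ((Nat.card F : ℤ) - 1) * LnJ.c F j g Q x :=
      mul_pos (by omega) (LnJ.c_pos h hg hK hx hx0)
    have h3 : D - 1 + 1 = D := by omega
    rw [h3, ← h2] at hxU
    have h4 : (Nat.card F : ℤ) ^ (j * D) ≤ (Nat.card F : ℤ) ^ (j * (t + 1)) :=
      le_of_mul_le_mul_right hxU hcp
    have h5 : D ≤ t + 1 := Nat.le_of_mul_le_mul_left ((pow_le_pow_iff_right₀ hr).1 h4) h.pos
    have h6 : t + 1 = D := by omega
    rw [← h2, h6]
  have hmin := hval x0 hx0.1 hx00 hx0.2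
  have hcp0 := LnJ.c_pos h hg hK hx0.1 hx00
  refine ⟨x0, hx0.1, hx00, hmin, ?_⟩
  -- the line of `x0` is the whole of `A_(D-1)`
  have hspan : (Submodule.span F {x0} : Set H) =
      {x : H | x ∈ (⨆ i ∈ K, L i) ∧ InU F j g Q (D - 1) x} := by
    apply Set.eq_of_subset_of_ncard_le _ _ hfin
    · intro x hx
      obtain ⟨c, rfl⟩ := Submodule.mem_span_singleton.1 hx
      refine ⟨Submodule.smul_mem _ c hx0.1, ?_⟩
      have h2 := hx0.2
      rw [LnJ.inU hF hg] at h2 ⊢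
      refine le_trans ?_ h2
      exact mul_le_mul_of_nonneg_left (mul_le_mul_of_nonneg_left (LnJ.c_smul' hcp0.le)
        (by omega)) (by positivity)
    · rw [hnc]
      have h2 : Function.Injective fun c : F => c • x0 := smul_left_injective F hx00
      have h3 : (Submodule.span F {x0} : Set H) = Set.range fun c : F => c • x0 := by
        ext x
        exact Submodule.mem_span_singleton
      rw [h3, ← Set.image_univ, Set.ncard_image_of_injective _ h2, Set.ncard_univ]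
  intro v hv hvs
  have hv0 : v ≠ 0 := by
    rintro rfl
    exact hvs (zero_mem _)
  have hnU : ¬ InU F j g Q (D - 1) v := by
    intro hcon
    apply hvs
    change v ∈ (Submodule.span F {x0} : Set H)
    rw [hspan]
    exact ⟨hv, hcon⟩
  rw [LnJ.inU hF hg, not_le] at hnU
  have h3 : D - 1 + 1 = D := by omega
  rw [h3, ← hmin] at hnU
  exact lt_of_mul_lt_mul_left (lt_of_mul_lt_mul_left hnU (by positivity)) (by omega)

theorem LnJ.cL_conj (h : LT j g M L) (h' : LT j g M L') (hg : Q.ord g < 0)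
    (ht : typ F j g Q M L' = typ F j g Q M L) (ho : ∀ i ∉ typ F j g Q M L, L' i = L i)
    (hne : L' ≠ L) :
    cL F (⨆ i ∈ typ F j g Q M L, L' i) / cL F (⨆ i ∈ typ F j g Q M L, L i) - 1 ≠ 0 ∧
    (Nat.card F : ℤ) ^ (j * dgM M (typ F j g Q M L)) * (((Nat.card F : ℤ) - 1) *
      (((Nat.card F : ℤ) ^ j - 1) *
        Q.ord (cL F (⨆ i ∈ typ F j g Q M L, L' i) / cL F (⨆ i ∈ typ F j g Q M L, L i) - 1))) =
      ((Nat.card F : ℤ) ^ (j + 1) - 1) * (- Q.ord g) := by
  classical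
  set K := typ F j g Q M L with hKdef
  have hK : K ⊆ typ F j g Q M L := fun _ hi => hi
  have hK' : K ⊆ typ F j g Q M L' := by rw [ht]
  have hr := LnF.r_pos (F := F)
  have hrj := LnJ.rj_pos (F := F) h.pos
  have hmo := LnB.monic_NJ h.monic K
  have h1 := LnB.eval_NJ h.one K
  -- an index where the tuples differ
  obtain ⟨i0, hi0⟩ : ∃ i, L' i ≠ L i := by
    by_contra hcon
    push Not at hcon
    exact hne (funext hcon)
  have hi0K : i0 ∈ K := by
    by_contra hcon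
    exact hi0 (ho i0 hcon)
  have hD : dgM M K = (M i0).natDegree + dgM M (K.erase i0) := by
    rw [← LnB.dgM_insert (Finset.notMem_erase i0 K), Finset.insert_erase hi0K]
  have hd0 : 0 < (M i0).natDegree := (h.irr i0).natDegree_pos
  obtain ⟨x0, hx0, hx00, hmin, hother⟩ := LnJ.exists_min h hg hK (by omega)
  -- the map `h`
  have hex : ∀ x : H, x ∈ (⨆ i ∈ K, L i) →
      ∃ z ∈ V0 F j g Q (LnB.NJ M K), x + z ∈ ⨆ i ∈ K, L' i := by
    intro x hx
    have h2 := LnJ.sup_le (fun i => (h.line i).le) K hx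
    rw [← LnJ.typ_sup h' hg hK'] at h2
    obtain ⟨y, hy, z, hz, he⟩ := Submodule.mem_sup.1 h2
    refine ⟨-z, neg_mem hz, ?_⟩
    rw [← he, add_neg_cancel_right]
    exact hy
  have hex2 : ∀ x : H, ∃ z : H, x ∈ (⨆ i ∈ K, L i) →
      z ∈ V0 F j g Q (LnB.NJ M K) ∧ x + z ∈ ⨆ i ∈ K, L' i := by
    intro x
    by_cases hx : x ∈ (⨆ i ∈ K, L i)
    · obtain ⟨z, hz, hz'⟩ := hex x hx
      exact ⟨z, fun _ => ⟨hz, hz'⟩⟩
    · exact ⟨0, fun hx' => absurd hx' hx⟩
  choose η hη using hex2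
  have hdis := LnJ.typ_disj h hg hK
  have hdis' := LnJ.typ_disj h' hg hK'
  have huni : ∀ x ∈ (⨆ i ∈ K, L i), ∀ z ∈ V0 F j g Q (LnB.NJ M K), x + z ∈ (⨆ i ∈ K, L' i) →
      η x = z := by
    intro x hx z hz hxz
    obtain ⟨h2, h3⟩ := hη x hx
    have h4 : x + η x + -η x = x + z + -z := by ring
    obtain ⟨_, h5⟩ := LnB.uniq hdis' h3 hxz (neg_mem h2) (neg_mem hz) h4
    exact neg_injective h5
  have hbij : Set.BijOn (fun v => v + η v) ((⨆ i ∈ K, L i : Submodule F H) : Set H)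
      ((⨆ i ∈ K, L' i : Submodule F H) : Set H) := by
    refine ⟨fun v hv => (hη v hv).2, ?_, ?_⟩
    · intro v hv w hw he
      exact (LnB.uniq hdis hv hw (hη v hv).1 (hη w hw).1 he).1
    · intro w hw
      have h2 := LnJ.sup_le (fun i => (h'.line i).le) K hw
      rw [← LnJ.typ_sup h hg hK] at h2
      obtain ⟨v, hv, z, hz, he⟩ := Submodule.mem_sup.1 h2
      refine ⟨v, hv, ?_⟩
      change v + η v = w
      rw [huni v hv z hz (by rw [he]; exact hw), he]
  have hsm : ∀ a : F, η (a • x0) = a • η x0 := by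
    intro a
    obtain ⟨h2, h3⟩ := hη x0 hx0
    refine huni _ (Submodule.smul_mem _ a hx0) _ (Submodule.smul_mem _ a h2) ?_
    rw [← smul_add]
    exact Submodule.smul_mem _ a h3
  -- `η x0 ≠ 0`
  have hη0 : η x0 ≠ 0 := by
    intro hcon
    have h2 := (hη x0 hx0).2
    rw [hcon, add_zero] at h2
    have h3' := LnJ.inter h (fun i => (h.line i).le) (fun i => (h'.line i).le) K hx0 h2
    have h3 : x0 ∈ ⨆ i ∈ K.erase i0, L i := by
      refine (?_ : (⨆ i ∈ K, L i ⊓ L' i) ≤ ⨆ i ∈ K.erase i0, L i) h3'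
      refine iSup₂_le fun i hi => ?_
      by_cases hii : i = i0
      · rw [hii, LnJ.line_ne (h.monic i0) (h.irr i0) (h.line i0) (h'.line i0)
          (fun hc => hi0 hc.symm)]
        exact bot_le
      · exact inf_le_left.trans (le_iSup₂_of_le (f := fun i (_ : i ∈ K.erase i0) => L i) i
          (Finset.mem_erase.2 ⟨hii, hi⟩) le_rfl)
    have hKe : K.erase i0 ⊆ typ F j g Q M L := fun i hi => Finset.mem_of_mem_erase hi
    obtain ⟨t, ht', h4⟩ := LnJ.c_val h hg hKe h3 hx00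
    have hcp : 0 < ((Nat.card F : ℤ) - 1) * LnJ.c F j g Q x0 :=
      mul_pos (by omega) (LnJ.c_pos h hg hK hx0 hx00)
    rw [← hmin] at h4
    have h5 : (Nat.card F : ℤ) ^ (j * (t + 1)) < (Nat.card F : ℤ) ^ (j * dgM M K) :=
      (pow_lt_pow_iff_right₀ hr).2 (Nat.mul_lt_mul_of_pos_left (by omega) h.pos)
    have h6 := mul_right_cancel₀ hcp.ne' h4
    omega
  have hc0 := LnJ.c_pos h hg hK hx0 hx00
  have hV : ∀ v ∈ (⨆ i ∈ K, L i), η v ≠ 0 →
      ((Nat.card F : ℤ) ^ j - 1) * Q.ord (η v) = - Q.ord g := fun v hv hv0 =>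
    inf_V0 h.pos hg hmo h1 (hη v hv).1 hv0
  have hθ1 : ((Nat.card F : ℤ) ^ j - 1) * (Q.ord (η x0) - Q.ord x0) = LnJ.c F j g Q x0 := by
    rw [mul_sub, hV x0 hx0 hη0, LnJ.c_ne hx00]
  have hθ0 : 0 < Q.ord (η x0) - Q.ord x0 := by
    by_contra hcon
    have h2 : ((Nat.card F : ℤ) ^ j - 1) * (Q.ord (η x0) - Q.ord x0) ≤ 0 :=
      mul_nonpos_of_nonneg_of_nonpos (by omega) (not_lt.1 hcon)
    omega
  have hcore := LnE.core_one Q (LnJ.fin h K) η hbij hx0 hx00 hsm hη0 hθ0 (by ring) (by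
    intro v hv hvs
    by_cases hv0 : η v = 0
    · exact Or.inl hv0
    · right
      have h2 := hother v hv hvs
      have hvne : v ≠ 0 := by
        rintro rfl
        exact hvs (zero_mem _)
      have h3 : ((Nat.card F : ℤ) ^ j - 1) * (Q.ord (η v) - Q.ord v) = LnJ.c F j g Q v := by
        rw [mul_sub, hV v hv hv0, LnJ.c_ne hvne]
      rw [← h3, ← hθ1] at h2
      have h4 : Q.ord (η x0) - Q.ord x0 < Q.ord (η v) - Q.ord v :=
        lt_of_mul_lt_mul_left h2 (by omega)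
      omega)
  refine ⟨hcore.1, ?_⟩
  rw [hcore.2, hθ1, hmin]

end

end Pool.Agent.FF.Rk
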