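import Pool.Agent.FE.LinesC
import Pool.Agent.FE.LinesD
import Pool.Agent.FE.LinesG

/-! # D2: lines and the valuations of their products (42) -/

set_option autoImplicit false

namespace Pool.Agent.FF.Rk

section

variable {F : Type*} {j : ℕ} {H : Type*} [Field F] [Finite F] [Field H] [Algebra F H]

/-- the number of lines -/
theorem card_line {g : H} {M : Polynomial F} (hM : M.Monic) (hi : Irreducible M)
    (hV : Nat.card (VN F j g M) = Nat.card F ^ ((j + 1) * M.natDegree)) :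
    Nat.card {L : Submodule F H // IsLine F j g M L} =
      ∑ a ∈ Finset.range (j + 1), (Nat.card F ^ M.natDegree) ^ a := LnC.card_line hM hi hV

/-- the number of lines outside `V_0` -/
theorem card_line_out (hj : 0 < j) {g : H} {Q : DV H} (hg : Q.ord g < 0) {M : Polynomial F}
    (hM : M.Monic) (hi : Irreducible M) (h1 : M.eval 1 ≠ 0)
    (hV : Nat.card (VN F j g M) = Nat.card F ^ ((j + 1) * M.natDegree)) :
    Nat.card {L : Submodule F H // IsLine F j g M L ∧ ¬ L ≤ V0 F j g Q M} =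
      Nat.card F ^ (j * M.natDegree) := LnC.card_line_out hj hg hM hi h1 hV

/-- `(r ^ j - 1) a(c(L_J)) = ∏ ε_i - 1`, `ε_i = r ^ d_i` or `r ^ (- j d_i)` -/
theorem cL_ord {g : H} {s : ℕ} {M : Fin s → Polynomial F} {L : Fin s → Submodule F H}
    (h : LT j g M L) {Q : DV H} (hg : Q.ord g < 0) (J : Finset (Fin s)) :
    (Nat.card F : ℤ) ^ (j * dgM M (J ∩ typ F j g Q M L)) *
        (((Nat.card F : ℤ) ^ j - 1) * Q.ord (cL F (⨆ i ∈ J, L i))) =
      (- Q.ord g) * ((Nat.card F : ℤ) ^ dgM M (J \ typ F j g Q M L) -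
        (Nat.card F : ℤ) ^ (j * dgM M (J ∩ typ F j g Q M L))) := LnJ.cL_ord h hg J

/-- two tuples of the same type `I` which agree outside `I`: the order of `c' / c - 1` -/
theorem cL_conj {g : H} {s : ℕ} {M : Fin s → Polynomial F} {L L' : Fin s → Submodule F H}
    (h : LT j g M L) (h' : LT j g M L') {Q : DV H} (hg : Q.ord g < 0)
    (ht : typ F j g Q M L' = typ F j g Q M L) (ho : ∀ i ∉ typ F j g Q M L, L' i = L i)
    (hne : L' ≠ L) :
    cL F (⨆ i ∈ typ F j g Q M L, L' i) / cL F (⨆ i ∈ typ F j g Q M L, L i) - 1 ≠ 0 ∧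
    (Nat.card F : ℤ) ^ (j * dgM M (typ F j g Q M L)) * (((Nat.card F : ℤ) - 1) *
      (((Nat.card F : ℤ) ^ j - 1) *
        Q.ord (cL F (⨆ i ∈ typ F j g Q M L, L' i) / cL F (⨆ i ∈ typ F j g Q M L, L i) - 1))) =
      ((Nat.card F : ℤ) ^ (j + 1) - 1) * (- Q.ord g) :=
  LnJ.cL_conj h h' hg ht ho hne

/-- at the places where `g` is integral the `c(L_J)` are units -/
theorem cL_unit {g : H} {s : ℕ} {M : Fin s → Polynomial F} {L : Fin s → Submodule F H}
    (h : LT j g M L) {Q : DV H} (hg : Q.G 0 g) (J : Finset (Fin s)) :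
    Q.ord (cL F (⨆ i ∈ J, L i)) = 0 := LnD.cL_unit h hg J

end

end Pool.Agent.FF.Rk
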