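import Pool.Agent.FD.CuspC
import Pool.Agent.FE.CuspB

/-! # T5, D3: the degree, by the product formula (49) -/

set_option autoImplicit false

namespace Pool.Agent.FF.Rk

section

variable {F k H : Type} [Field F] [Finite F] [Field k] [Finite k] [Field H] [Algebra F k]
  [Algebra F H] [Algebra k H] [Algebra (RatFunc k) H] [IsScalarTower k (RatFunc k) H]

variable {s j : ℕ} {M : Fin s → Polynomial F}

theorem LT.finL {g : H} {L : Fin s → Submodule F H} (hL : LT j g M L) (i : Fin s) :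
    Finite (L i) := by
  apply Nat.finite_of_card_ne_zero
  rw [(hL.line i).card]
  exact pow_ne_zero _ Nat.card_pos.ne'

theorem LT.finSup {g : H} {L : Fin s → Submodule F H} (hL : LT j g M L) (J : Finset (Fin s)) :
    Finite (⨆ i ∈ J, L i : Submodule F H) := by
  have h1 : ∀ i, Module.Finite F (L i) := fun i => by
    have := hL.finL i
    exact Module.Finite.of_finite
  have h2 : Module.Finite F (⨆ i ∈ J, L i : Submodule F H) := by
    have h3 : ∀ i, Module.Finite F (⨆ (_ : i ∈ J), L i : Submodule F H) := fun i =>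
      Submodule.finite_iSup _
    exact Submodule.finite_iSup _
  exact Module.finite_of_finite F

omit [Finite k] [Algebra F k] [Algebra k H] [IsScalarTower k (RatFunc k) H] in
theorem cE_ne {L : Fin s → Submodule F H} (hL : LT j (gX k H) M L) (J : Finset (Fin s)) :
    cE k L J ≠ 0 := by
  intro h
  have := hL.finSup J
  exact cL_ne_zero (F := F) this (congrArg Subtype.val h)

omit [Finite k] [Algebra F k] [Algebra k H] [IsScalarTower k (RatFunc k) H] in
/-- the order of `c(L_J)` at a place over infinity -/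
theorem ord_cusp {L : Fin s → Submodule F H} (hL : LT j (gX k H) M L) {P : DV (EL k L)} {e : ℕ}
    (hP : OverE P (Rat.inf k) e) {Q : DV H} (hQ : Over Q P) (J : Finset (Fin s)) :
    (Nat.card F : ℤ) ^ (j * dgM M (J ∩ typ F j (gX k H) Q M L)) *
        (((Nat.card F : ℤ) ^ j - 1) * P.ord (cE k L J)) =
      e * ((Nat.card F : ℤ) ^ dgM M (J \ typ F j (gX k H) Q M L) -
        (Nat.card F : ℤ) ^ (j * dgM M (J ∩ typ F j (gX k H) Q M L))) := by
  obtain ⟨e', hQe⟩ := hQ.overE
  have h1 := ord_gX hP hQe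
  rw [Rat.inf_X] at h1
  have he : (0 : ℤ) < e := by exact_mod_cast hP.1
  have he' : (0 : ℤ) < e' := by exact_mod_cast hQe.1
  have hg : Q.ord (gX k H) < 0 := by
    rw [h1]
    nlinarith
  have h2 := cL_ord hL hg J
  rw [ord_cE hQe, h1] at h2
  refine mul_left_cancel₀ he'.ne' ?_
  linear_combination h2

omit [Algebra F k] [Algebra k H] [IsScalarTower k (RatFunc k) H] in
/-- outside infinity `c(L_J)` is a unit -/
theorem ord_unit {L : Fin s → Submodule F H} (hf : FiniteDimensional (RatFunc k) H)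
    (hL : LT j (gX k H) M L) {P : DV (EL k L)} (hP : ¬ Over P (Rat.inf k)) (J : Finset (Fin s)) :
    P.ord (cE k L J) = 0 := by
  obtain ⟨v, e, hv⟩ := exists_overE (K := RatFunc k) P
  obtain ⟨Q, hQ⟩ := exists_aboveH (K := RatFunc k) (H := H) P
  obtain ⟨e', hQe⟩ := hQ.overE
  have h1 := ord_gX hv hQe
  have h2 : v ≠ Rat.inf k := by
    rintro rfl
    exact hP hv.over
  have h3 := Rat.ne_inf.1 h2
  have he' : (0 : ℤ) < e' := by exact_mod_cast hQe.1
  have hg : Q.G 0 (gX k H) := by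
    refine DV.G_of_le ?_
    rw [h1]
    positivity
  have h4 := cL_unit hL hg J
  rw [ord_cE hQe] at h4
  exact (mul_eq_zero.1 h4).resolve_left he'.ne'

/-- **D3**: the degree is `ψ`, and the places over infinity of every type. -/
theorem cusp_main (h : DrS F j k H (∏ i, M i)) {L : Fin s → Submodule F H}
    (hL : LT j (gX k H) M L) {R : DV (EL k L)} (hR : R.Rat k) :
    Module.finrank (RatFunc k) (EL k L) = psiJ j M ∧
    (∀ (P : DV (EL k L)) (Q : DV H) (e : ℕ), OverE P (Rat.inf k) e → Over Q P →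
      Nat.card F ^ (j * dgM M (typ F j (gX k H) Q M L)) ∣ e) := by
  classical
  have hfd : FiniteDimensional (RatFunc k) H := h.fin
  have hgal : IsGalois (RatFunc k) H := h.gal
  have hsep : Algebra.IsSeparable (RatFunc k) (EL k L) :=
    Algebra.isSeparable_tower_bot_of_isSeparable (RatFunc k) (EL k L) H
  obtain ⟨-, G, hC⟩ := exists_cv (k := k) (E := EL k L) hR
  have hv : (Rat.inf k).resCard ≠ 0 := by
    rw [resCard_infR]
    exact Nat.card_pos.ne'
  obtain ⟨T, e, f, hTn, hT, hef, hsum⟩ := sum_ef (E := EL k L) (Rat.inf k) hv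
  choose Qf hQf using fun P : DV (EL k L) => exists_aboveH (K := RatFunc k) (H := H) P
  set ty : DV (EL k L) → Finset (Fin s) := fun P => typ F j (gX k H) (Qf P) M L with hty
  have hr : 2 ≤ Nat.card F := Finite.one_lt_card
  have hr0 : (Nat.card F : ℤ) ≠ 0 := by positivity
  have hd : ∀ i, 0 < (M i).natDegree := fun i => (hL.irr i).natDegree_pos
  -- the order formula
  have hord : ∀ P ∈ T, ∀ J, (Nat.card F : ℤ) ^ (j * dgM M (J ∩ ty P)) *
      (((Nat.card F : ℤ) ^ j - 1) * P.ord (cE k L J)) =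
      e P * ((Nat.card F : ℤ) ^ dgM M (J \ ty P) - (Nat.card F : ℤ) ^ (j * dgM M (J ∩ ty P))) :=
    fun P hP J => ord_cusp hL (hef P hP).1 (hQf P) J
  -- the product formula
  have hprod : ∀ J, ∑ P ∈ T, P.ord (cE k L J) * (f P : ℤ) = 0 := by
    intro J
    have h1 := RRD.degZ_divF hC (cE_ne hL J)
    unfold RRD.degZ at h1
    rw [Finsupp.sum_of_support_subset _ (s := T) ?_ _ (fun _ _ => by simp)] at h1
    · rw [← h1]
      refine Finset.sum_congr rfl fun P hP => ?_
      have h2 : P.resCard = (Rat.inf k).resCard ^ f P := (hef P hP).2.2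
      have h4 : RRD.deg k P = f P * RRD.deg k (Rat.inf k) := deg_pow_resCard (k := k) hv h2
      have h3 : RRD.deg k (Rat.inf k) = 1 := Rat.deg_inf
      rw [h4, h3, mul_one]
      rfl
    · intro P hP
      by_contra hPT
      rw [Finsupp.mem_support_iff] at hP
      exact hP (ord_unit hfd hL (fun hh => hPT ((hT P).2 hh)) J)
  have hq : ∀ J : Finset (Fin s), ∑ P ∈ T, ((e P * f P : ℕ) : ℚ) *
      ((Nat.card F : ℚ) ^ (∑ i ∈ J \ ty P, (M i).natDegree) /
        (Nat.card F : ℚ) ^ (j * ∑ i ∈ J ∩ ty P, (M i).natDegree)) =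
        ∑ P ∈ T, ((e P * f P : ℕ) : ℚ) := by
    intro J
    have h1 : (((∑ P ∈ T, P.ord (cE k L J) * (f P : ℤ) : ℤ)) : ℚ) = 0 := by
      rw [hprod J, Int.cast_zero]
    have h2 : ∑ P ∈ T, (((e P * f P : ℕ) : ℚ) *
      ((Nat.card F : ℚ) ^ (∑ i ∈ J \ ty P, (M i).natDegree) /
        (Nat.card F : ℚ) ^ (j * ∑ i ∈ J ∩ ty P, (M i).natDegree)) - ((e P * f P : ℕ) : ℚ)) =
        ((Nat.card F : ℚ) ^ j - 1) * (((∑ P ∈ T, P.ord (cE k L J) * (f P : ℤ) : ℤ)) : ℚ) := by
      push_cast
      rw [Finset.mul_sum]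
      refine Finset.sum_congr rfl fun P hP => ?_
      have h3 := hord P hP J
      have h4 : ((Nat.card F : ℚ)) ^ (j * dgM M (J ∩ ty P)) *
        (((Nat.card F : ℚ) ^ j - 1) * (P.ord (cE k L J) : ℚ)) =
        (e P : ℚ) * ((Nat.card F : ℚ) ^ dgM M (J \ ty P) -
          (Nat.card F : ℚ) ^ (j * dgM M (J ∩ ty P))) := by exact_mod_cast h3
      have h5 : (Nat.card F : ℚ) ^ (j * ∑ i ∈ J ∩ ty P, (M i).natDegree) ≠ 0 := by
        apply pow_ne_zero
        have : 0 < Nat.card F := by omega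
        exact_mod_cast this.ne'
      unfold dgM at h4
      field_simp
      linear_combination (-(f P : ℚ)) * h4
    rw [h1, mul_zero, Finset.sum_sub_distrib, sub_eq_zero] at h2
    exact h2
  have hle : ∑ P ∈ T, e P * f P ≤ ∏ i, lnN (Nat.card F ^ (M i).natDegree) (j + 1) := by
    rw [hsum, ← psiJ_eq]
    exact finrank_le h hL
  obtain ⟨c1, c2⟩ := cuspsJ_pure T (fun i => (M i).natDegree) (Nat.card F) j hr hd e f
    (fun P hP => (hef P hP).1.1) (fun P hP => (hef P hP).2.1) hTn ty hq hle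
  have hQe : ∀ (P : DV (EL k L)) (Q : DV H), Over Q P → typ F j (gX k H) Q M L = ty P :=
    fun P Q hQ => typ_eq' h hQ (hQf P)
  refine ⟨?_, ?_⟩
  · rw [← hsum, psiJ_eq]
    exact c1
  · intro P Q e' hP hQ
    have h1 := ord_cusp hL hP hQ (typ F j (gX k H) Q M L)
    rw [Finset.inter_self, Finset.sdiff_self] at h1
    have h2 : dgM M (∅ : Finset (Fin s)) = 0 := Finset.sum_empty
    rw [h2, pow_zero] at h1
    have h3 : (Nat.card F : ℤ) ^ (j * dgM M (typ F j (gX k H) Q M L)) ∣ (e' : ℤ) := by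
      refine ⟨e' + (((Nat.card F : ℤ) ^ j - 1) * P.ord (cE k L (typ F j (gX k H) Q M L))), ?_⟩
      linear_combination (-1 : ℤ) * h1
    exact_mod_cast h3

end

end Pool.Agent.FF.Rk
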