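import Pool.Agent.FE.Ine

/-! # Inertia groups of Galois extensions (page H/e9b03e_T5): G2, G3 (31) -/

set_option autoImplicit false

namespace Pool.Agent.FF

open GalAux

namespace IneAux

/-- for an endomorphism preserving `Q` and acting trivially on the residues of `P` there is an
automorphism over `E` with the same action on the residues of `Q` -/
theorem exists_congr {E H : Type*} [Field E] [Field H] [Algebra E H] [FiniteDimensional E H]
    [IsGalois E H] {Q : DV H} {P : DV E} (h : Over Q P) (hP : P.resCard ≠ 0) (φ : H →+* H)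
    (hφ : ∀ (n : ℤ) (a : H), Q.G n (φ a) ↔ Q.G n a)
    (hφE : ∀ c : E, P.G 0 c → Q.G 1 (φ (algebraMap E H c) - algebraMap E H c)) :
    ∃ s : H ≃ₐ[E] H, (∀ (n : ℤ) (a : H), Q.G n (s a) ↔ Q.G n a) ∧
      ∀ a, Q.G 0 a → Q.G 1 (φ a - s a) := by
  classical
  obtain ⟨T, e, f, -, hT, hTf, -⟩ := sum_ef (E := H) P hP
  have hw : Q.resCard ≠ 0 := by
    rw [(hTf Q ((hT Q).2 h)).2.2]
    exact pow_ne_zero _ hP
  obtain ⟨g, hg0, hg1, hg⟩ := exists_gen Q hw
  obtain ⟨α, hα⟩ := DV.weak_approx T (fun u => if u = Q then g else 0) 1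
  have hαw : Q.G 1 (α - g) := by
    have h1 := hα Q ((hT Q).2 h)
    rw [if_pos rfl] at h1
    exact_mod_cast h1
  have hαu : ∀ u : DV H, Over u P → u ≠ Q → u.G 1 α := by
    intro u hu hne
    have h1 := hα u ((hT u).2 hu)
    rw [if_neg hne, sub_zero] at h1
    exact_mod_cast h1
  have hα0 : Q.G 0 α := G_zero_of_sub hg0 hαw
  have hα1 : ¬ Q.G 1 α := fun h1 => hg1 (by
    have := h1.sub hαw
    rwa [sub_sub_cancel] at this)
  have hαI : IntO P α := by
    intro u hu
    by_cases hne : u = Q
    · rw [hne]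
      exact hα0
    · exact (hαu u hu hne).mono (by norm_num)
  have hφ0 : Q.G 0 (φ α) := (hφ 0 α).2 hα0
  -- a conjugate congruent to the image
  obtain ⟨r, hr, hr1⟩ : ∃ r ∈ (minpoly E α).aroots H, Q.G 1 (φ α - r) := by
    have h1 : Q.G 1 (Polynomial.aeval (φ α) (minpoly E α)) := by
      have e1 : φ (Polynomial.aeval α (minpoly E α)) = 0 := by
        rw [minpoly.aeval, map_zero]
      rw [Polynomial.aeval_eq_sum_range, map_sum] at e1
      have e2 : Polynomial.aeval (φ α) (minpoly E α) =
          - ∑ i ∈ Finset.range ((minpoly E α).natDegree + 1),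
            (φ ((minpoly E α).coeff i • α ^ i) - (minpoly E α).coeff i • (φ α) ^ i) := by
        rw [Finset.sum_sub_distrib, e1, Polynomial.aeval_eq_sum_range, zero_sub, neg_neg]
      rw [e2]
      refine DV.G.neg ?_
      have h3 : ∀ s : Finset ℕ, Q.G 1 (∑ i ∈ s,
          (φ ((minpoly E α).coeff i • α ^ i) - (minpoly E α).coeff i • (φ α) ^ i)) := by
        intro s
        induction s using Finset.induction_on with
        | empty => simpa using DV.G_zero (v := Q) 1
        | insert j s hj ih =>
          rw [Finset.sum_insert hj]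
          refine DV.G.add ?_ ih
          have e3 : φ ((minpoly E α).coeff j • α ^ j) - (minpoly E α).coeff j • (φ α) ^ j =
              (φ (algebraMap E H ((minpoly E α).coeff j)) - algebraMap E H ((minpoly E α).coeff j)) *
                (φ α) ^ j := by
            rw [Algebra.smul_def, Algebra.smul_def, map_mul, map_pow, sub_mul]
          rw [e3]
          exact G_one_mul_l (hφE _ (hαI.coeff j)) (G_zero_pow hφ0 _)
      exact h3 _
    rw [Polynomial.Splits.aeval_eq_prod_aroots_of_monic (Normal.splits inferInstance α)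
      (minpoly.monic (Algebra.IsIntegral.isIntegral α))] at h1
    obtain ⟨y, hy, hy1⟩ := exists_of_prod _ h1
    obtain ⟨r, hr, rfl⟩ := Multiset.mem_map.1 hy
    exact ⟨r, hr, hy1⟩
  obtain ⟨s, hs⟩ : ∃ s : H ≃ₐ[E] H, r = s α := by
    have h1 := (isConjRoot_iff_mem_minpoly_aroots (Algebra.IsIntegral.isIntegral (R := E) α)).2 hr
    obtain ⟨s, hs⟩ := (isConjRoot_iff_exists_algEquiv).1 h1
    exact ⟨s.symm, by rw [← hs]; exact (s.symm_apply_apply r).symm⟩
  have hact : Q.act s.symm = Q := by
    by_contra hne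
    have h1 := hαu _ (h.act s.symm) hne
    rw [act_G, AlgEquiv.symm_symm, ← hs] at h1
    have h2 := hr1.add h1
    rw [sub_add_cancel] at h2
    exact hα1 ((hφ 1 α).1 h2)
  have hG' : ∀ (n : ℤ) (a : H), Q.G n (s a) ↔ Q.G n a := by
    intro n a
    have h1 : (Q.act s.symm).G n a ↔ Q.G n a := by rw [hact]
    rwa [act_G, AlgEquiv.symm_symm] at h1
  have hG : ∀ (n : ℤ) (a : H), Q.G n a → Q.G n (s a) := fun n a => (hG' n a).2
  have hsg : Q.G 1 (φ g - s g) := by
    have h1 : Q.G 1 (φ g - φ α) := by
      rw [← map_sub]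
      exact (hφ 1 _).2 (G_one_sub_symm hαw)
    have h2 : Q.G 1 (φ α - s α) := by
      rw [← hs]
      exact hr1
    have h3 : Q.G 1 (s α - s g) := by
      rw [← map_sub]
      exact hG 1 _ hαw
    have h4 := (h1.add h2).add h3
    rwa [sub_add_sub_cancel, sub_add_sub_cancel] at h4
  refine ⟨s, hG', fun a ha => ?_⟩
  rcases hg a ha with h1 | ⟨i, h1⟩
  · exact ((hφ 1 a).2 h1).sub (hG 1 a h1)
  · have h2 : Q.G 1 (φ a - φ (g ^ i)) := by
      rw [← map_sub]
      exact (hφ 1 _).2 h1
    have h3 : Q.G 1 (φ (g ^ i) - s (g ^ i)) := by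
      rw [map_pow, map_pow]
      exact G_one_pow_sub ((hφ 0 g).2 hg0) (hG 0 g hg0) hsg i
    have h4 : Q.G 1 (s (g ^ i) - s a) := by
      rw [← map_sub]
      exact hG 1 _ (G_one_sub_symm h1)
    have h5 := (h2.add h3).add h4
    rwa [sub_add_sub_cancel, sub_add_sub_cancel] at h5

theorem Inert.G_zero {K H : Type*} [Field K] [Field H] [Algebra K H] {Q : DV H} {ρ : H ≃ₐ[K] H}
    (h : Inert Q ρ) {a : H} (ha : Q.G 0 a) : Q.G 0 (ρ a) :=
  G_zero_of_sub ha (h a ha)

theorem overE_trans {K E H : Type*} [Field K] [Field E] [Field H] [Algebra K E] [Algebra K H]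
    [Algebra E H] [IsScalarTower K E H] {w : DV H} {u : DV E} {v : DV K} {e f : ℕ}
    (h : OverE w u e) (h' : OverE u v f) : OverE w v (e * f) := by
  refine ⟨Nat.mul_pos h.1 h'.1, fun a => ?_⟩
  rw [IsScalarTower.algebraMap_apply K E H, h.2, h'.2]
  push_cast
  ring

end IneAux

open IneAux

section

variable {K E H : Type*} [Field K] [Field E] [Field H] [Algebra K E] [Algebra K H] [Algebra E H]
  [IsScalarTower K E H] [FiniteDimensional K H] [IsGalois K H]

/-- (G2) an embedding which is not the restriction of an element of the inertia group is seen by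
an integral element -/
theorem exists_unit_of_not_inert {Q : DV H} {P : DV E} {v : DV K} (hQ : Over Q P) (hP : Over P v)
    (hv : v.resCard ≠ 0) (τ : E →ₐ[K] H)
    (hτ : ¬ ∃ ρ : H ≃ₐ[K] H, Inert Q ρ ∧ ∀ x : E, ρ (algebraMap E H x) = τ x) :
    ∃ y : E, IntO v y ∧ algebraMap E H y - τ y ≠ 0 ∧ Q.ord (algebraMap E H y - τ y) = 0 := by
  classical
  have : FiniteDimensional E H := FiniteDimensional.right K E H
  have : FiniteDimensional K E := FiniteDimensional.left K E H
  have : IsGalois E H := IsGalois.tower_top_of_isGalois K E H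
  have : Algebra.IsSeparable K E := Algebra.isSeparable_tower_bot_of_isSeparable K E H
  have hQv : Over Q v := over_trans hQ hP
  by_contra hno
  push Not at hno
  -- all integral elements are fixed modulo `Q`
  have hfix : ∀ y : E, IntO v y → Q.G 1 (algebraMap E H y - τ y) := by
    intro y hy
    by_cases h0 : algebraMap E H y - τ y = 0
    · rw [h0]
      exact DV.G_zero 1
    · have h1 := hno y hy h0
      have h2 := (intO_iff hQv y).1 hy
      have h3 : Q.G 0 (algebraMap E H y) := h2 (IsScalarTower.toAlgHom K E H)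
      have h4 := (h3.sub (h2 τ)).le h0
      exact DV.G_of_le (by omega)
  obtain ⟨T, e, f, -, hT, hTf, -⟩ := sum_ef (E := E) v hv
  have hPres : P.resCard ≠ 0 := by
    rw [(hTf P ((hT P).2 hP)).2.2]
    exact pow_ne_zero _ hv
  -- an extension of `τ`
  obtain ⟨σ, hσ⟩ : ∃ σ : H ≃ₐ[K] H, ∀ x : E, σ (algebraMap E H x) = τ x := by
    refine ⟨AlgEquiv.ofBijective (τ.liftNormal H) (Algebra.IsAlgebraic.algHom_bijective _),
      fun x => ?_⟩
    show τ.liftNormal H (algebraMap E H x) = τ x
    exact τ.liftNormal_commutes H x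
  -- the place of `E` below the transported place is `P`
  have hover : Over (Q.act σ.symm) P := by
    obtain ⟨P', hP'⟩ := exists_below (K := E) (Q.act σ.symm)
    have hP'v : Over P' v := by
      obtain ⟨v', hv'⟩ := exists_below (K := K) P'
      have h1 : v' = v := (over_trans hP' hv').unique (hQv.act σ.symm)
      rwa [h1] at hv'
    by_cases hPP : P' = P
    · rwa [hPP] at hP'
    · exfalso
      obtain ⟨y, hy⟩ := DV.weak_approx T (fun u => if u = P then 1 else 0) 1
      have hyP : P.G 1 (y - 1) := by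
        have h1 := hy P ((hT P).2 hP)
        rw [if_pos rfl] at h1
        exact_mod_cast h1
      have hyu : ∀ u : DV E, Over u v → u ≠ P → u.G 1 y := by
        intro u hu hne
        have h1 := hy u ((hT u).2 hu)
        rw [if_neg hne, sub_zero] at h1
        exact_mod_cast h1
      have hyI : IntO v y := by
        intro u hu
        by_cases hne : u = P
        · rw [hne]
          exact G_zero_of_sub DV.G_one hyP
        · exact (hyu u hu hne).mono (by norm_num)
      have h1 := (hP'.G_one_iff y).2 (hyu P' hP'v hPP)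
      rw [act_G, AlgEquiv.symm_symm, hσ] at h1
      have h2 := (hfix y hyI).add h1
      rw [sub_add_cancel] at h2
      have h3 := ((hQ.G_one_iff y).1 h2).sub hyP
      rw [sub_sub_cancel] at h3
      exact not_G_one_one P h3
  obtain ⟨s, hs⟩ := exists_act_eq hQ hover
  -- `σ ∘ s` preserves `Q`
  have hG : ∀ (n : ℤ) (a : H), Q.G n (σ (s a)) ↔ Q.G n a := by
    intro n a
    have h1 : (Q.act σ.symm).G n (s a) ↔ (Q.act s).G n (s a) := by rw [hs]
    rw [act_G, act_G, AlgEquiv.symm_symm, AlgEquiv.symm_apply_apply] at h1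
    exact h1
  have hE : ∀ c : E, P.G 0 c → Q.G 1 (σ (s (algebraMap E H c)) - algebraMap E H c) := by
    intro c hc
    rw [AlgEquiv.commutes, hσ]
    obtain ⟨y, hy⟩ := DV.weak_approx T (fun u => if u = P then c else 0) 1
    have hyP : P.G 1 (y - c) := by
      have h1 := hy P ((hT P).2 hP)
      rw [if_pos rfl] at h1
      exact_mod_cast h1
    have hyI : IntO v y := by
      intro u hu
      by_cases hne : u = P
      · rw [hne]
        exact G_zero_of_sub hc hyP
      · have h1 := hy u ((hT u).2 hu)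
        rw [if_neg hne, sub_zero] at h1
        exact (show u.G 1 y by exact_mod_cast h1).mono (by norm_num)
    have h1 : Q.G 1 (algebraMap E H (y - c)) := (hQ.G_one_iff _).2 hyP
    have h2 : Q.G 1 (τ (y - c)) := by
      have h3 := (hG 1 (algebraMap E H (y - c))).2 h1
      rwa [AlgEquiv.commutes, hσ] at h3
    have h4 := ((hfix y hyI).neg.add h1).sub h2
    rw [map_sub, map_sub] at h4
    have e1 : -(algebraMap E H y - τ y) + (algebraMap E H y - algebraMap E H c) - (τ y - τ c) =
        τ c - algebraMap E H c := by ring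
    rwa [e1] at h4
  obtain ⟨t, ht0, ht⟩ := exists_congr hQ hPres
    ((σ : H →+* H).comp (s : H →+* H)) (fun n a => hG n a) (fun c hc => hE c hc)
  refine hτ ⟨((t.symm.trans s).restrictScalars K).trans σ, fun a ha => ?_, fun x => ?_⟩
  · have h1 := ht (t.symm a) ?_
    · rw [AlgEquiv.apply_symm_apply] at h1
      exact h1
    · rw [← ht0, AlgEquiv.apply_symm_apply]
      exact ha
  · show σ (s (t.symm (algebraMap E H x))) = τ x
    rw [AlgEquiv.commutes, AlgEquiv.commutes, hσ]

/-- (G3) the number of restrictions of elements of the inertia group -/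
theorem card_inert_restr {Q : DV H} {P : DV E} {v : DV K} (hQ : Over Q P) {e : ℕ}
    (hP : OverE P v e) (hv : v.resCard ≠ 0) (S : Finset (E →ₐ[K] H))
    (hS : ∀ τ ∈ S, ∃ ρ : H ≃ₐ[K] H, Inert Q ρ ∧ ∀ x : E, ρ (algebraMap E H x) = τ x) :
    S.card ≤ e := by
  classical
  have : FiniteDimensional E H := FiniteDimensional.right K E H
  have : FiniteDimensional K E := FiniteDimensional.left K E H
  have : IsGalois E H := IsGalois.tower_top_of_isGalois K E H
  have : Algebra.IsSeparable K E := Algebra.isSeparable_tower_bot_of_isSeparable K E H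
  obtain ⟨e', he'⟩ := hQ.overE
  obtain ⟨T, e1, f, -, hT, hTf, -⟩ := sum_ef (E := E) v hv
  have hPres : P.resCard ≠ 0 := by
    rw [(hTf P ((hT P).2 hP.over)).2.2]
    exact pow_ne_zero _ hv
  have h1 := card_inertia (overE_trans he' hP) hv
  have h2 := card_inertia he' hPres
  choose ρ hρ1 hρ2 using hS
  let F : (S × {s : H ≃ₐ[E] H // Inert Q s}) → {σ : H ≃ₐ[K] H // Inert Q σ} := fun x =>
    ⟨(x.2.1.restrictScalars K).trans (ρ x.1.1 x.1.2), fun a ha => by
      have h3 := x.2.2 a ha
      have h4 := (hρ1 x.1.1 x.1.2) _ (Inert.G_zero x.2.2 ha)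
      have h5 := h4.add h3
      rw [sub_add_sub_cancel] at h5
      exact h5⟩
  have hF : Function.Injective F := by
    rintro ⟨⟨τ, hτ⟩, s, hs⟩ ⟨⟨τ', hτ'⟩, s', hs'⟩ hh
    have h3 : ∀ a : H, ρ τ hτ (s a) = ρ τ' hτ' (s' a) := by
      intro a
      have h4 := congrArg Subtype.val hh
      exact DFunLike.congr_fun h4 a
    have h4 : τ = τ' := by
      ext x
      have h5 := h3 (algebraMap E H x)
      rw [AlgEquiv.commutes, AlgEquiv.commutes, hρ2, hρ2] at h5
      exact h5
    subst h4
    have h5 : s = s' := by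
      ext a
      exact (ρ τ hτ).injective (h3 a)
    subst h5
    rfl
  have h3 := Nat.card_le_card_of_injective F hF
  rw [Nat.card_prod, h1, h2, Nat.card_eq_fintype_card, Fintype.card_coe, mul_comm] at h3
  exact Nat.le_of_mul_le_mul_left h3 he'.1

end

end Pool.Agent.FF
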