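import Pool.Agent.FE.PiMin
import Pool.Agent.FE.IneB
import Pool.Agent.FF.Deg

/-! # G4 over a finite field of constants (88) -/

set_option autoImplicit false
set_option linter.unusedSectionVars false

namespace Pool.Agent.FF

section

variable {K E H : Type*} [Field K] [Field E] [Field H]
  [Algebra K E] [Algebra K H] [Algebra E H] [IsScalarTower K E H]

theorem sub_pow_resCard (k : Type*) [Field k] [Finite k] [Algebra k E] [Algebra k H]
    {P : DV E} (hP : P.resCard ≠ 0) (x y : H) :
    (x - y) ^ P.resCard = x ^ P.resCard - y ^ P.resCard := by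
  have h1 := add_pow_card k (deg k P) (x - y) y
  rw [← resCard_eq_pow k P hP, sub_add_cancel] at h1
  rw [h1]
  ring

/-- a uniformiser which is integral at the other places over `v` -/
theorem exists_unif [FiniteDimensional K E] {P : DV E} {v : DV K} (hP : Over P v) :
    ∃ π : E, P.ord π = 1 ∧ IntO v π := by
  classical
  obtain ⟨t, ht0, ht1⟩ := P.exists_one
  obtain ⟨π, hπ⟩ := DV.weak_approx (over_finite' (L := E) v).toFinset
    (fun u => if u = P then t else 0) 2
  have h1 : P.G 2 (π - t) := by
    have h2 := hπ P (by rw [Set.Finite.mem_toFinset]; exact hP)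
    rw [if_pos rfl] at h2
    exact h2
  have h2 : P.ord π = 1 := by
    have h3 := DV.ord_add_of_lt (v := P) (a := t) (b := π - t) ht0 (by rw [ht1]; exact h1)
    rw [add_sub_cancel] at h3
    rw [h3.2, ht1]
  refine ⟨π, h2, fun u hu => ?_⟩
  by_cases hne : u = P
  · rw [hne]
    exact DV.G_of_le (by rw [h2]; norm_num)
  · have h3 := hπ u (by rw [Set.Finite.mem_toFinset]; exact hu)
    rw [if_neg hne, sub_zero] at h3
    exact h3.mono (by norm_num)

theorem Inert.pi_min_k (k : Type*) [Field k] [Finite k] [Algebra k E] [Algebra k H]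
    {Q : DV H} {P : DV E} (hQ : Over Q P) (hP : P.resCard ≠ 0)
    {ρ : H ≃ₐ[K] H} (h : Inert Q ρ) {π : E} (hπ : P.ord π = 1) {z : E}
    (hz : ρ (algebraMap E H z) ≠ algebraMap E H z) :
    algebraMap E H π - ρ (algebraMap E H π) ≠ 0 ∧
      Q.ord (algebraMap E H π - ρ (algebraMap E H π)) ≤
        Q.ord (algebraMap E H π) + Q.ord (ρ (algebraMap E H z) / algebraMap E H z - 1) := by
  have h2 : 2 ≤ P.resCard := by
    have h3 := DV.resCard_ne_one (v := P)
    omega
  refine h.pi_min hQ h2 (sub_pow_resCard k hP) (fun y hy => ?_) hπ hz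
  have h3 := (P.pow_resCard hP hy).neg
  rwa [neg_sub] at h3

end

end Pool.Agent.FF
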