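import Pool.Agent.FD.Gal

/-! # Inertia groups of Galois extensions (page H/e9b03e_T5): G1 (37; statement by 88) -/

set_option autoImplicit false

namespace Pool.Agent.FF

/-- `σ` lies in the inertia group of `Q` -/
def Inert {K H : Type*} [Field K] [Field H] [Algebra K H] (Q : DV H) (σ : H ≃ₐ[K] H) : Prop :=
  ∀ a : H, Q.G 0 a → Q.G 1 (σ a - a)

open GalAux

section ine

variable {K H : Type*} [Field K] [Field H] [Algebra K H]

/-- the action of the automorphisms on the places -/
@[reducible] def Ine.mact : MulAction (H ≃ₐ[K] H) (DV H) where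
  smul s w := w.act s
  one_smul w := by
    apply DV.ext
    rfl
  mul_smul s t w := by
    apply DV.ext
    rfl

theorem Ine.isUnit_iff {F : Type*} [Field F] (v : DV F) (x : v.vs) :
    IsUnit x ↔ ¬ v.G 1 (x : F) := by
  rw [← v.mem_max, IsLocalRing.mem_maximalIdeal, mem_nonunits_iff, not_not]

/-- the map of valuation rings -/
noncomputable def Ine.phi {Q : DV H} {v : DV K} (h : Over Q v) : v.vs →+* Q.vs :=
  ((algebraMap K H).comp v.vs.subtype).codRestrict Q.vs.toSubring
    fun x => (h.G_zero_iff _).2 x.2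

theorem Ine.phi_coe {Q : DV H} {v : DV K} (h : Over Q v) (x : v.vs) :
    ((Ine.phi h x : Q.vs) : H) = algebraMap K H (x : K) := rfl

theorem Ine.phi_local {Q : DV H} {v : DV K} (h : Over Q v) : IsLocalHom (Ine.phi h) where
  map_nonunit a ha := by
    rw [Ine.isUnit_iff] at ha ⊢
    exact fun h1 => ha ((h.G_one_iff _).2 h1)

theorem Ine.act_imp {Q : DV H} {τ : H ≃ₐ[K] H} (hτ : Q.act τ = Q) {n : ℤ} {a : H} :
    Q.G n (τ a) ↔ Q.G n a := by
  have h1 := act_G Q τ n (τ a)
  rw [hτ, AlgEquiv.symm_apply_apply] at h1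
  exact h1

/-- an automorphism in the decomposition group on the valuation ring -/
noncomputable def Ine.rh {Q : DV H} {τ : H ≃ₐ[K] H} (hτ : Q.act τ = Q) : Q.vs →+* Q.vs :=
  ((τ : H →+* H).comp Q.vs.subtype).codRestrict Q.vs.toSubring
    fun x => (Ine.act_imp hτ).2 x.2

theorem Ine.rh_coe {Q : DV H} {τ : H ≃ₐ[K] H} (hτ : Q.act τ = Q) (x : Q.vs) :
    ((Ine.rh hτ x : Q.vs) : H) = τ (x : H) := rfl

theorem Ine.rh_local {Q : DV H} {τ : H ≃ₐ[K] H} (hτ : Q.act τ = Q) : IsLocalHom (Ine.rh hτ) where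
  map_nonunit a ha := by
    rw [Ine.isUnit_iff] at ha ⊢
    exact fun h1 => ha ((Ine.act_imp hτ).2 h1)

theorem Ine.act_of_imp {Q : DV H} {τ : H ≃ₐ[K] H} (hτ : ∀ a, Q.G 0 a → Q.G 0 (τ a)) :
    Q.act τ = Q := by
  have h1 : Q = Q.act τ.symm := by
    refine DV.eq_of_integral_imp fun a ha => ?_
    rw [act_G]
    exact hτ a ha
  have h2 : (Q.act τ.symm).act τ = Q := by
    apply DV.ext
    funext x
    show Q.ord (τ.symm.symm (τ.symm x)) = Q.ord x
    rw [AlgEquiv.symm_symm, AlgEquiv.apply_symm_apply]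
  rw [← h1] at h2
  exact h2

theorem Ine.act_of_inert {Q : DV H} {τ : H ≃ₐ[K] H} (hτ : Inert Q τ) : Q.act τ = Q :=
  Ine.act_of_imp fun _ ha => G_zero_of_sub ha (hτ _ ha)

theorem Ine.card_decomp [FiniteDimensional K H] [IsGalois K H] {Q : DV H} {v : DV K}
    (h : Over Q v) (hv : v.resCard ≠ 0) (hQ : Q.resCard ≠ 0) {f : ℕ}
    (hf : Q.resCard = v.resCard ^ f) :
    Nat.card {σ : H ≃ₐ[K] H // Q.act σ = Q} = f * Nat.card {σ : H ≃ₐ[K] H // Inert Q σ} := by
  classical
  let _ : MulAction (H ≃ₐ[K] H) (DV H) := Ine.mact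
  have hloc := Ine.phi_local h
  let _ : Algebra (IsLocalRing.ResidueField v.vs) (IsLocalRing.ResidueField Q.vs) :=
    (IsLocalRing.ResidueField.map (Ine.phi h)).toAlgebra
  have hcv : Nat.card (IsLocalRing.ResidueField v.vs) = v.resCard := v.card_resField
  have hcQ : Nat.card (IsLocalRing.ResidueField Q.vs) = Q.resCard := Q.card_resField
  have hfv : Finite (IsLocalRing.ResidueField v.vs) := Nat.finite_of_card_ne_zero (by rwa [hcv])
  have hfQ : Finite (IsLocalRing.ResidueField Q.vs) := Nat.finite_of_card_ne_zero (by rwa [hcQ])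
  have := Fintype.ofFinite (IsLocalRing.ResidueField v.vs)
  -- the algebra homomorphism of an element of the decomposition group
  let al : MulAction.stabilizer (H ≃ₐ[K] H) Q →
      (IsLocalRing.ResidueField Q.vs →ₐ[IsLocalRing.ResidueField v.vs]
        IsLocalRing.ResidueField Q.vs) := fun τ =>
    { (have := Ine.rh_local (Q := Q) τ.2
       IsLocalRing.ResidueField.map (Ine.rh (Q := Q) τ.2)) with
      commutes' := by
        intro c
        obtain ⟨x, rfl⟩ := IsLocalRing.residue_surjective c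
        have h1 : Ine.rh (Q := Q) τ.2 (Ine.phi h x) = Ine.phi h x := by
          apply Subtype.ext
          rw [Ine.rh_coe, Ine.phi_coe, AlgEquiv.commutes]
        show IsLocalRing.residue Q.vs (Ine.rh (Q := Q) τ.2 (Ine.phi h x)) =
          IsLocalRing.residue Q.vs (Ine.phi h x)
        rw [h1] }
  have hal : ∀ (τ : MulAction.stabilizer (H ≃ₐ[K] H) Q) (x : Q.vs),
      al τ (IsLocalRing.residue Q.vs x) = IsLocalRing.residue Q.vs (Ine.rh (Q := Q) τ.2 x) :=
    fun τ x => rfl
  let Φ : MulAction.stabilizer (H ≃ₐ[K] H) Q →*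
      (IsLocalRing.ResidueField Q.vs ≃ₐ[IsLocalRing.ResidueField v.vs]
        IsLocalRing.ResidueField Q.vs) :=
    MonoidHom.mk' (fun τ => AlgEquiv.ofBijective (al τ)
      (Finite.injective_iff_bijective.1 (al τ).toRingHom.injective)) (by
        intro τ τ'
        apply AlgEquiv.ext
        intro c
        obtain ⟨x, rfl⟩ := IsLocalRing.residue_surjective c
        rfl)
  have hΦ : ∀ (τ : MulAction.stabilizer (H ≃ₐ[K] H) Q) (x : Q.vs),
      Φ τ (IsLocalRing.residue Q.vs x) = IsLocalRing.residue Q.vs (Ine.rh (Q := Q) τ.2 x) :=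
    fun τ x => rfl
  have hres : ∀ x y : Q.vs, IsLocalRing.residue Q.vs x = IsLocalRing.residue Q.vs y ↔
      Q.G 1 ((x : H) - y) := by
    intro x y
    rw [← sub_eq_zero, ← map_sub, IsLocalRing.residue_eq_zero_iff, Q.mem_max]
    rfl
  -- the kernel
  have hker : Nat.card Φ.ker = Nat.card {σ : H ≃ₐ[K] H // Inert Q σ} := by
    refine Nat.card_congr ⟨fun τ => ⟨τ.1.1, fun a ha => ?_⟩,
      fun σ => ⟨⟨σ.1, Ine.act_of_inert σ.2⟩, ?_⟩, fun _ => rfl, fun _ => rfl⟩
    · have h1 : Φ τ.1 (IsLocalRing.residue Q.vs ⟨a, ha⟩) = IsLocalRing.residue Q.vs ⟨a, ha⟩ := by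
        rw [MonoidHom.mem_ker.1 τ.2]
        rfl
      rw [hΦ, hres] at h1
      exact h1
    · rw [MonoidHom.mem_ker]
      apply AlgEquiv.ext
      intro c
      obtain ⟨x, rfl⟩ := IsLocalRing.residue_surjective c
      rw [hΦ]
      show _ = IsLocalRing.residue Q.vs x
      rw [hres]
      exact σ.2 x x.2
  -- surjectivity
  have hsur : Function.Surjective Φ := by
    intro ψ
    obtain ⟨n, hn⟩ := (FiniteField.bijective_frobeniusAlgEquivOfAlgebraic_pow
      (IsLocalRing.ResidueField v.vs) (IsLocalRing.ResidueField Q.vs)).2 ψ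
    obtain ⟨s, hs⟩ := exists_frob h hv
    have hsQ : Q.act s = Q := Ine.act_of_imp fun a ha => G_zero_of_sub (G_zero_pow ha _) (hs a ha)
    have h1 : Φ ⟨s, hsQ⟩ = FiniteField.frobeniusAlgEquivOfAlgebraic
        (IsLocalRing.ResidueField v.vs) (IsLocalRing.ResidueField Q.vs) := by
      apply AlgEquiv.ext
      intro c
      obtain ⟨x, rfl⟩ := IsLocalRing.residue_surjective c
      rw [hΦ, FiniteField.coe_frobeniusAlgEquivOfAlgebraic]
      show _ = IsLocalRing.residue Q.vs x ^ Fintype.card (IsLocalRing.ResidueField v.vs)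
      rw [← map_pow, hres, ← Nat.card_eq_fintype_card, hcv]
      exact hs x x.2
    refine ⟨⟨s, hsQ⟩ ^ (n : ℕ), ?_⟩
    rw [map_pow, h1]
    exact hn
  -- the degree of the residue extension
  have hdeg : Module.finrank (IsLocalRing.ResidueField v.vs) (IsLocalRing.ResidueField Q.vs) = f := by
    have h1 := Module.natCard_eq_pow_finrank (K := IsLocalRing.ResidueField v.vs)
      (V := IsLocalRing.ResidueField Q.vs)
    rw [hcv, hcQ, hf] at h1
    have h2 : 2 ≤ v.resCard := by
      have := v.resCard_ne_one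
      omega
    exact (Nat.pow_right_injective h2 h1).symm
  have hcard : Nat.card (IsLocalRing.ResidueField Q.vs ≃ₐ[IsLocalRing.ResidueField v.vs]
        IsLocalRing.ResidueField Q.vs) = f := by
    rw [← hdeg, ← Nat.card_fin (Module.finrank (IsLocalRing.ResidueField v.vs)
      (IsLocalRing.ResidueField Q.vs))]
    exact (Nat.card_congr (Equiv.ofBijective _
      (FiniteField.bijective_frobeniusAlgEquivOfAlgebraic_pow
        (IsLocalRing.ResidueField v.vs) (IsLocalRing.ResidueField Q.vs)))).symm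
  have h1 := Subgroup.card_mul_index Φ.ker
  rw [Subgroup.index_ker, MonoidHom.range_eq_top.2 hsur, Subgroup.card_top, hcard, hker] at h1
  rw [mul_comm, h1]
  rfl

theorem Ine.resCard_act (Q : DV H) (s : H ≃ₐ[K] H) : (Q.act s).resCard = Q.resCard := by
  have h1 : ∀ n : ℤ, (Q.act s).O n = (Q.O n).comap (s.symm : H ≃+ H).toAddMonoidHom := by
    intro n
    ext x
    exact act_G Q s n x
  unfold DV.resCard
  rw [h1, h1, AddSubgroup.relIndex_comap, AddSubgroup.map_comap_eq_self_of_surjective]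
  exact s.symm.surjective

end ine

/-- (G1) -/
theorem card_inertia {K H : Type*} [Field K] [Field H] [Algebra K H] [FiniteDimensional K H]
    [IsGalois K H] {Q : DV H} {v : DV K} {e : ℕ} (h : OverE Q v e) (hv : v.resCard ≠ 0) :
    Nat.card {σ : H ≃ₐ[K] H // Inert Q σ} = e := by
  classical
  have ho : Over Q v := h.over
  obtain ⟨T, e', f, hTne, hT, hTf, hsum⟩ := sum_ef (E := H) v hv
  have hQT : Q ∈ T := (hT Q).2 ho
  have hall : ∀ w ∈ T, e' w = e ∧ f w = f Q := by
    intro w hw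
    obtain ⟨s, rfl⟩ := exists_act_eq ho ((hT w).1 hw)
    obtain ⟨h1, h2, h3⟩ := hTf _ hw
    constructor
    · obtain ⟨t, _, ht1⟩ := v.exists_one
      have h4 := h1.2 t
      rw [(h.act s).2 t, ht1] at h4
      omega
    · rw [Ine.resCard_act, (hTf Q hQT).2.2] at h3
      have h4 : 2 ≤ v.resCard := by
        have := v.resCard_ne_one
        omega
      exact (Nat.pow_right_injective h4 h3).symm
  have hsum' : T.card * (e * f Q) = Module.finrank K H := by
    rw [← hsum, Finset.card_eq_sum_ones, Finset.sum_mul]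
    refine Finset.sum_congr rfl fun w hw => ?_
    rw [(hall w hw).1, (hall w hw).2, one_mul]
  have hQ0 : Q.resCard ≠ 0 := by
    rw [(hTf Q hQT).2.2]
    exact pow_ne_zero _ hv
  have hD := Ine.card_decomp ho hv hQ0 (hTf Q hQT).2.2
  let _ : MulAction (H ≃ₐ[K] H) (DV H) := Ine.mact
  have h1 := Subgroup.card_mul_index (MulAction.stabilizer (H ≃ₐ[K] H) Q)
  have h2 : (MulAction.stabilizer (H ≃ₐ[K] H) Q).index = T.card := by
    rw [MulAction.index_stabilizer, ← Set.ncard_coe_finset T]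
    congr 1
    ext w
    constructor
    · rintro ⟨s, rfl⟩
      exact (hT _).2 (ho.act s)
    · intro hw
      obtain ⟨s, hs⟩ := exists_act_eq ho ((hT w).1 hw)
      exact ⟨s, hs.symm⟩
  have h3 : Nat.card (MulAction.stabilizer (H ≃ₐ[K] H) Q) =
      Nat.card {σ : H ≃ₐ[K] H // Q.act σ = Q} := rfl
  rw [h2, h3, hD, IsGalois.card_aut_eq_finrank, ← hsum'] at h1
  have h4 : 0 < T.card := Finset.card_pos.2 ⟨Q, hQT⟩
  have h5 : 0 < f Q := (hTf Q hQT).2.1
  have h6 : (T.card * f Q) * Nat.card {σ : H ≃ₐ[K] H // Inert Q σ} = (T.card * f Q) * e := by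
    linarith
  exact Nat.eq_of_mul_eq_mul_left (Nat.mul_pos h4 h5) h6

end Pool.Agent.FF
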