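import Pool.Agent.FE.Inf
import Pool.Agent.FE.Ine

/-! # D5: an element of the inertia group which is close to the identity on the field of the line
tuple fixes the lines in `V_0` (60) -/

set_option autoImplicit false
set_option linter.unusedSectionVars false

namespace Pool.Agent.FF.Rk

open Polynomial in
/-- the coefficients of `∏ (X - y)` -/
theorem Same.coeff_G {H : Type*} [Field H] {Q : DV H} {q : ℤ} (S : Finset H)
    (hS : ∀ y ∈ S, Q.G q y) (a : ℕ) :
    Q.G (((S.card : ℤ) - a) * q) ((∏ y ∈ S, (X - C y)).coeff a) := by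
  classical
  induction S using Finset.induction_on generalizing a with
  | empty =>
    rw [Finset.prod_empty, Finset.card_empty, coeff_one]
    by_cases h : a = 0
    · subst h
      rw [if_pos rfl]
      simpa using (DV.G_one : Q.G 0 (1 : H))
    · rw [if_neg h]
      exact DV.G_zero _
  | insert y S hy ih =>
    have ih' := ih fun z hz => hS z (Finset.mem_insert_of_mem hz)
    rw [Finset.prod_insert hy, Finset.card_insert_of_notMem hy, sub_mul (X : H[X]) (C y), coeff_sub,
      coeff_C_mul]
    refine DV.G.sub ?_ ?_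
    · cases a with
      | zero =>
        rw [coeff_X_mul_zero]
        exact DV.G_zero _
      | succ a =>
        rw [coeff_X_mul]
        refine (ih' a).mono (le_of_eq ?_)
        push_cast
        ring
    · have h1 := (hS y (Finset.mem_insert_self y S)).mul (ih' a)
      refine h1.mono (le_of_eq ?_)
      push_cast
      ring

theorem Same.ord_prod {H ι : Type*} [Field H] {Q : DV H} {q : ℤ} (S : Finset ι) (f : ι → H)
    (h : ∀ y ∈ S, f y ≠ 0 ∧ Q.ord (f y) = q) :
    (∏ y ∈ S, f y) ≠ 0 ∧ Q.ord (∏ y ∈ S, f y) = S.card * q := by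
  classical
  induction S using Finset.induction_on with
  | empty =>
    rw [Finset.prod_empty, Finset.card_empty]
    exact ⟨one_ne_zero, by rw [Q.ord_one]; simp⟩
  | insert y S hy ih =>
    have h1 := ih fun z hz => h z (Finset.mem_insert_of_mem hz)
    have h2 := h y (Finset.mem_insert_self y S)
    rw [Finset.prod_insert hy, Finset.card_insert_of_notMem hy]
    refine ⟨mul_ne_zero h2.1 h1.1, ?_⟩
    rw [Q.ord_mul _ _ h2.1 h1.1, h1.2, h2.2]
    push_cast
    ring

open Polynomial in
/-- all elements of `S` are images of elements of `S` -/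
theorem Same.core {K H : Type*} [Field K] [Field H] [Algebra K H] {Q : DV H} {ρ : H ≃ₐ[K] H}
    {S : Finset H} {q : ℤ} (hS : ∀ y ∈ S, Q.G q y)
    (hc : ∀ a : ℕ, (∏ y ∈ S, (X - C y)).coeff a ≠ 0 →
      Q.G 1 (ρ ((∏ y ∈ S, (X - C y)).coeff a) / (∏ y ∈ S, (X - C y)).coeff a - 1))
    (hd : ∀ x ∈ S, ∀ y ∈ S, x - ρ y ≠ 0 → Q.ord (x - ρ y) = q) {x : H} (hx : x ∈ S) :
    ∃ y ∈ S, ρ y = x := by
  classical
  by_contra hcon
  push Not at hcon
  have h1 : ∀ y ∈ S, x - ρ y ≠ 0 ∧ Q.ord (x - ρ y) = q := fun y hy => by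
    have h2 : x - ρ y ≠ 0 := sub_ne_zero.2 (hcon y hy).symm
    exact ⟨h2, hd x hx y hy h2⟩
  obtain ⟨h2, h3⟩ := Same.ord_prod S (fun y => x - ρ y) h1
  obtain ⟨P, hP⟩ : ∃ P : H[X], P = ∏ y ∈ S, (X - C y) := ⟨_, rfl⟩
  rw [← hP] at hc
  have hdeg : P.natDegree = S.card := by
    rw [hP]
    exact natDegree_finsetProd_X_sub_C_eq_card S fun y => y
  have h4 : P.eval x = 0 := by
    rw [hP, eval_prod]
    exact Finset.prod_eq_zero hx (by simp)
  have h5 : (P.map (ρ : H →+* H)).eval x = ∏ y ∈ S, (x - ρ y) := by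
    rw [hP, Polynomial.map_prod, eval_prod]
    refine Finset.prod_congr rfl fun y _ => ?_
    simp
  have h6 : (P.map (ρ : H →+* H)).eval x =
      ∑ a ∈ Finset.range (S.card + 1), (ρ (P.coeff a) - P.coeff a) * x ^ a := by
    have h7 : (P.map (ρ : H →+* H)).eval x =
        ∑ a ∈ Finset.range (S.card + 1), ρ (P.coeff a) * x ^ a := by
      rw [eval_eq_sum_range' (n := S.card + 1)]
      · refine Finset.sum_congr rfl fun a _ => ?_
        rw [coeff_map]
        rfl
      · exact (natDegree_map_le.trans hdeg.le).trans_lt (Nat.lt_succ_self _)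
    have h8 : P.eval x = ∑ a ∈ Finset.range (S.card + 1), P.coeff a * x ^ a := by
      rw [eval_eq_sum_range' (n := S.card + 1)]
      rw [hdeg]
      exact Nat.lt_succ_self _
    rw [h7, ← sub_zero (∑ a ∈ Finset.range (S.card + 1), ρ (P.coeff a) * x ^ a), ← h4, h8,
      ← Finset.sum_sub_distrib]
    exact Finset.sum_congr rfl fun a _ => (sub_mul _ _ _).symm
  have h7 : Q.G (S.card * q + 1) ((P.map (ρ : H →+* H)).eval x) := by
    rw [h6]
    have h8 : ∀ T : Finset ℕ, Q.G (S.card * q + 1)
        (∑ a ∈ T, (ρ (P.coeff a) - P.coeff a) * x ^ a) := by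
      intro T
      induction T using Finset.induction_on with
      | empty => exact DV.G_zero _
      | insert a T ha ih =>
        rw [Finset.sum_insert ha]
        refine DV.G.add ?_ ih
        by_cases h0 : P.coeff a = 0
        · rw [h0, map_zero, sub_zero, zero_mul]
          exact DV.G_zero _
        have h9 := (hc a h0).mul (hP ▸ Same.coeff_G S hS a : Q.G (((S.card : ℤ) - a) * q)
          (P.coeff a))
        have h10 : (ρ (P.coeff a) / P.coeff a - 1) * P.coeff a = ρ (P.coeff a) - P.coeff a := by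
          field_simp
        rw [h10] at h9
        have h11 := h9.mul ((hS x hx).pow a)
        refine h11.mono (le_of_eq ?_)
        ring
    exact h8 _
  rw [h5] at h7
  have h8 := h7.le h2
  rw [h3] at h8
  omega

section

variable {F k H : Type} {j : ℕ} [Field F] [Finite F] [Field k] [Finite k] [Field H] [Algebra F k]
  [Algebra F H] [Algebra k H] [Algebra (RatFunc k) H] [IsScalarTower k (RatFunc k) H]

variable {s : ℕ} {M : Fin s → Polynomial F}

/-- an automorphism over `k(g)` as a homomorphism over `F` -/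
noncomputable def Same.hom {N : Polynomial F} (h : DrS F j k H N) (σ : H ≃ₐ[RatFunc k] H) :
    H →ₐ[F] H where
  toRingHom := (σ : H →+* H)
  commutes' c := by
    change σ (algebraMap F H c) = algebraMap F H c
    rw [h.tower c]
    exact σ.commutes _

theorem Same.hom_apply {N : Polynomial F} (h : DrS F j k H N) (σ : H ≃ₐ[RatFunc k] H) (x : H) :
    Same.hom h σ x = σ x := rfl

/-- the torsion is stable under the automorphisms -/
theorem Same.mem_VN {N M' : Polynomial F} (h : DrS F j k H N) (σ : H ≃ₐ[RatFunc k] H) {x : H}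
    (hx : x ∈ VN F j (gX k H) M') : σ x ∈ VN F j (gX k H) M' := by
  have h1 : σ (gX k H) = gX k H := σ.commutes _
  have h2 := map_phN (j := j) (Same.hom h σ) (gX k H) x M'
  rw [VN, LinearMap.mem_ker] at hx ⊢
  rw [hx, map_zero, Same.hom_apply, Same.hom_apply, h1] at h2
  exact h2.symm

/-- an element of the inertia group which is close to the identity on the field of the line tuple
fixes the lines contained in `V_0` -/
theorem same_line (h : DrS F j k H (∏ i, M i)) {L : Fin s → Submodule F H}
    (hL : LT j (gX k H) M L) {Q : DV H} (hg : Q.ord (gX k H) < 0) {ρ : H ≃ₐ[RatFunc k] H}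
    (hρ : Inert Q ρ)
    (hz : ∀ z : EL k L, z ≠ 0 → Q.G 1 (ρ (z : H) / (z : H) - 1)) {i : Fin s}
    (hi : i ∉ typ F j (gX k H) Q M L) (x : H) : x ∈ L i ↔ ρ x ∈ L i := by
  classical
  have hord : ∀ a : H, Q.ord (ρ a) = Q.ord a := by
    intro a
    have h1 : Q = Q.act ρ.symm := DV.eq_of_integral_imp fun a ha => by
      rw [GalAux.act_G, AlgEquiv.symm_symm]
      have h1 := ((hρ a ha).mono (by norm_num : (0 : ℤ) ≤ 1)).add ha
      rwa [sub_add_cancel] at h1
    have h2 : (Q.act ρ.symm).ord a = Q.ord (ρ a) := rfl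
    rw [← h2, ← h1]
  have hV : L i ≤ V0 F j (gX k H) Q (M i) := by
    by_contra hcon
    exact hi (by
      rw [typ, Finset.mem_filter]
      exact ⟨Finset.mem_univ _, hcon⟩)
  have hfin : Finite (L i) := by
    apply Nat.finite_of_card_ne_zero
    rw [(hL.line i).card]
    exact pow_ne_zero _ Nat.card_pos.ne'
  have hsf : ((L i : Submodule F H) : Set H).Finite := Set.toFinite _
  obtain ⟨S, hSdef⟩ : ∃ S : Finset H, S = hsf.toFinset := ⟨_, rfl⟩
  have hmem : ∀ y, y ∈ S ↔ y ∈ L i := fun y => by
    rw [hSdef, Set.Finite.mem_toFinset]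
    rfl
  -- the order of the nonzero elements of `V_0`
  obtain ⟨q, hq⟩ : ∃ q : ℤ, ∀ y ∈ V0 F j (gX k H) Q (M i), y ≠ 0 → Q.ord y = q := by
    by_cases hex : ∃ y ∈ V0 F j (gX k H) Q (M i), y ≠ 0
    · obtain ⟨y, hy, hy0⟩ := hex
      refine ⟨Q.ord y, fun z hz' hz0 => ?_⟩
      have h1 := inf_V0 hL.pos hg (hL.monic i) (hL.one i) hy hy0
      have h2 := inf_V0 hL.pos hg (hL.monic i) (hL.one i) hz' hz0
      have h3 : ((Nat.card F : ℤ) ^ j - 1) ≠ 0 := by
        intro h0
        rw [h0, zero_mul] at h1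
        omega
      exact mul_left_cancel₀ h3 (h2.trans h1.symm)
    · push Not at hex
      exact ⟨0, fun y hy hy0 => absurd (hex y hy) hy0⟩
  have hρV : ∀ y ∈ V0 F j (gX k H) Q (M i), ρ y ∈ V0 F j (gX k H) Q (M i) := by
    rintro y ⟨h1, h2, h3⟩
    refine ⟨Same.mem_VN h ρ h1, ?_, ?_⟩
    · rcases h2 with h2 | h2
      · rw [h2, map_zero]
        exact DV.G_zero _
      · exact DV.G_of_le (by rw [hord]; exact h2)
    · rcases h3 with h3 | h3
      · left
        rw [h3, map_zero]
      · right
        rw [hord]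
        exact h3
  have hcoef : ∀ a : ℕ, (∏ y ∈ S, (Polynomial.X - Polynomial.C y)).coeff a ∈ EL k L := by
    intro a
    rw [EL, IntermediateField.mem_fixedField_iff]
    intro σ hσ
    have h1 : (∏ y ∈ S, (Polynomial.X - Polynomial.C y)).map (σ : H →+* H) =
        ∏ y ∈ S, (Polynomial.X - Polynomial.C y) := by
      rw [Polynomial.map_prod]
      refine Finset.prod_bij (fun y _ => σ y) ?_ ?_ ?_ ?_
      · intro y hy
        rw [hmem] at hy ⊢
        exact (hσ i y).1 hy
      · intro y _ z _ hyz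
        exact σ.injective hyz
      · intro y hy
        refine ⟨σ.symm y, ?_, σ.apply_symm_apply y⟩
        rw [hmem] at hy ⊢
        rw [hσ i, σ.apply_symm_apply]
        exact hy
      · intro y _
        simp
    have h2 := congrArg (fun p => Polynomial.coeff p a) h1
    simp only [Polynomial.coeff_map] at h2
    exact h2
  have hcore : ∀ x ∈ S, ∃ y ∈ S, ρ y = x := by
    intro x hx
    refine Same.core (Q := Q) (q := q) ?_ ?_ ?_ hx
    · intro y hy
      by_cases hy0 : y = 0
      · rw [hy0]
        exact DV.G_zero _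
      · exact DV.G_of_le (hq y (hV ((hmem y).1 hy)) hy0).ge
    · intro a ha
      exact hz ⟨_, hcoef a⟩ fun h0 => ha (congrArg Subtype.val h0)
    · intro x hx y hy hne
      exact hq _ (sub_mem (hV ((hmem x).1 hx)) (hρV y (hV ((hmem y).1 hy)))) hne
  -- `S ⊆ ρ S`, hence equality
  have himg : S ⊆ S.image ρ := fun x hx => by
    obtain ⟨y, hy, hyx⟩ := hcore x hx
    exact Finset.mem_image.2 ⟨y, hy, hyx⟩
  have heq : S = S.image ρ := Finset.eq_of_subset_of_card_le himg Finset.card_image_le
  rw [← hmem, ← hmem]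
  constructor
  · intro hx
    rw [heq]
    exact Finset.mem_image_of_mem _ hx
  · intro hx
    obtain ⟨y, hy, hyx⟩ := hcore (ρ x) hx
    rwa [ρ.injective hyx] at hy

end

end Pool.Agent.FF.Rk
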