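import Pool.Agent.FE.Zero
import Pool.Agent.FE.PiMinK
import Pool.Agent.FE.Same
import Pool.Agent.FF.RatAd
import Pool.Agent.FF.Bridge

/-! # D5: the local lemma over infinity (88) -/

set_option autoImplicit false
set_option linter.unusedSectionVars false
set_option linter.unusedVariables false

namespace Pool.Agent.FF.Rk

section

variable {F k H : Type} {j : ℕ} [Field F] [Finite F] [Field k] [Finite k] [Field H] [Algebra F k]
  [Algebra F H] [Algebra k H] [Algebra (RatFunc k) H] [IsScalarTower k (RatFunc k) H]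

/-- an automorphism over `k(g)` as a homomorphism over `F` -/
noncomputable def DGn.fH {N : Polynomial F} (h : DrS F j k H N) (σ : H ≃ₐ[RatFunc k] H) :
    H →ₐ[F] H :=
  { (σ : H →+* H) with
    commutes' := fun c => by
      rw [h.tower]
      exact σ.commutes _ }

theorem DGn.fH_apply {N : Polynomial F} (h : DrS F j k H N) (σ : H ≃ₐ[RatFunc k] H) (x : H) :
    DGn.fH h σ x = σ x := rfl

/-- the image of a subspace -/
noncomputable def DGn.img {N : Polynomial F} (h : DrS F j k H N) (σ : H ≃ₐ[RatFunc k] H)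
    (L : Submodule F H) : Submodule F H := L.map (DGn.fH h σ).toLinearMap

theorem DGn.mem_img {N : Polynomial F} (h : DrS F j k H N) (σ : H ≃ₐ[RatFunc k] H)
    (L : Submodule F H) (x : H) : x ∈ L ↔ σ x ∈ DGn.img h σ L := by
  constructor
  · intro hx
    exact ⟨x, hx, rfl⟩
  · rintro ⟨y, hy, hxy⟩
    have : y = x := σ.injective hxy
    rwa [← this]

theorem DGn.gX_fix (σ : H ≃ₐ[RatFunc k] H) : σ (gX k H) = gX k H := σ.commutes _

theorem DGn.mem_VN {N : Polynomial F} (h : DrS F j k H N) (σ : H ≃ₐ[RatFunc k] H)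
    (N' : Polynomial F) (x : H) : x ∈ VN F j (gX k H) N' ↔ σ x ∈ VN F j (gX k H) N' := by
  have h1 := map_phN (j := j) (DGn.fH h σ) (gX k H) x N'
  rw [DGn.fH_apply, DGn.fH_apply, DGn.fH_apply, DGn.gX_fix] at h1
  show phN F j (gX k H) N' x = 0 ↔ phN F j (gX k H) N' (σ x) = 0
  rw [← h1]
  exact (map_eq_zero σ).symm

theorem DGn.map_phT (j : ℕ) (σ : H ≃ₐ[RatFunc k] H) (x : H) :
    σ (phT F j (gX k H) x) = phT F j (gX k H) (σ x) := by
  rw [phT_apply, phT_apply, map_sub, map_add, map_mul, map_pow, map_pow, DGn.gX_fix]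

variable {s : ℕ} {M : Fin s → Polynomial F}

theorem DGn.LT_img {N : Polynomial F} (h : DrS F j k H N) (σ : H ≃ₐ[RatFunc k] H)
    {L : Fin s → Submodule F H} (hL : LT j (gX k H) M L) :
    LT j (gX k H) M (fun i => DGn.img h σ (L i)) where
  pos := hL.pos
  monic := hL.monic
  irr := hL.irr
  one := hL.one
  inj := hL.inj
  full := hL.full
  line i := by
    refine ⟨?_, ?_, ?_⟩
    · rintro _ ⟨y, hy, rfl⟩
      exact (DGn.mem_VN h σ _ y).1 ((hL.line i).le hy)
    · rintro _ ⟨y, hy, rfl⟩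
      exact ⟨phT F j (gX k H) y, (hL.line i).st y hy, DGn.map_phT j σ y⟩
    · rw [← (hL.line i).card]
      refine (Nat.card_congr (Equiv.ofBijective
        (fun x : L i => (⟨σ x, (DGn.mem_img h σ (L i) x).1 x.2⟩ : DGn.img h σ (L i))) ⟨?_, ?_⟩)).symm
      · intro x y hxy
        exact Subtype.ext (σ.injective (congrArg Subtype.val hxy))
      · rintro ⟨_, y, hy, rfl⟩
        exact ⟨⟨y, hy⟩, rfl⟩

theorem DGn.actL_img {N : Polynomial F} (h : DrS F j k H N) (σ : H ≃ₐ[RatFunc k] H)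
    (L : Fin s → Submodule F H) : actL σ L (fun i => DGn.img h σ (L i)) :=
  fun i x => DGn.mem_img h σ (L i) x

/-- the elements of the inertia group preserve `V_0` -/
theorem DGn.mem_V0 {N : Polynomial F} (h : DrS F j k H N) {Q : DV H} {ρ : H ≃ₐ[RatFunc k] H}
    (hρ : Inert Q ρ) (N' : Polynomial F) (x : H) :
    x ∈ V0 F j (gX k H) Q N' ↔ ρ x ∈ V0 F j (gX k H) Q N' := by
  show (x ∈ VN F j (gX k H) N' ∧ Q.G 0 x ∧ InV0 F j (gX k H) Q x) ↔
    (ρ x ∈ VN F j (gX k H) N' ∧ Q.G 0 (ρ x) ∧ InV0 F j (gX k H) Q (ρ x))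
  rw [← DGn.mem_VN h ρ, hρ.G]
  unfold InV0
  rw [hρ.ord, map_eq_zero ρ]

/-- the elements of the inertia group preserve the type -/
theorem DGn.typ_inert {N : Polynomial F} (h : DrS F j k H N) {Q : DV H} {ρ : H ≃ₐ[RatFunc k] H}
    (hρ : Inert Q ρ) {L L' : Fin s → Submodule F H} (ha : actL ρ L L') :
    typ F j (gX k H) Q M L' = typ F j (gX k H) Q M L := by
  classical
  unfold typ
  refine Finset.filter_congr fun i _ => not_congr ?_
  constructor
  · intro h1 x hx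
    rw [DGn.mem_V0 h hρ]
    exact h1 ((ha i x).1 hx)
  · intro h1 y hy
    obtain ⟨x, rfl⟩ := ρ.surjective y
    rw [← DGn.mem_V0 h hρ]
    exact h1 ((ha i x).2 hy)

/-- the sums of lines are finite -/
theorem DGn.fin {g : H} {L : Fin s → Submodule F H} (hL : LT j g M L) (J : Finset (Fin s)) :
    Finite ↥(⨆ i ∈ J, L i) := by
  have h1 : ∀ i, FiniteDimensional F (L i) := by
    intro i
    have h2 : Finite (L i) := by
      apply Nat.finite_of_card_ne_zero
      rw [(hL.line i).card]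
      exact pow_ne_zero _ Nat.card_pos.ne'
    exact Module.Finite.of_finite
  have h2 : FiniteDimensional F ↥(⨆ i ∈ J, L i) := by
    rw [← Finset.sup_eq_iSup]
    exact Submodule.finite_finset_sup J L
  exact Module.finite_of_finite F

theorem DGn.stL_of_fix (h : DrS F j k H (∏ i, M i)) {L : Fin s → Submodule F H}
    {σ : H ≃ₐ[RatFunc k] H} (hσ : ∀ x : EL k L, σ x = x) : σ ∈ stL k L := by
  have hfd := h.fin
  rw [← IntermediateField.fixingSubgroup_fixedField (stL k L)]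
  intro x
  exact hσ x

theorem DGn.fix_of_stL {L : Fin s → Submodule F H} {σ : H ≃ₐ[RatFunc k] H} (hσ : σ ∈ stL k L)
    (x : EL k L) : σ x = x := x.2 ⟨σ, hσ⟩

/-- an extension of an embedding -/
theorem DGn.exists_ext (h : DrS F j k H (∏ i, M i)) {L : Fin s → Submodule F H}
    (τ : EL k L →ₐ[RatFunc k] H) : ∃ σ : H ≃ₐ[RatFunc k] H, ∀ x : EL k L, σ x = τ x := by
  have hfd := h.fin
  have hgal := h.gal
  refine ⟨AlgEquiv.ofBijective (τ.liftNormal H) (Algebra.IsAlgebraic.algHom_bijective _), ?_⟩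
  intro x
  exact τ.liftNormal_commutes H x

theorem DGn.exists_zero (h : DrS F j k H (∏ i, M i)) {L : Fin s → Submodule F H}
    (hL : LT j (gX k H) M L) : ∃ R : DV (EL k L), Over R (Rat.pt (0 : k)) ∧ R.Rat k := by
  have hfd := h.fin
  obtain ⟨R, hR⟩ := exists_above (L := EL k L) (Rat.pt (0 : k))
  exact ⟨R, hR, (zero_rat h hL hR).2⟩

/-- restriction of an element of the inertia group -/
def DGn.InR (Q : DV H) {L : Fin s → Submodule F H} (τ : EL k L →ₐ[RatFunc k] H) : Prop :=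
  ∃ ρ : H ≃ₐ[RatFunc k] H, Inert Q ρ ∧ ∀ x : EL k L, ρ (algebraMap (EL k L) H x) = τ x

/-- restriction of an element of the inertia group which fixes the lines outside the type -/
def DGn.OutR (j : ℕ) (Q : DV H) (M : Fin s → Polynomial F) {L : Fin s → Submodule F H}
    (τ : EL k L →ₐ[RatFunc k] H) : Prop :=
  ∃ ρ : H ≃ₐ[RatFunc k] H, Inert Q ρ ∧ (∀ x : EL k L, ρ (algebraMap (EL k L) H x) = τ x) ∧
    ∀ i ∉ typ F j (gX k H) Q M L, ∀ x, x ∈ L i ↔ ρ x ∈ L i

theorem DGn.OutR.inR {Q : DV H} {L : Fin s → Submodule F H} {τ : EL k L →ₐ[RatFunc k] H}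
    (h : DGn.OutR j Q M τ) : DGn.InR Q τ := by
  obtain ⟨ρ, h1, h2, -⟩ := h
  exact ⟨ρ, h1, h2⟩

/-- the local element -/
theorem DGn.loc (h : DrS F j k H (∏ i, M i)) {L : Fin s → Submodule F H}
    (hL : LT j (gX k H) M L) {P : DV (EL k L)} (hP : Over P (Rat.inf k)) {Q : DV H} {e' : ℕ}
    (hQ : OverE Q P e') (τ : EL k L →ₐ[RatFunc k] H)
    (hτ : τ ≠ IsScalarTower.toAlgHom (RatFunc k) (EL k L) H) :
    ∃ y : EL k L, IntO (Rat.inf k) y ∧ algebraMap (EL k L) H y - τ y ≠ 0 ∧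
      (¬ DGn.InR Q τ → Q.ord (algebraMap (EL k L) H y - τ y) ≤ 0) ∧
      (¬ DGn.OutR j Q M τ → Q.ord (algebraMap (EL k L) H y - τ y) ≤ e') ∧
      (DGn.OutR j Q M τ → (Nat.card F : ℤ) ^ (j * dgM M (typ F j (gX k H) Q M L)) *
        (((Nat.card F : ℤ) - 1) * (((Nat.card F : ℤ) ^ j - 1) *
          (Q.ord (algebraMap (EL k L) H y - τ y) - e'))) ≤
        ((Nat.card F : ℤ) ^ (j + 1) - 1) * (- Q.ord (gX k H))) := by
  classical
  have hfd := h.fin
  have hgal := h.gal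
  have hinf : (Rat.inf k).resCard ≠ 0 := by
    rw [Rat.resCard_inf]
    exact Nat.card_pos.ne'
  have hQP : Over Q P := hQ.over
  have hQK : Over Q (Rat.inf k) := hQP.trans' hP
  have hg : Q.ord (gX k H) < 0 := by
    obtain ⟨e, he⟩ := hQK.overE
    rw [he.2, Rat.inf_X]
    have := he.1
    have h3 : (1 : ℤ) ≤ e := by exact_mod_cast this
    linarith
  by_cases hin : DGn.InR Q τ
  swap
  · obtain ⟨y, hy, hy0, hy1⟩ := exists_unit_of_not_inert (E := EL k L) hQP hP hinf τ hin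
    refine ⟨y, hy, hy0, fun _ => hy1.le, fun _ => by rw [hy1]; positivity,
      fun ho => absurd ho.inR hin⟩
  obtain ⟨T, e, f, -, hT, hTf, -⟩ := sum_ef (E := EL k L) (Rat.inf k) hinf
  have hPres : P.resCard ≠ 0 := by
    rw [(hTf P ((hT P).2 hP)).2.2]
    exact pow_ne_zero _ hinf
  obtain ⟨π, hπ, hπI⟩ := exists_unif (K := RatFunc k) (E := EL k L) hP
  have hQπ : Q.ord (algebraMap (EL k L) H π) = e' := by
    rw [hQ.2, hπ, mul_one]
  -- every restriction of an inert element moves some `z`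
  have hmv : ∀ ρ : H ≃ₐ[RatFunc k] H, Inert Q ρ →
      (∀ x : EL k L, ρ (algebraMap (EL k L) H x) = τ x) → ∀ z : EL k L,
      ρ (algebraMap (EL k L) H z) ≠ algebraMap (EL k L) H z →
      algebraMap (EL k L) H π - τ π ≠ 0 ∧
      Q.ord (algebraMap (EL k L) H π - τ π) ≤
        e' + Q.ord (ρ (algebraMap (EL k L) H z) / algebraMap (EL k L) H z - 1) := by
    intro ρ hρ hρτ z hz
    have h1 := hρ.pi_min_k k hQP hPres hπ hz
    rw [hρτ π, hQπ] at h1
    exact h1
  obtain ⟨ρ, hρ, hρτ⟩ := hin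
  have hex : ∃ z : EL k L, ρ (algebraMap (EL k L) H z) ≠ algebraMap (EL k L) H z := by
    by_contra hno
    push Not at hno
    refine hτ (AlgHom.ext fun x => ?_)
    rw [← hρτ, hno]
    rfl
  obtain ⟨z0, hz0⟩ := hex
  have hπ0 : algebraMap (EL k L) H π - τ π ≠ 0 := (hmv ρ hρ hρτ z0 hz0).1
  refine ⟨π, hπI, hπ0, fun h1 => absurd ⟨ρ, hρ, hρτ⟩ h1, ?_, ?_⟩
  · intro hout
    -- some `z` is not fixed up to units congruent to one
    by_contra hcon
    push Not at hcon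
    refine hout ⟨ρ, hρ, hρτ, ?_⟩
    intro i hi x
    refine same_line h hL hg hρ (fun z hz => ?_) hi x
    by_contra hzG
    have hz1 : ρ (algebraMap (EL k L) H z) / algebraMap (EL k L) H z - 1 ≠ 0 :=
      DV.ne_zero_of_not_G hzG
    have hz2 : ρ (algebraMap (EL k L) H z) ≠ algebraMap (EL k L) H z := by
      intro h1
      have hzH : algebraMap (EL k L) H z ≠ 0 := by rwa [Ne, map_eq_zero]
      exact hz1 (by rw [h1, div_self hzH, sub_self])
    have h1 := (hmv ρ hρ hρτ z hz2).2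
    have h2 : Q.ord (ρ (algebraMap (EL k L) H z) / algebraMap (EL k L) H z - 1) < 1 := by
      by_contra h3
      push Not at h3
      exact hzG (DV.G_of_le h3)
    omega
  · rintro ⟨ρ', hρ', hρτ', hfix⟩
    obtain ⟨L', hL'd⟩ : ∃ L' : Fin s → Submodule F H, L' = fun i => DGn.img h ρ' (L i) := ⟨_, rfl⟩
    have hact : actL ρ' L L' := by
      rw [hL'd]
      exact DGn.actL_img h ρ' L
    have hLT : LT j (gX k H) M L' := by
      rw [hL'd]
      exact DGn.LT_img h ρ' hL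
    have htyp : typ F j (gX k H) Q M L' = typ F j (gX k H) Q M L := DGn.typ_inert h hρ' hact
    have ho : ∀ i ∉ typ F j (gX k H) Q M L, L' i = L i := by
      intro i hi
      ext y
      obtain ⟨x, rfl⟩ := ρ'.surjective y
      rw [← hact i x]
      exact hfix i hi x
    have hne : L' ≠ L := by
      intro h1
      refine hτ (AlgHom.ext fun x => ?_)
      have h2 : ρ' ∈ stL k L := by
        show ∀ i x, x ∈ L i ↔ ρ' x ∈ L i
        rw [h1] at hact
        exact hact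
      rw [← hρτ']
      exact DGn.fix_of_stL h2 x
    obtain ⟨hc0, hc1⟩ := cL_conj hL hLT hg htyp ho hne
    obtain ⟨I, hI⟩ : ∃ I, I = typ F j (gX k H) Q M L := ⟨_, rfl⟩
    rw [← hI] at hc0 hc1 ⊢
    obtain ⟨c, hc⟩ : ∃ c, c = cL F (⨆ i ∈ I, L i) := ⟨_, rfl⟩
    have hcE : c ∈ EL k L := by
      rw [hc]
      exact cL_mem' L I
    have hcH0 : c ≠ 0 := by
      rw [hc]
      exact Pool.Agent.FF.LnD.cL_ne_zero (DGn.fin hL I)
    have hσc : ρ' c = cL F (⨆ i ∈ I, L' i) := by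
      rw [hc]
      exact hact.map_cL I
    rw [← hc, ← hσc] at hc0 hc1
    have hz2 : ρ' (algebraMap (EL k L) H ⟨c, hcE⟩) ≠ algebraMap (EL k L) H ⟨c, hcE⟩ := by
      intro h1
      have h2 : ρ' c = c := h1
      exact hc0 (by rw [h2, div_self hcH0, sub_self])
    have h1 := (hmv ρ' hρ' hρτ' _ hz2).2
    have h2 : Q.ord (algebraMap (EL k L) H π - τ π) - e' ≤ Q.ord (ρ' c / c - 1) := by
      have h3 : Q.ord (ρ' (algebraMap (EL k L) H ⟨c, hcE⟩) / algebraMap (EL k L) H ⟨c, hcE⟩ - 1) =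
        Q.ord (ρ' c / c - 1) := rfl
      rw [h3] at h1
      linarith
    rw [← hc1]
    have hr : (1 : ℤ) ≤ (Nat.card F : ℤ) := by exact_mod_cast Nat.card_pos
    have hrj : (1 : ℤ) ≤ (Nat.card F : ℤ) ^ j := one_le_pow₀ hr
    refine mul_le_mul_of_nonneg_left ?_ (by positivity)
    refine mul_le_mul_of_nonneg_left ?_ (by linarith)
    exact mul_le_mul_of_nonneg_left h2 (by linarith)

theorem DGn.img_ne {N : Polynomial F} (h : DrS F j k H N) {L : Fin s → Submodule F H}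
    {σ : H ≃ₐ[RatFunc k] H} (hσ : σ ∉ stL k L) : (fun i => DGn.img h σ (L i)) ≠ L := by
  intro h1
  refine hσ ?_
  show ∀ i x, x ∈ L i ↔ σ x ∈ L i
  have h2 := DGn.actL_img h σ L
  rw [h1] at h2
  exact h2

theorem DGn.C_le {r : ℤ} (hr : 2 ≤ r) {j : ℕ} (hj : 0 < j) :
    r ^ (j + 1) - 1 ≤ 3 * ((r - 1) * (r ^ j - 1)) := by
  have h1 : r ≤ r ^ j := le_self_pow₀ (by linarith) hj.ne'
  rw [pow_succ]
  nlinarith

theorem dgen_inf (h : DrS F j k H (∏ i, M i)) {L : Fin s → Submodule F H}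
    (hL : LT j (gX k H) M L) {Q : DV H} (hQ : Over Q (Rat.inf k)) {σ : H ≃ₐ[RatFunc k] H}
    (hσ : σ ∉ stL k L) : ∃ y : EL k L, IntO (Rat.inf k) y ∧ (y : H) - σ y ≠ 0 ∧
      Q.ord ((y : H) - σ y) ≤ 4 * (- Q.ord (gX k H)) := by
  classical
  have hfd := h.fin
  have hEH : FiniteDimensional (EL k L) H := FiniteDimensional.right (RatFunc k) (EL k L) H
  obtain ⟨P, hP⟩ := exists_below (K := EL k L) Q
  have hPK : Over P (Rat.inf k) := by
    obtain ⟨v', hv'⟩ := exists_below (K := RatFunc k) P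
    have h1 := (hP.trans' hv').unique hQ
    rwa [h1] at hv'
  obtain ⟨e', he'⟩ := hP.overE
  obtain ⟨eP, heP⟩ := hPK.overE
  obtain ⟨τ, hτ⟩ : ∃ τ : EL k L →ₐ[RatFunc k] H, ∀ x, τ x = σ (algebraMap (EL k L) H x) :=
    ⟨(σ : H →ₐ[RatFunc k] H).comp (IsScalarTower.toAlgHom (RatFunc k) (EL k L) H), fun x => rfl⟩
  have hne : τ ≠ IsScalarTower.toAlgHom (RatFunc k) (EL k L) H := by
    intro h1
    refine hσ (DGn.stL_of_fix h fun x => ?_)
    have h2 := hτ x
    rw [h1] at h2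
    exact h2.symm
  obtain ⟨y, hy, hy0, h1, h2, h3⟩ := DGn.loc h hL hPK he' τ hne
  have hyy : algebraMap (EL k L) H y - τ y = (y : H) - σ y := by
    rw [hτ]
    rfl
  rw [hyy] at hy0 h1 h2 h3
  have hordg : - Q.ord (gX k H) = e' * eP := by
    have h4 : Q.ord (algebraMap (EL k L) H (gX k (EL k L))) = e' * P.ord (gX k (EL k L)) := he'.2 _
    have h5 : P.ord (gX k (EL k L)) = eP * (Rat.inf k).ord RatFunc.X := heP.2 _
    have h6 : Q.ord (gX k H) = e' * P.ord (gX k (EL k L)) := h4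
    rw [h6, h5, Rat.inf_X]
    ring
  have he1 : (1 : ℤ) ≤ e' := by exact_mod_cast he'.1
  have he2 : (1 : ℤ) ≤ eP := by exact_mod_cast heP.1
  refine ⟨y, hy, hy0, ?_⟩
  rw [hordg] at h3 ⊢
  have he3 : (e' : ℤ) ≤ e' * eP := le_mul_of_one_le_right (by linarith) he2
  by_cases hout : DGn.OutR j Q M τ
  swap
  · have h4 := h2 hout
    linarith
  · have h4 := h3 hout
    have hr : (2 : ℤ) ≤ Nat.card F := by
      have : 1 < Nat.card F := Finite.one_lt_card
      exact_mod_cast this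
    have hrD : (1 : ℤ) ≤ (Nat.card F : ℤ) ^ (j * dgM M (typ F j (gX k H) Q M L)) :=
      one_le_pow₀ (by linarith)
    have hrj : (2 : ℤ) ≤ (Nat.card F : ℤ) ^ j :=
      hr.trans (le_self_pow₀ (by linarith) h.pos.ne')
    by_contra hcon
    push Not at hcon
    have hpos : (0 : ℤ) < ((Nat.card F : ℤ) - 1) * ((Nat.card F : ℤ) ^ j - 1) :=
      mul_pos (by linarith) (by linarith)
    have h5 : 3 * ((e' : ℤ) * eP) < Q.ord ((y : H) - σ y) - e' := by linarith
    have h6 := DGn.C_le hr h.pos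
    have h7 : ((Nat.card F : ℤ) - 1) * (((Nat.card F : ℤ) ^ j - 1) *
        (Q.ord ((y : H) - σ y) - e')) ≤ ((Nat.card F : ℤ) ^ (j + 1) - 1) * ((e' : ℤ) * eP) := by
      refine le_trans ?_ h4
      refine le_mul_of_one_le_left ?_ hrD
      exact mul_nonneg (by linarith) (mul_nonneg (by linarith) (by linarith))
    have h8 : ((Nat.card F : ℤ) ^ (j + 1) - 1) * ((e' : ℤ) * eP) ≤
        3 * (((Nat.card F : ℤ) - 1) * ((Nat.card F : ℤ) ^ j - 1)) * ((e' : ℤ) * eP) :=
      mul_le_mul_of_nonneg_right h6 (by positivity)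
    have h9 : (((Nat.card F : ℤ) - 1) * ((Nat.card F : ℤ) ^ j - 1)) * (3 * ((e' : ℤ) * eP)) <
        (((Nat.card F : ℤ) - 1) * ((Nat.card F : ℤ) ^ j - 1)) *
          (Q.ord ((y : H) - σ y) - e') := mul_lt_mul_of_pos_left h5 hpos
    linarith

end

end Pool.Agent.FF.Rk
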