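import Pool.Agent.FE.Zero
import Pool.Agent.FE.Ine
import Pool.Agent.FE.IneB
import Pool.Agent.FE.DGenA
import Pool.Agent.FD.RHB
import Pool.Agent.FD.DGen
import Pool.Agent.FF.RatAd
import Pool.Agent.FF.Bridge

/-! # D5: genus and points of the field of a line tuple (88) -/

set_option autoImplicit false
set_option linter.unusedSectionVars false
set_option linter.unusedVariables false

namespace Pool.Agent.FF.Rk

section

variable {F k H : Type} {j : ℕ} [Field F] [Finite F] [Field k] [Finite k] [Field H] [Algebra F k]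
  [Algebra F H] [Algebra k H] [Algebra (RatFunc k) H] [IsScalarTower k (RatFunc k) H]

variable {s : ℕ} {M : Fin s → Polynomial F}

/-- the places over `g = 0` -/
theorem DGn.pts (h : DrS F j k H (∏ i, M i)) {L : Fin s → Submodule F H}
    (hL : LT j (gX k H) M L) :
    ∃ T : Finset (DV (EL k L)), T.card = psiJ j M ∧ ∀ P ∈ T, P.Rat k := by
  classical
  have hfd := h.fin
  have hgal := h.gal
  obtain ⟨R, -, hR⟩ := DGn.exists_zero h hL
  have hpt : (Rat.pt (0 : k)).resCard ≠ 0 := by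
    rw [Rat.resCard_pt]
    exact Nat.card_pos.ne'
  obtain ⟨T, e, f, -, hT, hTf, hsum⟩ := sum_ef (E := EL k L) (Rat.pt (0 : k)) hpt
  refine ⟨T, ?_, fun P hP => (zero_rat h hL ((hT P).1 hP)).2⟩
  rw [finrank_EL h hL hR] at hsum
  rw [← hsum, Finset.card_eq_sum_ones]
  refine Finset.sum_congr rfl fun w hw => ?_
  obtain ⟨h1, h2⟩ := zero_rat h hL ((hT w).1 hw)
  obtain ⟨h3, h4, h5⟩ := hTf w hw
  have h6 : e w = 1 := by
    obtain ⟨t, _, ht1⟩ := (Rat.pt (0 : k)).exists_one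
    have h7 := h1.2 t
    rw [h3.2 t, ht1] at h7
    push_cast at h7
    omega
  have h7 : f w = 1 := by
    have h8 : w.resCard = Nat.card k := by
      rw [← DV.card_Res]
      exact h2.card_Res
    rw [h8, Rat.resCard_pt] at h5
    have h9 : Nat.card k ^ 1 = Nat.card k ^ f w := by rw [pow_one]; exact h5
    exact (Nat.pow_right_injective (Finite.one_lt_card (α := k)) h9).symm
  rw [h6, h7]

/-- the number of restrictions of elements of the inertia group which fix the lines outside the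
type -/
theorem DGn.count (h : DrS F j k H (∏ i, M i)) {L : Fin s → Submodule F H}
    (hL : LT j (gX k H) M L) {Q : DV H} (hg : Q.ord (gX k H) < 0)
    (S : Finset (EL k L →ₐ[RatFunc k] H)) (hS : ∀ τ ∈ S, DGn.OutR j Q M τ) :
    S.card ≤ Nat.card F ^ (j * dgM M (typ F j (gX k H) Q M L)) := by
  classical
  have hfd := h.fin
  have hgal := h.gal
  obtain ⟨I, hI⟩ : ∃ I, I = typ F j (gX k H) Q M L := ⟨_, rfl⟩
  rw [← hI]
  choose rho hrho1 hrho2 hrho3 using hS
  -- the target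
  let β : I → Type := fun i =>
    {A : Submodule F H // IsLine F j (gX k H) (M i) A ∧ ¬ A ≤ V0 F j (gX k H) Q (M i)}
  have hβ : ∀ i : I, Nat.card (β i) = Nat.card F ^ (j * (M i).natDegree) := fun i =>
    card_line_out h.pos hg (hL.monic i) (hL.irr i) (hL.one i) (hL.full i)
  have hβf : ∀ i : I, Finite (β i) := by
    intro i
    apply Nat.finite_of_card_ne_zero
    rw [hβ]
    exact pow_ne_zero _ Nat.card_pos.ne'
  have hcard : Nat.card (∀ i : I, β i) = Nat.card F ^ (j * dgM M I) := by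
    rw [Nat.card_pi, dgM, Finset.mul_sum, ← Finset.prod_pow_eq_pow_sum]
    rw [Finset.prod_congr rfl fun i _ => hβ i]
    exact Finset.prod_coe_sort I fun i => Nat.card F ^ (j * (M i).natDegree)
  have hmem : ∀ τ (hτ : τ ∈ S), ∀ i,
      (¬ DGn.img h (rho τ hτ) (L i) ≤ V0 F j (gX k H) Q (M i) ↔ i ∈ I) := by
    intro τ hτ i
    rw [hI, ← DGn.typ_inert h (hrho1 τ hτ) (DGn.actL_img h (rho τ hτ) L), typ, Finset.mem_filter]
    exact ⟨fun h1 => ⟨Finset.mem_univ _, h1⟩, fun h1 => h1.2⟩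
  let Φ : S → ∀ i : I, β i := fun τ i =>
    ⟨DGn.img h (rho τ.1 τ.2) (L i), (DGn.LT_img h (rho τ.1 τ.2) hL).line i,
      (hmem τ.1 τ.2 i).2 i.2⟩
  have hΦ : Function.Injective Φ := by
    rintro ⟨τ, hτ⟩ ⟨τ', hτ'⟩ hττ
    have hout : ∀ (σ) (hσ : σ ∈ S) (i), i ∉ I → DGn.img h (rho σ hσ) (L i) = L i := by
      intro σ hσ i hi
      ext y
      obtain ⟨x, rfl⟩ := (rho σ hσ).surjective y
      rw [← DGn.mem_img h (rho σ hσ) (L i)]
      rw [hI] at hi
      exact hrho3 σ hσ i hi x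
    have h1 : ∀ i, DGn.img h (rho τ hτ) (L i) = DGn.img h (rho τ' hτ') (L i) := by
      intro i
      by_cases hi : i ∈ I
      · exact congrArg Subtype.val (congrFun hττ ⟨i, hi⟩)
      · rw [hout τ hτ i hi, hout τ' hτ' i hi]
    have h2 : (rho τ hτ).trans (rho τ' hτ').symm ∈ stL k L := by
      show ∀ i x, x ∈ L i ↔ (rho τ' hτ').symm (rho τ hτ x) ∈ L i
      intro i x
      rw [DGn.mem_img h (rho τ hτ) (L i) x, h1 i,
        DGn.mem_img h (rho τ' hτ') (L i) ((rho τ' hτ').symm (rho τ hτ x)),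
        AlgEquiv.apply_symm_apply]
    refine Subtype.ext (AlgHom.ext fun x => ?_)
    have h3 : (rho τ' hτ').symm (rho τ hτ (x : H)) = x := DGn.fix_of_stL h2 x
    have h4 : rho τ hτ (x : H) = rho τ' hτ' (x : H) := by
      rw [← AlgEquiv.apply_symm_apply (rho τ' hτ') (rho τ hτ (x : H)), h3]
    have h5 : rho τ hτ (x : H) = τ x := hrho2 τ hτ x
    have h6 : rho τ' hτ' (x : H) = τ' x := hrho2 τ' hτ' x
    show τ x = τ' x
    rw [← h5, ← h6, h4]
  have h4 := Nat.card_le_card_of_injective Φ hΦ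
  rw [hcard] at h4
  simpa using h4

/-- the local bound at infinity -/
theorem DGn.inf_bound (h : DrS F j k H (∏ i, M i)) {L : Fin s → Submodule F H}
    (hL : LT j (gX k H) M L) {P : DV (EL k L)} {eP : ℕ} (hP : OverE P (Rat.inf k) eP)
    {Q : DV H} (hQ : Over Q P) {a : EL k L}
    (ha : ∀ b : EL k L, IntO (Rat.inf k) b →
      (Rat.inf k).G 0 (Algebra.trace (RatFunc k) (EL k L) (a * b))) (ha0 : a ≠ 0) :
    (((Nat.card F : ℤ) - 1) * ((Nat.card F : ℤ) ^ j - 1)) * (- P.ord a) ≤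
      (((Nat.card F : ℤ) - 1) * ((Nat.card F : ℤ) ^ j - 1) + ((Nat.card F : ℤ) ^ (j + 1) - 1)) *
        ((eP : ℤ) - 1) := by
  classical
  have hfd := h.fin
  have hgal := h.gal
  obtain ⟨R, -, hR⟩ := DGn.exists_zero h hL
  have hPK : Over P (Rat.inf k) := hP.over
  have hQK : Over Q (Rat.inf k) := hQ.trans' hPK
  have hinf : (Rat.inf k).resCard ≠ 0 := by
    rw [Rat.resCard_inf]
    exact Nat.card_pos.ne'
  obtain ⟨e', he'⟩ := hQ.overE
  obtain ⟨u, hu⟩ := pow_dvd_e h hL hR hP hQ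
  obtain ⟨W, hW⟩ : ∃ W : ℕ, W = Nat.card F ^ (j * dgM M (typ F j (gX k H) Q M L)) := ⟨_, rfl⟩
  rw [← hW] at hu
  have hWZ : (W : ℤ) = (Nat.card F : ℤ) ^ (j * dgM M (typ F j (gX k H) Q M L)) := by
    rw [hW]
    push_cast
    rfl
  obtain ⟨r, hrr⟩ : ∃ r : ℤ, r = (Nat.card F : ℤ) := ⟨_, rfl⟩
  have hr : 2 ≤ r := by
    rw [hrr]
    have : 1 < Nat.card F := Finite.one_lt_card
    exact_mod_cast this
  have hrj : (2 : ℤ) ≤ r ^ j := hr.trans (le_self_pow₀ (by linarith) h.pos.ne')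
  have hW1 : (1 : ℤ) ≤ W := by
    rw [hWZ, ← hrr]
    exact one_le_pow₀ (by linarith)
  have he1 : (1 : ℤ) ≤ e' := by exact_mod_cast he'.1
  have heP : (1 : ℤ) ≤ eP := by exact_mod_cast hP.1
  have huZ : (eP : ℤ) = W * u := by exact_mod_cast hu
  have hu1 : (1 : ℤ) ≤ u := by
    have h1 : 0 < eP := hP.1
    rw [hu] at h1
    exact_mod_cast Nat.pos_of_mul_pos_left h1
  have hordg : - Q.ord (gX k H) = e' * eP := by
    have h4 : Q.ord (algebraMap (EL k L) H (gX k (EL k L))) = e' * P.ord (gX k (EL k L)) := he'.2 _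
    have h5 : P.ord (gX k (EL k L)) = eP * (Rat.inf k).ord RatFunc.X := hP.2 _
    have h6 : Q.ord (gX k H) = e' * P.ord (gX k (EL k L)) := h4
    rw [h6, h5, Rat.inf_X]
    ring
  have hg : Q.ord (gX k H) < 0 := by
    have h1 : (0 : ℤ) < e' * eP := by positivity
    linarith
  obtain ⟨c1, hc1⟩ : ∃ c1, c1 = (r - 1) * (r ^ j - 1) := ⟨_, rfl⟩
  obtain ⟨B, hB⟩ : ∃ B, B = r ^ (j + 1) - 1 := ⟨_, rfl⟩
  rw [← hrr, ← hc1, ← hB]
  have hc1p : 0 < c1 := by
    rw [hc1]
    exact mul_pos (by linarith) (by linarith)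
  have hBp : 0 ≤ B := by
    rw [hB]
    have : (1 : ℤ) ≤ r ^ (j + 1) := one_le_pow₀ (by linarith)
    linarith
  have hFT : Fintype (EL k L →ₐ[RatFunc k] H) := Fintype.ofFinite _
  obtain ⟨ι, hι⟩ : ∃ ι : EL k L →ₐ[RatFunc k] H, ι = IsScalarTower.toAlgHom (RatFunc k) (EL k L) H :=
    ⟨_, rfl⟩
  have hex : ∀ τ : EL k L →ₐ[RatFunc k] H, ∃ y : EL k L, IntO (Rat.inf k) y ∧ (τ ≠ ι →
      algebraMap (EL k L) H y - τ y ≠ 0 ∧
      W * c1 * Q.ord (algebraMap (EL k L) H y - τ y) ≤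
        (if DGn.InR Q τ then W * c1 * e' else 0) +
        (if DGn.OutR j Q M τ then B * (e' * eP) else 0)) := by
    intro τ
    by_cases hτ : τ = ι
    · exact ⟨0, fun w _ => DV.G_zero _, fun h1 => absurd hτ h1⟩
    · obtain ⟨y, hy, hy0, h1, h2, h3⟩ := DGn.loc h hL hPK he' τ (by rwa [hι] at hτ)
      refine ⟨y, hy, fun _ => ⟨hy0, ?_⟩⟩
      rw [← hWZ, hordg, ← hrr, ← hB] at h3
      have hWc : (0 : ℤ) ≤ W * c1 := mul_nonneg (by linarith) hc1p.le
      by_cases hout : DGn.OutR j Q M τ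
      · rw [if_pos hout, if_pos hout.inR]
        have h4 := h3 hout
        have h5 : (W : ℤ) * ((r - 1) * ((r ^ j - 1) *
            (Q.ord (algebraMap (EL k L) H y - τ y) - e'))) =
            W * c1 * Q.ord (algebraMap (EL k L) H y - τ y) - W * c1 * e' := by
          rw [hc1]
          ring
        linarith
      · rw [if_neg hout, add_zero]
        by_cases hin : DGn.InR Q τ
        · rw [if_pos hin]
          exact mul_le_mul_of_nonneg_left (h2 hout) hWc
        · rw [if_neg hin]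
          exact mul_nonpos_of_nonneg_of_nonpos hWc (h1 hin)
  choose y hy hy2 using hex
  have h1 := lag (E := EL k L) hQK ha y hy
    (fun τ => Q.ord (algebraMap (EL k L) H (y τ) - τ (y τ))) (fun τ hτ => by
      rw [← hι] at hτ
      exact ⟨(hy2 τ hτ).1, le_rfl⟩)
  rw [← hι] at h1
  have ha0' : algebraMap (EL k L) H a ≠ 0 := by rwa [Ne, map_eq_zero]
  have h2 := h1.le ha0'
  rw [he'.2] at h2
  -- the numbers of embeddings
  have hι1 : DGn.OutR j Q M ι := by
    refine ⟨1, fun b _ => ?_, fun x => ?_, fun i _ x => Iff.rfl⟩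
    · show Q.G 1 (b - b)
      rw [sub_self]
      exact DV.G_zero _
    · rw [hι]
      rfl
  obtain ⟨S1, hS1⟩ : ∃ S1 : Finset (EL k L →ₐ[RatFunc k] H),
      S1 = Finset.univ.filter fun τ => DGn.InR Q τ := ⟨_, rfl⟩
  obtain ⟨S2, hS2⟩ : ∃ S2 : Finset (EL k L →ₐ[RatFunc k] H),
      S2 = Finset.univ.filter fun τ => DGn.OutR j Q M τ := ⟨_, rfl⟩
  have hS1c : S1.card ≤ eP := by
    refine card_inert_restr hQ hP hinf S1 fun τ hτ => ?_
    rw [hS1, Finset.mem_filter] at hτ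
    exact hτ.2
  have hS2c : S2.card ≤ W := by
    rw [hW]
    refine DGn.count h hL hg S2 fun τ hτ => ?_
    rw [hS2, Finset.mem_filter] at hτ
    exact hτ.2
  have hιS1 : ι ∈ S1 := by
    rw [hS1, Finset.mem_filter]
    exact ⟨Finset.mem_univ _, hι1.inR⟩
  have hιS2 : ι ∈ S2 := by
    rw [hS2, Finset.mem_filter]
    exact ⟨Finset.mem_univ _, hι1⟩
  have hf1 : (Finset.univ.erase ι).filter (fun τ => DGn.InR Q τ) = S1.erase ι := by
    ext τ
    rw [hS1, Finset.mem_filter, Finset.mem_erase, Finset.mem_erase, Finset.mem_filter, and_assoc]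
  have hf2 : (Finset.univ.erase ι).filter (fun τ => DGn.OutR j Q M τ) = S2.erase ι := by
    ext τ
    rw [hS2, Finset.mem_filter, Finset.mem_erase, Finset.mem_erase, Finset.mem_filter, and_assoc]
  have hn1 : (((S1.erase ι).card : ℕ) : ℤ) ≤ eP - 1 := by
    rw [Finset.card_erase_of_mem hιS1, Nat.cast_sub (Finset.card_pos.2 ⟨ι, hιS1⟩)]
    have : (S1.card : ℤ) ≤ eP := by exact_mod_cast hS1c
    push_cast
    linarith
  have hn2 : (((S2.erase ι).card : ℕ) : ℤ) ≤ W - 1 := by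
    rw [Finset.card_erase_of_mem hιS2, Nat.cast_sub (Finset.card_pos.2 ⟨ι, hιS2⟩)]
    have : (S2.card : ℤ) ≤ W := by exact_mod_cast hS2c
    push_cast
    linarith
  have hsum : W * c1 * ∑ τ ∈ Finset.univ.erase ι,
      Q.ord (algebraMap (EL k L) H (y τ) - τ (y τ)) ≤
      ((eP : ℤ) - 1) * (W * c1 * e') + (W - 1) * (B * (e' * eP)) := by
    rw [Finset.mul_sum]
    refine (Finset.sum_le_sum fun τ hτ => (hy2 τ (Finset.ne_of_mem_erase hτ)).2).trans ?_
    rw [Finset.sum_add_distrib, ← Finset.sum_filter, ← Finset.sum_filter, hf1, hf2,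
      Finset.sum_const, Finset.sum_const, nsmul_eq_mul, nsmul_eq_mul]
    have hWc : (0 : ℤ) ≤ W * c1 * e' := mul_nonneg (mul_nonneg (by linarith) hc1p.le) (by linarith)
    have hBe : (0 : ℤ) ≤ B * (e' * eP) := mul_nonneg hBp (by positivity)
    exact add_le_add (mul_le_mul_of_nonneg_right hn1 hWc) (mul_le_mul_of_nonneg_right hn2 hBe)
  have h3 : W * c1 * (- (e' * P.ord a)) ≤
      ((eP : ℤ) - 1) * (W * c1 * e') + (W - 1) * (B * (e' * eP)) := by
    refine le_trans (mul_le_mul_of_nonneg_left ?_ (mul_nonneg (by linarith) hc1p.le)) hsum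
    linarith
  have h4 : (W * e' : ℤ) * (c1 * (- P.ord a)) ≤ (W * e' : ℤ) * ((c1 + B) * ((eP : ℤ) - 1)) := by
    have h5 : (W * e' : ℤ) * (c1 * (- P.ord a)) = W * c1 * (- (e' * P.ord a)) := by ring
    rw [h5]
    refine h3.trans ?_
    have h6 : ((eP : ℤ) - 1) * (W * c1 * e') + (W - 1) * (B * (e' * eP)) =
        (W * e' : ℤ) * (c1 * ((eP : ℤ) - 1) + (W - 1) * (B * u)) := by
      rw [huZ]
      ring
    rw [h6]
    refine mul_le_mul_of_nonneg_left ?_ (by positivity)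
    have h7 : ((W : ℤ) - 1) * (B * u) ≤ B * ((eP : ℤ) - 1) := by
      have h8 : ((W : ℤ) - 1) * (B * u) = B * ((eP : ℤ) - u) := by
        rw [huZ]
        ring
      rw [h8]
      exact mul_le_mul_of_nonneg_left (by linarith) hBp
    linarith
  exact le_of_mul_le_mul_left h4 (by positivity)

/-- `2 G ≤ (1 / (r ^ j - 1) + 1 / (r - 1)) ψ` -/
theorem dgen (h : DrS F j k H (∏ i, M i)) {L : Fin s → Submodule F H}
    (hL : LT j (gX k H) M L) : IsFF k (EL k L) ∧ ∃ G : ℕ, Cv k (EL k L) G ∧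
      2 * ((Nat.card F - 1) * (Nat.card F ^ j - 1)) * G ≤
        (Nat.card F ^ j + Nat.card F - 2) * psiJ j M ∧
      ∃ T : Finset (DV (EL k L)), T.card = psiJ j M ∧ ∀ P ∈ T, P.Rat k := by
  classical
  have hfd := h.fin
  have hgal := h.gal
  have hEH : FiniteDimensional (EL k L) H := FiniteDimensional.right (RatFunc k) (EL k L) H
  obtain ⟨R, -, hR⟩ := DGn.exists_zero h hL
  obtain ⟨hff, G, C⟩ := exists_cv (k := k) (E := EL k L) hR
  refine ⟨hff, G, C, ?_, DGn.pts h hL⟩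
  obtain ⟨r, hrr⟩ : ∃ r : ℤ, r = (Nat.card F : ℤ) := ⟨_, rfl⟩
  have hr1 : 1 < Nat.card F := Finite.one_lt_card
  have hr : 2 ≤ r := by
    rw [hrr]
    exact_mod_cast hr1
  have hrj : (2 : ℤ) ≤ r ^ j := hr.trans (le_self_pow₀ (by linarith) h.pos.ne')
  have hinf : (Rat.inf k).resCard ≠ 0 := by
    rw [Rat.resCard_inf]
    exact Nat.card_pos.ne'
  obtain ⟨c1, hc1⟩ : ∃ c1, c1 = (r - 1) * (r ^ j - 1) := ⟨_, rfl⟩
  obtain ⟨B, hB⟩ : ∃ B, B = r ^ (j + 1) - 1 := ⟨_, rfl⟩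
  have hc1p : 0 < c1 := by
    rw [hc1]
    exact mul_pos (by linarith) (by linarith)
  have hBc : B - c1 = r ^ j + r - 2 := by
    rw [hB, hc1]
    ring
  have hBp : 0 ≤ B := by linarith
  obtain ⟨S, e, f, hSne, hS, hSf, hsum⟩ := sum_ef (E := EL k L) (Rat.inf k) hinf
  obtain ⟨ψ, hψ⟩ : ∃ ψ : ℕ, ψ = psiJ j M := ⟨_, rfl⟩
  have hfr : Module.finrank (RatFunc k) (EL k L) = psiJ j M := finrank_EL h hL hR
  rw [hfr, ← hψ] at hsum
  let D : DV (EL k L) →₀ ℤ :=
    Finsupp.onFinset S (fun P => if P ∈ S then ((c1 + B) * ((e P : ℤ) - 1)) / c1 else 0)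
    (fun P hP => by
      by_contra hcon
      exact hP (if_neg hcon))
  have hDS : ∀ P ∈ S, D P = ((c1 + B) * ((e P : ℤ) - 1)) / c1 := fun P hP => if_pos hP
  have hDn : ∀ P, P ∉ S → D P = 0 := fun P hP => if_neg hP
  have hdeg : c1 * RRD.degZ k D ≤ (c1 + B) * ((ψ : ℤ) - 1) := by
    rw [RRD.degZ, Finsupp.onFinset_sum _ (fun P => by ring), Finset.mul_sum]
    have h1 : ∀ P ∈ S, c1 * ((if P ∈ S then ((c1 + B) * ((e P : ℤ) - 1)) / c1 else 0) *
        (RRD.deg k P : ℤ)) ≤ (c1 + B) * (((e P * f P : ℕ) : ℤ) - f P) := by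
      intro P hP
      rw [if_pos hP]
      have h2 : RRD.deg k P = f P := by
        have h3 := (hSf P hP).2.2
        rw [Rat.resCard_inf] at h3
        show Nat.log (Nat.card k) (Nat.card P.Res) = f P
        rw [DV.card_Res, h3, Nat.log_pow (Finite.one_lt_card (α := k))]
      rw [h2]
      have h3 : c1 * (((c1 + B) * ((e P : ℤ) - 1)) / c1) ≤ (c1 + B) * ((e P : ℤ) - 1) :=
        Int.mul_ediv_self_le hc1p.ne'
      have h4 := mul_le_mul_of_nonneg_right h3 (by positivity : (0 : ℤ) ≤ (f P : ℤ))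
      push_cast
      calc c1 * (((c1 + B) * ((e P : ℤ) - 1)) / c1 * (f P : ℤ))
          = c1 * (((c1 + B) * ((e P : ℤ) - 1)) / c1) * (f P : ℤ) := by ring
        _ ≤ (c1 + B) * ((e P : ℤ) - 1) * (f P : ℤ) := h4
        _ = (c1 + B) * ((e P : ℤ) * f P - f P) := by ring
    refine (Finset.sum_le_sum h1).trans ?_
    rw [← Finset.mul_sum, Finset.sum_sub_distrib, ← Nat.cast_sum, hsum]
    refine mul_le_mul_of_nonneg_left ?_ (by linarith)
    obtain ⟨P0, hP0⟩ := hSne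
    have h2 : (1 : ℤ) ≤ ∑ P ∈ S, (f P : ℤ) := by
      have h3 : f P0 ≤ ∑ P ∈ S, f P :=
        Finset.single_le_sum (f := f) (fun _ _ => Nat.zero_le _) hP0
      have h4 : 1 ≤ ∑ P ∈ S, f P := (hSf P0 hP0).2.1.trans h3
      exact_mod_cast h4
    linarith
  have hmain := rhb (k := k) (E := EL k L) C hR D ?_
  · rw [hfr, ← hψ] at hmain
    rw [← hψ]
    have h1 : c1 * (2 * (G : ℤ) + 2 * (ψ : ℤ)) ≤ c1 * (RRD.degZ k D + 2) :=
      mul_le_mul_of_nonneg_left hmain hc1p.le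
    have h3 : ((2 * ((Nat.card F - 1) * (Nat.card F ^ j - 1)) * G : ℕ) : ℤ) = 2 * c1 * G := by
      have h4 : 1 ≤ Nat.card F ^ j := Nat.one_le_pow _ _ (by omega)
      push_cast [Nat.cast_sub hr1.le, Nat.cast_sub h4]
      rw [hc1, hrr]
    have h5 : (((Nat.card F ^ j + Nat.card F - 2) * ψ : ℕ) : ℤ) = (B - c1) * ψ := by
      have h4 : 2 ≤ Nat.card F ^ j + Nat.card F := by omega
      push_cast [Nat.cast_sub h4]
      rw [hBc, hrr]
    have h6 : 2 * c1 * (G : ℤ) ≤ (B - c1) * ψ := by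
      have h7 : 0 ≤ B - c1 := by
        rw [hBc]
        linarith
      nlinarith
    rw [← h3, ← h5] at h6
    exact_mod_cast h6
  · intro v a ha P hP
    obtain ⟨Q, hQ⟩ := exists_aboveH (K := RatFunc k) (H := H) P
    by_cases ha0 : a = 0
    · rw [ha0]
      exact DV.G_zero _
    by_cases hv : v = Rat.inf k
    · rw [hv] at ha hP
      have hPS : P ∈ S := (hS P).2 hP
      rw [hDS P hPS]
      have h1 := DGn.inf_bound h hL (hSf P hPS).1 hQ ha ha0
      rw [← hrr, ← hc1, ← hB] at h1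
      refine DV.G_of_le ?_
      have h2 : - P.ord a ≤ ((c1 + B) * ((e P : ℤ) - 1)) / c1 := by
        rw [Int.le_ediv_iff_mul_le hc1p]
        linarith
      linarith
    · have hPS : P ∉ S := fun h1 => hv (hP.unique ((hS P).1 h1))
      rw [hDn P hPS, neg_zero]
      have hQv : Over Q v := hQ.trans' hP
      exact (hQ.G_zero_iff a).1 (unram_trace (E := EL k L) hQv
        (fun σ hσ => drS_unit h hQv hv σ hσ) ha)

end

end Pool.Agent.FF.Rk
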