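import Pool.Agent.FE.ChebX
import Pool.Agent.FD.DrinA

/-! # Many places of exact degree `m`, general `q` (93) -/

set_option autoImplicit false

namespace Pool.Agent.FF

/-- many places of degree exactly `m` -/
theorem exists_manyX {k E : Type*} [Field k] [Finite k] [Field E] [Algebra k E]
    (hres : ∀ v : DV E, v.resCard ≠ 0) {m s C N : ℕ} (hm : 1 ≤ m)
    (h : WtX k E m s C) (hf : Few k E (m / 2) N)
    (hlt : 2 * (m / 2 * N + C * s) ≤ Nat.card k ^ m) :
    ∃ Q : Finset (DV E), (∀ v ∈ Q, v.deg (Nat.card k) = m) ∧ Nat.card k ^ m ≤ 2 * m * Q.card := by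
  classical
  obtain ⟨A, hA, hsum⟩ := h
  refine ⟨A.filter fun v => deg k v = m, fun v hv => (Finset.mem_filter.1 hv).2, ?_⟩
  have h1 : ∀ v ∈ A.filter (fun v => ¬ deg k v = m), deg k v ≤ m / 2 := by
    intro v hv
    obtain ⟨hvA, hne⟩ := Finset.mem_filter.1 hv
    obtain ⟨j, hj⟩ := dvd_of_Er (hres v) (hA v hvA)
    have hm2 : 2 ≤ j := by
      rcases j with _ | _ | j
      · omega
      · exact absurd (by rw [hj]; ring) hne
      · omega
    rw [Nat.le_div_iff_mul_le (by norm_num)]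
    calc deg k v * 2 ≤ deg k v * j := Nat.mul_le_mul_left _ hm2
      _ = m := hj.symm
  have h2 : ∑ v ∈ A.filter (fun v => ¬ deg k v = m), deg k v ≤ m / 2 * N := by
    calc ∑ v ∈ A.filter (fun v => ¬ deg k v = m), deg k v
        ≤ ∑ _v ∈ A.filter (fun v => ¬ deg k v = m), m / 2 := Finset.sum_le_sum h1
      _ = m / 2 * (A.filter (fun v => ¬ deg k v = m)).card := by
        rw [Finset.sum_const, smul_eq_mul, mul_comm]
      _ ≤ m / 2 * N := Nat.mul_le_mul_left _ (hf _ h1)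
  have h3 : ∑ v ∈ A.filter (fun v => deg k v = m), deg k v =
      m * (A.filter fun v => deg k v = m).card := by
    rw [Finset.sum_congr rfl (fun v hv => (Finset.mem_filter.1 hv).2), Finset.sum_const,
      smul_eq_mul, mul_comm]
  have h4 := Finset.sum_filter_add_sum_filter_not A (fun v => deg k v = m) (fun v => deg k v)
  rw [h3] at h4
  have h5 : 2 * m * (A.filter fun v => deg k v = m).card =
      2 * (m * (A.filter fun v => deg k v = m).card) := by ring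
  rw [h5]
  omega

/-- `m ≤ r ^ ⌈m / 2⌉` -/
theorem le_pow_half {r m : ℕ} (hr : 2 ≤ r) (hm : 1 ≤ m) : m ≤ r ^ ((m + 1) / 2) := by
  obtain ⟨t, ht | ht⟩ := Nat.even_or_odd' m
  · have h1 : (m + 1) / 2 = t := by omega
    rw [h1, ht]
    have h2 : 2 * t ≤ 2 ^ t := by
      have : 1 ≤ t := by omega
      obtain ⟨u, rfl⟩ : ∃ u, t = u + 1 := ⟨t - 1, by omega⟩
      rw [pow_succ]
      have := Nat.lt_two_pow_self (n := u)
      omega
    exact h2.trans (Nat.pow_le_pow_left hr _)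
  · have h1 : (m + 1) / 2 = t + 1 := by omega
    rw [h1, ht]
    have h2 : 2 * t + 1 ≤ 2 ^ (t + 1) := by
      rw [pow_succ]
      have := Nat.lt_two_pow_self (n := t)
      omega
    exact h2.trans (Nat.pow_le_pow_left hr _)

/-- the numbers -/
theorem drin_numX {r n D m G w c s : ℕ} (hr : 2 ≤ r) (hw : 2 ≤ w) (hn : n ≤ r ^ (c * D))
    (hG : G ≤ 4 * n ^ 2) (hn1 : 1 ≤ n) (hm : 2 * (5 + 4 * c + w) * (D + 1) ≤ m)
    (hs1 : r ^ (w * m / 2) ≤ s) (hs2 : s ≤ r ^ (w * m / 2 + 1)) :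
    (G + 1) * (G + 2) ≤ s ∧
      2 * (m / 2 * (n * (1 + (r ^ w) ^ (m / 2 + 1))) + n * (2 * G + 3) * s) ≤ (r ^ w) ^ m := by
  have hr0 : 0 < r := by omega
  have h32 : 32 ≤ r ^ 5 := by
    calc 32 = 2 ^ 5 := by norm_num
      _ ≤ r ^ 5 := Nat.pow_le_pow_left hr 5
  have hn2 : 1 ≤ n ^ 2 := Nat.one_le_pow _ _ hn1
  have hn3 : n ^ 3 ≤ r ^ (3 * (c * D)) := by
    calc n ^ 3 ≤ (r ^ (c * D)) ^ 3 := Nat.pow_le_pow_left hn 3
      _ = r ^ (3 * (c * D)) := by rw [← pow_mul]; congr 1; ring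
  have hn4 : n ^ 4 ≤ r ^ (4 * (c * D)) := by
    calc n ^ 4 ≤ (r ^ (c * D)) ^ 4 := Nat.pow_le_pow_left hn 4
      _ = r ^ (4 * (c * D)) := by rw [← pow_mul]; congr 1; ring
  have hmc : 10 + 8 * (c * D) + 2 * w + 2 ≤ m + 2 := by
    have e : 2 * (5 + 4 * c + w) * (D + 1) =
      10 + 8 * (c * D) + 2 * w + (10 * D + 8 * c + 2 * (w * D)) := by ring
    omega
  have hwm : 2 * m ≤ w * m := Nat.mul_le_mul_right _ hw
  have hwm2 : m ≤ w * m / 2 := by omega
  have hm1 : 1 ≤ m := by omega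
  constructor
  · calc (G + 1) * (G + 2) ≤ (5 * n ^ 2) * (6 * n ^ 2) := Nat.mul_le_mul (by omega) (by omega)
      _ = 30 * n ^ 4 := by ring
      _ ≤ r ^ 5 * r ^ (4 * (c * D)) := Nat.mul_le_mul (by omega) hn4
      _ = r ^ (5 + 4 * (c * D)) := by rw [pow_add]
      _ ≤ r ^ (w * m / 2) := Nat.pow_le_pow_right hr0 (by omega)
      _ ≤ s := hs1
  · obtain ⟨h, hh⟩ : ∃ h, h = m / 2 := ⟨_, rfl⟩
    obtain ⟨t, ht⟩ : ∃ t, t = (m + 1) / 2 := ⟨_, rfl⟩
    have hht : m = h + t := by omega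
    have ht1 : h ≤ t ∧ t ≤ h + 1 := by omega
    have hexp : w * m / 2 + 1 ≤ w * (h + 1) := by
      have e1 : w * m = w * h + w * t := by rw [hht]; ring
      have e2 : w * t ≤ w * (h + 1) := Nat.mul_le_mul_left _ ht1.2
      have e3 : w * (h + 1) = w * h + w := by ring
      omega
    have hm2 : m ≤ r ^ t := by
      rw [ht]
      exact le_pow_half hr hm1
    rw [← hh]
    set q : ℕ := r ^ w with hq
    have hq1 : 1 ≤ q ^ (h + 1) := Nat.one_le_pow _ _ (pow_pos hr0 _)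
    have hqe : q ^ (h + 1) = r ^ (w * (h + 1)) := by rw [hq, ← pow_mul]
    have hsq : s ≤ q ^ (h + 1) := by
      rw [hqe]
      exact hs2.trans (Nat.pow_le_pow_right hr0 hexp)
    have h3 : h * (n * (1 + q ^ (h + 1))) ≤ m * n * q ^ (h + 1) := by
      calc h * (n * (1 + q ^ (h + 1))) ≤ h * (n * (2 * q ^ (h + 1))) :=
            Nat.mul_le_mul_left _ (Nat.mul_le_mul_left _ (by omega))
        _ = (h * 2) * (n * q ^ (h + 1)) := by ring
        _ ≤ m * (n * q ^ (h + 1)) := Nat.mul_le_mul_right _ (by omega)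
        _ = m * n * q ^ (h + 1) := by ring
    have h4 : n * (2 * G + 3) ≤ 11 * n ^ 3 := by
      calc n * (2 * G + 3) ≤ n * (11 * n ^ 2) := Nat.mul_le_mul_left _ (by omega)
        _ = 11 * n ^ 3 := by ring
    have hn13 : n ≤ n ^ 3 := Nat.le_self_pow (by norm_num) n
    have h5 : h * (n * (1 + q ^ (h + 1))) + n * (2 * G + 3) * s ≤ 12 * m * n ^ 3 * q ^ (h + 1) := by
      have h6 : m * n * q ^ (h + 1) ≤ m * n ^ 3 * q ^ (h + 1) :=
        Nat.mul_le_mul_right _ (Nat.mul_le_mul_left _ hn13)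
      have h7 : n * (2 * G + 3) * s ≤ 11 * m * n ^ 3 * q ^ (h + 1) := by
        refine Nat.mul_le_mul (h4.trans ?_) hsq
        calc 11 * n ^ 3 = 11 * 1 * n ^ 3 := by ring
          _ ≤ 11 * m * n ^ 3 := Nat.mul_le_mul_right _ (Nat.mul_le_mul_left _ hm1)
      calc _ ≤ m * n ^ 3 * q ^ (h + 1) + 11 * m * n ^ 3 * q ^ (h + 1) :=
            Nat.add_le_add (h3.trans h6) h7
        _ = _ := by ring
    have hfin : 5 + t + 3 * (c * D) + w * (h + 1) ≤ w * m := by
      have e1 : w * m = w * h + w * t := by rw [hht]; ring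
      have e2 : w * (h + 1) = w * h + w := by ring
      have e3 : 2 * t ≤ w * t := Nat.mul_le_mul_right _ hw
      omega
    calc 2 * (h * (n * (1 + q ^ (h + 1))) + n * (2 * G + 3) * s)
        ≤ 2 * (12 * m * n ^ 3 * q ^ (h + 1)) := Nat.mul_le_mul_left _ h5
      _ = 24 * m * n ^ 3 * q ^ (h + 1) := by ring
      _ ≤ r ^ 5 * r ^ t * r ^ (3 * (c * D)) * q ^ (h + 1) :=
          Nat.mul_le_mul_right _ (Nat.mul_le_mul (Nat.mul_le_mul (by omega) hm2) hn3)
      _ = r ^ (5 + t + 3 * (c * D) + w * (h + 1)) := by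
          rw [hqe, ← pow_add, ← pow_add, ← pow_add]
      _ ≤ r ^ (w * m) := Nat.pow_le_pow_right hr0 hfin
      _ = q ^ m := by rw [hq, ← pow_mul]

end Pool.Agent.FF
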