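import Pool.Agent.FE.NumG
import Pool.Agent.FD.NumD2

/-!
# Slopes between `2 r - 4` and `2 r - 2` (93)
-/

set_option autoImplicit false

namespace Pool.Agent.FF

/-- `r ≥ 9` -/
theorem Good.large {k : Type} [Field k] {s kap lam : ℝ} {m : ℕ} (hm : 8 ≤ m)
    (hs0 : 2 * (m : ℝ) - 2 ≤ s) (hs1 : s ≤ 2 * m) (hkap : 1 ≤ kap)
    (hlam : 3 * Real.logb 2 m ≤ lam) (H : Good k s kap lam) :
    ENNReal.ofReal ((s + 2) / (2 + kap / lam)) ≤ LL k := by
  set L : ℝ := Real.logb 2 m with hL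
  have hmr : (8 : ℝ) ≤ m := by exact_mod_cast hm
  have hm0 : (0 : ℝ) < m := by linarith
  have hl2 : 0 < Real.log 2 := Real.log_pos (by norm_num)
  have hL3 : 3 ≤ L := by
    rw [hL, Real.le_logb_iff_rpow_le (by norm_num) hm0]
    norm_num
    exact_mod_cast hm
  set X : ℝ := (m : ℝ) * (2 * L + 1 / Real.log 2) with hX
  have hX0 : 0 ≤ X := by positivity
  set κ : ℕ := ⌈X⌉₊ with hκ
  have hκ1 : X ≤ κ := Nat.le_ceil _
  have hκ2 : (κ : ℝ) < X + 1 := Nat.ceil_lt_add_one hX0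
  obtain ⟨t, ht1, ht2, u, hu⟩ : ∃ t : ℕ, 2 * m ^ 2 - 3 ≤ t ∧ t ≤ 2 * m ^ 2 - 2 ∧
      ∃ u : ℕ, m ^ 3 = 2 * u + t := by
    have hb : 2 * m ^ 2 ≤ m ^ 3 := by
      have : m ^ 3 = m * m ^ 2 := by ring
      rw [this]
      exact Nat.mul_le_mul_right _ (by omega)
    have h64 : 8 ^ 2 ≤ m ^ 2 := Nat.pow_le_pow_left hm 2
    rcases Nat.even_or_odd m with he | ho
    · have h3 : Even (m ^ 3) := (Nat.even_pow' (by norm_num)).2 he
      obtain ⟨v, hv⟩ := h3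
      exact ⟨2 * m ^ 2 - 2, by omega, by omega, v - m ^ 2 + 1, by omega⟩
    · have h3 : Odd (m ^ 3) := ho.pow
      obtain ⟨v, hv⟩ := h3
      exact ⟨2 * m ^ 2 - 3, by omega, by omega, v - m ^ 2 + 2, by omega⟩
  have hmm : (m : ℝ) ^ 3 = 2 * u + t := by exact_mod_cast hu
  have ht1' : 2 * (m : ℝ) ^ 2 - 3 ≤ t := by
    have h1 : 2 * m ^ 2 ≤ t + 3 := by omega
    have h2 : ((2 * m ^ 2 : ℕ) : ℝ) ≤ ((t + 3 : ℕ) : ℝ) := by exact_mod_cast h1
    push_cast at h2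
    linarith
  have hvol := AllP.vol hm hκ1
  have hL1 := AllP.logb_le hmr
  have h14 := AllP.inv_log_two
  have hκ3 : (κ : ℝ) ≤ m * (2 * L + 1.4427) + 1 := by
    have : X ≤ m * (2 * L + 1.4427) := mul_le_mul_of_nonneg_left (by linarith) hm0.le
    linarith
  have hκB : κ < m ^ 3 := by
    have h1 : (κ : ℝ) < (m : ℝ) ^ 3 := by
      have h5 : m * (2 * L + 1.4427) + 1 < (m : ℝ) ^ 3 := by
        have h6 : 2 * L + 1.4427 ≤ 4.5573 + 0.36068 * m := by linarith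
        have h7 : (m : ℝ) * (2 * L + 1.4427) ≤ m * (4.5573 + 0.36068 * m) :=
          mul_le_mul_of_nonneg_left h6 hm0.le
        nlinarith [mul_nonneg hm0.le (mul_nonneg hm0.le (by linarith : (0 : ℝ) ≤ m - 8))]
      linarith
    exact_mod_cast h1
  have hsq : (m ^ 3 - 2 * u) ^ 2 < 4 * m * (m ^ 3 - m) := by
    have h1 : m ^ 3 - 2 * u = t := by omega
    rw [h1]
    obtain ⟨n, hn⟩ : ∃ n : ℕ, m ^ 2 = n + 1 := ⟨m ^ 2 - 1, by
      have : 1 ≤ m ^ 2 := Nat.one_le_pow _ _ (by omega)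
      omega⟩
    have h3 : m ^ 3 - m = m * n := by
      have : m ^ 3 = m * n + m := by
        calc m ^ 3 = m * m ^ 2 := by ring
          _ = m * n + m := by rw [hn]; ring
      omega
    rw [h3]
    have h4 : t ≤ 2 * n := by omega
    have h5 : 4 * m * (m * n) = 4 * (n + 1) * n := by
      rw [← hn]
      ring
    rw [h5]
    have hn0 : 0 < n := by
      have : 8 ^ 2 ≤ m ^ 2 := Nat.pow_le_pow_left hm 2
      omega
    calc t ^ 2 ≤ (2 * n) ^ 2 := Nat.pow_le_pow_left h4 2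
      _ < 4 * (n + 1) * n := by nlinarith
  have hb : BlkF (m ^ 3) κ (u : ℝ) := blkF_lp (a := m) (by omega)
    (by
      have : m ^ 3 = m * m * m := by ring
      rw [this]
      nlinarith) hvol (by omega) hsq
  have hu2 : (u : ℝ) ≤ ((m ^ 3 : ℕ) : ℝ) := by
    push_cast
    rw [hmm]
    have : (0 : ℝ) ≤ t := Nat.cast_nonneg _
    have : (0 : ℝ) ≤ u := Nat.cast_nonneg _
    linarith
  have hm3 : (0 : ℝ) < (m : ℝ) ^ 3 := by positivity
  have e1 : (1 : ℝ) - 2 * u / ((m ^ 3 : ℕ) : ℝ) = t / (m : ℝ) ^ 3 := by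
    push_cast
    field_simp
    linarith
  -- the two polynomial inequalities
  have hW : 6 * L + 1 ≤ 2 * (3 * L) + kap := by linarith
  have hW0 : 0 ≤ 6 * L + 1 := by linarith
  have hm8 : (0 : ℝ) ≤ m - 8 := by linarith
  have ht3 : 2 * (m : ℝ) ^ 3 - 4 * m ^ 2 - 6 * m + 6 ≤ (2 * m - 2) * t - 2 * m ^ 3 := by
    have := mul_le_mul_of_nonneg_left ht1' (by linarith : (0 : ℝ) ≤ 2 * m - 2)
    linarith only [this]
  have hq1 : 0 ≤ 2 * (m : ℝ) ^ 3 - 4 * m ^ 2 - 6 * m + 6 := by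
    linarith only [mul_nonneg hm0.le (mul_nonneg hm0.le hm8), mul_nonneg hm0.le hm8, hm8]
  refine H.cert_int (x := 2) (by linarith) (by linarith) (by norm_num) hb hκB (Nat.cast_nonneg _)
    hu2 (s0 := 2 * m - 2) (s1 := 2 * m) (lam0 := 3 * L) hs0 hs1 (by linarith) (by linarith) hlam
    ?_ ?_ ?_
  · rw [e1, ← mul_div_assoc, le_div_iff₀ hm3]
    linarith
  · rw [e1]
    have h1 : (κ : ℝ) * (2 * m - 2) * (2 * m - 2 + 2) ≤
        ((2 * m - 2) * t - 2 * m ^ 3) * (2 * (3 * L) + kap) := by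
      have h2 : ((2 * m - 2) * t - 2 * (m : ℝ) ^ 3) * (6 * L + 1) ≤
          ((2 * m - 2) * t - 2 * (m : ℝ) ^ 3) * (2 * (3 * L) + kap) :=
        mul_le_mul_of_nonneg_left hW (by linarith)
      have h3 : (2 * (m : ℝ) ^ 3 - 4 * m ^ 2 - 6 * m + 6) * (6 * L + 1) ≤
          ((2 * m - 2) * t - 2 * (m : ℝ) ^ 3) * (6 * L + 1) :=
        mul_le_mul_of_nonneg_right ht3 hW0
      have h4 : (κ : ℝ) * (2 * m - 2) * (2 * m - 2 + 2) ≤
          (m * (2 * L + 1.4427) + 1) * (2 * m - 2) * (2 * m - 2 + 2) := by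
        refine mul_le_mul_of_nonneg_right (mul_le_mul_of_nonneg_right hκ3 ?_) ?_ <;> linarith
      have h5 : (m * (2 * L + 1.4427) + 1) * (2 * m - 2) * (2 * m - 2 + 2) ≤
          (2 * (m : ℝ) ^ 3 - 4 * m ^ 2 - 6 * m + 6) * (6 * L + 1) := by
        have h6 : 0 ≤ (4 * (m : ℝ) ^ 3 - 16 * m ^ 2 - 36 * m + 36) * (L - 3) := by
          refine mul_nonneg ?_ (by linarith)
          linarith only [mul_nonneg hm0.le (mul_nonneg hm0.le hm8), mul_nonneg hm0.le hm8, hm8]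
        linarith only [h6, mul_nonneg hm0.le (mul_nonneg hm0.le hm8), mul_nonneg hm0.le hm8, hm8]
      linarith
    have e2 : (κ : ℝ) / ((m ^ 3 : ℕ) : ℝ) * (2 * m - 2) * (2 * m - 2 + 2) =
        (κ * (2 * m - 2) * (2 * m - 2 + 2)) / (m : ℝ) ^ 3 := by
      push_cast
      ring
    have e3 : ((2 * m - 2) * (t / (m : ℝ) ^ 3) - 2) * (2 * (3 * L) + kap) =
        (((2 * m - 2) * t - 2 * m ^ 3) * (2 * (3 * L) + kap)) / (m : ℝ) ^ 3 := by
      field_simp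
    rw [e2, e3, div_le_div_iff_of_pos_right hm3]
    exact h1
  · rw [e1]
    have h1 : (κ : ℝ) * (2 * m) * (2 * m + 2) ≤
        (2 * m * t - 2 * m ^ 3) * (2 * (3 * L) + kap) := by
      have ht4 : 2 * (m : ℝ) ^ 3 - 6 * m ≤ 2 * m * t - 2 * m ^ 3 := by
        have := mul_le_mul_of_nonneg_left ht1' (by linarith : (0 : ℝ) ≤ 2 * m)
        linarith only [this]
      have hq2 : 0 ≤ 2 * (m : ℝ) ^ 3 - 6 * m := by
        linarith only [mul_nonneg hm0.le (mul_nonneg hm0.le hm8), mul_nonneg hm0.le hm8, hm8]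
      have h2 : (2 * m * t - 2 * (m : ℝ) ^ 3) * (6 * L + 1) ≤
          (2 * m * t - 2 * (m : ℝ) ^ 3) * (2 * (3 * L) + kap) :=
        mul_le_mul_of_nonneg_left hW (by linarith)
      have h3 : (2 * (m : ℝ) ^ 3 - 6 * m) * (6 * L + 1) ≤
          (2 * m * t - 2 * (m : ℝ) ^ 3) * (6 * L + 1) :=
        mul_le_mul_of_nonneg_right ht4 hW0
      have h4 : (κ : ℝ) * (2 * m) * (2 * m + 2) ≤
          (m * (2 * L + 1.4427) + 1) * (2 * m) * (2 * m + 2) := by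
        refine mul_le_mul_of_nonneg_right (mul_le_mul_of_nonneg_right hκ3 ?_) ?_ <;> linarith
      have h5 : (m * (2 * L + 1.4427) + 1) * (2 * m) * (2 * m + 2) ≤
          (2 * (m : ℝ) ^ 3 - 6 * m) * (6 * L + 1) := by
        have h6 : 0 ≤ m * ((4 * (m : ℝ) ^ 2 - 8 * m - 36) * (L - 3)) := by
          refine mul_nonneg hm0.le (mul_nonneg ?_ (by linarith))
          linarith only [mul_nonneg hm0.le hm8, hm8]
        linarith only [h6, mul_nonneg hm0.le (mul_nonneg hm0.le hm8), mul_nonneg hm0.le hm8, hm8]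
      linarith
    have e2 : (κ : ℝ) / ((m ^ 3 : ℕ) : ℝ) * (2 * m) * (2 * m + 2) =
        (κ * (2 * m) * (2 * m + 2)) / (m : ℝ) ^ 3 := by
      push_cast
      ring
    have e3 : ((2 * m) * (t / (m : ℝ) ^ 3) - 2) * (2 * (3 * L) + kap) =
        ((2 * m * t - 2 * m ^ 3) * (2 * (3 * L) + kap)) / (m : ℝ) ^ 3 := by
      field_simp
    rw [e2, e3, div_le_div_iff_of_pos_right hm3]
    exact h1

end Pool.Agent.FF
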