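import Pool.Agent.FE.Drin
import Pool.Agent.FE.NumG2

/-!
# The log-dense families over the field with `r ^ (j + 1)` elements (93)
-/

set_option autoImplicit false

namespace Pool.Agent.FF.Rk

/-- a field with `r` elements in a field with `r ^ n` elements -/
theorem exists_subF {k : Type} [Field k] [Finite k] {r n : ℕ} (hn : n ≠ 0)
    (hk : Nat.card k = r ^ n) :
    ∃ (F : Type) (_ : Field F) (_ : Finite F) (_ : Algebra F k), Nat.card F = r := by
  have := Fintype.ofFinite k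
  obtain ⟨p, hp⟩ := CharP.exists k
  obtain ⟨e, hpp, hc⟩ := FiniteField.card k p
  have : Fact p.Prime := ⟨hpp⟩
  rw [← Nat.card_eq_fintype_card, hk] at hc
  obtain ⟨a, ha, har⟩ : ∃ a ≤ (e : ℕ), r = p ^ a := by
    have h1 : r ∣ p ^ (e : ℕ) := by
      rw [← hc]
      exact dvd_pow_self r hn
    exact (Nat.dvd_prime_pow hpp).1 h1
  have he : (e : ℕ) = n * a := by
    rw [har, ← pow_mul] at hc
    have := Nat.pow_right_injective hpp.two_le hc
    rw [← this, mul_comm]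
  have ha0 : a ≠ 0 := by
    rintro rfl
    have := e.pos
    omega
  have : NeZero a := ⟨ha0⟩
  let F := GaloisField p a
  let _ : Algebra (ZMod p) k := ZMod.algebra k p
  have hF : Nat.card F = p ^ a := GaloisField.card p a ha0
  have hfF : Module.finrank (ZMod p) F = a := GaloisField.finrank p ha0
  have hfk : Module.finrank (ZMod p) k = n * a := by
    have h1 := FiniteField.pow_finrank_eq_card p k
    rw [← Nat.card_eq_fintype_card, hk, hc, he] at h1
    exact Nat.pow_right_injective hpp.two_le h1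
  obtain ⟨f⟩ := FiniteField.nonempty_algHom_of_finrank_dvd (F := ZMod p) (K := F) (L := k) (by
    rw [hfF, hfk]
    exact dvd_mul_left _ _)
  exact ⟨F, inferInstance, Nat.finite_of_card_ne_zero (by rw [hF]; exact pow_ne_zero _ hpp.ne_zero),
    f.toRingHom.toAlgebra, by rw [hF, har]⟩

/-- the slope `2 / (1 / (r - 1) + 1 / (r ^ j - 1))` -/
theorem slope_eq {r j : ℕ} (hr : 2 ≤ r) (hj : 0 < j) :
    2 / (1 / ((r : ℝ) - 1) + 1 / ((r : ℝ) ^ j - 1)) =
      2 * (((r : ℝ) - 1) * ((r : ℝ) ^ j - 1)) / ((r : ℝ) ^ j + r - 2) := by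
  have hr2 : (2 : ℝ) ≤ r := by exact_mod_cast hr
  have h1 : (0 : ℝ) < (r : ℝ) - 1 := by linarith
  have h2 : (r : ℝ) ≤ (r : ℝ) ^ j := le_self_pow₀ (by linarith) hj.ne'
  have h3 : (0 : ℝ) < (r : ℝ) ^ j - 1 := by linarith
  have h4 : (0 : ℝ) < (r : ℝ) ^ j + r - 2 := by linarith
  have h5 : (1 / ((r : ℝ) - 1) + 1 / ((r : ℝ) ^ j - 1)) =
      ((r : ℝ) ^ j + r - 2) / (((r : ℝ) - 1) * ((r : ℝ) ^ j - 1)) := by
    field_simp
    ring
  rw [h5]
  field_simp

theorem slope_pos {r j : ℕ} (hr : 2 ≤ r) (hj : 0 < j) :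
    (0 : ℝ) < 2 / (1 / ((r : ℝ) - 1) + 1 / ((r : ℝ) ^ j - 1)) := by
  have hr2 : (2 : ℝ) ≤ r := by exact_mod_cast hr
  have h1 : (0 : ℝ) < (r : ℝ) - 1 := by linarith
  have h2 : (r : ℝ) ≤ (r : ℝ) ^ j := le_self_pow₀ (by linarith) hj.ne'
  have h3 : (0 : ℝ) < (r : ℝ) ^ j - 1 := by linarith
  positivity

theorem denseFam {k : Type} [Field k] [Finite k] {r j : ℕ} (hr : 2 ≤ r) (hj : 0 < j)
    (hk : Nat.card k = r ^ (j + 1)) :
    DenseFam k (2 / (1 / ((r : ℝ) - 1) + 1 / ((r : ℝ) ^ j - 1))) := by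
  obtain ⟨F, iF, iFin, iA, hF⟩ := exists_subF (by omega) hk
  obtain ⟨A, hA⟩ := drin F hj k (by rw [hk, hF])
  refine ⟨2 * A, fun η h0 => ?_⟩
  have hm0 : 0 < min η 1 := lt_min h0 one_pos
  obtain ⟨X0, hX0⟩ := sizesJ F hj hm0
  refine ⟨max 1 X0, fun X hX => ?_⟩
  have hX1 : 1 ≤ X := (le_max_left _ _).trans hX
  obtain ⟨s, M, hinj, hM, hlo, hhi⟩ := hX0 X ((le_max_right _ _).trans hX)
  obtain ⟨E, iE, iAE, G, T, hFF, hC, hG, hT, hrat, hpl⟩ := hA s M hM hinj
  have hr2 : (2 : ℝ) ≤ r := by exact_mod_cast hr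
  have h2 : (r : ℝ) ≤ (r : ℝ) ^ j := le_self_pow₀ (by linarith) hj.ne'
  have h4 : (0 : ℝ) < (r : ℝ) ^ j + r - 2 := by linarith
  refine ⟨E, iE, iAE, G, T, hFF, hC, ?_, hrat, by rw [hT]; exact hlo, ?_, ?_⟩
  · rw [slope_eq hr hj, hT, div_mul_eq_mul_div, div_le_iff₀ h4]
    rw [hF] at hG
    have h5 : 1 ≤ r ^ j := Nat.one_le_pow _ _ (by omega)
    have h6 : ((2 * ((r - 1) * (r ^ j - 1)) * G : ℕ) : ℝ) ≤
        (((r ^ j + r - 2) * psiJ j M : ℕ) : ℝ) := by exact_mod_cast hG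
    have h7 : r ^ j + r - 2 + 2 = r ^ j + r := by
      have : r ≤ r ^ j := Nat.le_self_pow hj.ne' r
      omega
    have h8 : (((r ^ j + r - 2 : ℕ)) : ℝ) = (r : ℝ) ^ j + r - 2 := by
      have h9 : (((r ^ j + r - 2 + 2 : ℕ)) : ℝ) = ((r ^ j + r : ℕ) : ℝ) := by rw [h7]
      push_cast at h9
      linarith
    rw [Nat.cast_mul, Nat.cast_mul, Nat.cast_mul, Nat.cast_mul, h8, Nat.cast_sub (by omega),
      Nat.cast_sub h5] at h6
    push_cast at h6
    linarith
  · rw [hT]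
    refine hhi.trans ?_
    rw [mul_comm]
    exact mul_le_mul_of_nonneg_left (by have := min_le_left η 1; linarith) (by linarith)
  · intro d hd
    refine hpl d ?_
    have h5 : (dgM M Finset.univ : ℝ) ≤ Real.logb 2 X + 1 := by
      have h6 : 2 ^ dgM M Finset.univ ≤ psiJ j M := by
        refine le_trans ?_ (pow_dgM_le_psiJ j M)
        rw [hF, pow_mul]
        refine Nat.pow_le_pow_left ?_ _
        exact hr.trans (Nat.le_self_pow hj.ne' r)
      have h7 : (2 : ℝ) ^ dgM M Finset.univ ≤ (psiJ j M : ℝ) := by exact_mod_cast h6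
      have h8 : (2 : ℝ) ^ dgM M Finset.univ ≤ X * 2 := by
        refine h7.trans (hhi.trans ?_)
        have := min_le_right η 1
        nlinarith
      have h9 : (dgM M Finset.univ : ℝ) ≤ Real.logb 2 (X * 2) := by
        rw [Real.le_logb_iff_rpow_le (by norm_num) (by positivity), Real.rpow_natCast]
        exact h8
      rwa [Real.logb_mul (by positivity) (by norm_num), Real.logb_self_eq_one (by norm_num)] at h9
    have hl0 : 0 ≤ Real.logb 2 X := Real.logb_nonneg (by norm_num) hX1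
    have hA0 : (0 : ℝ) ≤ A := Nat.cast_nonneg _
    have h6 : ((A * (dgM M Finset.univ + 1) : ℕ) : ℝ) ≤ d := by
      refine le_trans ?_ hd
      push_cast
      have h7 : (dgM M Finset.univ : ℝ) + 1 ≤ 2 * (Real.logb 2 X + 1) := by linarith
      calc (A : ℝ) * ((dgM M Finset.univ : ℝ) + 1) ≤ A * (2 * (Real.logb 2 X + 1)) :=
            mul_le_mul_of_nonneg_left h7 hA0
        _ = _ := by ring
    exact_mod_cast h6

end Pool.Agent.FF.Rk
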