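import Pool.Agent.FD.ObG
import Pool.Agent.FD.NumD
import Pool.Agent.FY.SeR

/-!
# From log-dense families of curves to bounds for `L(q)` (93)
-/

set_option autoImplicit false

namespace Pool.Agent.FF

/-- log-dense curves of slope `s`: `s G ≤ N`, `N ∈ [X, (1 + η) X]` rational places for all large
`X`, many places of all degrees `≥ A (log X + 1)` -/
def DenseFam (k : Type) [Field k] (s : ℝ) : Prop :=
  ∃ A : ℕ, ∀ η : ℝ, 0 < η → ∃ X0 : ℝ, ∀ X : ℝ, X0 ≤ X →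
    ∃ (E : Type) (_ : Field E) (_ : Algebra k E) (G : ℕ) (T : Finset (DV E)),
      IsFF k E ∧ Cv k E G ∧ s * G ≤ T.card ∧ (∀ P ∈ T, P.Rat k) ∧ X ≤ T.card ∧
      (T.card : ℝ) ≤ X * (1 + η) ∧
      ∀ d : ℕ, (A : ℝ) * (Real.logb 2 X + 1) ≤ d → ∃ Q : Finset (DV E),
        (∀ v ∈ Q, v.deg (Nat.card k) = d) ∧ Nat.card k ^ d ≤ 2 * d * Q.card

theorem DenseFam.aux {k : Type} [Field k] {s : ℝ} (hs : 0 < s) (H : DenseFam k s) :
    ∃ A : ℕ, ∀ η : ℝ, 0 < η → η < 1 → ∃ m0 : ℝ, ∀ m : ℝ, m0 ≤ m → ∃ (E : Type) (_ : Field E)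
      (_ : Algebra k E) (G : ℕ) (T : Finset (DV E)), IsFF k E ∧ Cv k E G ∧ (G : ℝ) ≤ m ∧
        (∀ P ∈ T, P.Rat k) ∧ T.Nonempty ∧ s * (1 - η) * m ≤ T.card ∧
        ∀ d : ℕ, (A : ℝ) * (Real.logb 2 m + 1) ≤ d → ∃ Q : Finset (DV E),
          (∀ v ∈ Q, v.deg (Nat.card k) = d) ∧ Nat.card k ^ d ≤ 2 * d * Q.card := by
  obtain ⟨A, hA⟩ := H
  refine ⟨A * (⌈s⌉₊ + 1), fun η h0 h1 => ?_⟩
  obtain ⟨X0, hX0⟩ := hA η h0
  refine ⟨max 1 (X0 * (1 + η) / s), fun m hm => ?_⟩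
  have hm1 : 1 ≤ m := (le_max_left _ _).trans hm
  have hm2 : X0 * (1 + η) / s ≤ m := (le_max_right _ _).trans hm
  have hm0 : 0 < m := by linarith
  have h1η : 0 < 1 + η := by linarith
  have hsm : 0 < s * m := by positivity
  obtain ⟨E, iE, iAE, G, T, hFF, hC, hG, hrat, hlo, hhi, hpl⟩ := hX0 (s * m / (1 + η)) (by
    rw [div_le_iff₀ hs] at hm2
    rw [le_div_iff₀ h1η]
    linarith)
  have hhi' : (T.card : ℝ) ≤ s * m := by
    refine hhi.trans (le_of_eq ?_)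
    field_simp
  refine ⟨E, iE, iAE, G, T, hFF, hC, ?_, hrat, ?_, ?_, ?_⟩
  · exact le_of_mul_le_mul_left (hG.trans hhi') hs
  · rw [← Finset.card_pos]
    have : (0 : ℝ) < T.card := lt_of_lt_of_le (by positivity) hlo
    exact_mod_cast this
  · refine le_trans ?_ hlo
    rw [le_div_iff₀ h1η]
    nlinarith [mul_nonneg hsm.le (sq_nonneg η)]
  · intro d hd
    refine hpl d ?_
    have h3 : Real.logb 2 (s * m / (1 + η)) ≤ Real.logb 2 m + ⌈s⌉₊ := by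
      have h4 : Real.logb 2 (s * m / (1 + η)) ≤ Real.logb 2 (s * m) := by
        refine Real.logb_le_logb_of_le (by norm_num) (by positivity) ?_
        rw [div_le_iff₀ h1η]
        nlinarith
      have h5 : Real.logb 2 (s * m) = Real.logb 2 s + Real.logb 2 m :=
        Real.logb_mul hs.ne' hm0.ne'
      have h6 : Real.logb 2 s ≤ ⌈s⌉₊ := by
        rw [Real.logb_le_iff_le_rpow (by norm_num) hs, Real.rpow_natCast]
        refine (Nat.le_ceil s).trans ?_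
        exact_mod_cast (Nat.lt_two_pow_self (n := ⌈s⌉₊)).le
      linarith
    have hl0 : 0 ≤ Real.logb 2 m := Real.logb_nonneg (by norm_num) hm1
    have hA0 : (0 : ℝ) ≤ A := Nat.cast_nonneg _
    have hc0 : (0 : ℝ) ≤ ⌈s⌉₊ := Nat.cast_nonneg _
    refine le_trans ?_ hd
    push_cast
    have h7 : Real.logb 2 (s * m / (1 + η)) + 1 ≤
        ((⌈s⌉₊ : ℝ) + 1) * (Real.logb 2 m + 1) := by nlinarith
    calc (A : ℝ) * (Real.logb 2 (s * m / (1 + η)) + 1) ≤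
          A * (((⌈s⌉₊ : ℝ) + 1) * (Real.logb 2 m + 1)) := mul_le_mul_of_nonneg_left h7 hA0
      _ = _ := by ring

/-- odd characteristic -/
theorem DenseFam.good_odd {k : Type} [Field k] [Finite k] (h2 : (2 : k) ≠ 0) {s lam : ℝ}
    (hs : 0 < s) (hlam0 : 0 < lam) (hlam : (2 : ℝ) ^ lam ≤ Nat.card k) (H : DenseFam k s) :
    Good k s 2 lam := by
  obtain ⟨A, hA⟩ := H.aux hs
  refine Pool.Agent.FF.good_odd h2 hlam0 hlam hs (A := A) fun η h0 h1 => ?_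
  obtain ⟨m0, hm0⟩ := hA η h0 h1
  refine ⟨m0, fun m hm => ?_⟩
  obtain ⟨E, iE, iAE, G, T, hFF, hC, hG, hrat, hne, hT, hpl⟩ := hm0 m hm
  obtain ⟨R, hR⟩ := hne
  refine ⟨E, iE, iAE, G, 2 * G, T, hFF, hC, ?_, seAll h2 E G hC ⟨R, hrat R hR⟩, ?_, hrat, ⟨R, hR⟩,
    ?_, hpl⟩
  · simpa using hG
  · push_cast
    linarith
  · simpa using hT

/-- characteristic two -/
theorem DenseFam.good_even {k : Type} [Field k] [Finite k] {e : ℕ} (he : 1 ≤ e)
    (hk : Nat.card k = 2 ^ e) {s : ℝ} (hs : 0 < s) (H : DenseFam k s) : Good k s 1 e := by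
  have := Fintype.ofFinite k
  have : Fact (Nat.Prime 2) := ⟨Nat.prime_two⟩
  have : CharP k 2 := charP_of_card_eq_prime_pow (p := 2) (f := e) (by
    rw [← Nat.card_eq_fintype_card, hk])
  obtain ⟨A, hA⟩ := H.aux hs
  refine Pool.Agent.FF.good_even he hk hs (A := A) fun η h0 h1 => ?_
  obtain ⟨m0, hm0⟩ := hA η h0 h1
  refine ⟨m0, fun m hm => ?_⟩
  obtain ⟨E, iE, iAE, G, T, hFF, hC, hG, hrat, hne, hT, hpl⟩ := hm0 m hm
  have hE : CharP E 2 := charP_of_injective_algebraMap (algebraMap k E).injective 2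
  refine ⟨E, iE, iAE, hE, G, G, T, hFF, hC, ?_, ob_genus hC, ?_, hrat, ?_, fun d hd => ?_⟩
  · simpa using hG
  · simpa using hG
  · simpa using hT
  · obtain ⟨Q, hQ, hQc⟩ := hpl d hd
    have hpos : 0 < Q.card := by
      rcases Nat.eq_zero_or_pos Q.card with h | h
      · rw [h, mul_zero] at hQc
        have : 0 < Nat.card k ^ d := pow_pos Nat.card_pos _
        omega
      · exact h
    obtain ⟨v, hv⟩ := Finset.card_pos.1 hpos
    exact ⟨v, hQ v hv⟩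

end Pool.Agent.FF
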