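import Pool.Agent.FE.DGen
import Pool.Agent.FD.HOne

/-! # the Galois closure of the fields of line tuples: normality, degree, genus (6) -/

set_option autoImplicit false
set_option linter.unusedSectionVars false
set_option linter.unusedVariables false

namespace Pool.Agent.FF.Rk

open Polynomial

section gen

variable {F W : Type*} [Field F] [AddCommGroup W] [Module F W]

/-- a linear map commuting with `f` commutes with the polynomials in `f` -/
theorem HoR.aeval_comm (f S : W →ₗ[F] W) (h : ∀ x, S (f x) = f (S x)) (P : F[X]) (x : W) :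
    S (aeval f P x) = aeval f P (S x) := by
  have h1 : ∀ (n : ℕ) (x : W), S ((f ^ n) x) = (f ^ n) (S x) := by
    intro n
    induction n with
    | zero => intro x; rfl
    | succ n ih =>
      intro x
      rw [pow_succ', Module.End.mul_apply, Module.End.mul_apply, h, ih]
  induction P using Polynomial.induction_on' with
  | add p q hp hq => rw [map_add, LinearMap.add_apply, LinearMap.add_apply, map_add, hp, hq]
  | monomial n a =>
    rw [aeval_monomial, Module.End.mul_apply, Module.End.mul_apply, Module.algebraMap_end_apply,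
      Module.algebraMap_end_apply, map_smul, h1]

/-- the kernel of `M(f)`, `M` irreducible, with `r ^ (n d)` elements, is generated by `n` elements -/
theorem HoR.genJ [Finite F] (f : W →ₗ[F] W) {M : F[X]} (hM : M.Monic) (hi : Irreducible M)
    {n : ℕ} (hV : Nat.card (LinearMap.ker (aeval f M)) = Nat.card F ^ (n * M.natDegree)) :
    ∃ S : Finset W, S.card ≤ n ∧ (∀ v ∈ S, aeval f M v = 0) ∧
      LinearMap.ker (aeval f M) ≤ ⨆ v ∈ S, LnA.cyc f v := by
  classical
  have hr : 1 < Nat.card F := Finite.one_lt_card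
  have hVf : Finite (LinearMap.ker (aeval f M)) := by
    apply Nat.finite_of_card_ne_zero
    rw [hV]
    exact pow_ne_zero _ (by omega)
  have hfx : Module.Finite F (LinearMap.ker (aeval f M)) := inferInstance
  have e3 : Module.finrank F (LinearMap.ker (aeval f M)) = n * M.natDegree := by
    have := Module.natCard_eq_pow_finrank (K := F) (V := LinearMap.ker (aeval f M))
    rw [hV] at this
    exact (Nat.pow_right_injective hr this).symm
  have key : ∀ i ≤ n, ∃ S : Finset W, S.card ≤ i ∧ (∀ v ∈ S, aeval f M v = 0) ∧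
      Module.finrank F (⨆ v ∈ S, LnA.cyc f v : Submodule F W) = i * M.natDegree := by
    intro i
    induction i with
    | zero =>
      intro _
      refine ⟨∅, le_rfl, fun v hv => absurd hv (Finset.notMem_empty v), ?_⟩
      have h0 : (⨆ v ∈ (∅ : Finset W), LnA.cyc f v) = ⊥ := by simp
      rw [zero_mul, h0, finrank_bot]
    | succ i ih =>
      intro hin
      obtain ⟨S, hS1, hS2, hS3⟩ := ih (by omega)
      obtain ⟨U, hU⟩ : ∃ U : Submodule F W, U = ⨆ v ∈ S, LnA.cyc f v := ⟨_, rfl⟩
      rw [← hU] at hS3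
      have hUk : U ≤ LinearMap.ker (aeval f M) := by
        rw [hU]
        exact iSup₂_le fun v hv => LnA.cyc_le_ker f (hS2 v hv)
      have hUst : ∀ x ∈ U, f x ∈ U := by
        intro x hx
        have h1 : U ≤ U.comap f := by
          rw [hU]
          refine iSup₂_le fun v hv => ?_
          intro y hy
          rw [Submodule.mem_comap]
          exact (le_iSup₂ (f := fun v (_ : v ∈ S) => LnA.cyc f v) v hv) (LnA.cyc_st f hy)
        exact h1 hx
      have h4 : ∃ y ∈ LinearMap.ker (aeval f M), y ∉ U := by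
        by_contra hcon
        push Not at hcon
        have h5 : U = LinearMap.ker (aeval f M) := le_antisymm hUk hcon
        rw [h5, e3] at hS3
        have h6 : 0 < M.natDegree := hi.natDegree_pos
        have h7 : n = i := Nat.eq_of_mul_eq_mul_right h6 hS3
        omega
      obtain ⟨y, hy, hyU⟩ := h4
      have hy0 : y ≠ 0 := by
        rintro rfl
        exact hyU (zero_mem _)
      have hcy := LnA.card_cyc f hM hi hy0 (LinearMap.mem_ker.1 hy)
      have hly := LnA.cyc_le_ker f (LinearMap.mem_ker.1 hy)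
      have hinf : LnA.cyc f y ⊓ U = ⊥ := by
        rw [eq_bot_iff]
        rintro z ⟨hzy, hzU⟩
        rw [Submodule.mem_bot]
        by_contra hz
        have hk : aeval f M z = 0 := LinearMap.mem_ker.1 (hly hzy)
        have h9 := LnA.eq_cyc f hM hi (fun w hw => LnA.cyc_st f hw) hcy hzy hz hk
        apply hyU
        have h10 : LnA.cyc f z ≤ U := LnA.cyc_le f hUst hzU
        apply h10
        rw [h9]
        exact LnA.self_mem f y
      have hfy1 : FiniteDimensional F (LnA.cyc f y) := Submodule.finiteDimensional_of_le hly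
      have hfU : FiniteDimensional F U := Submodule.finiteDimensional_of_le hUk
      have e2 : Module.finrank F (LnA.cyc f y) = M.natDegree := by
        have := Module.natCard_eq_pow_finrank (K := F) (V := LnA.cyc f y)
        rw [hcy] at this
        exact (Nat.pow_right_injective hr this).symm
      have e4 := Submodule.finrank_sup_add_finrank_inf_eq (LnA.cyc f y) U
      rw [hinf, finrank_bot, e2, hS3] at e4
      refine ⟨insert y S, (Finset.card_insert_le _ _).trans (by omega), ?_, ?_⟩
      · intro v hv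
        rcases Finset.mem_insert.1 hv with rfl | hv
        · exact LinearMap.mem_ker.1 hy
        · exact hS2 v hv
      · rw [Finset.iSup_insert, ← hU]
        rw [Nat.add_mul, one_mul]
        omega
  obtain ⟨S, hS1, hS2, hS3⟩ := key n le_rfl
  refine ⟨S, hS1, hS2, ?_⟩
  have hle : (⨆ v ∈ S, LnA.cyc f v) ≤ LinearMap.ker (aeval f M) :=
    iSup₂_le fun v hv => LnA.cyc_le_ker f (hS2 v hv)
  exact (Submodule.eq_of_le_of_finrank_eq hle (by rw [hS3, e3])).ge

end gen

section

variable {F k H : Type} {j : ℕ} [Field F] [Finite F] [Field k] [Finite k] [Field H] [Algebra F k]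
  [Algebra F H] [Algebra k H] [Algebra (RatFunc k) H] [IsScalarTower k (RatFunc k) H]

variable {s : ℕ} {M : Fin s → Polynomial F}

/-- the automorphisms which fix all lines -/
def stOne (F : Type) (j : ℕ) (H : Type) (k : Type) [Field F] [Finite F] [Field k] [Field H]
    [Algebra F H] [Algebra (RatFunc k) H] {s : ℕ} (M : Fin s → Polynomial F) :
    Subgroup (H ≃ₐ[RatFunc k] H) where
  carrier := {σ | ∀ i (L : Submodule F H), IsLine F j (gX k H) (M i) L → ∀ x, x ∈ L ↔ σ x ∈ L}
  mul_mem' := by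
    intro a b ha hb i L hL x
    rw [hb i L hL x, ha i L hL (b x)]
    rfl
  one_mem' := fun _ _ _ _ => Iff.rfl
  inv_mem' := by
    intro a ha i L hL x
    rw [ha i L hL (a⁻¹ x)]
    have : a (a⁻¹ x) = x := by
      rw [← AlgEquiv.mul_apply, mul_inv_cancel]
      rfl
    rw [this]

/-- the field fixed by the automorphisms which fix all lines -/
noncomputable abbrev HOne (j : ℕ) (H : Type) (k : Type) [Field k] [Field H]
    [Algebra (RatFunc k) H] {F : Type} [Field F] [Finite F] [Algebra F H] {s : ℕ}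
    (M : Fin s → Polynomial F) : IntermediateField (RatFunc k) H :=
  IntermediateField.fixedField (stOne F j H k M)

theorem EL_le_HOne (h : DrS F j k H (∏ i, M i)) {L : Fin s → Submodule F H}
    (hL : LT j (gX k H) M L) : EL k L ≤ HOne j H k M := by
  have := h.fin
  have h1 : stOne F j H k M ≤ stL k L := fun σ hσ i x => hσ i (L i) (hL.line i) x
  exact IntermediateField.fixedField_antitone h1

/-- an automorphism over `k(g)` as a linear map over `F` -/
noncomputable def HoR.lin {N : F[X]} (h : DrS F j k H N) (σ : H ≃ₐ[RatFunc k] H) : H →ₗ[F] H where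
  toFun x := σ x
  map_add' x y := map_add σ x y
  map_smul' c x := by
    show σ (c • x) = c • σ x
    rw [Algebra.smul_def, Algebra.smul_def, map_mul, h.tower c, σ.commutes]

theorem HoR.lin_apply {N : F[X]} (h : DrS F j k H N) (σ : H ≃ₐ[RatFunc k] H) (x : H) :
    HoR.lin h σ x = σ x := rfl

theorem HoR.sig_phT (σ : H ≃ₐ[RatFunc k] H) (x : H) :
    σ (phT F j (gX k H) x) = phT F j (gX k H) (σ x) := by
  rw [phT_apply, phT_apply, map_sub, map_add, map_mul, map_pow, map_pow, σ.commutes]

theorem HoR.sig_phN {N : F[X]} (h : DrS F j k H N) (σ : H ≃ₐ[RatFunc k] H) (P : F[X]) (x : H) :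
    σ (phN F j (gX k H) P x) = phN F j (gX k H) P (σ x) :=
  HoR.aeval_comm (phT F j (gX k H)) (HoR.lin h σ) (fun x => HoR.sig_phT σ x) P x

theorem HoR.VN_mono {g : H} {A B : F[X]} (h : A ∣ B) : VN F j g A ≤ VN F j g B := by
  obtain ⟨C, rfl⟩ := h
  intro x hx
  have hx' : aeval (phT F j g) A x = 0 := hx
  show aeval (phT F j g) (A * C) x = 0
  rw [mul_comm, map_mul, Module.End.mul_apply, hx', map_zero]

/-- the preimage of a line is a line -/
theorem HoR.comap_line {N : F[X]} (h : DrS F j k H N) (σ : H ≃ₐ[RatFunc k] H) {P : F[X]}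
    {L : Submodule F H} (hL : IsLine F j (gX k H) P L) :
    IsLine F j (gX k H) P (L.comap (HoR.lin h σ)) where
  le := by
    intro x hx
    have h1 : phN F j (gX k H) P (σ x) = 0 := hL.le hx
    rw [← HoR.sig_phN h] at h1
    exact (map_eq_zero σ).1 h1
  st := by
    intro x hx
    have h1 : phT F j (gX k H) (σ x) ∈ L := hL.st _ hx
    rw [← HoR.sig_phT] at h1
    exact h1
  card := by
    rw [← hL.card]
    exact Nat.card_congr (Equiv.subtypeEquiv σ.toEquiv fun x => Iff.rfl)

theorem HoR.normal {N : F[X]} (h : DrS F j k H N) : (stOne F j H k M).Normal := by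
  refine ⟨fun n hn g i L hL x => ?_⟩
  have h1 := hn i _ (HoR.comap_line h g hL) (g⁻¹ x)
  have h2 : g (g⁻¹ x) = x := by
    rw [← AlgEquiv.mul_apply, mul_inv_cancel]
    rfl
  rw [Submodule.mem_comap, Submodule.mem_comap] at h1
  change g (g⁻¹ x) ∈ L ↔ g (n (g⁻¹ x)) ∈ L at h1
  rw [h2] at h1
  exact h1

theorem hOne_galois (h : DrS F j k H (∏ i, M i)) : IsGalois (RatFunc k) (HOne j H k M) := by
  have := h.fin
  have := h.gal
  have := HoR.normal (M := M) h
  exact IsGalois.of_fixedField_normal_subgroup _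

theorem finrank_H (h : DrS F j k H (∏ i, M i)) {L : Fin s → Submodule F H}
    (hL : LT j (gX k H) M L) :
    Module.finrank (RatFunc k) H ≤ Nat.card F ^ ((j + 1) ^ 2 * dgM M Finset.univ) := by
  have := h.fin
  have := h.gal
  choose S hS1 hS2 hS3 using fun i =>
    HoR.genJ (phT F j (gX k H)) (hL.monic i) (hL.irr i) (hL.full i)
  have hVf : ∀ i, Finite (VN F j (gX k H) (M i)) := by
    intro i
    apply Nat.finite_of_card_ne_zero
    rw [hL.full i]
    exact pow_ne_zero _ Nat.card_pos.ne'
  have hst : ∀ (σ : H ≃ₐ[RatFunc k] H) i v, v ∈ VN F j (gX k H) (M i) →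
      σ v ∈ VN F j (gX k H) (M i) := by
    intro σ i v hv
    have h1 : phN F j (gX k H) (M i) v = 0 := hv
    have h2 := HoR.sig_phN h σ (M i) v
    rw [h1, map_zero] at h2
    exact h2.symm
  let Φ : (H ≃ₐ[RatFunc k] H) → ∀ i, S i → VN F j (gX k H) (M i) :=
    fun σ i v => ⟨σ v, hst σ i _ (hS2 i v v.2)⟩
  have hinj : Function.Injective Φ := by
    intro σ τ hστ
    have h1 : ∀ i, ∀ v ∈ S i, σ v = τ v := fun i v hv =>
      congrArg Subtype.val (congrFun (congrFun hστ i) ⟨v, hv⟩)
    -- the elements on which `σ` and `τ` agree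
    let E : Submodule F H := LinearMap.eqLocus (HoR.lin h σ) (HoR.lin h τ)
    have hcyc : ∀ v : H, σ v = τ v → LnA.cyc (phT F j (gX k H)) v ≤ E := by
      intro v hv
      refine LnA.cyc_le _ ?_ ?_
      · intro w hw
        have h3 : σ w = τ w := hw
        change σ (phT F j (gX k H) w) = τ (phT F j (gX k H) w)
        rw [HoR.sig_phT, HoR.sig_phT, h3]
      · exact hv
    have h4 : VN F j (gX k H) (∏ i, M i) ≤ E := by
      refine (HoA.ker_prod (phT F j (gX k H)) M ?_).trans (iSup_le fun i => ?_)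
      · intro i i' hij
        exact HoA.coprime (hL.monic i) (hL.monic i') (hL.irr i) (hL.irr i')
          fun h' => hij (hL.inj h')
      · exact (hS3 i).trans (iSup₂_le fun v hv => hcyc _ (h1 i v hv))
    -- generators of `H`
    have h5 : (σ : H →ₐ[RatFunc k] H) = (τ : H →ₐ[RatFunc k] H) := by
      have h6 : ∀ z ∈ IntermediateField.adjoin (RatFunc k)
          (VN F j (gX k H) (∏ i, M i) : Set H), σ z = τ z := by
        intro z hz
        induction hz using IntermediateField.adjoin_induction with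
        | mem z hz => exact h4 hz
        | algebraMap c => rw [σ.commutes, τ.commutes]
        | add a b _ _ ha hb => rw [map_add, map_add, ha, hb]
        | inv a _ ha => rw [map_inv₀, map_inv₀, ha]
        | mul a b _ _ ha hb => rw [map_mul, map_mul, ha, hb]
      ext z
      exact h6 z (by rw [h.gen]; trivial)
    ext z
    exact congrArg (fun t : H →ₐ[RatFunc k] H => t z) h5
  have h7 := Nat.card_le_card_of_injective Φ hinj
  rw [IsGalois.card_aut_eq_finrank] at h7
  refine h7.trans ?_
  rw [Nat.card_pi, dgM, Finset.mul_sum, ← Finset.prod_pow_eq_pow_sum]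
  refine Finset.prod_le_prod' fun i _ => ?_
  rw [Nat.card_fun, hL.full i, ← pow_mul]
  refine Nat.pow_le_pow_right Nat.card_pos ?_
  have h8 : Nat.card (S i) ≤ j + 1 := by
    rw [Nat.card_eq_fintype_card, Fintype.card_coe]
    exact hS1 i
  calc (j + 1) * (M i).natDegree * Nat.card (S i) ≤ (j + 1) * (M i).natDegree * (j + 1) :=
        Nat.mul_le_mul_left _ h8
    _ = (j + 1) ^ 2 * (M i).natDegree := by ring

theorem HoR.fix_of_stOne {σ : H ≃ₐ[RatFunc k] H} (hσ : σ ∈ stOne F j H k M)
    (x : HOne j H k M) : σ x = x := x.2 ⟨σ, hσ⟩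

/-- the rational place -/
theorem HoR.zero (h : DrS F j k H (∏ i, M i)) :
    ∃ R : DV (HOne j H k M), Over R (Rat.pt (0 : k)) ∧ R.Rat k := by
  have hfd := h.fin
  have hgal := h.gal
  obtain ⟨Q, hQ⟩ := exists_above (L := H) (Rat.pt (0 : k))
  obtain ⟨σ, hσ, hfix⟩ := frob_zero h hQ
  have hEH : FiniteDimensional (HOne j H k M) H :=
    FiniteDimensional.right (RatFunc k) (HOne j H k M) H
  obtain ⟨P, hP⟩ := exists_below (K := HOne j H k M) Q
  have hPK : Over P (Rat.pt (0 : k)) := by
    obtain ⟨v', hv'⟩ := exists_below (K := RatFunc k) P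
    have h1 := (hP.trans' hv').unique hQ
    rwa [h1] at hv'
  have hst : σ ∈ stOne F j H k M := by
    intro i L hL x
    exact hfix L (hL.le.trans (HoR.VN_mono (Finset.dvd_prod_of_mem M (Finset.mem_univ i)))) hL.st x
  refine ⟨P, hPK, HoB.rat_of_frob fun a ha => ?_⟩
  have h1 := hσ (a : H) ((hP.G_zero_iff a).2 ha)
  rw [HoR.fix_of_stOne hst a] at h1
  have h2 : Q.G 1 (algebraMap (HOne j H k M) H (a - a ^ Nat.card k)) := by
    rw [map_sub, map_pow]
    exact h1
  obtain ⟨e', he'⟩ := hP.overE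
  by_cases hb : a - a ^ Nat.card k = 0
  · rw [hb]
    exact DV.G_zero _
  have hb' : algebraMap (HOne j H k M) H (a - a ^ Nat.card k) ≠ 0 := by rwa [Ne, map_eq_zero]
  have h3 := h2.le hb'
  rw [he'.2] at h3
  have he0 : (0 : ℤ) < e' := by exact_mod_cast he'.1
  refine DV.G_of_le ?_
  by_contra hlt
  push Not at hlt
  have h4 : P.ord (a - a ^ Nat.card k) ≤ 0 := by omega
  nlinarith

/-- an automorphism not fixing the field moves a line -/
theorem HoR.move (h : DrS F j k H (∏ i, M i)) {L : Fin s → Submodule F H}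
    (hL : LT j (gX k H) M L) {σ : H ≃ₐ[RatFunc k] H} (hσ : σ ∉ stOne F j H k M) :
    ∃ L' : Fin s → Submodule F H, LT j (gX k H) M L' ∧ σ ∉ stL k L' := by
  classical
  have h1 : ∃ i, ∃ A : Submodule F H, IsLine F j (gX k H) (M i) A ∧ ¬ ∀ x, x ∈ A ↔ σ x ∈ A := by
    by_contra hcon
    push Not at hcon
    exact hσ fun i A hA => hcon i A hA
  obtain ⟨i, A, hA, hx⟩ := h1
  refine ⟨Function.update L i A, ⟨hL.pos, hL.monic, hL.irr, hL.one, hL.inj, hL.full, fun i' => ?_⟩,
    fun hmem => hx fun x => ?_⟩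
  · by_cases hj : i' = i
    · subst hj
      rw [Function.update_self]
      exact hA
    · rw [Function.update_of_ne hj]
      exact hL.line i'
  · have h2 := hmem i x
    rwa [Function.update_self] at h2

/-- an integral element of the field which is moved little -/
theorem HoR.elt (h : DrS F j k H (∏ i, M i)) {L : Fin s → Submodule F H}
    (hL : LT j (gX k H) M L) {Q : DV H} (hQ : Over Q (Rat.inf k)) {σ : H ≃ₐ[RatFunc k] H}
    (hσ : σ ∉ stOne F j H k M) :
    ∃ y : HOne j H k M, IntO (Rat.inf k) y ∧ (y : H) - σ y ≠ 0 ∧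
      Q.ord ((y : H) - σ y) ≤ 4 * (- Q.ord (gX k H)) := by
  have hfd := h.fin
  have hgal := h.gal
  obtain ⟨L', hL', hσ'⟩ := HoR.move h hL hσ
  obtain ⟨y, hy, hy0, hy1⟩ := dgen_inf h hL' hQ hσ'
  have hle := EL_le_HOne h hL'
  refine ⟨⟨y, hle y.2⟩, ?_, hy0, hy1⟩
  rw [intO_iff (H := H) hQ]
  intro τ
  exact (intO_iff (H := H) hQ y).1 hy (τ.comp (IntermediateField.inclusion hle))

theorem HoR.exists_ext (h : DrS F j k H (∏ i, M i))
    (τ : HOne j H k M →ₐ[RatFunc k] H) :
    ∃ σ : H ≃ₐ[RatFunc k] H, ∀ x : HOne j H k M, σ x = τ x := by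
  have hfd := h.fin
  have hgal := h.gal
  refine ⟨AlgEquiv.ofBijective (τ.liftNormal H) (Algebra.IsAlgebraic.algHom_bijective _), ?_⟩
  intro x
  exact τ.liftNormal_commutes H x

/-- the local bound at infinity -/
theorem HoR.inf_bound (h : DrS F j k H (∏ i, M i)) {L : Fin s → Submodule F H}
    (hL : LT j (gX k H) M L) {P : DV (HOne j H k M)} {e : ℕ} (hP : OverE P (Rat.inf k) e)
    {a : HOne j H k M} (ha : ∀ b : HOne j H k M, IntO (Rat.inf k) b →
      (Rat.inf k).G 0 (Algebra.trace (RatFunc k) (HOne j H k M) (a * b))) :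
    P.G (-(4 * ((Module.finrank (RatFunc k) (HOne j H k M) : ℤ) - 1) * e)) a := by
  classical
  have hfd := h.fin
  have hgal := h.gal
  obtain ⟨Q, hQ⟩ := exists_aboveH (K := RatFunc k) (H := H) P
  have hQi : Over Q (Rat.inf k) := hQ.trans' hP.over
  obtain ⟨e', he'⟩ := hQ.overE
  have hPg : P.ord (gX k (HOne j H k M)) = - (e : ℤ) := by
    rw [hP.2, Rat.inf_X]
    ring
  have hordg : Q.ord (gX k H) = - (e' * (e : ℤ)) := by
    show Q.ord (algebraMap (HOne j H k M) H (gX k (HOne j H k M))) = _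
    rw [he'.2, hPg]
    ring
  have hFT : Fintype (HOne j H k M →ₐ[RatFunc k] H) := Fintype.ofFinite _
  choose sg hsg using fun τ : HOne j H k M →ₐ[RatFunc k] H => HoR.exists_ext h τ
  obtain ⟨ι, hι⟩ : ∃ ι : HOne j H k M →ₐ[RatFunc k] H,
      ι = IsScalarTower.toAlgHom (RatFunc k) (HOne j H k M) H := ⟨_, rfl⟩
  have hιx : ∀ x : HOne j H k M, ι x = x := fun x => by rw [hι]; rfl
  have hne : ∀ τ : HOne j H k M →ₐ[RatFunc k] H, τ ≠ ι → sg τ ∉ stOne F j H k M := by
    intro τ hτ hmem
    refine hτ (AlgHom.ext fun x => ?_)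
    rw [hιx, ← hsg]
    exact HoR.fix_of_stOne hmem x
  have hex : ∀ τ : HOne j H k M →ₐ[RatFunc k] H, ∃ y : HOne j H k M, IntO (Rat.inf k) y ∧
      (τ ≠ ι → (y : H) - τ y ≠ 0 ∧ Q.ord ((y : H) - τ y) ≤ 4 * (e' * (e : ℤ))) := by
    intro τ
    by_cases hτ : τ = ι
    · exact ⟨0, fun w _ => DV.G_zero _, fun h' => absurd hτ h'⟩
    · obtain ⟨y, hy, hy0, hy1⟩ := HoR.elt h hL hQi (hne τ hτ)
      rw [hsg] at hy0 hy1
      rw [hordg, neg_neg] at hy1
      exact ⟨y, hy, fun _ => ⟨hy0, hy1⟩⟩
  choose y hy hy2 using hex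
  have h1 := lag (E := HOne j H k M) hQi ha y hy (fun _ => 4 * (e' * (e : ℤ))) (fun τ hτ => by
    rw [← hι] at hτ
    exact hy2 τ hτ)
  rw [← hι, Finset.sum_const, Finset.card_erase_of_mem (Finset.mem_univ _), Finset.card_univ] at h1
  have hcard : Fintype.card (HOne j H k M →ₐ[RatFunc k] H) ≤
      Module.finrank (RatFunc k) (HOne j H k M) := by
    rw [← Nat.card_eq_fintype_card]
    exact card_algHom_le_finrank (RatFunc k) (HOne j H k M) H
  have hpos : 0 < Fintype.card (HOne j H k M →ₐ[RatFunc k] H) := Fintype.card_pos_iff.2 ⟨ι⟩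
  by_cases ha0 : a = 0
  · rw [ha0]
    exact DV.G_zero _
  have ha0' : algebraMap (HOne j H k M) H a ≠ 0 := by rwa [Ne, map_eq_zero]
  have h2 := h1.le ha0'
  rw [he'.2, nsmul_eq_mul, Nat.cast_sub hpos] at h2
  refine DV.G_of_le ?_
  obtain ⟨n, hn⟩ : ∃ n : ℤ, n = (Module.finrank (RatFunc k) (HOne j H k M) : ℤ) := ⟨_, rfl⟩
  obtain ⟨c, hc⟩ : ∃ c : ℤ, c = (Fintype.card (HOne j H k M →ₐ[RatFunc k] H) : ℤ) := ⟨_, rfl⟩
  have hcn : c ≤ n := by
    rw [hc, hn]
    exact_mod_cast hcard
  rw [← hn]
  rw [← hc] at h2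
  have he0 : (0 : ℤ) < e' := by exact_mod_cast he'.1
  have hee : (0 : ℤ) ≤ e := by positivity
  have h3 : (e' : ℤ) * (-(4 * (n - 1) * e)) ≤ e' * P.ord a := by
    refine le_trans ?_ h2
    push_cast
    nlinarith [mul_nonneg (mul_nonneg he0.le hee) (sub_nonneg.2 hcn)]
  exact le_of_mul_le_mul_left h3 he0

/-- the places over `g = 0` of `H₁` are rational; the genus is at most `2 [H₁ : k(g)] ^ 2` -/
theorem hOne_cv (h : DrS F j k H (∏ i, M i)) {L : Fin s → Submodule F H}
    (hL : LT j (gX k H) M L) :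
    (∃ R : DV (HOne j H k M), R.Rat k) ∧ ∃ G : ℕ, Cv k (HOne j H k M) G ∧
      G ≤ 2 * Module.finrank (RatFunc k) (HOne j H k M) ^ 2 := by
  classical
  have hfd := h.fin
  have hgal := h.gal
  obtain ⟨R, -, hR⟩ := HoR.zero (M := M) h
  obtain ⟨hff, G, C⟩ := exists_cv (k := k) (E := HOne j H k M) hR
  refine ⟨⟨R, hR⟩, G, C, ?_⟩
  have hinf : (Rat.inf k).resCard = Nat.card k := Rat.card_res_inf
  obtain ⟨T, e, f, hTn, hT, hef, hsum⟩ := sum_ef (E := HOne j H k M) (Rat.inf k) (by
    rw [hinf]
    exact (Nat.card_pos (α := k)).ne')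
  obtain ⟨n, hn⟩ : ∃ n : ℤ, n = (Module.finrank (RatFunc k) (HOne j H k M) : ℤ) := ⟨_, rfl⟩
  set D : DV (HOne j H k M) →₀ ℤ := ∑ w ∈ T, Finsupp.single w (4 * (n - 1) * (e w : ℤ)) with hD
  have hDw : ∀ w : DV (HOne j H k M), D w = if w ∈ T then 4 * (n - 1) * (e w : ℤ) else 0 := by
    intro w
    rw [hD, Finsupp.finsetSum_apply]
    by_cases hw : w ∈ T
    · rw [if_pos hw, Finset.sum_eq_single w]
      · rw [Finsupp.single_eq_same]
      · intro u _ hu
        exact Finsupp.single_eq_of_ne (Ne.symm hu)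
      · intro h
        exact absurd hw h
    · rw [if_neg hw]
      refine Finset.sum_eq_zero fun u hu => ?_
      exact Finsupp.single_eq_of_ne (fun h => hw (h ▸ hu))
  have hdeg : RRD.degZ k D = 4 * (n - 1) * n := by
    have h1 : ∀ S : Finset (DV (HOne j H k M)),
        RRD.degZ k (∑ w ∈ S, Finsupp.single w (4 * (n - 1) * (e w : ℤ))) =
        ∑ w ∈ S, 4 * (n - 1) * (e w : ℤ) * (RRD.deg k w : ℤ) := by
      intro S
      induction S using Finset.induction_on with
      | empty => rw [Finset.sum_empty, Finset.sum_empty, RRD.degZ_zero]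
      | insert w S hw ih => rw [Finset.sum_insert hw, Finset.sum_insert hw, RRD.degZ_add, ih,
          RRD.degZ_single]
    rw [hD, h1]
    have h5 : (4 * (n - 1) * n : ℤ) = ∑ w ∈ T, 4 * (n - 1) * ((e w : ℤ) * (f w : ℤ)) := by
      rw [← Finset.mul_sum, hn, ← hsum]
      push_cast
      ring
    rw [h5]
    refine Finset.sum_congr rfl fun w hw => ?_
    have h2 : RRD.deg k w = f w := by
      show Nat.log (Nat.card k) (Nat.card w.Res) = f w
      have h3 : Nat.card w.Res = Nat.card k ^ f w := by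
        have h4 : w.resCard = (Rat.inf k).resCard ^ f w := (hef w hw).2.2
        rw [hinf] at h4
        exact h4
      rw [h3, Nat.log_pow Finite.one_lt_card]
    rw [h2]
    ring
  have hmain := rhb (k := k) (E := HOne j H k M) C hR D ?_
  · rw [hdeg, ← hn] at hmain
    have hn1 : 1 ≤ n := by
      rw [hn]
      exact_mod_cast Module.finrank_pos
    have h4 : (G : ℤ) ≤ 2 * n ^ 2 := by nlinarith
    rw [hn] at h4
    exact_mod_cast h4
  · intro v a ha P hP
    rw [hDw]
    by_cases hv : v = Rat.inf k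
    · rw [hv] at ha hP
      have hPT := (hT P).2 hP
      rw [if_pos hPT, hn]
      exact HoR.inf_bound h hL (hef P hPT).1 ha
    · have hPT : P ∉ T := fun h1 => hv (hP.unique ((hT P).1 h1))
      rw [if_neg hPT, neg_zero]
      obtain ⟨Q, hQ⟩ := exists_aboveH (K := RatFunc k) (H := H) P
      have hQv : Over Q v := hQ.trans' hP
      exact (hQ.G_zero_iff a).1 (unram_trace (E := HOne j H k M) hQv
        (fun σ hσ => drS_unit h hQv hv σ hσ) ha)

end

end Pool.Agent.FF.Rk
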