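import Pool.Agent.FE.Inf0

/-! # D1 for `φ_T(x) = x + g x ^ (r ^ j) - x ^ (r ^ (j + 1))`: the filtration at infinity (81) -/

set_option autoImplicit false

namespace Pool.Agent.FF

namespace InfJ

section

variable {F : Type*} {H : Type*} [Field F] [Finite F] [Field H] [Algebra F H]

theorem b_pos {j : ℕ} (hj : 1 ≤ j) {g : H} {φ : H →ₗ[F] H} {Q : DV H}
    (hg : Q.ord g < 0) {N : Polynomial F} {x : H}
    (hx : x ∈ V φ N) (h0 : x ∉ V0 F j g Q φ N) : x ≠ 0 ∧ 0 < bJ F j g Q x := by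
  have hr := two_le F
  have hR := two_le_pow F hj
  have hx0 : x ≠ 0 := by
    rintro rfl
    exact h0 (zero_mem _)
  refine ⟨hx0, ?_⟩
  by_contra h
  push Not at h
  rw [bJ] at h
  have h2 : 0 ≤ Q.ord x := by
    by_contra h'
    push Not at h'
    nlinarith
  exact h0 ⟨hx, DV.G_of_le h2, Or.inr (by linarith)⟩

/-- the values of `b` outside `V_0` -/
theorem val {j : ℕ} (hj : 1 ≤ j) {g : H} {φ : H →ₗ[F] H} (hφ : IsPh F j g φ) {Q : DV H}
    (hg : Q.ord g < 0) {N : Polynomial F} (hN : N.Monic) (hf : Finite (V φ N)) {x : H}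
    (hx : x ∈ V φ N) (h0 : x ∉ V0 F j g Q φ N) :
    ∃ t < N.natDegree, ((Nat.card F : ℤ) ^ j) ^ (t + 1) *
      (((Nat.card F : ℤ) - 1) * bJ F j g Q x) = eJ F j g Q := by
  have hr := two_le F
  have hR := two_le_pow F hj
  obtain ⟨hx0, hb⟩ := b_pos hj hg hx h0
  obtain ⟨t, ht⟩ := exists_val hj hφ hg hf hx hx0 hb
  refine ⟨t, ?_, ht⟩
  by_contra hle
  push Not at hle
  have hb1 : 0 < ((Nat.card F : ℤ) - 1) * bJ F j g Q x := mul_pos (by omega) hb
  have hi : ∀ i ≤ t, (φ ^ i) x ≠ 0 ∧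
      bJ F j g Q ((φ ^ i) x) = ((Nat.card F : ℤ) ^ j) ^ i * bJ F j g Q x := by
    intro i hi
    refine iter hj hφ hg hx0 hb i ?_
    rw [← ht]
    exact mul_lt_mul_of_pos_right (pow_lt_pow_right₀ (by omega) (by omega)) hb1
  have h2 : Polynomial.aeval φ N x = 0 := hx
  rw [aeval_sum, Finset.sum_range_succ, hN.coeff_natDegree, one_smul, add_comm] at h2
  obtain ⟨h3, h4⟩ := hi N.natDegree hle
  refine (DV.ord_add_of_lt (v := Q) h3 ?_).1 h2
  refine G_sum _ _ fun i hi' => G_smul ?_ _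
  have hlt : i < N.natDegree := Finset.mem_range.1 hi'
  obtain ⟨h5, h6⟩ := hi i (by omega)
  have h7 : ((Nat.card F : ℤ) ^ j) ^ i * bJ F j g Q x <
      ((Nat.card F : ℤ) ^ j) ^ N.natDegree * bJ F j g Q x :=
    mul_lt_mul_of_pos_right (pow_lt_pow_right₀ (by omega) hlt) hb
  rw [← h6, ← h4, bJ, bJ] at h7
  refine DV.G_of_le ?_
  by_contra h8
  push Not at h8
  have h9 := mul_le_mul_of_nonneg_left (Int.lt_add_one_iff.1 h8)
    (by omega : (0 : ℤ) ≤ (Nat.card F : ℤ) ^ j - 1)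
  linarith

/-- `U_t` -/
noncomputable def UT (F : Type*) {H : Type*} [Field F] [Finite F] [Field H] [Algebra F H] (j : ℕ)
    (g : H) (Q : DV H) (φ : H →ₗ[F] H) (N : Polynomial F) (t : ℕ) : Submodule F H where
  carrier := {x | x ∈ V φ N ∧ InU F j g Q t x}
  zero_mem' := ⟨zero_mem _, Or.inl rfl⟩
  add_mem' := by
    rintro x y ⟨hx, hx1⟩ ⟨hy, hy1⟩
    refine ⟨add_mem hx hy, ?_⟩
    by_cases h0 : x = 0
    · simpa [h0] using hy1
    by_cases h1 : y = 0
    · simpa [h1] using hx1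
    by_cases h2 : x + y = 0
    · exact Or.inl h2
    have h3 := Q.ord_add x y h0 h1 h2
    have h4 := hx1.resolve_left h0
    have h5 := hy1.resolve_left h1
    have hr := two_le F
    have hR : (0 : ℤ) < (Nat.card F : ℤ) ^ j := by positivity
    have h6 : (0 : ℤ) ≤ (Nat.card F : ℤ) ^ j - 1 := by omega
    have h7 : (0 : ℤ) ≤ ((Nat.card F : ℤ) ^ j) ^ (t + 1) := by positivity
    have h8 : (0 : ℤ) ≤ (Nat.card F : ℤ) - 1 := by omega
    right
    rcases min_le_iff.1 h3 with h | h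
    · refine le_trans (mul_le_mul_of_nonneg_left (mul_le_mul_of_nonneg_left ?_ h8) h7) h4
      rw [bJ, bJ]
      have := mul_le_mul_of_nonneg_left h h6
      linarith
    · refine le_trans (mul_le_mul_of_nonneg_left (mul_le_mul_of_nonneg_left ?_ h8) h7) h5
      rw [bJ, bJ]
      have := mul_le_mul_of_nonneg_left h h6
      linarith
  smul_mem' := by
    rintro c x ⟨hx, hx1⟩
    by_cases hc : c = 0
    · simp only [hc, zero_smul]
      exact ⟨zero_mem _, Or.inl rfl⟩
    by_cases h0 : x = 0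
    · simp only [h0, smul_zero]
      exact ⟨zero_mem _, Or.inl rfl⟩
    refine ⟨Submodule.smul_mem _ c hx, Or.inr ?_⟩
    rw [bJ, ord_smul Q hc h0]
    exact hx1.resolve_left h0

theorem mem_UT {j : ℕ} {g : H} {Q : DV H} {φ : H →ₗ[F] H} {N : Polynomial F} {t : ℕ} {x : H} :
    x ∈ UT F j g Q φ N t ↔ x ∈ V φ N ∧ InU F j g Q t x := Iff.rfl

theorem UT_anti {j : ℕ} (hj : 1 ≤ j) {g : H} {Q : DV H} (hg : Q.ord g < 0) {φ : H →ₗ[F] H}
    {N : Polynomial F} (t : ℕ) : UT F j g Q φ N (t + 1) ≤ UT F j g Q φ N t := by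
  rintro x ⟨hx, h⟩
  refine ⟨hx, ?_⟩
  rcases h with h | h
  · exact Or.inl h
  right
  have hr := two_le F
  have hR := two_le_pow F hj
  have he := eJ_pos (F := F) (j := j) hg
  rcases le_or_gt (((Nat.card F : ℤ) - 1) * bJ F j g Q x) 0 with h1 | h1
  · exact le_trans (mul_nonpos_of_nonneg_of_nonpos (by positivity) h1) he.le
  · refine le_trans ?_ h
    exact mul_le_mul_of_nonneg_right (pow_le_pow_right₀ (by omega) (by omega)) h1.le

/-- the exact value -/
theorem UT_val {j : ℕ} (hj : 1 ≤ j) {g : H} {φ : H →ₗ[F] H} (hφ : IsPh F j g φ) {Q : DV H}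
    (hg : Q.ord g < 0) {N : Polynomial F} (hf : Finite (V φ N)) {t : ℕ} {x : H}
    (hx : x ∈ UT F j g Q φ N t) (hx' : x ∉ UT F j g Q φ N (t + 1)) :
    x ≠ 0 ∧ 0 < bJ F j g Q x ∧
      ((Nat.card F : ℤ) ^ j) ^ (t + 1) * (((Nat.card F : ℤ) - 1) * bJ F j g Q x) =
        eJ F j g Q := by
  have hr := two_le F
  have hR := two_le_pow F hj
  obtain ⟨hxV, hxU⟩ := hx
  have h0 : x ≠ 0 := by
    rintro rfl
    exact hx' (zero_mem _)
  have h1 := hxU.resolve_left h0
  have h2 : eJ F j g Q <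
      ((Nat.card F : ℤ) ^ j) ^ (t + 1 + 1) * (((Nat.card F : ℤ) - 1) * bJ F j g Q x) := by
    by_contra h
    push Not at h
    exact hx' ⟨hxV, Or.inr h⟩
  have h3 := eJ_pos (F := F) (j := j) hg
  have h4' : 0 < ((Nat.card F : ℤ) - 1) * bJ F j g Q x := by
    have h5 := h3.trans h2
    exact (mul_pos_iff_of_pos_left (by positivity)).1 h5
  have h4 : 0 < bJ F j g Q x := (mul_pos_iff_of_pos_left (by omega)).1 h4'
  obtain ⟨s, hs⟩ := exists_val hj hφ hg hf hxV h0 h4
  have hp : ∀ a b : ℕ, ((Nat.card F : ℤ) ^ j) ^ a * (((Nat.card F : ℤ) - 1) * bJ F j g Q x) <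
      ((Nat.card F : ℤ) ^ j) ^ b * (((Nat.card F : ℤ) - 1) * bJ F j g Q x) → a < b := by
    intro a b hab
    have := lt_of_mul_lt_mul_right hab h4'.le
    exact (pow_lt_pow_iff_right₀ (by omega)).1 this
  have h5 : s < t + 1 := by
    have := hp (s + 1) (t + 1 + 1) (by rw [hs]; exact h2)
    omega
  have h6 : t ≤ s := by
    by_contra h
    push Not at h
    have h7 : ((Nat.card F : ℤ) ^ j) ^ (s + 1) * (((Nat.card F : ℤ) - 1) * bJ F j g Q x) <
        ((Nat.card F : ℤ) ^ j) ^ (t + 1) * (((Nat.card F : ℤ) - 1) * bJ F j g Q x) :=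
      mul_lt_mul_of_pos_right (pow_lt_pow_right₀ (by omega) (by omega)) h4'
    rw [hs] at h7
    exact absurd h1 (not_le.2 h7)
  obtain rfl : s = t := by omega
  exact ⟨h0, h4, hs⟩

theorem UT_of_val {j : ℕ} (hj : 1 ≤ j) {g : H} {Q : DV H} {φ : H →ₗ[F] H} {N : Polynomial F}
    {t : ℕ} {x : H} (hx : x ∈ V φ N) (h0 : x ≠ 0) (hb : 0 < bJ F j g Q x)
    (h : ((Nat.card F : ℤ) ^ j) ^ (t + 1) * (((Nat.card F : ℤ) - 1) * bJ F j g Q x) =
      eJ F j g Q) :
    x ∈ UT F j g Q φ N t ∧ x ∉ UT F j g Q φ N (t + 1) := by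
  have hr := two_le F
  have hR := two_le_pow F hj
  refine ⟨⟨hx, Or.inr h.le⟩, fun h1 => ?_⟩
  have h2 := h1.2.resolve_left h0
  have h3 : ((Nat.card F : ℤ) ^ j) ^ (t + 1) * (((Nat.card F : ℤ) - 1) * bJ F j g Q x) <
      ((Nat.card F : ℤ) ^ j) ^ (t + 1 + 1) * (((Nat.card F : ℤ) - 1) * bJ F j g Q x) :=
    mul_lt_mul_of_pos_right (pow_lt_pow_right₀ (by omega) (by omega)) (mul_pos (by omega) hb)
  rw [h] at h3
  exact absurd h2 (not_le.2 h3)

theorem UT_step {j : ℕ} (hj : 1 ≤ j) {g : H} {φ : H →ₗ[F] H} (hφ : IsPh F j g φ) {Q : DV H}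
    (hg : Q.ord g < 0) {N : Polynomial F} (hf : Finite (V φ N)) {t : ℕ} {x : H}
    (hx : x ∈ UT F j g Q φ N (t + 1)) (hx' : x ∉ UT F j g Q φ N (t + 1 + 1)) :
    φ x ∈ UT F j g Q φ N t ∧ φ x ∉ UT F j g Q φ N (t + 1) := by
  have hr := two_le F
  have hR := two_le_pow F hj
  obtain ⟨h0, h1, h2⟩ := UT_val hj hφ hg hf hx hx'
  have h3 := iter hj hφ hg h0 h1 1 (by
    rw [← h2]
    exact mul_lt_mul_of_pos_right (pow_lt_pow_right₀ (by omega) (by omega))
      (mul_pos (by omega) h1))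
  rw [pow_one, pow_one] at h3
  refine UT_of_val hj (V_ph hx.1) h3.1 ?_ ?_
  · rw [h3.2]
    exact mul_pos (by omega) h1
  · rw [h3.2, ← h2, pow_succ _ (t + 1)]
    ring

theorem exists_c_zero {j : ℕ} (hj : 1 ≤ j) {g : H} {φ : H →ₗ[F] H} (hφ : IsPh F j g φ) {Q : DV H}
    (hg : Q.ord g < 0) {N : Polynomial F} (hf : Finite (V φ N))
    {x y : H} (hx : x ∈ UT F j g Q φ N 0) (hx' : x ∉ UT F j g Q φ N 1)
    (hy : y ∈ UT F j g Q φ N 0) (hy' : y ∉ UT F j g Q φ N 1) :
    ∃ c : F, y - c • x ∈ UT F j g Q φ N 1 := by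
  classical
  have hr := two_le F
  have hR := two_le_pow F hj
  have hR1 := two_le_pow F (j := j + 1) (by omega)
  have := Fintype.ofFinite F
  set A : ℤ := (Nat.card F : ℤ) ^ j * ((Nat.card F : ℤ) - 1) with hA
  have hA0 : 0 < A := mul_pos (by omega) (by omega)
  -- the orders
  have key : ∀ z ∈ UT F j g Q φ N 0, z ∉ UT F j g Q φ N 1 → z ≠ 0 ∧
      A * Q.ord z = Q.ord g ∧
      Q.G (Q.ord z) (g * z ^ Nat.card F ^ j - z ^ Nat.card F ^ (j + 1)) := by
    intro z hz hz'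
    obtain ⟨h0, h1, h2⟩ := UT_val hj hφ hg hf hz hz'
    rw [zero_add, pow_one, bJ, eJ, pow_succ] at h2
    have h3 : A * Q.ord z = Q.ord g := by
      have h4 : ((Nat.card F : ℤ) ^ j - 1) * (A * Q.ord z) =
          ((Nat.card F : ℤ) ^ j - 1) * Q.ord g := by
        rw [hA]
        linear_combination -h2
      exact mul_left_cancel₀ (by omega) h4
    refine ⟨h0, h3, ?_⟩
    have h4 : Q.G (Q.ord z) (φ z) := by
      by_cases h5 : φ z = 0
      · exact Or.inl h5
      · right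
        have h6 := ord_ge hj hφ hg hf (V_ph hz.1) h5
        rw [← h3] at h6
        exact le_of_mul_le_mul_left h6 hA0
    have h5 : g * z ^ Nat.card F ^ j - z ^ Nat.card F ^ (j + 1) = φ z - z := by
      rw [hφ]
      ring
    rw [h5]
    exact h4.sub (DV.G_ord z)
  obtain ⟨hx0, hxo, hxG⟩ := key x hx hx'
  obtain ⟨hy0, hyo, hyG⟩ := key y hy hy'
  have hxy : Q.ord y = Q.ord x := mul_left_cancel₀ hA0.ne' (hyo.trans hxo.symm)
  have hneg : Q.ord x < 0 := by
    by_contra h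
    push Not at h
    have : 0 ≤ A * Q.ord x := mul_nonneg hA0.le h
    omega
  set m := Q.ord x with hm
  set u := y / x with hu
  have hu0 : u ≠ 0 := div_ne_zero hy0 hx0
  have hux : y = u * x := by rw [hu]; field_simp
  have hord : Q.ord u = 0 := by rw [hu, Q.ord_div hy0 hx0, hxy, hm, sub_self]
  -- the congruence
  have h1 : (u - u ^ Nat.card F) ^ Nat.card F ^ j *
      (x ^ Nat.card F ^ (j + 1) * x ^ Nat.card F ^ j) =
      (g * y ^ Nat.card F ^ j - y ^ Nat.card F ^ (j + 1)) * x ^ Nat.card F ^ j -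
        (g * x ^ Nat.card F ^ j - x ^ Nat.card F ^ (j + 1)) * y ^ Nat.card F ^ j := by
    have e : (u ^ Nat.card F) ^ Nat.card F ^ j = u ^ Nat.card F ^ (j + 1) := by
      rw [← pow_mul, pow_succ (Nat.card F) j, mul_comm]
    rw [sub_pow F, e, hux, mul_pow, mul_pow]
    ring
  have h2 : Q.G (m + (Nat.card F : ℤ) ^ j * m) ((u - u ^ Nat.card F) ^ Nat.card F ^ j *
      (x ^ Nat.card F ^ (j + 1) * x ^ Nat.card F ^ j)) := by
    rw [h1]
    rw [hxy] at hyG
    have hyo' : Q.G m y := DV.G_of_le hxy.ge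
    have a1 := hyG.mul ((DV.G_ord x).pow (Nat.card F ^ j))
    have a2 := hxG.mul (hyo'.pow (Nat.card F ^ j))
    rw [← hm] at a1
    push_cast at a1 a2
    exact DV.G.sub a1 a2
  have h3 : Q.G 1 (u - u ^ Nat.card F) := by
    by_cases h0 : u - u ^ Nat.card F = 0
    · exact Or.inl h0
    right
    have h4 := h2.le (mul_ne_zero (pow_ne_zero _ h0)
      (mul_ne_zero (pow_ne_zero _ hx0) (pow_ne_zero _ hx0)))
    rw [Q.ord_mul _ _ (pow_ne_zero _ h0) (mul_ne_zero (pow_ne_zero _ hx0) (pow_ne_zero _ hx0)),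
      Q.ord_mul _ _ (pow_ne_zero _ hx0) (pow_ne_zero _ hx0), Q.ord_pow h0, Q.ord_pow hx0,
      Q.ord_pow hx0, ← hm] at h4
    push_cast at h4
    by_contra h5
    push Not at h5
    have h6 : (Nat.card F : ℤ) ^ j * Q.ord (u - u ^ Nat.card F) ≤ 0 :=
      mul_nonpos_of_nonneg_of_nonpos (by omega) (by omega)
    nlinarith
  -- the product
  have h4 : ∏ c : F, (u - algebraMap F H c) = u ^ Nat.card F - u := by
    have h6 : (Polynomial.X ^ Nat.card F - Polynomial.X : Polynomial F) =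
        ∏ c : F, (Polynomial.X - Polynomial.C c) := by
      rw [Nat.card_eq_fintype_card]
      have h8 : (Polynomial.X ^ Fintype.card F - Polynomial.X : Polynomial F).natDegree =
          Fintype.card F := FiniteField.X_pow_card_sub_X_natDegree_eq F Fintype.one_lt_card
      have h9 : (Polynomial.X ^ Fintype.card F - Polynomial.X : Polynomial F).Monic :=
        Polynomial.monic_X_pow_sub (by
          rw [Polynomial.degree_X]
          exact_mod_cast Fintype.one_lt_card)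
      have h10 := Polynomial.prod_multiset_X_sub_C_of_monic_of_roots_card_eq h9 (by
        rw [FiniteField.roots_X_pow_card_sub_X, h8]
        rfl)
      rw [FiniteField.roots_X_pow_card_sub_X] at h10
      exact h10.symm
    have h7 := congrArg (Polynomial.aeval u) h6
    rw [map_sub, map_pow, Polynomial.aeval_X, map_prod] at h7
    rw [h7]
    refine Finset.prod_congr rfl fun c _ => ?_
    rw [map_sub, Polynomial.aeval_X, Polynomial.aeval_C]
  obtain ⟨c, hc⟩ : ∃ c : F, Q.G 1 (u - algebraMap F H c) := by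
    by_contra hall
    push Not at hall
    refine prod_not_G Finset.univ (fun c : F => u - algebraMap F H c) (fun c _ => hall c) ?_
    rw [h4]
    have := h3.neg
    rwa [neg_sub] at this
  refine ⟨c, ?_⟩
  have h5 : y - c • x = (u - algebraMap F H c) * x := by
    rw [Algebra.smul_def, sub_mul, ← hux]
  have h6 : Q.G (m + 1) (y - c • x) := by
    rw [h5]
    exact (hc.mul (DV.G_ord x)).mono (by omega)
  have hzV : y - c • x ∈ V φ N := sub_mem hy.1 (Submodule.smul_mem _ c hx.1)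
  refine ⟨hzV, ?_⟩
  by_cases hz0 : y - c • x = 0
  · exact Or.inl hz0
  right
  have h7 := h6.le hz0
  set z := y - c • x with hz
  rcases le_or_gt (bJ F j g Q z) 0 with h8 | h8
  · refine le_trans (mul_nonpos_of_nonneg_of_nonpos (by positivity)
      (mul_nonpos_of_nonneg_of_nonpos (by omega) h8)) (eJ_pos hg).le
  · obtain ⟨t, ht⟩ := exists_val hj hφ hg hf hzV hz0 h8
    have h9 : t ≠ 0 := by
      rintro rfl
      rw [zero_add, pow_one, bJ, eJ, pow_succ] at ht
      have h10 : A * Q.ord z = Q.ord g := by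
        have h4 : ((Nat.card F : ℤ) ^ j - 1) * (A * Q.ord z) =
            ((Nat.card F : ℤ) ^ j - 1) * Q.ord g := by
          rw [hA]
          linear_combination -ht
        exact mul_left_cancel₀ (by omega) h4
      rw [← hxo] at h10
      have h11 : Q.ord z = m := mul_left_cancel₀ hA0.ne' h10
      omega
    refine le_trans (mul_le_mul_of_nonneg_right (pow_le_pow_right₀ (by omega : (1 : ℤ) ≤ _)
      (by omega : 1 + 1 ≤ t + 1)) (mul_nonneg (by omega) h8.le)) ht.le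

theorem exists_c {j : ℕ} (hj : 1 ≤ j) {g : H} {φ : H →ₗ[F] H} (hφ : IsPh F j g φ) {Q : DV H}
    (hg : Q.ord g < 0) {N : Polynomial F} (hf : Finite (V φ N)) (t : ℕ)
    {x y : H} (hx : x ∈ UT F j g Q φ N t) (hx' : x ∉ UT F j g Q φ N (t + 1))
    (hy : y ∈ UT F j g Q φ N t) (hy' : y ∉ UT F j g Q φ N (t + 1)) :
    ∃ c : F, y - c • x ∈ UT F j g Q φ N (t + 1) := by
  induction t generalizing x y with
  | zero => exact exists_c_zero hj hφ hg hf hx hx' hy hy'
  | succ t ih =>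
    obtain ⟨a1, a2⟩ := UT_step hj hφ hg hf hx hx'
    obtain ⟨b1, b2⟩ := UT_step hj hφ hg hf hy hy'
    obtain ⟨c, hc⟩ := ih a1 a2 b1 b2
    refine ⟨c, ?_⟩
    by_contra hz
    have h1 := (UT_step hj hφ hg hf (sub_mem hy (Submodule.smul_mem _ c hx)) hz).2
    rw [map_sub, map_smul] at h1
    exact h1 hc

theorem finite_UT {j : ℕ} {g : H} {Q : DV H} {φ : H →ₗ[F] H} {N : Polynomial F}
    (hf : Finite (V φ N)) (t : ℕ) : Finite (UT F j g Q φ N t) := by
  have h : (UT F j g Q φ N t : Set H).Finite :=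
    (Set.toFinite (V φ N : Set H)).subset fun y hy => hy.1
  exact h.to_subtype

theorem finite_V0 {j : ℕ} {g : H} {Q : DV H} {φ : H →ₗ[F] H} {N : Polynomial F}
    (hf : Finite (V φ N)) : Finite (V0 F j g Q φ N) := by
  have h : (V0 F j g Q φ N : Set H).Finite :=
    (Set.toFinite (V φ N : Set H)).subset fun y hy => hy.1
  exact h.to_subtype

theorem card_UT_le {j : ℕ} (hj : 1 ≤ j) {g : H} {φ : H →ₗ[F] H} (hφ : IsPh F j g φ) {Q : DV H}
    (hg : Q.ord g < 0) {N : Polynomial F} (hf : Finite (V φ N)) (t : ℕ) :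
    Nat.card (UT F j g Q φ N t) ≤ Nat.card F * Nat.card (UT F j g Q φ N (t + 1)) := by
  have hr : 1 < Nat.card F := Finite.one_lt_card
  have := finite_UT (j := j) (Q := Q) (g := g) hf t
  have := finite_UT (j := j) (Q := Q) (g := g) hf (t + 1)
  by_cases h : ∃ x ∈ UT F j g Q φ N t, x ∉ UT F j g Q φ N (t + 1)
  · obtain ⟨x, hx, hx'⟩ := h
    rw [← Nat.card_prod]
    refine Nat.card_le_card_of_surjective (fun p : F × UT F j g Q φ N (t + 1) =>
      (⟨p.1 • x + p.2, add_mem (Submodule.smul_mem _ _ hx) (UT_anti hj hg t p.2.2)⟩ :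
        UT F j g Q φ N t)) ?_
    rintro ⟨y, hy⟩
    by_cases hy' : y ∈ UT F j g Q φ N (t + 1)
    · exact ⟨(0, ⟨y, hy'⟩), by simp⟩
    · obtain ⟨c, hc⟩ := exists_c hj hφ hg hf t hx hx' hy hy'
      exact ⟨(c, ⟨_, hc⟩), by simp⟩
  · push Not at h
    have h1 : Nat.card (UT F j g Q φ N t) ≤ Nat.card (UT F j g Q φ N (t + 1)) :=
      Nat.card_le_card_of_injective (fun x => (⟨x.1, h x.1 x.2⟩ : UT F j g Q φ N (t + 1)))
        fun a b hab => Subtype.ext (congrArg (fun z : UT F j g Q φ N (t + 1) => (z : H)) hab)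
    exact h1.trans (Nat.le_mul_of_pos_left _ (by omega))

theorem UT_zero {j : ℕ} (hj : 1 ≤ j) {g : H} {φ : H →ₗ[F] H} (hφ : IsPh F j g φ) {Q : DV H}
    (hg : Q.ord g < 0) {N : Polynomial F} (hf : Finite (V φ N)) :
    UT F j g Q φ N 0 = V φ N := by
  refine le_antisymm (fun x hx => hx.1) fun x hx => ⟨hx, ?_⟩
  by_cases h0 : x = 0
  · exact Or.inl h0
  right
  have h1 := ord_ge hj hφ hg hf hx h0
  have hr := two_le F
  have hR := two_le_pow F hj
  rw [zero_add, pow_one, bJ, eJ, pow_succ]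
  nlinarith

theorem UT_top_le {j : ℕ} (hj : 1 ≤ j) {g : H} {φ : H →ₗ[F] H} (hφ : IsPh F j g φ) {Q : DV H}
    (hg : Q.ord g < 0) {N : Polynomial F} (hN : N.Monic) (hf : Finite (V φ N)) :
    UT F j g Q φ N N.natDegree ≤ V0 F j g Q φ N := by
  intro x hx
  by_contra h0
  have hr := two_le F
  have hR := two_le_pow F hj
  obtain ⟨hx0, hb⟩ := b_pos hj hg hx.1 h0
  obtain ⟨t, ht, h2⟩ := val hj hφ hg hN hf hx.1 h0
  have h3 := hx.2.resolve_left hx0
  rw [← h2] at h3
  have h4 := le_of_mul_le_mul_right h3 (mul_pos (by omega) hb)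
  have h5 := (pow_le_pow_iff_right₀ (by omega)).1 h4
  omega

theorem card_UT {j : ℕ} (hj : 1 ≤ j) {g : H} {φ : H →ₗ[F] H} (hφ : IsPh F j g φ) {Q : DV H}
    (hg : Q.ord g < 0) {N : Polynomial F} (hN : N.Monic) (h1 : N.eval 1 ≠ 0)
    (hf : Finite (V φ N)) (hV : Nat.card (V φ N) = Nat.card F ^ ((j + 1) * N.natDegree)) {t : ℕ}
    (ht : t ≤ N.natDegree) :
    Nat.card (UT F j g Q φ N t) = Nat.card F ^ ((j + 1) * N.natDegree - t) ∧
      Nat.card (V0 F j g Q φ N) = Nat.card F ^ (j * N.natDegree) := by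
  have hr : 1 < Nat.card F := Finite.one_lt_card
  have hV0fin := finite_V0 (j := j) (g := g) (Q := Q) hf
  have hjD : (j + 1) * N.natDegree = j * N.natDegree + N.natDegree := by ring
  -- lower bound
  have hlow : ∀ t, Nat.card F ^ ((j + 1) * N.natDegree) ≤
      Nat.card F ^ t * Nat.card (UT F j g Q φ N t) := by
    intro t
    induction t with
    | zero => rw [pow_zero, one_mul, UT_zero hj hφ hg hf, hV]
    | succ t ih =>
      refine ih.trans ?_
      rw [pow_succ, mul_assoc]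
      exact Nat.mul_le_mul_left _ (card_UT_le hj hφ hg hf t)
  have htop : Nat.card (UT F j g Q φ N N.natDegree) ≤ Nat.card (V0 F j g Q φ N) :=
    Nat.card_le_card_of_injective
      (fun x => (⟨x.1, UT_top_le hj hφ hg hN hf x.2⟩ : V0 F j g Q φ N))
      fun a b hab => Subtype.ext (congrArg (fun z : V0 F j g Q φ N => (z : H)) hab)
  have hV0 := card_V0_le (N := N) hj hφ hg hN h1 hf
  -- upper bound
  have hup : ∀ s ≤ N.natDegree, Nat.card (UT F j g Q φ N (N.natDegree - s)) ≤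
      Nat.card F ^ (j * N.natDegree + s) := by
    intro s
    induction s with
    | zero => intro _; rw [Nat.sub_zero, add_zero]; exact htop.trans hV0
    | succ s ih =>
      intro hs
      have h2 := ih (by omega)
      have h3 := card_UT_le (Q := Q) hj hφ hg hf (N.natDegree - (s + 1))
      rw [show N.natDegree - (s + 1) + 1 = N.natDegree - s by omega] at h3
      refine h3.trans ((Nat.mul_le_mul_left _ h2).trans ?_)
      rw [← add_assoc, pow_succ, mul_comm]
  refine ⟨le_antisymm ?_ ?_, le_antisymm hV0 ?_⟩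
  · have h2 := hup (N.natDegree - t) (by omega)
    rw [show N.natDegree - (N.natDegree - t) = t by omega,
      show j * N.natDegree + (N.natDegree - t) = (j + 1) * N.natDegree - t by
        rw [hjD]; omega] at h2
    exact h2
  · have h2 := hlow t
    have e : (j + 1) * N.natDegree = t + ((j + 1) * N.natDegree - t) := by
      rw [hjD]
      omega
    rw [e, pow_add] at h2
    have h3 := Nat.le_of_mul_le_mul_left h2 (by positivity)
    exact h3
  · have h2 := (hlow N.natDegree).trans (Nat.mul_le_mul_left _ htop)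
    rw [hjD, pow_add, mul_comm (Nat.card F ^ (j * N.natDegree))] at h2
    exact Nat.le_of_mul_le_mul_left h2 (by positivity)

/-- `|V_0| = r ^ (j D)` -/
theorem card_V0 {j : ℕ} (hj : 1 ≤ j) {g : H} {φ : H →ₗ[F] H} (hφ : IsPh F j g φ) {Q : DV H}
    (hg : Q.ord g < 0) {N : Polynomial F} (hN : N.Monic) (h1 : N.eval 1 ≠ 0)
    (hf : Finite (V φ N)) (hV : Nat.card (V φ N) = Nat.card F ^ ((j + 1) * N.natDegree)) :
    Nat.card (V0 F j g Q φ N) = Nat.card F ^ (j * N.natDegree) :=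
  (card_UT hj hφ hg hN h1 hf hV (Nat.zero_le _)).2

end

end InfJ

end Pool.Agent.FF
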