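import Pool.Agent.FE.Split
import Pool.Agent.FE.InfJ

/-! # D1: the torsion at infinity (81) -/

set_option autoImplicit false

namespace Pool.Agent.FF.Rk

section

variable {F : Type*} {j : ℕ} {H : Type*} [Field F] [Finite F] [Field H] [Algebra F H]

theorem isPh (g : H) : InfJ.IsPh F j g (phT F j g) := fun _ => rfl

theorem finite_V (g : H) {N : Polynomial F} (hN : N ≠ 0) : Finite (InfJ.V (phT F j g) N) :=
  finite_VN g hN

theorem V0_eq (g : H) (Q : DV H) (N : Polynomial F) :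
    V0 F j g Q N = InfJ.V0 F j g Q (phT F j g) N := Submodule.ext fun _ => Iff.rfl

theorem InU_iff {g : H} {Q : DV H} {t : ℕ} {x : H} :
    InU F j g Q t x ↔ InfJ.InU F j g Q t x := by
  rw [InU, InfJ.InU, InfJ.bJ, InfJ.eJ, ← pow_mul]

/-- `V_0` is stable -/
theorem V0_st (hj : 0 < j) {g : H} {Q : DV H} (hg : Q.ord g < 0) {N : Polynomial F} {x : H}
    (hx : x ∈ V0 F j g Q N) : phT F j g x ∈ V0 F j g Q N :=
  InfJ.V0_st (Nat.succ_le_of_lt hj) (isPh g) hg hx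

theorem inf_V0 (hj : 0 < j) {g : H} {Q : DV H} (hg : Q.ord g < 0) {N : Polynomial F}
    (hN : N.Monic) (h1 : N.eval 1 ≠ 0) {x : H} (hx : x ∈ V0 F j g Q N) (h0 : x ≠ 0) :
    ((Nat.card F : ℤ) ^ j - 1) * Q.ord x = - Q.ord g :=
  InfJ.V0_ord (Nat.succ_le_of_lt hj) (isPh g) hg h1 hx h0

/-- `|V_0| = r ^ (j D)` -/
theorem card_V0 (hj : 0 < j) {g : H} {Q : DV H} (hg : Q.ord g < 0) {N : Polynomial F}
    (hN : N.Monic) (h1 : N.eval 1 ≠ 0)
    (hV : Nat.card (VN F j g N) = Nat.card F ^ ((j + 1) * N.natDegree)) :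
    Nat.card (V0 F j g Q N) = Nat.card F ^ (j * N.natDegree) := by
  rw [V0_eq]
  exact InfJ.card_V0 (Nat.succ_le_of_lt hj) (isPh g) hg hN h1 (finite_V g hN.ne_zero) hV

/-- the values of `b` outside `V_0` -/
theorem inf_val (hj : 0 < j) {g : H} {Q : DV H} (hg : Q.ord g < 0) {N : Polynomial F}
    (hN : N.Monic) (h1 : N.eval 1 ≠ 0) {x : H} (hx : x ∈ VN F j g N) (h0 : x ∉ V0 F j g Q N) :
    ∃ t < N.natDegree, (Nat.card F : ℤ) ^ (j * (t + 1)) *
      (((Nat.card F : ℤ) - 1) * (- Q.ord g - ((Nat.card F : ℤ) ^ j - 1) * Q.ord x)) =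
      ((Nat.card F : ℤ) ^ (j + 1) - 1) * (- Q.ord g) := by
  obtain ⟨t, ht, h⟩ := InfJ.val (Nat.succ_le_of_lt hj) (isPh g) hg hN (finite_V g hN.ne_zero) hx h0
  refine ⟨t, ht, ?_⟩
  rw [pow_mul]
  exact h

/-- the filtration by `b` -/
theorem card_U (hj : 0 < j) {g : H} {Q : DV H} (hg : Q.ord g < 0) {N : Polynomial F}
    (hN : N.Monic) (h1 : N.eval 1 ≠ 0)
    (hV : Nat.card (VN F j g N) = Nat.card F ^ ((j + 1) * N.natDegree)) {t : ℕ}
    (ht : t ≤ N.natDegree) :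
    Nat.card {x : H // x ∈ VN F j g N ∧ InU F j g Q t x} =
      Nat.card F ^ ((j + 1) * N.natDegree - t) := by
  rw [← (InfJ.card_UT (Nat.succ_le_of_lt hj) (isPh g) hg hN h1 (finite_V g hN.ne_zero) hV ht).1]
  exact Nat.card_congr (Equiv.subtypeEquivRight fun x => and_congr_right fun _ => InU_iff)

end

end Pool.Agent.FF.Rk
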