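import Pool.Agent.FD.Base
import Pool.Agent.FF.ErDef

/-! # D1 for `φ_T(x) = x + g x ^ (r ^ j) - x ^ (r ^ (j + 1))`: the torsion at infinity (81)

`r = |F|`, `R = r ^ j`, `N` monic of degree `D`, `V = ker N(φ_T)`. -/

set_option autoImplicit false

namespace Pool.Agent.FF

namespace InfJ

section roots

variable {H : Type*} [Field H]

/-- The number of roots in the residue field. -/
theorem card_roots_residue {Q : DV H} {S : Finset H} (P : Polynomial H)
    (hP : ∀ i, Q.G 0 (P.coeff i)) (hn : ∃ i, ¬ Q.G 1 (P.coeff i)) (hS : ∀ x ∈ S, Q.G 0 x)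
    (hd : ∀ x ∈ S, ∀ y ∈ S, x ≠ y → ¬ Q.G 1 (x - y)) (hr : ∀ x ∈ S, Q.G 1 (P.eval x)) :
    S.card ≤ P.natDegree := by
  classical
  have := Q.mx_maximal
  let _ : Field (Q.ring ⧸ Q.mx) := Ideal.Quotient.field Q.mx
  have hT : (↑P.coeffs : Set H) ⊆ Q.ring := by
    intro a ha
    obtain ⟨n, -, rfl⟩ := Polynomial.mem_coeffs_iff.1 ha
    exact hP n
  set P' := P.toSubring Q.ring hT with hP'
  have hcoe : ∀ i, ((P'.coeff i : Q.ring) : H) = P.coeff i := fun i =>
    Polynomial.coeff_toSubring' P Q.ring hT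
  have heval : ∀ a : Q.ring, ((P'.eval a : Q.ring) : H) = P.eval (a : H) := by
    intro a
    have h1 := Polynomial.eval_map_apply (p := P') (Subring.subtype Q.ring) a
    rw [hP', Polynomial.map_toSubring] at h1
    exact h1.symm
  set P'' := P'.map (Ideal.Quotient.mk Q.mx) with hP''
  have hne : P'' ≠ 0 := by
    obtain ⟨i, hi⟩ := hn
    intro h0
    apply hi
    have h1 : P''.coeff i = 0 := by rw [h0, Polynomial.coeff_zero]
    rw [hP'', Polynomial.coeff_map, Ideal.Quotient.eq_zero_iff_mem] at h1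
    have h2 : Q.G 1 ((P'.coeff i : Q.ring) : H) := h1
    rwa [hcoe] at h2
  have hdeg : P''.natDegree ≤ P.natDegree := by
    refine Polynomial.natDegree_map_le.trans ?_
    rw [hP', Polynomial.natDegree_toSubring]
  refine le_trans ?_ ((Polynomial.card_roots' P'').trans hdeg)
  refine le_trans ?_ (Multiset.toFinset_card_le P''.roots)
  refine Finset.card_le_card_of_injOn
    (fun x => if h : Q.G 0 x then Ideal.Quotient.mk Q.mx ⟨x, h⟩ else 0) ?_ ?_
  · intro x hx
    have hx : x ∈ S := hx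
    have h0 := hS x hx
    simp only [Finset.mem_coe, Multiset.mem_toFinset, h0, dif_pos]
    rw [Polynomial.mem_roots hne, Polynomial.IsRoot.def, hP'', Polynomial.eval_map_apply,
      Ideal.Quotient.eq_zero_iff_mem]
    show Q.G 1 ((P'.eval (⟨x, h0⟩ : Q.ring) : Q.ring) : H)
    rw [heval]
    exact hr x hx
  · intro x hx y hy hxy
    have hx : x ∈ S := hx
    have hy : y ∈ S := hy
    by_contra hne'
    have h0 := hS x hx
    have h1 := hS y hy
    simp only [h0, h1, dif_pos] at hxy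
    rw [Ideal.Quotient.eq] at hxy
    exact hd x hx y hy hne' hxy

theorem G_sum {Q : DV H} {n : ℤ} {ι : Type*} (s : Finset ι) (f : ι → H)
    (h : ∀ i ∈ s, Q.G n (f i)) : Q.G n (∑ i ∈ s, f i) := by
  classical
  induction s using Finset.induction_on with
  | empty => simpa using DV.G_zero n
  | insert a s ha ih =>
    rw [Finset.sum_insert ha]
    exact (h a (Finset.mem_insert_self _ _)).add (ih fun i hi => h i (Finset.mem_insert_of_mem hi))

theorem prod_not_G {Q : DV H} {ι : Type*} (s : Finset ι) (f : ι → H)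
    (h : ∀ i ∈ s, ¬ Q.G 1 (f i)) : ¬ Q.G 1 (∏ i ∈ s, f i) := by
  classical
  induction s using Finset.induction_on with
  | empty =>
    rw [Finset.prod_empty, DV.not_G one_ne_zero, Q.ord_one]
    norm_num
  | insert a s ha ih =>
    have h1 := ih fun i hi => h i (Finset.mem_insert_of_mem hi)
    have h2 := h a (Finset.mem_insert_self _ _)
    have h3 := DV.ne_zero_of_not_G h1
    have h4 := DV.ne_zero_of_not_G h2
    rw [Finset.prod_insert ha, DV.not_G (mul_ne_zero h4 h3), Q.ord_mul _ _ h4 h3]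
    rw [DV.not_G h3] at h1
    rw [DV.not_G h4] at h2
    omega

end roots

theorem two_le (F : Type*) [Field F] [Finite F] : (2 : ℤ) ≤ (Nat.card F : ℤ) := by
  have : 1 < Nat.card F := Finite.one_lt_card
  exact_mod_cast this

theorem two_le_pow (F : Type*) [Field F] [Finite F] {j : ℕ} (hj : 1 ≤ j) :
    (2 : ℤ) ≤ (Nat.card F : ℤ) ^ j :=
  (two_le F).trans (le_self_pow₀ (by have := two_le F; omega) (by omega))

section

variable {F : Type*} {H : Type*} [Field F] [Finite F] [Field H] [Algebra F H]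

theorem G_smul {Q : DV H} {n : ℤ} {x : H} (hx : Q.G n x) (c : F) : Q.G n (c • x) := by
  rw [Algebra.smul_def]
  have h := (RRD.G_algebraMap Q c).mul hx
  rwa [zero_add] at h

theorem ord_smul (Q : DV H) {c : F} (hc : c ≠ 0) {x : H} (hx : x ≠ 0) : Q.ord (c • x) = Q.ord x := by
  have hc' : algebraMap F H c ≠ 0 := by rwa [Ne, map_eq_zero]
  rw [Algebra.smul_def, Q.ord_mul _ _ hc' hx, RRD.ord_algebraMap Q hc, zero_add]

theorem sub_pow (F : Type*) [Field F] [Finite F] [Algebra F H] (n : ℕ) (x y : H) :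
    (x - y) ^ Nat.card F ^ n = x ^ Nat.card F ^ n - y ^ Nat.card F ^ n := by
  have h := add_pow_card F (H := H) n (x - y) y
  rw [sub_add_cancel] at h
  linear_combination -h

/-- `φ_T` -/
def IsPh (F : Type*) {H : Type*} [Field F] [Field H] [Algebra F H] (j : ℕ) (g : H)
    (φ : H →ₗ[F] H) : Prop :=
  ∀ x, φ x = x + g * x ^ Nat.card F ^ j - x ^ Nat.card F ^ (j + 1)

/-- `V` -/
noncomputable def V (φ : H →ₗ[F] H) (N : Polynomial F) : Submodule F H :=
  LinearMap.ker (Polynomial.aeval φ N)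

theorem delta_apply {j : ℕ} {g : H} {φ : H →ₗ[F] H} (hφ : IsPh F j g φ) (x : H) :
    (φ - 1) x = g * x ^ Nat.card F ^ j - x ^ Nat.card F ^ (j + 1) := by
  rw [LinearMap.sub_apply, hφ, Module.End.one_apply]
  ring

theorem ph_eq (φ : H →ₗ[F] H) (x : H) : φ x = x + (φ - 1) x := by
  rw [LinearMap.sub_apply, Module.End.one_apply]
  ring

theorem aeval_taylor (φ : H →ₗ[F] H) (x : H) (N : Polynomial F) :
    Polynomial.aeval φ N x = ∑ i ∈ Finset.range (N.natDegree + 1),
      (Polynomial.taylor 1 N).coeff i • ((φ - 1) ^ i) x := by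
  have h1 : Polynomial.aeval φ N = Polynomial.aeval (φ - 1) (Polynomial.taylor 1 N) := by
    rw [Polynomial.taylor_apply, Polynomial.aeval_comp]
    simp
  rw [h1, Polynomial.aeval_eq_sum_range, Polynomial.natDegree_taylor, LinearMap.sum_apply]
  rfl

theorem aeval_sum (φ : H →ₗ[F] H) (x : H) (N : Polynomial F) :
    Polynomial.aeval φ N x = ∑ i ∈ Finset.range (N.natDegree + 1), N.coeff i • (φ ^ i) x := by
  rw [Polynomial.aeval_eq_sum_range, LinearMap.sum_apply]
  rfl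

theorem delta_G {j : ℕ} {g : H} {φ : H →ₗ[F] H} (hφ : IsPh F j g φ) {Q : DV H} {m c : ℤ} {x : H}
    (hx : Q.G m x) (h1 : c ≤ Q.ord g + (Nat.card F : ℤ) ^ j * m)
    (h2 : c ≤ (Nat.card F : ℤ) ^ (j + 1) * m) : Q.G c ((φ - 1) x) := by
  rw [delta_apply hφ]
  refine DV.G.sub (((DV.G_ord g).mul (hx.pow _)).mono ?_) ((hx.pow _).mono ?_)
  · push_cast
    exact h1
  · push_cast
    exact h2

/-- no torsion element is smaller than the elements of `V_0` -/
theorem ord_le {j : ℕ} (hj : 1 ≤ j) {g : H} {φ : H →ₗ[F] H} (hφ : IsPh F j g φ) {Q : DV H}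
    (hg : Q.ord g < 0) {N : Polynomial F} (h1 : N.eval 1 ≠ 0) {x : H} (hx : x ∈ V φ N)
    (h0 : x ≠ 0) : ((Nat.card F : ℤ) ^ j - 1) * Q.ord x ≤ - Q.ord g := by
  by_contra hlt
  push Not at hlt
  have hr := two_le F
  have hR := two_le_pow F hj
  have hm : 1 ≤ Q.ord x := by
    by_contra h
    push Not at h
    nlinarith
  set m := Q.ord x with hm'
  have hd : ∀ y : H, Q.G m y → Q.G (m + 1) ((φ - 1) y) := by
    intro y hy
    refine delta_G hφ hy ?_ ?_
    · nlinarith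
    · rw [pow_succ]
      nlinarith
  have hd2 : ∀ i : ℕ, Q.G m (((φ - 1) ^ i) x) := by
    intro i
    induction i with
    | zero =>
      rw [pow_zero, Module.End.one_apply]
      exact DV.G_ord x
    | succ i ih =>
      rw [pow_succ', Module.End.mul_apply]
      exact (hd _ ih).mono (by omega)
  have h2 : Polynomial.aeval φ N x = 0 := hx
  rw [aeval_taylor, Finset.sum_range_succ', Polynomial.taylor_coeff_zero, pow_zero,
    Module.End.one_apply, add_comm] at h2
  refine (DV.ord_add_of_lt (v := Q) (a := N.eval 1 • x) (smul_ne_zero h1 h0) ?_).1 h2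
  rw [ord_smul Q h1 h0]
  refine G_sum _ _ fun i _ => G_smul ?_ _
  rw [pow_succ', Module.End.mul_apply]
  exact hd _ (hd2 i)

/-- the middle range -/
theorem step {j : ℕ} (hj : 1 ≤ j) {g : H} {φ : H →ₗ[F] H} (hφ : IsPh F j g φ) {Q : DV H}
    (hg : Q.ord g < 0) {x : H} (h0 : x ≠ 0)
    (h1 : ((Nat.card F : ℤ) ^ j - 1) * Q.ord x < - Q.ord g)
    (h2 : Q.ord g < (Nat.card F : ℤ) ^ j * ((Nat.card F : ℤ) - 1) * Q.ord x) :
    φ x ≠ 0 ∧ Q.ord (φ x) = Q.ord g + (Nat.card F : ℤ) ^ j * Q.ord x := by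
  have hr := two_le F
  have hR := two_le_pow F hj
  have hg0 : g ≠ 0 := by
    rintro rfl
    rw [Q.ord_zero] at hg
    omega
  have h3 : g * x ^ Nat.card F ^ j ≠ 0 := mul_ne_zero hg0 (pow_ne_zero _ h0)
  have h4 : Q.ord (g * x ^ Nat.card F ^ j) = Q.ord g + (Nat.card F : ℤ) ^ j * Q.ord x := by
    rw [Q.ord_mul _ _ hg0 (pow_ne_zero _ h0), Q.ord_pow h0]
    push_cast
    ring
  have h5 : φ x = g * x ^ Nat.card F ^ j + (x - x ^ Nat.card F ^ (j + 1)) := by
    rw [hφ]
    ring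
  have h6 : Q.G (Q.ord (g * x ^ Nat.card F ^ j) + 1) (x - x ^ Nat.card F ^ (j + 1)) := by
    rw [h4]
    refine DV.G.sub ((DV.G_ord x).mono (by nlinarith)) (((DV.G_ord x).pow _).mono ?_)
    push_cast
    rw [pow_succ]
    nlinarith
  have h7 := DV.ord_add_of_lt h3 h6
  rw [h5]
  exact ⟨h7.1, h7.2.trans h4⟩

/-- the range of the large elements -/
theorem big {j : ℕ} (hj : 1 ≤ j) {g : H} {φ : H →ₗ[F] H} (hφ : IsPh F j g φ) {Q : DV H}
    (hg : Q.ord g < 0) {x : H} (h0 : x ≠ 0)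
    (h2 : (Nat.card F : ℤ) ^ j * ((Nat.card F : ℤ) - 1) * Q.ord x < Q.ord g) :
    φ x ≠ 0 ∧ Q.ord (φ x) = (Nat.card F : ℤ) ^ (j + 1) * Q.ord x := by
  have hr := two_le F
  have hR := two_le_pow F hj
  have hx : Q.ord x < 0 := by
    by_contra h
    push Not at h
    have : 0 ≤ (Nat.card F : ℤ) ^ j * ((Nat.card F : ℤ) - 1) * Q.ord x := by
      apply mul_nonneg _ h
      apply mul_nonneg <;> omega
    omega
  have h3 : - x ^ Nat.card F ^ (j + 1) ≠ 0 := neg_ne_zero.2 (pow_ne_zero _ h0)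
  have h4 : Q.ord (- x ^ Nat.card F ^ (j + 1)) = (Nat.card F : ℤ) ^ (j + 1) * Q.ord x := by
    rw [Q.ord_neg, Q.ord_pow h0]
    push_cast
    ring
  have h5 : φ x = - x ^ Nat.card F ^ (j + 1) + (x + g * x ^ Nat.card F ^ j) := by
    rw [hφ]
    ring
  have h6 : Q.G (Q.ord (- x ^ Nat.card F ^ (j + 1)) + 1) (x + g * x ^ Nat.card F ^ j) := by
    rw [h4, pow_succ]
    refine DV.G.add ((DV.G_ord x).mono ?_)
      (((DV.G_ord g).mul ((DV.G_ord x).pow _)).mono ?_)
    · have h7 : (4 : ℤ) ≤ (Nat.card F : ℤ) ^ j * (Nat.card F : ℤ) := by nlinarith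
      nlinarith
    · push_cast
      nlinarith
  have h7 := DV.ord_add_of_lt h3 h6
  rw [h5]
  exact ⟨h7.1, h7.2.trans h4⟩

theorem V_pow {φ : H →ₗ[F] H} {N : Polynomial F} {x : H} (hx : x ∈ V φ N) (i : ℕ) :
    (φ ^ i) x ∈ V φ N := by
  have h1 : Polynomial.aeval φ N x = 0 := hx
  show Polynomial.aeval φ N ((φ ^ i) x) = 0
  have h2 : Polynomial.aeval φ N * φ ^ i = φ ^ i * Polynomial.aeval φ N := by
    have h3 := map_mul (Polynomial.aeval φ) N (Polynomial.X ^ i)
    have h4 := map_mul (Polynomial.aeval φ) (Polynomial.X ^ i) N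
    rw [Polynomial.aeval_X_pow] at h3 h4
    rw [← h3, ← h4, mul_comm]
  have h5 := congrArg (fun f : H →ₗ[F] H => f x) h2
  simp only [Module.End.mul_apply] at h5
  rw [h5, h1, map_zero]

theorem V_ph {φ : H →ₗ[F] H} {N : Polynomial F} {x : H} (hx : x ∈ V φ N) : φ x ∈ V φ N := by
  have := V_pow hx 1
  rwa [pow_one] at this

/-- no torsion element is large -/
theorem ord_ge {j : ℕ} (hj : 1 ≤ j) {g : H} {φ : H →ₗ[F] H} (hφ : IsPh F j g φ) {Q : DV H}
    (hg : Q.ord g < 0) {N : Polynomial F} (hf : Finite (V φ N)) {x : H} (hx : x ∈ V φ N)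
    (h0 : x ≠ 0) : Q.ord g ≤ (Nat.card F : ℤ) ^ j * ((Nat.card F : ℤ) - 1) * Q.ord x := by
  have hr := two_le F
  have hR := two_le_pow F hj
  by_contra hlt
  push Not at hlt
  have hfin : (V φ N : Set H).Finite := Set.toFinite _
  have hS : {y : H | y ∈ V φ N ∧ y ≠ 0 ∧
      (Nat.card F : ℤ) ^ j * ((Nat.card F : ℤ) - 1) * Q.ord y < Q.ord g}.Finite :=
    hfin.subset fun y hy => hy.1
  obtain ⟨y, ⟨hy1, hy2, hy3⟩, hmin⟩ := Set.exists_min_image _ (fun y => Q.ord y) hS
    ⟨x, hx, h0, hlt⟩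
  obtain ⟨h4, h5⟩ := big hj hφ hg hy2 hy3
  have hy0 : Q.ord y < 0 := by
    by_contra h
    push Not at h
    have : 0 ≤ (Nat.card F : ℤ) ^ j * ((Nat.card F : ℤ) - 1) * Q.ord y := by
      apply mul_nonneg _ h
      apply mul_nonneg <;> omega
    omega
  have h6 : (2 : ℤ) ≤ (Nat.card F : ℤ) ^ (j + 1) := two_le_pow F (by omega)
  have h7 : (Nat.card F : ℤ) ^ (j + 1) * Q.ord y < Q.ord y := by nlinarith
  have h8 := hmin (φ y) ⟨V_ph hy1, h4, by
    rw [h5]
    have h9 : (0 : ℤ) ≤ (Nat.card F : ℤ) ^ j * ((Nat.card F : ℤ) - 1) := by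
      apply mul_nonneg <;> omega
    have := mul_le_mul_of_nonneg_left h7.le h9
    linarith⟩
  have h9 : Q.ord y ≤ Q.ord (φ y) := h8
  rw [h5] at h9
  omega

/-- `(R - 1) e b(x)` -/
noncomputable def bJ (F : Type*) (j : ℕ) (g : H) (Q : DV H) (x : H) : ℤ :=
  - Q.ord g - ((Nat.card F : ℤ) ^ j - 1) * Q.ord x

/-- `(R - 1) (r - 1) R e β` -/
noncomputable def eJ (F : Type*) (j : ℕ) (g : H) (Q : DV H) : ℤ :=
  ((Nat.card F : ℤ) ^ (j + 1) - 1) * (- Q.ord g)

theorem eJ_pos {j : ℕ} {g : H} {Q : DV H} (hg : Q.ord g < 0) : 0 < eJ F j g Q := by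
  have := two_le_pow F (j := j + 1) (by omega)
  exact mul_pos (by omega) (by omega)

/-- the elements with `b(x) ≤ β R ^ (- t)` -/
def InU (F : Type*) (j : ℕ) (g : H) (Q : DV H) (t : ℕ) (x : H) : Prop :=
  x = 0 ∨ ((Nat.card F : ℤ) ^ j) ^ (t + 1) * (((Nat.card F : ℤ) - 1) * bJ F j g Q x) ≤ eJ F j g Q

/-- the elements with `b(x) ≤ 0` -/
def InV0 (F : Type*) (j : ℕ) (g : H) (Q : DV H) (x : H) : Prop :=
  x = 0 ∨ - Q.ord g ≤ ((Nat.card F : ℤ) ^ j - 1) * Q.ord x

theorem iter {j : ℕ} (hj : 1 ≤ j) {g : H} {φ : H →ₗ[F] H} (hφ : IsPh F j g φ) {Q : DV H}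
    (hg : Q.ord g < 0) {x : H} (h0 : x ≠ 0) (hb : 0 < bJ F j g Q x) (i : ℕ)
    (hi : ((Nat.card F : ℤ) ^ j) ^ i * (((Nat.card F : ℤ) - 1) * bJ F j g Q x) < eJ F j g Q) :
    (φ ^ i) x ≠ 0 ∧ bJ F j g Q ((φ ^ i) x) = ((Nat.card F : ℤ) ^ j) ^ i * bJ F j g Q x := by
  have hr := two_le F
  have hR := two_le_pow F hj
  induction i with
  | zero => simpa using h0
  | succ i ih =>
    set R : ℤ := (Nat.card F : ℤ) ^ j with hRd
    have hpos : (0 : ℤ) < R ^ i := by positivity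
    have hb1 : 0 < ((Nat.card F : ℤ) - 1) * bJ F j g Q x := mul_pos (by omega) hb
    have hlt : R ^ i * (((Nat.card F : ℤ) - 1) * bJ F j g Q x) < eJ F j g Q := by
      refine lt_of_le_of_lt ?_ hi
      rw [pow_succ]
      have : 0 < R ^ i * (((Nat.card F : ℤ) - 1) * bJ F j g Q x) := mul_pos hpos hb1
      nlinarith
    obtain ⟨h1, h2⟩ := ih hlt
    have h3 : 0 < bJ F j g Q ((φ ^ i) x) := by
      rw [h2]
      exact mul_pos hpos hb
    have h4 : R * (((Nat.card F : ℤ) - 1) * bJ F j g Q ((φ ^ i) x)) < eJ F j g Q := by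
      rw [h2]
      refine lt_of_eq_of_lt ?_ hi
      rw [pow_succ]
      ring
    rw [bJ, ← hRd] at h3 h4
    rw [eJ, pow_succ, ← hRd] at h4
    obtain ⟨h5, h6⟩ := step (F := F) hj hφ hg h1 (by rw [← hRd]; linarith)
      (by rw [← hRd]; nlinarith)
    rw [pow_succ', Module.End.mul_apply]
    refine ⟨h5, ?_⟩
    rw [bJ, h6, pow_succ, ← hRd]
    rw [bJ, ← hRd] at h2
    linear_combination R * h2

theorem exists_val {j : ℕ} (hj : 1 ≤ j) {g : H} {φ : H →ₗ[F] H} (hφ : IsPh F j g φ) {Q : DV H}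
    (hg : Q.ord g < 0) {N : Polynomial F} (hf : Finite (V φ N)) {x : H}
    (hx : x ∈ V φ N) (h0 : x ≠ 0) (hb : 0 < bJ F j g Q x) :
    ∃ t : ℕ, ((Nat.card F : ℤ) ^ j) ^ (t + 1) * (((Nat.card F : ℤ) - 1) * bJ F j g Q x) =
      eJ F j g Q := by
  classical
  have hr := two_le F
  have hR := two_le_pow F hj
  set R : ℤ := (Nat.card F : ℤ) ^ j with hRd
  have hle : ∀ y : H, y ∈ V φ N → y ≠ 0 →
      R * (((Nat.card F : ℤ) - 1) * bJ F j g Q y) ≤ eJ F j g Q := by
    intro y hy hy0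
    have h1 := ord_ge hj hφ hg hf hy hy0
    rw [← hRd] at h1
    rw [bJ, eJ, ← hRd, pow_succ, ← hRd]
    nlinarith
  have hb1 : 0 < ((Nat.card F : ℤ) - 1) * bJ F j g Q x := mul_pos (by omega) hb
  have hex : ∃ t : ℕ, eJ F j g Q < R ^ (t + 1) * (((Nat.card F : ℤ) - 1) * bJ F j g Q x) := by
    obtain ⟨n, hn⟩ := pow_unbounded_of_one_lt (eJ F j g Q) (by omega : (1 : ℤ) < R)
    refine ⟨n, hn.trans_le ?_⟩
    have h1 : R ^ n ≤ R ^ (n + 1) := pow_le_pow_right₀ (by omega) (by omega)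
    have h2 : (0 : ℤ) < R ^ (n + 1) := by positivity
    nlinarith
  set t0 := Nat.find hex with ht0
  have hspec := Nat.find_spec hex
  rw [← ht0] at hspec
  rcases Nat.eq_zero_or_pos t0 with h | h
  · rw [h, zero_add, pow_one] at hspec
    exact absurd (hle x hx h0) (by omega)
  · obtain ⟨t, ht⟩ : ∃ t, t0 = t + 1 := ⟨t0 - 1, by omega⟩
    have h1 := Nat.find_min hex (m := t) (by omega)
    push Not at h1
    refine ⟨t, le_antisymm h1 ?_⟩
    by_contra hlt
    push Not at hlt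
    obtain ⟨h2, h3⟩ := iter hj hφ hg h0 hb (t + 1) hlt
    have h4 := hle _ (V_pow hx (t + 1)) h2
    rw [h3, ← hRd, mul_left_comm ((Nat.card F : ℤ) - 1), ← mul_assoc, ← pow_succ', ← ht] at h4
    rw [ht] at hspec h4
    omega

/-- `V_0` -/
noncomputable def V0 (F : Type*) {H : Type*} [Field F] [Finite F] [Field H] [Algebra F H] (j : ℕ)
    (g : H) (Q : DV H) (φ : H →ₗ[F] H) (N : Polynomial F) : Submodule F H where
  carrier := {x | x ∈ V φ N ∧ Q.G 0 x ∧ InV0 F j g Q x}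
  zero_mem' := ⟨zero_mem _, DV.G_zero _, Or.inl rfl⟩
  add_mem' := by
    rintro x y ⟨hx, hx0, hx1⟩ ⟨hy, hy0, hy1⟩
    refine ⟨add_mem hx hy, hx0.add hy0, ?_⟩
    by_cases h0 : x = 0
    · simpa [h0] using hy1
    by_cases h1 : y = 0
    · simpa [h1] using hx1
    by_cases h2 : x + y = 0
    · exact Or.inl h2
    have h3 := Q.ord_add x y h0 h1 h2
    have h4 := hx1.resolve_left h0
    have h5 := hy1.resolve_left h1
    have h6 : (0 : ℤ) ≤ (Nat.card F : ℤ) ^ j - 1 := by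
      have := two_le F
      have : (0 : ℤ) < (Nat.card F : ℤ) ^ j := by positivity
      omega
    right
    rcases min_le_iff.1 h3 with h | h
    · exact h4.trans (mul_le_mul_of_nonneg_left h h6)
    · exact h5.trans (mul_le_mul_of_nonneg_left h h6)
  smul_mem' := by
    rintro c x ⟨hx, hx0, hx1⟩
    by_cases hc : c = 0
    · simp only [hc, zero_smul]
      exact ⟨zero_mem _, DV.G_zero _, Or.inl rfl⟩
    by_cases h0 : x = 0
    · simp only [h0, smul_zero]
      exact ⟨zero_mem _, DV.G_zero _, Or.inl rfl⟩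
    refine ⟨Submodule.smul_mem _ c hx, G_smul hx0 c, Or.inr ?_⟩
    rw [ord_smul Q hc h0]
    exact hx1.resolve_left h0

theorem mem_V0 {j : ℕ} {g : H} {Q : DV H} {φ : H →ₗ[F] H} {N : Polynomial F} {x : H} :
    x ∈ V0 F j g Q φ N ↔ x ∈ V φ N ∧ Q.G 0 x ∧ InV0 F j g Q x := Iff.rfl

theorem V0_ord {j : ℕ} (hj : 1 ≤ j) {g : H} {φ : H →ₗ[F] H} (hφ : IsPh F j g φ) {Q : DV H}
    (hg : Q.ord g < 0) {N : Polynomial F} (h1 : N.eval 1 ≠ 0) {x : H} (hx : x ∈ V0 F j g Q φ N)
    (h0 : x ≠ 0) : ((Nat.card F : ℤ) ^ j - 1) * Q.ord x = - Q.ord g :=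
  le_antisymm (ord_le hj hφ hg h1 hx.1 h0) (hx.2.2.resolve_left h0)

/-- `V_0` is stable -/
theorem V0_st {j : ℕ} (hj : 1 ≤ j) {g : H} {φ : H →ₗ[F] H} (hφ : IsPh F j g φ) {Q : DV H}
    (hg : Q.ord g < 0) {N : Polynomial F} {x : H} (hx : x ∈ V0 F j g Q φ N) :
    φ x ∈ V0 F j g Q φ N := by
  obtain ⟨h1, h2, h3⟩ := hx
  have hr := two_le F
  have hR := two_le_pow F hj
  by_cases h0 : x = 0
  · rw [h0, map_zero]
    exact zero_mem _
  have h4 := h3.resolve_left h0
  have hm : 1 ≤ Q.ord x := by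
    by_contra h
    push Not at h
    nlinarith
  have h5 : Q.G (Q.ord x) (φ x) := by
    rw [ph_eq]
    refine (DV.G_ord x).add (delta_G hφ (DV.G_ord x) (by nlinarith) ?_)
    have h6 : (2 : ℤ) ≤ (Nat.card F : ℤ) ^ (j + 1) := two_le_pow F (by omega)
    nlinarith
  refine ⟨V_ph h1, h5.mono (by omega), ?_⟩
  rcases h5 with h5 | h5
  · exact Or.inl h5
  · exact Or.inr (h4.trans (mul_le_mul_of_nonneg_left h5 (by omega)))

/-- at most `r ^ (j D)` elements in `V_0` -/
theorem card_V0_le {j : ℕ} (hj : 1 ≤ j) {g : H} {φ : H →ₗ[F] H} (hφ : IsPh F j g φ) {Q : DV H}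
    (hg : Q.ord g < 0) {N : Polynomial F} (hN : N.Monic) (h1 : N.eval 1 ≠ 0)
    (hf : Finite (V φ N)) :
    Nat.card (V0 F j g Q φ N) ≤ Nat.card F ^ (j * N.natDegree) := by
  classical
  have hr := two_le F
  have hR := two_le_pow F hj
  have hrN : 1 < Nat.card F := Finite.one_lt_card
  have hRN : 1 < Nat.card F ^ j := Nat.one_lt_pow (by omega) hrN
  rw [pow_mul]
  by_cases htriv : ∃ x₀ ∈ V0 F j g Q φ N, x₀ ≠ 0
  swap
  · push Not at htriv
    have h2 : V0 F j g Q φ N = ⊥ := (Submodule.eq_bot_iff _).2 htriv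
    rw [h2, Nat.card_unique]
    exact Nat.one_le_pow _ _ (by omega)
  obtain ⟨x₀, hx₀, hx00⟩ := htriv
  have hm := V0_ord hj hφ hg h1 hx₀ hx00
  set m := Q.ord x₀ with hm'
  have hm1 : 1 ≤ m := by
    by_contra h
    push Not at h
    nlinarith
  have hV0' : ∀ x ∈ V0 F j g Q φ N, x ≠ 0 → Q.ord x = m := by
    intro x hx h0
    have h2 := V0_ord hj hφ hg h1 hx h0
    rw [← hm] at h2
    exact mul_left_cancel₀ (by omega) h2
  have hg0 : g ≠ 0 := by
    rintro rfl
    rw [Q.ord_zero] at hg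
    omega
  let γ : ℕ → H := fun i => Nat.rec 1 (fun _ a => g * a ^ Nat.card F ^ j) i
  have hγ0 : γ 0 = 1 := rfl
  have hγs : ∀ i, γ (i + 1) = g * γ i ^ Nat.card F ^ j := fun i => rfl
  have hγne : ∀ i, γ i ≠ 0 := by
    intro i
    induction i with
    | zero => rw [hγ0]; exact one_ne_zero
    | succ i ih => rw [hγs]; exact mul_ne_zero hg0 (pow_ne_zero _ ih)
  have hγord : ∀ i, Q.ord (γ i) = - (((Nat.card F : ℤ) ^ j) ^ i - 1) * m := by
    intro i
    induction i with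
    | zero => rw [hγ0, Q.ord_one]; ring
    | succ i ih =>
      rw [hγs, Q.ord_mul _ _ hg0 (pow_ne_zero _ (hγne i)), Q.ord_pow (hγne i), ih, pow_succ]
      push_cast
      linear_combination hm
  have hδ : ∀ x ∈ V0 F j g Q φ N, ∀ i : ℕ, Q.G m (((φ - 1) ^ i) x) ∧
      Q.G (m + 1) (((φ - 1) ^ i) x - γ i * x ^ (Nat.card F ^ j) ^ i) := by
    intro x hx i
    induction i with
    | zero =>
      rw [pow_zero, Module.End.one_apply, hγ0, pow_zero, pow_one, one_mul, sub_self]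
      refine ⟨?_, DV.G_zero _⟩
      by_cases h0 : x = 0
      · exact Or.inl h0
      · exact Or.inr (hV0' x hx h0).ge
    | succ i ih =>
      obtain ⟨ih1, ih2⟩ := ih
      rw [pow_succ', Module.End.mul_apply]
      set y := ((φ - 1) ^ i) x with hy
      have h6 : (2 : ℤ) ≤ (Nat.card F : ℤ) ^ (j + 1) := two_le_pow F (by omega)
      refine ⟨delta_G hφ ih1 (by nlinarith) (by nlinarith), ?_⟩
      have h2 : (φ - 1) y - γ (i + 1) * x ^ (Nat.card F ^ j) ^ (i + 1) =
          g * (y - γ i * x ^ (Nat.card F ^ j) ^ i) ^ Nat.card F ^ j -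
            y ^ Nat.card F ^ (j + 1) := by
        have e : x ^ (Nat.card F ^ j) ^ (i + 1) =
            (x ^ (Nat.card F ^ j) ^ i) ^ Nat.card F ^ j := by
          rw [pow_succ (Nat.card F ^ j) i, pow_mul]
        rw [delta_apply hφ, hγs, sub_pow F, mul_pow, e]
        ring
      rw [h2]
      refine DV.G.sub (((DV.G_ord g).mul (ih2.pow _)).mono ?_) ((ih1.pow _).mono ?_)
      · push_cast
        nlinarith
      · push_cast
        nlinarith
  -- the polynomial
  set n : ℕ → F := fun i => (Polynomial.taylor 1 N).coeff i with hn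
  set c : ℕ → H := fun i => algebraMap F H (n i) * (γ i * x₀ ^ (Nat.card F ^ j) ^ i / x₀) with hc
  have hunit : ∀ i, Q.ord (γ i * x₀ ^ (Nat.card F ^ j) ^ i / x₀) = 0 := by
    intro i
    rw [Q.ord_div (mul_ne_zero (hγne i) (pow_ne_zero _ hx00)) hx00,
      Q.ord_mul _ _ (hγne i) (pow_ne_zero _ hx00), hγord, Q.ord_pow hx00, ← hm']
    push_cast
    ring
  set P : Polynomial H := ∑ i ∈ Finset.range (N.natDegree + 1),
    Polynomial.C (c i) * Polynomial.X ^ ((Nat.card F ^ j) ^ i) with hP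
  have hcoeff : ∀ k, P.coeff k = ∑ i ∈ Finset.range (N.natDegree + 1),
      if k = (Nat.card F ^ j) ^ i then c i else 0 := by
    intro k
    rw [hP, Polynomial.finsetSum_coeff]
    refine Finset.sum_congr rfl fun i _ => ?_
    rw [Polynomial.coeff_C_mul_X_pow]
  have hcG : ∀ i, Q.G 0 (c i) := by
    intro i
    have h2 := (RRD.G_algebraMap Q (n i)).mul (DV.G_of_le (hunit i).ge)
    rwa [zero_add] at h2
  have hP0 : ∀ k, Q.G 0 (P.coeff k) := by
    intro k
    rw [hcoeff]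
    refine G_sum _ _ fun i _ => ?_
    split_ifs
    · exact hcG i
    · exact DV.G_zero _
  have hinj : Function.Injective (fun i : ℕ => (Nat.card F ^ j) ^ i) :=
    Nat.pow_right_injective hRN
  have hP1 : P.coeff ((Nat.card F ^ j) ^ N.natDegree) = c N.natDegree := by
    rw [hcoeff, Finset.sum_eq_single N.natDegree]
    · rw [if_pos rfl]
    · intro i _ hi
      rw [if_neg]
      intro h
      exact hi (hinj h.symm)
    · intro h
      exact absurd (Finset.mem_range.2 (Nat.lt_succ_self _)) h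
  have hnD : n N.natDegree = 1 := by
    rw [hn]
    simp only
    rw [Polynomial.coeff_taylor_natDegree]
    exact hN
  have hPdeg : P.natDegree ≤ (Nat.card F ^ j) ^ N.natDegree := by
    rw [hP]
    refine Polynomial.natDegree_sum_le_of_forall_le _ _ fun i hi => ?_
    refine (Polynomial.natDegree_C_mul_X_pow_le _ _).trans ?_
    exact Nat.pow_le_pow_right (by omega) (by have := Finset.mem_range.1 hi; omega)
  have hfin : (V0 F j g Q φ N : Set H).Finite :=
    (Set.toFinite (V φ N : Set H)).subset fun y hy => hy.1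
  have hcard : Nat.card (V0 F j g Q φ N) = (hfin.toFinset.image fun x => x / x₀).card := by
    rw [Finset.card_image_of_injective _ fun a b hab => by
      simpa [hx00] using (div_left_inj' hx00).1 hab]
    exact Nat.card_eq_card_finite_toFinset hfin
  rw [hcard]
  refine (card_roots_residue P hP0 ⟨(Nat.card F ^ j) ^ N.natDegree, ?_⟩ ?_ ?_ ?_).trans hPdeg
  · rw [hP1, hc]
    simp only
    rw [hnD, map_one, one_mul, DV.not_G (div_ne_zero (mul_ne_zero (hγne _) (pow_ne_zero _ hx00)) hx00),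
      hunit]
    norm_num
  · intro z hz
    obtain ⟨x, hx, rfl⟩ := Finset.mem_image.1 hz
    rw [Set.Finite.mem_toFinset] at hx
    by_cases h0 : x = 0
    · exact Or.inl (by rw [h0, zero_div])
    · exact Or.inr (by rw [Q.ord_div h0 hx00, hV0' x hx h0, ← hm', sub_self])
  · intro z hz w hw hne
    obtain ⟨x, hx, rfl⟩ := Finset.mem_image.1 hz
    obtain ⟨y, hy, rfl⟩ := Finset.mem_image.1 hw
    rw [Set.Finite.mem_toFinset] at hx hy
    have h2 : x - y ≠ 0 := by
      intro h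
      exact hne (by rw [sub_eq_zero.1 h])
    have h3 : x - y ∈ V0 F j g Q φ N := sub_mem hx hy
    rw [← sub_div, DV.not_G (div_ne_zero h2 hx00), Q.ord_div h2 hx00, hV0' _ h3 h2, ← hm', sub_self]
    norm_num
  · intro z hz
    obtain ⟨x, hx, rfl⟩ := Finset.mem_image.1 hz
    rw [Set.Finite.mem_toFinset] at hx
    have h2 : Polynomial.aeval φ N x = 0 := hx.1
    rw [aeval_taylor] at h2
    have h3 : P.eval (x / x₀) = (∑ i ∈ Finset.range (N.natDegree + 1),
        n i • (γ i * x ^ (Nat.card F ^ j) ^ i)) / x₀ := by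
      rw [hP, Polynomial.eval_finsetSum, Finset.sum_div]
      refine Finset.sum_congr rfl fun i _ => ?_
      rw [Polynomial.eval_mul, Polynomial.eval_C, Polynomial.eval_pow, Polynomial.eval_X, hc,
        Algebra.smul_def]
      simp only
      rw [div_pow]
      field_simp
    have h4 : (∑ i ∈ Finset.range (N.natDegree + 1), n i • (γ i * x ^ (Nat.card F ^ j) ^ i)) =
        - ∑ i ∈ Finset.range (N.natDegree + 1),
          n i • (((φ - 1) ^ i) x - γ i * x ^ (Nat.card F ^ j) ^ i) := by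
      simp only [smul_sub, Finset.sum_sub_distrib]
      rw [h2]
      ring
    have h5 : Q.G (m + 1) (∑ i ∈ Finset.range (N.natDegree + 1),
        n i • (γ i * x ^ (Nat.card F ^ j) ^ i)) := by
      rw [h4]
      exact (G_sum _ _ fun i _ => G_smul (hδ x hx i).2 _).neg
    rw [h3, div_eq_mul_inv]
    have h6 : Q.G (-m) (x₀⁻¹) := DV.G_of_le (by rw [Q.ord_inv hx00])
    have h7 := h5.mul h6
    exact h7.mono (by omega)

end

end InfJ

end Pool.Agent.FF
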