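import Pool.Agent.FE.Inf
import Pool.Agent.FD.LinesB

/-! # Sums of lines, rank `j + 1` (42) -/

set_option autoImplicit false

namespace Pool.Agent.FF.Rk

open Polynomial

section

variable {F : Type*} {j : ℕ} {H : Type*} [Field F] [Finite F] [Field H] [Algebra F H]

theorem LnJ.VN_mono {g : H} {M N : F[X]} (h : M ∣ N) : VN F j g M ≤ VN F j g N := by
  obtain ⟨P, rfl⟩ := h
  intro x hx
  rw [VN, LinearMap.mem_ker] at hx ⊢
  rw [mul_comm, phN_mul, hx, map_zero]

theorem LnJ.V0_mono {g : H} {Q : DV H} {M N : F[X]} (h : M ∣ N) :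
    V0 F j g Q M ≤ V0 F j g Q N :=
  fun _ hx => ⟨LnJ.VN_mono h hx.1, hx.2⟩

theorem LnJ.V0_le {g : H} {Q : DV H} {M : F[X]} : V0 F j g Q M ≤ VN F j g M :=
  fun _ hx => hx.1

theorem LnJ.disj {g : H} {M N : F[X]} (h : IsCoprime M N) :
    Disjoint (VN F j g M) (VN F j g N) :=
  disjoint_ker_aeval_of_isCoprime (phT F j g) h

/-- a line meets a stable subspace which does not contain it in `0` -/
theorem LnJ.line_disj {g : H} {M : F[X]} (hM : M.Monic) (hi : Irreducible M)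
    {L W : Submodule F H} (h : IsLine F j g M L) (hW : ∀ x ∈ W, phT F j g x ∈ W)
    (hne : ¬ L ≤ W) : L ⊓ W = ⊥ := by
  rw [eq_bot_iff]
  intro x hx
  rw [Submodule.mem_bot]
  by_contra h0
  apply hne
  have hk : aeval (phT F j g) M x = 0 := LinearMap.mem_ker.1 (h.le hx.1)
  rw [← LnA.eq_cyc (phT F j g) hM hi h.st h.card hx.1 h0 hk]
  exact LnA.cyc_le (phT F j g) hW hx.2

theorem LnJ.line_ne {g : H} {M : F[X]} (hM : M.Monic) (hi : Irreducible M)
    {L L' : Submodule F H} (h : IsLine F j g M L) (h' : IsLine F j g M L') (hne : L ≠ L') :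
    L ⊓ L' = ⊥ := by
  rw [eq_bot_iff]
  intro x hx
  rw [Submodule.mem_bot]
  by_contra h0
  apply hne
  have hk : aeval (phT F j g) M x = 0 := LinearMap.mem_ker.1 (h.le hx.1)
  rw [← LnA.eq_cyc (phT F j g) hM hi h.st h.card hx.1 h0 hk]
  exact LnA.eq_cyc (phT F j g) hM hi h'.st h'.card hx.2 h0 hk

variable {g : H} {s : ℕ} {M : Fin s → F[X]}

theorem LnJ.sup_le {V : Fin s → Submodule F H} (hV : ∀ i, V i ≤ VN F j g (M i))
    (J : Finset (Fin s)) : (⨆ i ∈ J, V i) ≤ VN F j g (LnB.NJ M J) :=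
  iSup₂_le fun i hi => (hV i).trans (LnJ.VN_mono (LnB.dvd_NJ hi))

theorem LnJ.sup_disj {L : Fin s → Submodule F H} (h : LT j g M L)
    {V : Fin s → Submodule F H} (hV : ∀ i, V i ≤ VN F j g (M i)) {V' : Fin s → Submodule F H}
    (hV' : ∀ i, V' i ≤ VN F j g (M i)) {J K : Finset (Fin s)} (hJK : Disjoint J K) :
    Disjoint (⨆ i ∈ J, V i) (⨆ i ∈ K, V' i) :=
  (LnJ.disj (LnB.copJ h.monic h.irr h.inj hJK)).mono (LnJ.sup_le hV J) (LnJ.sup_le hV' K)

theorem LnJ.card_fam {L : Fin s → Submodule F H} (h : LT j g M L) {V : Fin s → Submodule F H}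
    (hV : ∀ i, V i ≤ VN F j g (M i)) (J : Finset (Fin s)) :
    Nat.card ↥(⨆ i ∈ J, V i) = ∏ i ∈ J, Nat.card (V i) := by
  classical
  induction J using Finset.induction_on with
  | empty => simp
  | insert i J hi ih =>
    rw [Finset.iSup_insert, Finset.prod_insert hi, ← ih]
    apply LnB.card_sup
    have h1 := LnJ.sup_disj h hV hV (J := {i}) (K := J) (Finset.disjoint_singleton_left.2 hi)
    rwa [Finset.iSup_singleton] at h1

theorem LnJ.card {L : Fin s → Submodule F H} (h : LT j g M L) (J : Finset (Fin s)) :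
    Nat.card ↥(⨆ i ∈ J, L i) = Nat.card F ^ dgM M J := by
  rw [LnJ.card_fam h (fun i => (h.line i).le), dgM, ← Finset.prod_pow_eq_pow_sum]
  exact Finset.prod_congr rfl fun i _ => (h.line i).card

theorem LnJ.fin {L : Fin s → Submodule F H} (h : LT j g M L) (J : Finset (Fin s)) :
    Finite ↥(⨆ i ∈ J, L i) := by
  apply Nat.finite_of_card_ne_zero
  rw [LnJ.card h]
  exact pow_ne_zero _ Nat.card_pos.ne'

theorem LnJ.full {L : Fin s → Submodule F H} (h : LT j g M L) (J : Finset (Fin s)) :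
    (⨆ i ∈ J, VN F j g (M i)) = VN F j g (LnB.NJ M J) ∧
    Nat.card (VN F j g (LnB.NJ M J)) = Nat.card F ^ ((j + 1) * (LnB.NJ M J).natDegree) := by
  have hm := LnB.monic_NJ h.monic J
  have hf := finite_VN (F := F) (j := j) g hm.ne_zero
  have hle := LnJ.sup_le (g := g) (V := fun i => VN F j g (M i)) (fun i => le_rfl) J
  have h1 : Nat.card ↥(⨆ i ∈ J, VN F j g (M i)) =
      Nat.card F ^ ((j + 1) * (LnB.NJ M J).natDegree) := by
    rw [LnJ.card_fam h (fun i => le_rfl), LnB.deg_NJ h.monic, dgM, Finset.mul_sum,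
      ← Finset.prod_pow_eq_pow_sum]
    exact Finset.prod_congr rfl fun i _ => h.full i
  have h2 := card_VN_le (F := F) (j := j) g hm.ne_zero
  have h3 := LnB.eq_of_card hle hf (by rw [h1]; exact h2)
  exact ⟨h3, by rw [← h3, h1]⟩

/-- the intersection of two sums -/
theorem LnJ.inter {L : Fin s → Submodule F H} (h : LT j g M L) {V V' : Fin s → Submodule F H}
    (hV : ∀ i, V i ≤ VN F j g (M i)) (hV' : ∀ i, V' i ≤ VN F j g (M i))
    (J : Finset (Fin s)) {x : H}
    (hx : x ∈ ⨆ i ∈ J, V i) (hx' : x ∈ ⨆ i ∈ J, V' i) : x ∈ ⨆ i ∈ J, V i ⊓ V' i := by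
  classical
  induction J using Finset.induction_on generalizing x with
  | empty =>
    have h1 : x = 0 := by simpa using hx
    rw [h1]
    exact zero_mem _
  | insert i J hi ih =>
    obtain ⟨a, ha, b, hb, rfl⟩ := LnB.mem_insert.1 hx
    obtain ⟨a', ha', b', hb', he⟩ := LnB.mem_insert.1 hx'
    have h1 := LnJ.sup_disj h (V := fun i => VN F j g (M i)) (fun i => le_rfl)
      (V' := fun i => VN F j g (M i)) (fun i => le_rfl) (J := {i}) (K := J)
      (Finset.disjoint_singleton_left.2 hi)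
    rw [Finset.iSup_singleton, (LnJ.full h J).1] at h1
    obtain ⟨h2, h3⟩ := LnB.uniq h1 (hV i ha) (hV' i ha')
      (LnJ.sup_le hV J hb) (LnJ.sup_le hV' J hb') he.symm
    exact LnB.mem_insert.2 ⟨a, ⟨ha, h2 ▸ ha'⟩, b, ih hb (h3 ▸ hb'), rfl⟩

variable {Q : DV H}

theorem LnJ.V0_sup {L : Fin s → Submodule F H} (h : LT j g M L) (hg : Q.ord g < 0)
    (J : Finset (Fin s)) : (⨆ i ∈ J, V0 F j g Q (M i)) = V0 F j g Q (LnB.NJ M J) := by
  have hm := LnB.monic_NJ h.monic J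
  have hc := card_V0 h.pos hg hm (LnB.eval_NJ h.one J) (LnJ.full h J).2
  apply LnB.eq_of_card
  · exact iSup₂_le fun i hi => LnJ.V0_mono (LnB.dvd_NJ hi)
  · apply Nat.finite_of_card_ne_zero
    rw [hc]
    exact pow_ne_zero _ Nat.card_pos.ne'
  · rw [hc, LnJ.card_fam h (fun i => LnJ.V0_le), LnB.deg_NJ h.monic, dgM, Finset.mul_sum,
      ← Finset.prod_pow_eq_pow_sum]
    exact (Finset.prod_congr rfl fun i _ => card_V0 h.pos hg (h.monic i) (h.one i) (h.full i)).ge

theorem LnJ.mem_typ {L : Fin s → Submodule F H} {i : Fin s} :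
    i ∈ typ F j g Q M L ↔ ¬ L i ≤ V0 F j g Q (M i) := by
  classical
  simp [typ]

theorem LnJ.typ_disj {L : Fin s → Submodule F H} (h : LT j g M L) (hg : Q.ord g < 0)
    {K : Finset (Fin s)} (hK : K ⊆ typ F j g Q M L) :
    Disjoint (⨆ i ∈ K, L i) (V0 F j g Q (LnB.NJ M K)) := by
  rw [Submodule.disjoint_def]
  intro x hx hx'
  rw [← LnJ.V0_sup h hg] at hx'
  have h1 := LnJ.inter h (fun i => (h.line i).le) (fun i => LnJ.V0_le) K hx hx'
  have h2 : (⨆ i ∈ K, L i ⊓ V0 F j g Q (M i)) ≤ (⊥ : Submodule F H) :=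
    iSup₂_le fun i hi => (LnJ.line_disj (h.monic i) (h.irr i) (h.line i)
      (fun _ hx => V0_st h.pos hg hx) (LnJ.mem_typ.1 (hK hi))).le
  exact (Submodule.mem_bot F).1 (h2 h1)

theorem LnJ.typ_sup {L : Fin s → Submodule F H} (h : LT j g M L) (hg : Q.ord g < 0)
    {K : Finset (Fin s)} (hK : K ⊆ typ F j g Q M L) :
    (⨆ i ∈ K, L i) ⊔ V0 F j g Q (LnB.NJ M K) = VN F j g (LnB.NJ M K) := by
  have hm := LnB.monic_NJ h.monic K
  have hc := card_V0 h.pos hg hm (LnB.eval_NJ h.one K) (LnJ.full h K).2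
  apply LnB.eq_of_card
  · exact _root_.sup_le (LnJ.sup_le (fun i => (h.line i).le) K) fun x hx => hx.1
  · exact finite_VN g hm.ne_zero
  · rw [LnB.card_sup (LnJ.typ_disj h hg hK), hc, LnJ.card h, (LnJ.full h K).2,
      LnB.deg_NJ h.monic, ← pow_add]
    exact (Nat.pow_le_pow_right Nat.card_pos (by rw [add_mul, one_mul, add_comm]))

end

end Pool.Agent.FF.Rk
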