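import Pool.Agent.FE.Inf
import Pool.Agent.FD.Base

/-! # the number of lines (63) -/

set_option autoImplicit false
set_option linter.unusedSectionVars false
set_option linter.style.haveILetI false

namespace Pool.Agent.FF.Rk

open Polynomial

/-- the number of subspaces with `q` elements of a space with `q ^ n` elements -/
theorem card_sub_one {κ V : Type*} [Field κ] [AddCommGroup V] [Module κ V] {q n : ℕ} (hq : 1 < q)
    (hκ : Nat.card κ = q) (hV : Nat.card V = q ^ n) :
    Nat.card {W : Submodule κ V // Nat.card W = q} = ∑ a ∈ Finset.range n, q ^ a := by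
  have h1 : Finite κ := Nat.finite_of_card_ne_zero (by omega)
  have h2 : Finite V := Nat.finite_of_card_ne_zero (by rw [hV]; positivity)
  have h3 : ∀ W : Submodule κ V, Nat.card W = q ↔ Module.finrank κ W = 1 := by
    intro W
    rw [Module.natCard_eq_pow_finrank (K := κ) (V := W), hκ]
    constructor
    · intro h
      have h4 : q ^ Module.finrank κ W = q ^ 1 := by rw [h, pow_one]
      exact Nat.pow_right_injective hq h4
    · intro h
      rw [h, pow_one]
  rw [Nat.card_congr (Equiv.subtypeEquivRight h3),
    Nat.card_congr (Projectivization.equivSubmodule κ V).symm, Projectivization.card'', hκ, hV,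
    Nat.geomSum_eq hq]

section

variable {F : Type*} {j : ℕ} {H : Type*} [Field F] [Finite F] [Field H] [Algebra F H]

theorem VN_st (g : H) (M : Polynomial F) : ∀ x ∈ VN F j g M, phT F j g x ∈ VN F j g M := by
  intro x hx
  have h1 : aeval (phT F j g) M x = 0 := hx
  have h2 := congrArg (aeval (phT F j g)) (mul_comm M X)
  rw [map_mul, map_mul, aeval_X] at h2
  have h3 := LinearMap.congr_fun h2 x
  rw [Module.End.mul_apply, Module.End.mul_apply, h1, map_zero] at h3
  exact h3

theorem phU_pow {g : H} {U : Submodule F H} (hU : ∀ x ∈ U, phT F j g x ∈ U) (n : ℕ) (v : U) :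
    ((((phT F j g).restrict hU ^ n) v : U) : H) = (phT F j g ^ n) v := by
  induction n with
  | zero => rfl
  | succ n ih =>
    rw [pow_succ', pow_succ', Module.End.mul_apply, Module.End.mul_apply, ← ih]
    rfl

theorem aeval_phU {g : H} {U : Submodule F H} (hU : ∀ x ∈ U, phT F j g x ∈ U) (p : Polynomial F)
    (v : U) :
    ((aeval ((phT F j g).restrict hU) p v : U) : H) = aeval (phT F j g) p v := by
  induction p using Polynomial.induction_on' with
  | add p q hp hq =>
    rw [map_add, map_add, LinearMap.add_apply, LinearMap.add_apply, Submodule.coe_add, hp, hq]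
  | monomial n a =>
    rw [aeval_monomial, aeval_monomial, Module.End.mul_apply, Module.End.mul_apply,
      Module.algebraMap_end_apply, Module.algebraMap_end_apply, Submodule.coe_smul, phU_pow]

/-- the action of `F[T] / M` on a stable subspace of the `M`-torsion -/
noncomputable def actU {g : H} {U : Submodule F H} (hU : ∀ x ∈ U, phT F j g x ∈ U)
    (M : Polynomial F) (hM : U ≤ VN F j g M) :
    (Polynomial F ⧸ Ideal.span {M}) →+* Module.End F U :=
  Ideal.Quotient.lift (Ideal.span {M})
    ((aeval ((phT F j g).restrict hU) : F[X] →ₐ[F] _) : F[X] →+* _) (by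
    intro a ha
    obtain ⟨b, rfl⟩ := Ideal.mem_span_singleton'.1 ha
    show aeval ((phT F j g).restrict hU) (b * M) = 0
    rw [map_mul]
    have h1 : aeval ((phT F j g).restrict hU) M = 0 := by
      ext v
      rw [aeval_phU]
      have h2 : aeval (phT F j g) M (v : H) = 0 := hM v.2
      rw [h2]
      rfl
    rw [h1, mul_zero])

theorem actU_mk {g : H} {U : Submodule F H} (hU : ∀ x ∈ U, phT F j g x ∈ U)
    (M : Polynomial F) (hM : U ≤ VN F j g M) (p : Polynomial F) (v : U) :
    ((actU hU M hM (Ideal.Quotient.mk _ p) v : U) : H) = aeval (phT F j g) p v := by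
  rw [← aeval_phU hU]
  rfl

theorem aeval_st {g : H} {L : Submodule F H} (hL : ∀ x ∈ L, phT F j g x ∈ L) (p : Polynomial F)
    {x : H} (hx : x ∈ L) : aeval (phT F j g) p x ∈ L := by
  have hn : ∀ n : ℕ, (phT F j g ^ n) x ∈ L := by
    intro n
    induction n with
    | zero => exact hx
    | succ n ih =>
      rw [pow_succ', Module.End.mul_apply]
      exact hL _ ih
  induction p using Polynomial.induction_on' with
  | add p q hp hq =>
    rw [map_add, LinearMap.add_apply]
    exact add_mem hp hq
  | monomial n a =>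
    rw [aeval_monomial, Module.End.mul_apply, Module.algebraMap_end_apply]
    exact Submodule.smul_mem _ _ (hn n)

theorem card_quot {M : Polynomial F} (hM : M.Monic) :
    Nat.card (Polynomial F ⧸ Ideal.span {M}) = Nat.card F ^ M.natDegree := by
  show Nat.card (AdjoinRoot M) = _
  have h := hM.finite_adjoinRoot
  rw [Module.natCard_eq_pow_finrank (K := F) (V := AdjoinRoot M),
    (AdjoinRoot.powerBasis' hM).finrank, AdjoinRoot.powerBasis'_dim]

/-- the number of lines in a stable subspace with `r ^ (n d)` elements -/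
theorem card_line_in {g : H} {M : Polynomial F} (hM : M.Monic) (hi : Irreducible M)
    {U : Submodule F H} (hUM : U ≤ VN F j g M) (hU : ∀ x ∈ U, phT F j g x ∈ U) {n : ℕ}
    (hc : Nat.card U = Nat.card F ^ (n * M.natDegree)) :
    Nat.card {L : Submodule F H // IsLine F j g M L ∧ L ≤ U} =
      ∑ a ∈ Finset.range n, (Nat.card F ^ M.natDegree) ^ a := by
  haveI : (Ideal.span {M} : Ideal F[X]).IsMaximal :=
    PrincipalIdealRing.isMaximal_of_irreducible hi
  letI : Field (Polynomial F ⧸ Ideal.span {M}) := Ideal.Quotient.field _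
  letI : Module (Polynomial F ⧸ Ideal.span {M}) U := Module.compHom _ (actU hU M hUM)
  have hsm : ∀ (p : Polynomial F) (v : U),
      (((Ideal.Quotient.mk (Ideal.span {M}) p) • v : U) : H) = aeval (phT F j g) p v :=
    fun p v => actU_mk hU M hUM p v
  have hd : 0 < M.natDegree := hi.natDegree_pos
  have hF : 1 < Nat.card F := Finite.one_lt_card
  have key := card_sub_one (κ := Polynomial F ⧸ Ideal.span {M}) (V := U) (n := n)
    (q := Nat.card F ^ M.natDegree) (Nat.one_lt_pow hd.ne' hF) (card_quot hM)
    (by rw [hc, ← pow_mul, mul_comm])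
  rw [← key]
  refine Nat.card_congr ?_
  let toW : ∀ L : Submodule F H, IsLine F j g M L →
      Submodule (Polynomial F ⧸ Ideal.span {M}) U := fun L h =>
    { carrier := {v | (v : H) ∈ L}
      add_mem' := fun {a b} ha hb => add_mem (S := Submodule F H) ha hb
      zero_mem' := zero_mem L
      smul_mem' := by
        intro c v hv
        obtain ⟨p, rfl⟩ := Ideal.Quotient.mk_surjective c
        show (((Ideal.Quotient.mk (Ideal.span {M}) p) • v : U) : H) ∈ L
        rw [hsm]
        exact aeval_st h.st p hv }
  let toL : Submodule (Polynomial F ⧸ Ideal.span {M}) U → Submodule F H := fun W =>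
    { carrier := {x | ∃ h : x ∈ U, (⟨x, h⟩ : U) ∈ W}
      add_mem' := by
        rintro a b ⟨ha, ha'⟩ ⟨hb, hb'⟩
        exact ⟨add_mem ha hb, add_mem ha' hb'⟩
      zero_mem' := ⟨zero_mem _, zero_mem W⟩
      smul_mem' := by
        rintro c a ⟨ha, ha'⟩
        refine ⟨Submodule.smul_mem _ c ha, ?_⟩
        have h1 := W.smul_mem (Ideal.Quotient.mk (Ideal.span {M}) (C c)) ha'
        have h2 : (Ideal.Quotient.mk (Ideal.span {M}) (C c)) • (⟨a, ha⟩ : U) =
            ⟨c • a, Submodule.smul_mem _ c ha⟩ := by
          apply Subtype.ext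
          rw [hsm, aeval_C, Module.algebraMap_end_apply]
        rwa [h2] at h1 }
  have hst : ∀ W : Submodule (Polynomial F ⧸ Ideal.span {M}) U, ∀ x ∈ toL W,
      phT F j g x ∈ toL W := by
    rintro W x ⟨hx, hx'⟩
    refine ⟨hU x hx, ?_⟩
    have h1 := W.smul_mem (Ideal.Quotient.mk (Ideal.span {M}) X) hx'
    have h2 : (Ideal.Quotient.mk (Ideal.span {M}) X) • (⟨x, hx⟩ : U) =
        ⟨phT F j g x, hU x hx⟩ := by
      apply Subtype.ext
      rw [hsm, aeval_X]
    rwa [h2] at h1
  have hcL : ∀ W : Submodule (Polynomial F ⧸ Ideal.span {M}) U,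
      Nat.card (toL W) = Nat.card W := by
    intro W
    refine Nat.card_congr
      { toFun := fun x => ⟨⟨x.1, x.2.choose⟩, x.2.choose_spec⟩
        invFun := fun v => ⟨v.1.1, v.1.2, v.2⟩
        left_inv := fun _ => rfl
        right_inv := fun _ => rfl }
  have hcW : ∀ (L : Submodule F H) (h : IsLine F j g M L), L ≤ U →
      Nat.card (toW L h) = Nat.card L := by
    intro L h hLU
    refine Nat.card_congr
      { toFun := fun v => ⟨v.1.1, v.2⟩
        invFun := fun x => ⟨⟨x.1, hLU x.2⟩, x.2⟩
        left_inv := fun _ => rfl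
        right_inv := fun _ => rfl }
  exact
    { toFun := fun L => ⟨toW L.1 L.2.1, by rw [hcW L.1 L.2.1 L.2.2, L.2.1.card]⟩
      invFun := fun W => ⟨toL W.1, ⟨fun x hx => hUM hx.choose, hst W.1, by rw [hcL, W.2]⟩,
        fun x hx => hx.choose⟩
      left_inv := by
        intro L
        apply Subtype.ext
        ext x
        exact ⟨fun h => h.choose_spec, fun h => ⟨L.2.2 h, h⟩⟩
      right_inv := by
        intro W
        apply Subtype.ext
        ext x
        exact ⟨fun h => h.choose_spec, fun h => ⟨x.2, h⟩⟩ }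

/-- the number of lines -/
theorem LnC.card_line {g : H} {M : Polynomial F} (hM : M.Monic) (hi : Irreducible M)
    (hV : Nat.card (VN F j g M) = Nat.card F ^ ((j + 1) * M.natDegree)) :
    Nat.card {L : Submodule F H // IsLine F j g M L} =
      ∑ a ∈ Finset.range (j + 1), (Nat.card F ^ M.natDegree) ^ a := by
  rw [← card_line_in hM hi le_rfl (VN_st g M) hV]
  exact Nat.card_congr (Equiv.subtypeEquivRight fun L => ⟨fun h => ⟨h, h.le⟩, fun h => h.1⟩)

/-- the number of lines outside `V_0` -/
theorem LnC.card_line_out (hj : 0 < j) {g : H} {Q : DV H} (hg : Q.ord g < 0) {M : Polynomial F}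
    (hM : M.Monic) (hi : Irreducible M) (h1 : M.eval 1 ≠ 0)
    (hV : Nat.card (VN F j g M) = Nat.card F ^ ((j + 1) * M.natDegree)) :
    Nat.card {L : Submodule F H // IsLine F j g M L ∧ ¬ L ≤ V0 F j g Q M} =
      Nat.card F ^ (j * M.natDegree) := by
  have hV0 : V0 F j g Q M ≤ VN F j g M := fun x hx => hx.1
  have h2 := card_line_in hM hi hV0 (fun x hx => V0_st hj hg hx) (card_V0 hj hg hM h1 hV)
  have h3 := LnC.card_line hM hi hV
  have hfin : Finite {L : Submodule F H // IsLine F j g M L} := by
    refine Nat.finite_of_card_ne_zero ?_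
    rw [h3, Finset.sum_range_succ]
    have : 0 < (Nat.card F ^ M.natDegree) ^ j := by
      have := Nat.card_pos (α := F)
      positivity
    omega
  have h4 : Nat.card {L : Submodule F H // IsLine F j g M L} =
      Nat.card {L : Submodule F H // IsLine F j g M L ∧ L ≤ V0 F j g Q M} +
      Nat.card {L : Submodule F H // IsLine F j g M L ∧ ¬ L ≤ V0 F j g Q M} := by
    classical
    have h5 : ∀ p : Submodule F H → Prop, Nat.card {L : Submodule F H // IsLine F j g M L ∧ p L} =
        Nat.card {L : {L : Submodule F H // IsLine F j g M L} // p L.1} := by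
      intro p
      exact Nat.card_congr (Equiv.subtypeSubtypeEquivSubtypeInter _ _).symm
    rw [h5, h5, ← Nat.card_sum]
    exact Nat.card_congr (Equiv.sumCompl fun L : {L : Submodule F H // IsLine F j g M L} =>
      L.1 ≤ V0 F j g Q M).symm
  rw [h3, h2, Finset.sum_range_succ, Nat.add_left_cancel_iff] at h4
  rw [← h4, ← pow_mul, mul_comm]

end

end Pool.Agent.FF.Rk
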