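import Pool.Agent.FE.Fam

/-! # Lower bounds for `L(q)` for all `q = r ^ n`, `n ≥ 2` (93) -/

set_option autoImplicit false

namespace Pool.Agent.FF.Rk

/-- bounds for the slope -/
theorem slope_le {r j : ℕ} (hr : 2 ≤ r) (hj : 0 < j) :
    2 / (1 / ((r : ℝ) - 1) + 1 / ((r : ℝ) ^ j - 1)) ≤ 2 * ((r : ℝ) - 1) := by
  rw [slope_eq hr hj]
  have hr2 : (2 : ℝ) ≤ r := by exact_mod_cast hr
  have h2 : (r : ℝ) ≤ (r : ℝ) ^ j := le_self_pow₀ (by linarith) hj.ne'
  have h4 : (0 : ℝ) < (r : ℝ) ^ j + r - 2 := by linarith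
  rw [div_le_iff₀ h4]
  nlinarith [mul_nonneg (by linarith : (0 : ℝ) ≤ (r : ℝ) - 1) (by linarith : (0 : ℝ) ≤ (r : ℝ) - 1)]

theorem le_slope {r j : ℕ} (hr : 2 ≤ r) (hj : 2 ≤ j) :
    2 * (((r : ℝ) - 1) * ((r : ℝ) ^ 2 - 1)) / ((r : ℝ) ^ 2 + r - 2) ≤
      2 / (1 / ((r : ℝ) - 1) + 1 / ((r : ℝ) ^ j - 1)) := by
  rw [slope_eq hr (by omega)]
  have hr2 : (2 : ℝ) ≤ r := by exact_mod_cast hr
  have h2 : (r : ℝ) ^ 2 ≤ (r : ℝ) ^ j := pow_le_pow_right₀ (by linarith) hj
  have h3 : (0 : ℝ) < (r : ℝ) ^ 2 + r - 2 := by nlinarith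
  have h4 : (0 : ℝ) < (r : ℝ) ^ j + r - 2 := by nlinarith
  rw [div_le_div_iff₀ h3 h4]
  have h5 : 0 ≤ (((r : ℝ) - 1) * ((r : ℝ) - 1)) * ((r : ℝ) ^ j - (r : ℝ) ^ 2) :=
    mul_nonneg (mul_nonneg (by linarith) (by linarith)) (by linarith)
  nlinarith

theorem card_good_odd {k : Type} [Field k] {r n : ℕ} (hr : 2 ≤ r) (hn : 2 ≤ n) (hodd : Odd r)
    (hk : Nat.card k = r ^ n) :
    Good k (2 / (1 / ((r : ℝ) - 1) + 1 / ((r : ℝ) ^ (n - 1) - 1))) 2
      (Real.logb 2 (Nat.card k)) := by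
  have : Finite k := Nat.finite_of_card_ne_zero (by rw [hk]; positivity)
  have hodd' : Odd (Nat.card k) := by rw [hk]; exact hodd.pow
  have h2 : (2 : k) ≠ 0 := by
    have := Fintype.ofFinite k
    intro h0
    have hp : CharP k 2 := by
      refine CharTwo.of_one_ne_zero_of_two_eq_zero one_ne_zero h0
    obtain ⟨e, -, hc⟩ := FiniteField.card k 2
    rw [← Nat.card_eq_fintype_card] at hc
    rw [hc] at hodd'
    exact (Nat.not_even_iff_odd.2 hodd') ((Nat.even_pow' e.ne_zero).2 even_two)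
  have hr2 : (2 : ℝ) ≤ r := by exact_mod_cast hr
  have hq1 : (1 : ℝ) < Nat.card k := by exact_mod_cast Finite.one_lt_card
  have hj : 0 < n - 1 := by omega
  have hk' : Nat.card k = r ^ (n - 1 + 1) := by rw [hk]; congr 1; omega
  refine (denseFam hr hj hk').good_odd h2 (slope_pos hr hj) (Real.logb_pos (by norm_num) hq1) ?_
  rw [Real.rpow_logb (by norm_num) (by norm_num) (by linarith)]

theorem card_good_even {k : Type} [Field k] {r n : ℕ} (hr : 2 ≤ r) (hn : 2 ≤ n) (he : Even r)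
    (hk : Nat.card k = r ^ n) :
    Good k (2 / (1 / ((r : ℝ) - 1) + 1 / ((r : ℝ) ^ (n - 1) - 1))) 1
      (Real.logb 2 (Nat.card k)) := by
  have : Finite k := Nat.finite_of_card_ne_zero (by rw [hk]; positivity)
  have := Fintype.ofFinite k
  obtain ⟨p, hp⟩ := CharP.exists k
  obtain ⟨e, hpp, hc⟩ := FiniteField.card k p
  rw [← Nat.card_eq_fintype_card] at hc
  have h2 : p = 2 := by
    have h3 : 2 ∣ p ^ (e : ℕ) := by
      rw [← hc, hk]
      exact he.two_dvd.trans (dvd_pow_self r (by omega))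
    exact ((Nat.prime_dvd_prime_iff_eq Nat.prime_two hpp).1 (Nat.prime_two.dvd_of_dvd_pow h3)).symm
  subst h2
  have hj : 0 < n - 1 := by omega
  have hk' : Nat.card k = r ^ (n - 1 + 1) := by rw [hk]; congr 1; omega
  have h := (denseFam hr hj hk').good_even e.pos hc (slope_pos hr hj)
  have h5 : Real.logb 2 (Nat.card k) = ((e : ℕ) : ℝ) := by
    rw [hc]
    push_cast
    rw [Real.logb_pow, Real.logb_self_eq_one (by norm_num), mul_one]
  rw [h5]
  exact h

/-- all points split: better than the other bound for small `s` -/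
theorem split_le {s kap lam : ℝ} (hs : 0 < s) (hkap : 0 ≤ kap) (hlam : 0 < lam)
    (h : s * (s + 2) ≤ (s - 2) * (2 * lam + kap)) :
    (s + 2) / (2 + kap / lam) ≤ 2 * s / (2 + (kap + s) / lam) := by
  have h5 : 0 < 2 + (kap + s) / lam := by positivity
  have h6 : 0 < 2 + kap / lam := by positivity
  rw [div_le_div_iff₀ h6 h5]
  have e1 : (s + 2) * (2 + (kap + s) / lam) =
      ((s + 2) * (2 * lam + kap) + s * (s + 2)) / lam := by
    field_simp
    ring
  have e2 : 2 * s * (2 + kap / lam) = (2 * s * (2 * lam + kap)) / lam := by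
    field_simp
  rw [e1, e2, div_le_div_iff_of_pos_right hlam]
  nlinarith

/-- `n ≥ 3`, `r ≥ 7` -/
theorem large_of_good {k : Type} [Field k] {r n : ℕ} (hr : 7 ≤ r) (hn : 3 ≤ n) {kap : ℝ}
    (hkap : 1 ≤ kap) (hkap7 : r = 7 → kap = 2) (hkap8 : r = 8 → kap = 1)
    (hk : Nat.card k = r ^ n)
    (H : Good k (2 / (1 / ((r : ℝ) - 1) + 1 / ((r : ℝ) ^ (n - 1) - 1))) kap
      (Real.logb 2 (Nat.card k))) :
    ENNReal.ofReal ((2 / (1 / ((r : ℝ) - 1) + 1 / ((r : ℝ) ^ (n - 1) - 1)) + 2) /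
      (2 + kap / Real.logb 2 (Nat.card k))) ≤ LL k := by
  set s : ℝ := 2 / (1 / ((r : ℝ) - 1) + 1 / ((r : ℝ) ^ (n - 1) - 1)) with hs
  have hs1 : s ≤ 2 * ((r : ℝ) - 1) := slope_le (by omega) (by omega)
  have hs0 := le_slope (r := r) (j := n - 1) (by omega) (by omega)
  rw [← hs] at hs0
  have hr7 : (7 : ℝ) ≤ r := by exact_mod_cast hr
  have hlam : 3 * Real.logb 2 r ≤ Real.logb 2 (Nat.card k) := by
    rw [hk]
    push_cast
    rw [Real.logb_pow]
    have h1 : 0 ≤ Real.logb 2 (r : ℝ) := Real.logb_nonneg (by norm_num) (by linarith)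
    have h2 : (3 : ℝ) ≤ n := by exact_mod_cast hn
    exact mul_le_mul_of_nonneg_right h2 h1
  have hlg0 : 0 < Real.logb 2 (r : ℝ) := Real.logb_pos (by norm_num) (by linarith)
  have hspos : 0 < s := slope_pos (by omega) (by omega)
  rcases Nat.lt_or_ge r 9 with h9 | h9
  · -- `r = 7`, `r = 8`
    obtain rfl | rfl : r = 7 ∨ r = 8 := by omega
    · have hk2 := hkap7 rfl
      subst hk2
      refine (ENNReal.ofReal_le_ofReal ?_).trans (H.split hspos (by norm_num) (by linarith))
      refine split_le hspos (by norm_num) (by linarith) ?_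
      have h7 : (5 : ℝ) / 2 ≤ Real.logb 2 ((7 : ℕ) : ℝ) := by
        have := AllP.le_logb_of_pow (x := 5) (y := 7) (n := 2) (by norm_num) (by norm_num)
          (by norm_num)
        exact_mod_cast this
      have h9' : 3 * ((5 : ℝ) / 2) ≤ Real.logb 2 (Nat.card k) :=
        (mul_le_mul_of_nonneg_left h7 (by norm_num)).trans hlam
      norm_num at hs0 hs1
      have h8 : (17 : ℝ) ≤ 2 * Real.logb 2 (Nat.card k) + 2 := by linarith
      have h10 : (s - 2) * 17 ≤ (s - 2) * (2 * Real.logb 2 (Nat.card k) + 2) :=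
        mul_le_mul_of_nonneg_left h8 (by linarith)
      nlinarith [mul_nonneg (sub_nonneg.2 hs1) (sub_nonneg.2 hs0)]
    · have hk2 := hkap8 rfl
      subst hk2
      refine (ENNReal.ofReal_le_ofReal ?_).trans (H.split hspos (by norm_num) (by linarith))
      refine split_le hspos (by norm_num) (by linarith) ?_
      have h7 : Real.logb 2 ((8 : ℕ) : ℝ) = 3 := by
        have : ((8 : ℕ) : ℝ) = 2 ^ 3 := by norm_num
        rw [this, Real.logb_pow, Real.logb_self_eq_one (by norm_num)]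
        norm_num
      rw [h7] at hlam
      norm_num at hs0 hs1
      have h8 : (19 : ℝ) ≤ 2 * Real.logb 2 (Nat.card k) + 1 := by linarith
      have h10 : (s - 2) * 19 ≤ (s - 2) * (2 * Real.logb 2 (Nat.card k) + 1) :=
        mul_le_mul_of_nonneg_left h8 (by linarith)
      nlinarith [mul_nonneg (sub_nonneg.2 hs1) (sub_nonneg.2 hs0)]
  · obtain ⟨m, rfl⟩ : ∃ m, r = m + 1 := ⟨r - 1, by omega⟩
    have hm : 8 ≤ m := by omega
    have hmr : (8 : ℝ) ≤ m := by exact_mod_cast hm
    have e1 : (((m + 1 : ℕ) : ℝ)) = (m : ℝ) + 1 := by push_cast; ring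
    rw [e1] at hs1 hs0 hlam
    refine H.large hm ?_ (by linarith) hkap ?_
    · refine le_trans ?_ hs0
      rw [le_div_iff₀ (by nlinarith)]
      nlinarith
    · refine le_trans ?_ hlam
      have : Real.logb 2 (m : ℝ) ≤ Real.logb 2 ((m : ℝ) + 1) :=
        Real.logb_le_logb_of_le (by norm_num) (by linarith) (by linarith)
      linarith

theorem slope_two {r : ℕ} (hr : 2 ≤ r) :
    2 / (1 / ((r : ℝ) - 1) + 1 / ((r : ℝ) ^ (2 - 1) - 1)) = (r : ℝ) - 1 := by
  have hr2 : (2 : ℝ) ≤ r := by exact_mod_cast hr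
  have h1 : (r : ℝ) - 1 ≠ 0 := by linarith
  norm_num
  field_simp
  norm_num

/-- **Lower bounds for `L(q)` for all `q = r ^ n`, `n ≥ 2`.** -/
theorem LL_pow {k : Type} [Field k] {r n : ℕ} (hr : 2 ≤ r) (hn : 2 ≤ n)
    (hk : Nat.card k = r ^ n) {s κ : ℝ}
    (hs : s = 2 / (1 / ((r : ℝ) - 1) + 1 / ((r : ℝ) ^ (n - 1) - 1)))
    (hκ : κ = if Even r then 1 else 2) :
    ENNReal.ofReal (2 * s / (2 + (s + κ) / Real.logb 2 (Nat.card k))) ≤ LL k ∧
    (7 ≤ r → ENNReal.ofReal ((s + 2) / (2 + κ / Real.logb 2 (Nat.card k))) ≤ LL k) := by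
  have : Finite k := Nat.finite_of_card_ne_zero (by rw [hk]; positivity)
  have hq1 : (1 : ℝ) < Nat.card k := by exact_mod_cast Finite.one_lt_card
  have hlam0 : 0 < Real.logb 2 (Nat.card k) := Real.logb_pos (by norm_num) hq1
  have hspos : 0 < s := by rw [hs]; exact slope_pos hr (by omega)
  have hκ1 : 1 ≤ κ := by rw [hκ]; split_ifs <;> norm_num
  have H : Good k s κ (Real.logb 2 (Nat.card k)) := by
    rw [hs, hκ]
    split_ifs with h
    · exact card_good_even hr hn h hk
    · exact card_good_odd hr hn (Nat.not_even_iff_odd.1 h) hk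
  refine ⟨?_, fun h7 => ?_⟩
  · rw [add_comm s κ]
    exact H.split hspos (by linarith) hlam0
  · rcases Nat.lt_or_ge n 3 with h3 | h3
    · obtain rfl : n = 2 := by omega
      rw [slope_two hr] at hs
      have hlg : Real.logb 2 (Nat.card k) = 2 * Real.logb 2 r := by
        rw [hk]
        push_cast
        rw [Real.logb_pow]
        push_cast
        ring
      rw [hlg] at H ⊢
      by_cases h : Even r
      · rw [if_pos h] at hκ
        subst hs hκ
        obtain ⟨a, ha, hra⟩ : ∃ a : ℕ, 3 ≤ a ∧ r = 2 ^ a := by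
          have h8 : 8 ≤ r := by
            rcases h with ⟨b, hb⟩
            omega
          have := Fintype.ofFinite k
          obtain ⟨p, hp⟩ := CharP.exists k
          obtain ⟨e, hpp, hc⟩ := FiniteField.card k p
          rw [← Nat.card_eq_fintype_card, hk] at hc
          have h1 : r ∣ p ^ (e : ℕ) := by
            rw [← hc]
            exact dvd_pow_self r (by norm_num)
          obtain ⟨a, -, hra⟩ := (Nat.dvd_prime_pow hpp).1 h1
          have h2 : p = 2 := by
            have h3 : 2 ∣ p ^ a := by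
              rw [← hra]
              exact h.two_dvd
            exact ((Nat.prime_dvd_prime_iff_eq Nat.prime_two hpp).1
              (Nat.prime_two.dvd_of_dvd_pow h3)).symm
          subst h2
          refine ⟨a, ?_, hra⟩
          by_contra h4
          have h5 : 2 ^ a ≤ 2 ^ 2 := Nat.pow_le_pow_right (by norm_num) (by omega)
          omega
        have e1 : (r : ℝ) = 2 ^ a := by rw [hra]; push_cast; ring
        have e2 : Real.logb 2 (r : ℝ) = a := by
          rw [e1, Real.logb_pow, Real.logb_self_eq_one (by norm_num), mul_one]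
        rw [e2, e1] at H
        rw [e2, e1]
        have h6 := LL_good_even (k := k) ha (by push_cast; exact H)
        have e3 : ((2 : ℝ) ^ a - 1 + 2) = 2 ^ a + 1 := by ring
        rw [e3]
        exact h6
      · rw [if_neg h] at hκ
        subst hs hκ
        have h6 := LL_good_odd (k := k) h7 (Nat.not_even_iff_odd.1 h) H
        have e3 : ((r : ℝ) - 1 + 2) = r + 1 := by ring
        have e4 : (2 : ℝ) / (2 * Real.logb 2 (r : ℝ)) = 1 / Real.logb 2 r := by
          rw [mul_comm, ← div_div]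
          field_simp
        rw [e3, e4]
        exact h6
    · rw [hs]
      rw [hs] at H
      refine large_of_good h7 h3 hκ1 (fun h => ?_) (fun h => ?_) hk H
      · rw [hκ, h]
        norm_num [Nat.even_iff]
      · rw [hκ, h]
        norm_num [Nat.even_iff]

end Pool.Agent.FF.Rk
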