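import Pool.Agent.FE.Main5
import Pool.Agent.FD.NumS

/-!
# Numbers for some cubes (93)
-/

set_option autoImplicit false

namespace Pool.Agent.FF.Rk

theorem logb_card {k : Type} [Field k] {r n q : ℕ} (hk : Nat.card k = q) (hq : q = r ^ n) :
    Real.logb 2 (Nat.card k) = n * Real.logb 2 r := by
  rw [hk, hq]
  push_cast
  rw [Real.logb_pow]

theorem N5.b125 : BlkF 95 87 (2 * (1 : ℕ) * (((95 : ℕ) : ℝ) - (1 : ℕ)) / (95 : ℕ)) :=
  blkF_eb (by norm_num) (by norm_num) (by decide +kernel)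

theorem N5.L125 {k : Type} [Field k] (hk : Nat.card k = 125) : ENNReal.ofReal (421 / 100) ≤ LL k := by
  have H := card_good_odd (k := k) (r := 5) (n := 3) (by norm_num) (by norm_num) (by decide)
    (by rw [hk]; norm_num)
  have hl := logb_card (r := 5) (n := 3) hk (by norm_num)
  have h1 := AllP.le_logb_of_pow (x := 65) (y := 5) (n := 28) (by norm_num) (by decide +kernel)
    (by norm_num)
  have hs : 2 / (1 / (((5 : ℕ) : ℝ) - 1) + 1 / (((5 : ℕ) : ℝ) ^ (3 - 1) - 1)) = 48 / 7 := by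
    norm_num
  rw [hs, hl] at H
  refine H.num (lam' := 3 * (65 / 28)) (by norm_num) ?_ (by norm_num) (by norm_num) N5.b125
    (by norm_num) (by norm_num) (by norm_num) ?_
  · norm_num at h1 ⊢
    linarith
  · norm_num

theorem N5.b343 : BlkF 48 41 (2 * (1 : ℕ) * (((48 : ℕ) : ℝ) - (1 : ℕ)) / (48 : ℕ)) :=
  blkF_eb (by norm_num) (by norm_num) (by decide +kernel)

theorem N5.L343 {k : Type} [Field k] (hk : Nat.card k = 343) : ENNReal.ofReal (154 / 25) ≤ LL k := by
  have H := card_good_odd (k := k) (r := 7) (n := 3) (by norm_num) (by norm_num) (by decide)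
    (by rw [hk]; norm_num)
  have hl := logb_card (r := 7) (n := 3) hk (by norm_num)
  have h1 := AllP.le_logb_of_pow (x := 160) (y := 7) (n := 57) (by norm_num) (by decide +kernel)
    (by norm_num)
  have hs : 2 / (1 / (((7 : ℕ) : ℝ) - 1) + 1 / (((7 : ℕ) : ℝ) ^ (3 - 1) - 1)) = 32 / 3 := by
    norm_num
  rw [hs, hl] at H
  refine H.num (lam' := 3 * (160 / 57)) (by norm_num) ?_ (by norm_num) (by norm_num) N5.b343
    (by norm_num) (by norm_num) (by norm_num) ?_
  · norm_num at h1 ⊢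
    linarith
  · norm_num

theorem N5.b512 : BlkF 49 37 (2 * (2 : ℕ) * (((49 : ℕ) : ℝ) - (2 : ℕ)) / (49 : ℕ)) :=
  blkF_eb (by norm_num) (by norm_num) (by decide +kernel)

theorem N5.L512 {k : Type} [Field k] (hk : Nat.card k = 512) :
    ENNReal.ofReal (733 / 100) ≤ LL k := by
  have H := card_good_even (k := k) (r := 8) (n := 3) (by norm_num) (by norm_num) (by decide)
    (by rw [hk]; norm_num)
  have hl : Real.logb 2 (Nat.card k) = 9 := by
    have : ((Nat.card k : ℕ) : ℝ) = 2 ^ 9 := by rw [hk]; norm_num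
    rw [this, Real.logb_pow, Real.logb_self_eq_one (by norm_num)]
    norm_num
  have hs : 2 / (1 / (((8 : ℕ) : ℝ) - 1) + 1 / (((8 : ℕ) : ℝ) ^ (3 - 1) - 1)) = 63 / 5 := by
    norm_num
  rw [hs, hl] at H
  refine H.num (lam' := 9) (by norm_num) le_rfl (by norm_num) (by norm_num) N5.b512
    (by norm_num) (by norm_num) (by norm_num) ?_
  norm_num

end Pool.Agent.FF.Rk
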