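import Pool.Agent.FE.GoodGen
import Pool.Agent.FO.AllPNum

/-!
# The numbers for a log-dense family of slope `s` (93)
-/

set_option autoImplicit false

namespace Pool.Agent.FF

namespace NumG

theorem bern {n : ℕ} (hn : 1 ≤ n) : 2 * n ^ n ≤ (n + 1) ^ n := by
  have h1 : (0 : ℝ) < n := by exact_mod_cast hn
  have h2 := one_add_mul_le_pow (a := 1 / (n : ℝ)) (by
    have : (0 : ℝ) ≤ 1 / n := by positivity
    linarith) n
  have h3 : 1 + (n : ℝ) * (1 / n) = 2 := by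
    field_simp
    norm_num
  rw [h3] at h2
  have h4 : 2 * (n : ℝ) ^ n ≤ (1 + 1 / (n : ℝ)) ^ n * (n : ℝ) ^ n :=
    mul_le_mul_of_nonneg_right h2 (by positivity)
  rw [← mul_pow, add_mul, one_div_mul_cancel h1.ne', one_mul] at h4
  exact_mod_cast h4

/-- nearly all classes: `B = 2 ^ K`, `K` bits less, one letter -/
theorem blk {K : ℕ} (hK : 1 ≤ K) :
    BlkF (2 ^ K) (2 ^ K - K) (2 * (1 : ℕ) * (((2 ^ K : ℕ) : ℝ) - (1 : ℕ)) / (2 ^ K : ℕ)) := by
  have hKB : K < 2 ^ K := Nat.lt_two_pow_self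
  have h2 : 2 ^ 1 ≤ 2 ^ K := Nat.pow_le_pow_right (by norm_num) hK
  refine blkF_eb (a := 1) (by norm_num) (by omega) ?_
  obtain ⟨n, hn⟩ : ∃ n : ℕ, 2 ^ K = n + 1 := ⟨2 ^ K - 1, by omega⟩
  have hn1 : 1 ≤ n := by omega
  have e1 : 2 ^ K - 1 = n := by omega
  have e2 : (2 : ℕ) ^ (2 ^ K) = 2 ^ (2 ^ K - K) * 2 ^ K := by
    rw [← pow_add]
    congr 1
    omega
  have e3 : (2 ^ K) ^ (2 ^ K) = (2 ^ K) * (n + 1) ^ n := by
    rw [hn, pow_succ, mul_comm]
  rw [e1, e2, e3, one_pow, mul_one]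
  have h3 := bern hn1
  have h4 : 0 < n ^ n := pow_pos (by omega) _
  have h5 : 0 < 2 ^ (2 ^ K - K) * 2 ^ K := by positivity
  calc 2 ^ (2 ^ K - K) * 2 ^ K * n ^ n < 2 ^ (2 ^ K - K) * 2 ^ K * (2 * n ^ n) :=
        Nat.mul_lt_mul_of_pos_left (by omega) h5
    _ ≤ 2 ^ (2 ^ K - K) * 2 ^ K * (n + 1) ^ n := Nat.mul_le_mul_left _ h3
    _ = _ := by ring

end NumG

/-- all points split -/
theorem Good.split {k : Type} [Field k] {s kap lam : ℝ} (hs : 0 < s) (hkap : 0 ≤ kap)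
    (hlam : 0 < lam) (H : Good k s kap lam) :
    ENNReal.ofReal (2 * s / (2 + (kap + s) / lam)) ≤ LL k := by
  set D : ℝ := 2 + (kap + s) / lam with hD
  have hD0 : 0 < D := by positivity
  obtain ⟨K0, hK0⟩ := exists_nat_ge (2 * D * lam / s)
  obtain ⟨K, hKdef⟩ : ∃ K, K = K0 + 1 := ⟨_, rfl⟩
  have hK1 : 1 ≤ K := by omega
  have hK : 2 * D * lam / s ≤ K := by
    rw [hKdef]
    push_cast
    linarith
  have hKB : K < 2 ^ K := Nat.lt_two_pow_self
  obtain ⟨B, hB⟩ : ∃ B : ℕ, B = 2 ^ K := ⟨_, rfl⟩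
  have hblk := NumG.blk hK1
  rw [← hB] at hblk hKB
  have hB0 : (0 : ℝ) < B := by exact_mod_cast (by omega : 0 < B)
  have hB1 : (1 : ℝ) ≤ B := by exact_mod_cast (by omega : 1 ≤ B)
  have hu0 : 0 ≤ 2 * (1 : ℕ) * ((B : ℝ) - (1 : ℕ)) / (B : ℕ) := by
    push_cast
    apply div_nonneg _ hB0.le
    linarith
  have hu1 : 2 * (1 : ℕ) * ((B : ℝ) - (1 : ℕ)) / (B : ℕ) ≤ 2 := by
    rw [div_le_iff₀ hB0]
    push_cast
    linarith
  have hB2 : (2 : ℝ) ≤ B := by exact_mod_cast (by omega : 2 ≤ B)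
  refine H B (B - K) _ _ hblk (by omega) hu0 (hu1.trans hB2) ?_
  set u : ℝ := 2 * (1 : ℕ) * ((B : ℝ) - (1 : ℕ)) / (B : ℕ) with hu
  rw [Nat.cast_sub hKB.le]
  have e1 : kap + ((B : ℝ) - K) / B * s = kap + s - K * s / B := by
    field_simp
    ring
  have hKs : 2 * D * lam ≤ K * s := by
    rwa [div_le_iff₀ hs] at hK
  have hpos : 0 < 2 + (kap + ((B : ℝ) - K) / B * s) / lam := by
    have h1 : 0 ≤ ((B : ℝ) - K) / B := by
      apply div_nonneg _ hB0.le
      have : (K : ℝ) ≤ B := by exact_mod_cast hKB.le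
      linarith
    positivity
  have e2 : 2 + (kap + ((B : ℝ) - K) / B * s) / lam = D - K * s / B / lam := by
    rw [e1, hD]
    field_simp
    ring
  rw [e2] at hpos ⊢
  rw [div_le_div_iff₀ hD0 hpos]
  -- `2 (D - K s / (B lam)) ≤ (2 - 4 / B) D`
  have h1 : 2 * D / B ≤ K * s / B / lam := by
    rw [le_div_iff₀ hlam, div_mul_eq_mul_div, div_le_div_iff_of_pos_right hB0]
    exact hKs
  have h2 : 2 * u / B ≤ 4 / B := by
    rw [div_le_div_iff_of_pos_right hB0]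
    linarith
  have h3 : 2 * (D - K * s / B / lam) ≤ (2 - 2 * u / B) * D := by
    have h4 : 2 * u / B * D ≤ 4 / B * D := mul_le_mul_of_nonneg_right h2 hD0.le
    have h5 : 4 / B * D = 2 * (2 * D / B) := by ring
    linarith
  calc 2 * s * (D - K * s / B / lam) = s * (2 * (D - K * s / B / lam)) := by ring
    _ ≤ s * ((2 - 2 * u / B) * D) := mul_le_mul_of_nonneg_left h3 hs.le
    _ = _ := by ring

/-- one certificate, an interval of slopes -/
theorem Good.cert {k : Type} [Field k] {s kap lam x : ℝ} (hs : 0 < s) (hkap : 0 ≤ kap)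
    (hlam : 0 < lam) (hx : 0 ≤ x) (H : Good k s kap lam) {B κ : ℕ} {u : ℝ} (hb : BlkF B κ u)
    (hκ : κ < B) (hu : 0 ≤ u) (hu2 : u ≤ B)
    (h : κ / B * s * (s + x) ≤ (s * (1 - 2 * u / B) - x) * (2 * lam + kap)) :
    ENNReal.ofReal ((s + x) / (2 + kap / lam)) ≤ LL k := by
  refine H B κ u _ hb hκ hu hu2 ?_
  have hB : (0 : ℝ) < B := by exact_mod_cast (by omega : 0 < B)
  have h5 : 0 < 2 + (kap + κ / B * s) / lam := by positivity
  have h6 : 0 < 2 + kap / lam := by positivity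
  rw [div_le_div_iff₀ h6 h5]
  have e1 : (s + x) * (2 + (kap + κ / B * s) / lam) =
      ((s + x) * (2 * lam + kap) + κ / B * s * (s + x)) / lam := by
    field_simp
    ring
  have e2 : s * (2 - 2 * u / B) * (2 + kap / lam) =
      (s * (2 - 2 * u / B) * (2 * lam + kap)) / lam := by
    field_simp
  rw [e1, e2, div_le_div_iff_of_pos_right hlam]
  nlinarith

/-- concavity in the slope -/
theorem Good.cert_int {k : Type} [Field k] {s kap lam x : ℝ} (hs : 0 < s) (hkap : 0 ≤ kap)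
    (hx : 0 ≤ x) (H : Good k s kap lam) {B κ : ℕ} {u : ℝ} (hb : BlkF B κ u)
    (hκ : κ < B) (hu : 0 ≤ u) (hu2 : u ≤ B) {s0 s1 lam0 : ℝ} (h0 : s0 ≤ s) (h1 : s ≤ s1)
    (hs0 : 0 < s0) (hlam0 : 0 < lam0) (hl : lam0 ≤ lam) (hxs : x ≤ s0 * (1 - 2 * u / B))
    (H0 : κ / B * s0 * (s0 + x) ≤ (s0 * (1 - 2 * u / B) - x) * (2 * lam0 + kap))
    (H1 : κ / B * s1 * (s1 + x) ≤ (s1 * (1 - 2 * u / B) - x) * (2 * lam0 + kap)) :
    ENNReal.ofReal ((s + x) / (2 + kap / lam)) ≤ LL k := by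
  have hB : (0 : ℝ) < B := by exact_mod_cast (by omega : 0 < B)
  set τ : ℝ := 1 - 2 * u / B with hτ
  set R : ℝ := κ / B with hR
  have hR0 : 0 ≤ R := by positivity
  have hτ0 : 0 ≤ τ := by
    by_contra hneg
    push Not at hneg
    have : s0 * τ < 0 := mul_neg_of_pos_of_neg hs0 hneg
    linarith
  refine H.cert hs hkap (by linarith) hx hb hκ hu hu2 ?_
  have h2 : R * s * (s + x) ≤ (s * τ - x) * (2 * lam0 + kap) := by
    rcases eq_or_lt_of_le (h0.trans h1) with he | hlt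
    · have : s = s0 := le_antisymm (by rw [he]; exact h1) h0
      rw [this]
      exact H0
    · set W : ℝ := 2 * lam0 + kap with hW
      have hd : 0 < s1 - s0 := by linarith
      have h3 : 0 ≤ (s1 - s) * ((s0 * τ - x) * W - R * s0 * (s0 + x)) :=
        mul_nonneg (by linarith) (by linarith)
      have h4 : 0 ≤ (s - s0) * ((s1 * τ - x) * W - R * s1 * (s1 + x)) :=
        mul_nonneg (by linarith) (by linarith)
      have h5 : 0 ≤ R * ((s1 - s) * (s - s0)) :=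
        mul_nonneg hR0 (mul_nonneg (by linarith) (by linarith))
      have h6 : (s1 - s0) * (R * s * (s + x)) ≤ (s1 - s0) * ((s * τ - x) * W) := by
        nlinarith [mul_nonneg h5 hd.le]
      exact le_of_mul_le_mul_left h6 hd
  refine h2.trans (mul_le_mul_of_nonneg_left (by linarith) ?_)
  have : s0 * τ ≤ s * τ := mul_le_mul_of_nonneg_right h0 hτ0
  linarith

end Pool.Agent.FF
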