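import Pool.Agent.FE.NumG2

/-!
# The bound `(s + 2) / (2 + κ / λ)` for all slopes `s ≥ 6` (93)
-/

set_option autoImplicit false

namespace Pool.Agent.FF

theorem NumR.le_logb {c : ℝ} (hc : 0 < c) {x n : ℕ} (hn : 0 < n) (h : (2 : ℝ) ^ x ≤ c ^ n) :
    (x : ℝ) / n ≤ Real.logb 2 c := by
  have h1 : (x : ℝ) ≤ Real.logb 2 (c ^ n) := by
    rw [Real.le_logb_iff_rpow_le (by norm_num) (by positivity), Real.rpow_natCast]
    exact h
  rw [Real.logb_pow] at h1
  rw [div_le_iff₀ (by exact_mod_cast hn)]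
  linarith

/-- one certificate, an interval of slopes, `λ ≥ 2 log₂ (s + 1)` -/
theorem NumR.cert {k : Type} [Field k] {s kap lam : ℝ} (hkap : 1 ≤ kap)
    (hlam : 2 * Real.logb 2 (s + 1) ≤ lam) (H : Good k s kap lam) {B κ : ℕ} {u : ℝ}
    (hb : BlkF B κ u) (hκ : κ < B) (hu : 0 ≤ u) (hu2 : u ≤ B) {s0 s1 : ℝ} (h0 : s0 ≤ s)
    (h1 : s ≤ s1) (hs0 : 0 < s0) {x n : ℕ} (hx : 0 < x) (hn : 0 < n)
    (hxn : (2 : ℝ) ^ x ≤ (s0 + 1) ^ n)
    (hxs : 2 ≤ s0 * (1 - 2 * u / B))
    (H0 : κ / B * s0 * (s0 + 2) ≤ (s0 * (1 - 2 * u / B) - 2) * (4 * ((x : ℝ) / n) + 1))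
    (H1 : κ / B * s1 * (s1 + 2) ≤ (s1 * (1 - 2 * u / B) - 2) * (4 * ((x : ℝ) / n) + 1)) :
    ENNReal.ofReal ((s + 2) / (2 + kap / lam)) ≤ LL k := by
  have hB : (0 : ℝ) < B := by exact_mod_cast (by omega : 0 < B)
  have hl0 : (0 : ℝ) < (x : ℝ) / n := by
    have : (0 : ℝ) < x := by exact_mod_cast hx
    have : (0 : ℝ) < n := by exact_mod_cast hn
    positivity
  have h2 := NumR.le_logb (by linarith : (0 : ℝ) < s0 + 1) hn hxn
  have h3 : Real.logb 2 (s0 + 1) ≤ Real.logb 2 (s + 1) :=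
    Real.logb_le_logb_of_le (by norm_num) (by linarith) (by linarith)
  have hτ : 0 ≤ 1 - 2 * u / B := by
    by_contra hneg
    push Not at hneg
    have : s0 * (1 - 2 * u / B) < 0 := mul_neg_of_pos_of_neg hs0 hneg
    linarith
  have h4 : s0 * (1 - 2 * u / B) ≤ s1 * (1 - 2 * u / B) :=
    mul_le_mul_of_nonneg_right (h0.trans h1) hτ
  refine H.cert_int (x := 2) (lam0 := 2 * ((x : ℝ) / n)) (by linarith) (by linarith) (by norm_num)
    hb hκ hu hu2 h0 h1 hs0 (by linarith) (by linarith) hxs ?_ ?_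
  · refine H0.trans (mul_le_mul_of_nonneg_left (by linarith) (by linarith))
  · refine H1.trans (mul_le_mul_of_nonneg_left (by linarith) (by linarith))

theorem NumR.b0 : BlkF 293 235 (2 * (9 : ℕ) * (((293 : ℕ) : ℝ) - (9 : ℕ)) / (293 : ℕ)) :=
  blkF_eb (by norm_num) (by norm_num) (by decide +kernel)

theorem NumR.b1 : BlkF 313 235 (2 * (13 : ℕ) * (((313 : ℕ) : ℝ) - (13 : ℕ)) / (313 : ℕ)) :=
  blkF_eb (by norm_num) (by norm_num) (by decide +kernel)

theorem NumR.b2 : BlkF 322 226 (2 * (17 : ℕ) * (((322 : ℕ) : ℝ) - (17 : ℕ)) / (322 : ℕ)) :=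
  blkF_eb (by norm_num) (by norm_num) (by decide +kernel)

theorem NumR.b3 : BlkF 308 103 ((80 : ℕ) : ℝ) :=
  blkF_lp (a := 19) (by norm_num) (by norm_num) (by decide +kernel) (by norm_num) (by norm_num)

theorem NumR.b4 : BlkF 248 65 ((73 : ℕ) : ℝ) :=
  blkF_lp (a := 11) (by norm_num) (by norm_num) (by decide +kernel) (by norm_num) (by norm_num)

theorem NumR.b5 : BlkF 272 47 ((93 : ℕ) : ℝ) :=
  blkF_lp (a := 7) (by norm_num) (by norm_num) (by decide +kernel) (by norm_num) (by norm_num)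

theorem NumR.b6 : BlkF 310 37 ((116 : ℕ) : ℝ) :=
  blkF_lp (a := 5) (by norm_num) (by norm_num) (by decide +kernel) (by norm_num) (by norm_num)

theorem NumR.b7 : BlkF 284 24 ((113 : ℕ) : ℝ) :=
  blkF_lp (a := 3) (by norm_num) (by norm_num) (by decide +kernel) (by norm_num) (by norm_num)

theorem NumR.b8 : BlkF 185 9 ((79 : ℕ) : ℝ) :=
  blkF_lp (a := 1) (by norm_num) (by norm_num) (by decide +kernel) (by norm_num) (by norm_num)

/-- small slopes -/
theorem NumR.small {k : Type} [Field k] {s kap lam : ℝ} (hs : 6 ≤ s) (hs' : s ≤ 71 / 2) (hkap : 1 ≤ kap)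
    (hlam : 2 * Real.logb 2 (s + 1) ≤ lam) (H : Good k s kap lam) :
    ENNReal.ofReal ((s + 2) / (2 + kap / lam)) ≤ LL k := by
  rcases le_or_gt s (143 / 20) with h0 | h0
  · exact NumR.cert hkap hlam H NumR.b0 (by norm_num) (by norm_num) (by norm_num)
      (s0 := 6) (s1 := 143 / 20) (x := 87) (n := 31) (by linarith) (by linarith) (by norm_num)
      (by norm_num) (by norm_num) (by norm_num) (by norm_num) (by norm_num) (by norm_num)
  rcases le_or_gt s (43 / 5) with h1 | h1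
  · exact NumR.cert hkap hlam H NumR.b1 (by norm_num) (by norm_num) (by norm_num)
      (s0 := 143 / 20) (s1 := 43 / 5) (x := 115) (n := 38) (by linarith) (by linarith) (by norm_num)
      (by norm_num) (by norm_num) (by norm_num) (by norm_num) (by norm_num) (by norm_num)
  rcases le_or_gt s (10) with h2 | h2
  · exact NumR.cert hkap hlam H NumR.b2 (by norm_num) (by norm_num) (by norm_num)
      (s0 := 43 / 5) (s1 := 10) (x := 75) (n := 23) (by linarith) (by linarith) (by norm_num)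
      (by norm_num) (by norm_num) (by norm_num) (by norm_num) (by norm_num) (by norm_num)
  rcases le_or_gt s (47 / 4) with h3 | h3
  · exact NumR.cert hkap hlam H NumR.b3 (by norm_num) (by norm_num) (by norm_num)
      (s0 := 10) (s1 := 47 / 4) (x := 83) (n := 24) (by linarith) (by linarith) (by norm_num)
      (by norm_num) (by norm_num) (by norm_num) (by norm_num) (by norm_num) (by norm_num)
  rcases le_or_gt s (141 / 10) with h4 | h4
  · exact NumR.cert hkap hlam H NumR.b4 (by norm_num) (by norm_num) (by norm_num)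
      (s0 := 47 / 4) (s1 := 141 / 10) (x := 11) (n := 3) (by linarith) (by linarith) (by norm_num)
      (by norm_num) (by norm_num) (by norm_num) (by norm_num) (by norm_num) (by norm_num)
  rcases le_or_gt s (347 / 20) with h5 | h5
  · exact NumR.cert hkap hlam H NumR.b5 (by norm_num) (by norm_num) (by norm_num)
      (s0 := 141 / 10) (s1 := 347 / 20) (x := 137) (n := 35) (by linarith) (by linarith) (by norm_num)
      (by norm_num) (by norm_num) (by norm_num) (by norm_num) (by norm_num) (by norm_num)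
  rcases le_or_gt s (109 / 5) with h6 | h6
  · exact NumR.cert hkap hlam H NumR.b6 (by norm_num) (by norm_num) (by norm_num)
      (s0 := 347 / 20) (s1 := 109 / 5) (x := 151) (n := 36) (by linarith) (by linarith) (by norm_num)
      (by norm_num) (by norm_num) (by norm_num) (by norm_num) (by norm_num) (by norm_num)
  rcases le_or_gt s (553 / 20) with h7 | h7
  · exact NumR.cert hkap hlam H NumR.b7 (by norm_num) (by norm_num) (by norm_num)
      (s0 := 109 / 5) (s1 := 553 / 20) (x := 9) (n := 2) (by linarith) (by linarith) (by norm_num)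
      (by norm_num) (by norm_num) (by norm_num) (by norm_num) (by norm_num) (by norm_num)
  exact NumR.cert hkap hlam H NumR.b8 (by norm_num) (by norm_num) (by norm_num)
    (s0 := 553 / 20) (s1 := 71 / 2) (x := 121) (n := 25) (by linarith) (by linarith) (by norm_num)
    (by norm_num) (by norm_num) (by norm_num) (by norm_num) (by norm_num) (by norm_num)

/-- large slopes -/
theorem NumR.large {k : Type} [Field k] {s kap lam : ℝ} (hs : 30 < s) (hkap : 1 ≤ kap)
    (hlam : 2 * Real.logb 2 (s + 1) ≤ lam) (H : Good k s kap lam) :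
    ENNReal.ofReal ((s + 2) / (2 + kap / lam)) ≤ LL k := by
  obtain ⟨m, hm⟩ : ∃ m : ℕ, m = ⌈s / 2⌉₊ := ⟨_, rfl⟩
  have hs1 : s ≤ 2 * (m : ℝ) := by
    have := Nat.le_ceil (s / 2)
    rw [← hm] at this
    linarith
  have hs0 : 2 * (m : ℝ) - 2 ≤ s := by
    have := Nat.ceil_lt_add_one (by linarith : 0 ≤ s / 2)
    rw [← hm] at this
    linarith
  have hm16 : 16 ≤ m := by
    have h1 : (15 : ℝ) < m := by linarith
    have : 15 < m := by exact_mod_cast h1
    omega
  set L : ℝ := Real.logb 2 m with hL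
  have hmr : (16 : ℝ) ≤ m := by exact_mod_cast hm16
  have hm0 : (0 : ℝ) < m := by linarith
  have hl2 : 0 < Real.log 2 := Real.log_pos (by norm_num)
  have hL4 : 4 ≤ L := by
    rw [hL, Real.le_logb_iff_rpow_le (by norm_num) hm0]
    norm_num
    exact_mod_cast hm16
  set X : ℝ := (m : ℝ) * (2 * L + 1 / Real.log 2) with hX
  have hX0 : 0 ≤ X := by positivity
  set κ : ℕ := ⌈X⌉₊ with hκ
  have hκ1 : X ≤ κ := Nat.le_ceil _
  have hκ2 : (κ : ℝ) < X + 1 := Nat.ceil_lt_add_one hX0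
  obtain ⟨t, ht1, ht2, u, hu⟩ : ∃ t : ℕ, 2 * m ^ 2 - 3 ≤ t ∧ t ≤ 2 * m ^ 2 - 2 ∧
      ∃ u : ℕ, m ^ 3 = 2 * u + t := by
    have hb : 2 * m ^ 2 ≤ m ^ 3 := by
      have : m ^ 3 = m * m ^ 2 := by ring
      rw [this]
      exact Nat.mul_le_mul_right _ (by omega)
    have h64 : 16 ^ 2 ≤ m ^ 2 := Nat.pow_le_pow_left hm16 2
    rcases Nat.even_or_odd m with he | ho
    · have h3 : Even (m ^ 3) := (Nat.even_pow' (by norm_num)).2 he
      obtain ⟨v, hv⟩ := h3
      exact ⟨2 * m ^ 2 - 2, by omega, by omega, v - m ^ 2 + 1, by omega⟩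
    · have h3 : Odd (m ^ 3) := ho.pow
      obtain ⟨v, hv⟩ := h3
      exact ⟨2 * m ^ 2 - 3, by omega, by omega, v - m ^ 2 + 2, by omega⟩
  have hmm : (m : ℝ) ^ 3 = 2 * u + t := by exact_mod_cast hu
  have ht1' : 2 * (m : ℝ) ^ 2 - 3 ≤ t := by
    have h1 : 2 * m ^ 2 ≤ t + 3 := by omega
    have h2 : ((2 * m ^ 2 : ℕ) : ℝ) ≤ ((t + 3 : ℕ) : ℝ) := by exact_mod_cast h1
    push_cast at h2
    linarith
  have hvol := AllP.vol (by omega) hκ1
  have hL1 : L ≤ 2.5573 + 0.09017 * m := by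
    have h1 : Real.log m ≤ 4 * Real.log 2 + (m / 16 - 1) := by
      have h2 : Real.log m = Real.log 16 + Real.log (m / 16) := by
        rw [← Real.log_mul (by norm_num) (by positivity)]
        congr 1
        field_simp
      have h3 : Real.log 16 = 4 * Real.log 2 := by
        rw [show (16 : ℝ) = 2 ^ 4 by norm_num, Real.log_pow]
        push_cast
        ring
      have h4 := Real.log_le_sub_one_of_pos (by positivity : 0 < (m : ℝ) / 16)
      rw [h2, h3]
      linarith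
    have h5 : L = Real.log m / Real.log 2 := rfl
    rw [h5, div_le_iff₀ hl2]
    have h6 := Real.log_two_gt_d9
    nlinarith
  have h14 := AllP.inv_log_two
  have hκ3 : (κ : ℝ) ≤ m * (2 * L + 1.4427) + 1 := by
    have : X ≤ m * (2 * L + 1.4427) := mul_le_mul_of_nonneg_left (by linarith) hm0.le
    linarith
  have hm16' : (0 : ℝ) ≤ m - 16 := by linarith
  have hκB : κ < m ^ 3 := by
    have h1 : (κ : ℝ) < (m : ℝ) ^ 3 := by
      have h5 : m * (2 * L + 1.4427) + 1 < (m : ℝ) ^ 3 := by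
        have h6 : 2 * L + 1.4427 ≤ 6.5573 + 0.18034 * m := by linarith
        have h7 : (m : ℝ) * (2 * L + 1.4427) ≤ m * (6.5573 + 0.18034 * m) :=
          mul_le_mul_of_nonneg_left h6 hm0.le
        have h8 := mul_nonneg hm0.le (mul_nonneg hm0.le hm16')
        have h9 := mul_nonneg hm0.le hm16'
        nlinarith
      linarith
    exact_mod_cast h1
  have hsq : (m ^ 3 - 2 * u) ^ 2 < 4 * m * (m ^ 3 - m) := by
    have h1 : m ^ 3 - 2 * u = t := by omega
    rw [h1]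
    obtain ⟨n, hn⟩ : ∃ n : ℕ, m ^ 2 = n + 1 := ⟨m ^ 2 - 1, by
      have : 1 ≤ m ^ 2 := Nat.one_le_pow _ _ (by omega)
      omega⟩
    have h3 : m ^ 3 - m = m * n := by
      have : m ^ 3 = m * n + m := by
        calc m ^ 3 = m * m ^ 2 := by ring
          _ = m * n + m := by rw [hn]; ring
      omega
    rw [h3]
    have h4 : t ≤ 2 * n := by omega
    have h5 : 4 * m * (m * n) = 4 * (n + 1) * n := by
      rw [← hn]
      ring
    rw [h5]
    have hn0 : 0 < n := by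
      have : 16 ^ 2 ≤ m ^ 2 := Nat.pow_le_pow_left hm16 2
      omega
    calc t ^ 2 ≤ (2 * n) ^ 2 := Nat.pow_le_pow_left h4 2
      _ < 4 * (n + 1) * n := by nlinarith
  have hb : BlkF (m ^ 3) κ (u : ℝ) := blkF_lp (a := m) (by omega)
    (by
      have : m ^ 3 = m * m * m := by ring
      rw [this]
      nlinarith) hvol (by omega) hsq
  have hu2 : (u : ℝ) ≤ ((m ^ 3 : ℕ) : ℝ) := by
    push_cast
    rw [hmm]
    have : (0 : ℝ) ≤ t := Nat.cast_nonneg _
    have : (0 : ℝ) ≤ u := Nat.cast_nonneg _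
    linarith
  have hm3 : (0 : ℝ) < (m : ℝ) ^ 3 := by positivity
  have e1 : (1 : ℝ) - 2 * u / ((m ^ 3 : ℕ) : ℝ) = t / (m : ℝ) ^ 3 := by
    push_cast
    field_simp
    linarith
  -- `λ ≥ 2 log₂ (2 m - 1) ≥ 2 L + 2 - ..`
  have hlam1 : 4 * L + 3.8138 ≤ 2 * lam := by
    have h1 : Real.logb 2 (2 * m - 1) ≤ Real.logb 2 (s + 1) :=
      Real.logb_le_logb_of_le (by norm_num) (by linarith) (by linarith)
    have h2 : L + 1 - 1.4427 / 31 ≤ Real.logb 2 (2 * m - 1) := by
      have h3 : (2 : ℝ) * m - 1 = 2 * m * (1 - 1 / (2 * m)) := by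
        field_simp
      have h4 : (0 : ℝ) < 1 - 1 / (2 * m) := by
        have : 1 / (2 * (m : ℝ)) ≤ 1 / 32 :=
          one_div_le_one_div_of_le (by norm_num) (by linarith)
        linarith
      have h5 : 1 - (1 - 1 / (2 * (m : ℝ)))⁻¹ ≤ Real.log (1 - 1 / (2 * m)) :=
        Real.one_sub_inv_le_log_of_pos h4
      have h6 : (1 - 1 / (2 * (m : ℝ)))⁻¹ ≤ 1 + 1 / 31 := by
        have h7 : (31 : ℝ) / 32 ≤ 1 - 1 / (2 * m) := by
          have : 1 / (2 * (m : ℝ)) ≤ 1 / 32 :=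
            one_div_le_one_div_of_le (by norm_num) (by linarith)
          linarith
        calc (1 - 1 / (2 * (m : ℝ)))⁻¹ ≤ ((31 : ℝ) / 32)⁻¹ := inv_anti₀ (by norm_num) h7
          _ = 1 + 1 / 31 := by norm_num
      rw [h3, Real.logb_mul (by positivity) h4.ne', Real.logb_mul (by norm_num) (by positivity),
        Real.logb_self_eq_one (by norm_num)]
      have h8 : -(1.4427 / 31) ≤ Real.logb 2 (1 - 1 / (2 * m)) := by
        have h9 : Real.logb 2 (1 - 1 / (2 * (m : ℝ))) = Real.log (1 - 1 / (2 * m)) * (1 / Real.log 2) := by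
          rw [Real.logb, mul_one_div]
        rw [h9]
        have h10 : -(1 / 31 : ℝ) ≤ Real.log (1 - 1 / (2 * m)) := by linarith
        have h11 : 0 < 1 / Real.log 2 := by positivity
        nlinarith
      linarith
    norm_num at h2 ⊢
    linarith
  set lam0 : ℝ := 2 * L + 1.9069 with hlam0
  have hW : 4 * L + 4.8138 ≤ 2 * lam0 + kap := by rw [hlam0]; norm_num; linarith
  have hW0 : 0 ≤ 4 * L + 4.8138 := by linarith
  have hmm2 := mul_nonneg hm0.le (mul_nonneg hm0.le hm16')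
  have hmm1 := mul_nonneg hm0.le hm16'
  have hLm1 : 0 ≤ m * (2.5573 + 0.09017 * m - L) := mul_nonneg hm0.le (by linarith)
  have hLm2 : 0 ≤ m * (m * (2.5573 + 0.09017 * m - L)) :=
    mul_nonneg hm0.le (mul_nonneg hm0.le (by linarith))
  have ht3 : 2 * (m : ℝ) ^ 3 - 4 * m ^ 2 - 6 * m + 6 ≤ (2 * m - 2) * t - 2 * m ^ 3 := by
    have := mul_le_mul_of_nonneg_left ht1' (by linarith : (0 : ℝ) ≤ 2 * m - 2)
    linarith only [this]
  have hq1 : 0 ≤ 2 * (m : ℝ) ^ 3 - 4 * m ^ 2 - 6 * m + 6 := by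
    linarith only [hmm2, hmm1, hm16']
  refine H.cert_int (x := 2) (by linarith) (by linarith) (by norm_num) hb hκB (Nat.cast_nonneg _)
    hu2 (s0 := 2 * m - 2) (s1 := 2 * m) (lam0 := lam0) hs0 hs1 (by linarith)
    (by rw [hlam0]; linarith) (by rw [hlam0]; linarith) ?_ ?_ ?_
  · rw [e1, ← mul_div_assoc, le_div_iff₀ hm3]
    linarith
  · rw [e1]
    have h1 : (κ : ℝ) * (2 * m - 2) * (2 * m - 2 + 2) ≤
        ((2 * m - 2) * t - 2 * m ^ 3) * (2 * lam0 + kap) := by
      have h2 : ((2 * m - 2) * t - 2 * (m : ℝ) ^ 3) * (4 * L + 4.8138) ≤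
          ((2 * m - 2) * t - 2 * (m : ℝ) ^ 3) * (2 * lam0 + kap) :=
        mul_le_mul_of_nonneg_left hW (by linarith)
      have h3 : (2 * (m : ℝ) ^ 3 - 4 * m ^ 2 - 6 * m + 6) * (4 * L + 4.8138) ≤
          ((2 * m - 2) * t - 2 * (m : ℝ) ^ 3) * (4 * L + 4.8138) :=
        mul_le_mul_of_nonneg_right ht3 hW0
      have h4 : (κ : ℝ) * (2 * m - 2) * (2 * m - 2 + 2) ≤
          (m * (2 * L + 1.4427) + 1) * (2 * m - 2) * (2 * m - 2 + 2) := by
        refine mul_le_mul_of_nonneg_right (mul_le_mul_of_nonneg_right hκ3 ?_) ?_ <;> linarith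
      have h5 : (m * (2 * L + 1.4427) + 1) * (2 * m - 2) * (2 * m - 2 + 2) ≤
          (2 * (m : ℝ) ^ 3 - 4 * m ^ 2 - 6 * m + 6) * (4 * L + 4.8138) := by
        norm_num at hLm1 hLm2 ⊢
        linarith only [hLm1, hLm2, hmm2, hmm1, hm16', hL4]
      linarith
    have e2 : (κ : ℝ) / ((m ^ 3 : ℕ) : ℝ) * (2 * m - 2) * (2 * m - 2 + 2) =
        (κ * (2 * m - 2) * (2 * m - 2 + 2)) / (m : ℝ) ^ 3 := by
      push_cast
      ring
    have e3 : ((2 * m - 2) * (t / (m : ℝ) ^ 3) - 2) * (2 * lam0 + kap) =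
        (((2 * m - 2) * t - 2 * m ^ 3) * (2 * lam0 + kap)) / (m : ℝ) ^ 3 := by
      field_simp
    rw [e2, e3, div_le_div_iff_of_pos_right hm3]
    exact h1
  · rw [e1]
    have h1 : (κ : ℝ) * (2 * m) * (2 * m + 2) ≤
        (2 * m * t - 2 * m ^ 3) * (2 * lam0 + kap) := by
      have ht4 : 2 * (m : ℝ) ^ 3 - 6 * m ≤ 2 * m * t - 2 * m ^ 3 := by
        have := mul_le_mul_of_nonneg_left ht1' (by linarith : (0 : ℝ) ≤ 2 * m)
        linarith only [this]
      have hq2 : 0 ≤ 2 * (m : ℝ) ^ 3 - 6 * m := by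
        linarith only [hmm2, hmm1, hm16']
      have h2 : (2 * m * t - 2 * (m : ℝ) ^ 3) * (4 * L + 4.8138) ≤
          (2 * m * t - 2 * (m : ℝ) ^ 3) * (2 * lam0 + kap) :=
        mul_le_mul_of_nonneg_left hW (by linarith)
      have h3 : (2 * (m : ℝ) ^ 3 - 6 * m) * (4 * L + 4.8138) ≤
          (2 * m * t - 2 * (m : ℝ) ^ 3) * (4 * L + 4.8138) :=
        mul_le_mul_of_nonneg_right ht4 hW0
      have h4 : (κ : ℝ) * (2 * m) * (2 * m + 2) ≤
          (m * (2 * L + 1.4427) + 1) * (2 * m) * (2 * m + 2) := by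
        refine mul_le_mul_of_nonneg_right (mul_le_mul_of_nonneg_right hκ3 ?_) ?_ <;> linarith
      have h5 : (m * (2 * L + 1.4427) + 1) * (2 * m) * (2 * m + 2) ≤
          (2 * (m : ℝ) ^ 3 - 6 * m) * (4 * L + 4.8138) := by
        norm_num at hLm1 hLm2 ⊢
        linarith only [hLm1, hLm2, hmm2, hmm1, hm16', hL4]
      linarith
    have e2 : (κ : ℝ) / ((m ^ 3 : ℕ) : ℝ) * (2 * m) * (2 * m + 2) =
        (κ * (2 * m) * (2 * m + 2)) / (m : ℝ) ^ 3 := by
      push_cast
      ring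
    have e3 : ((2 * m) * (t / (m : ℝ) ^ 3) - 2) * (2 * lam0 + kap) =
        ((2 * m * t - 2 * m ^ 3) * (2 * lam0 + kap)) / (m : ℝ) ^ 3 := by
      field_simp
    rw [e2, e3, div_le_div_iff_of_pos_right hm3]
    exact h1

/-- **all slopes `s ≥ 6`** -/
theorem Good.plus_two {k : Type} [Field k] {s kap lam : ℝ} (hs : 6 ≤ s) (hkap : 1 ≤ kap)
    (hlam : 2 * Real.logb 2 (s + 1) ≤ lam) (H : Good k s kap lam) :
    ENNReal.ofReal ((s + 2) / (2 + kap / lam)) ≤ LL k := by
  rcases le_or_gt s (71 / 2) with h | h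
  · exact NumR.small hs h hkap hlam H
  · exact NumR.large (by linarith) hkap hlam H

end Pool.Agent.FF
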