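import Pool.Agent.FE.Ine

/-! # G4: the uniformiser is moved most by an element of the inertia group (88) -/

set_option autoImplicit false
set_option linter.unusedSectionVars false

namespace Pool.Agent.FF

section

variable {K H : Type*} [Field K] [Field H] [Algebra K H]

theorem Inert.G_zero {Q : DV H} {ρ : H ≃ₐ[K] H} (h : Inert Q ρ) {a : H} (ha : Q.G 0 a) :
    Q.G 0 (ρ a) := by
  have h1 := ((h a ha).mono (by norm_num : (0 : ℤ) ≤ 1)).add ha
  rwa [sub_add_cancel] at h1

/-- an element of the inertia group preserves the place -/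
theorem Inert.ord {Q : DV H} {ρ : H ≃ₐ[K] H} (h : Inert Q ρ) (a : H) : Q.ord (ρ a) = Q.ord a := by
  have h1 : Q = Q.act ρ.symm := DV.eq_of_integral_imp fun a ha => by
    rw [GalAux.act_G, AlgEquiv.symm_symm]
    exact h.G_zero ha
  have h2 : (Q.act ρ.symm).ord a = Q.ord (ρ a) := rfl
  rw [← h2, ← h1]

theorem Inert.G {Q : DV H} {ρ : H ≃ₐ[K] H} (h : Inert Q ρ) (n : ℤ) (a : H) :
    Q.G n (ρ a) ↔ Q.G n a := by
  by_cases ha : a = 0
  · rw [ha, map_zero]
  · have ha' : ρ a ≠ 0 := (map_ne_zero ρ).2 ha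
    rw [DV.G_iff ha', DV.G_iff ha, h.ord]

variable {E : Type*} [Field E] [Algebra K E] [Algebra E H] [IsScalarTower K E H]

/-- all integral elements of `E` are moved by at most as much as the uniformiser -/
theorem Inert.pi_int {Q : DV H} {P : DV E} (hQ : Over Q P) {N : ℕ} (hN : 2 ≤ N)
    (hadd : ∀ x y : H, (x - y) ^ N = x ^ N - y ^ N) (hres : ∀ y : E, P.G 0 y → P.G 1 (y - y ^ N))
    {ρ : H ≃ₐ[K] H} (h : Inert Q ρ) {π : E} (hπ : P.ord π = 1) {n : ℕ}
    (hn : Q.G n (ρ (algebraMap E H π) - algebraMap E H π)) :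
    ∀ m : ℕ, m ≤ n → ∀ y : E, P.G 0 y → Q.G m (ρ (algebraMap E H y) - algebraMap E H y) := by
  have hint : ∀ y : E, P.G 0 y → Q.G 0 (algebraMap E H y) := fun y hy => (hQ.G_zero_iff y).2 hy
  have hπ0 : π ≠ 0 := by
    rintro rfl
    rw [P.ord_zero] at hπ
    exact zero_ne_one hπ
  have h1 : ∀ y : E, P.G 0 y → Q.G 1 (ρ (algebraMap E H y) - algebraMap E H y) :=
    fun y hy => h _ (hint y hy)
  intro m
  induction m with
  | zero =>
    intro _ y hy
    exact (h1 y hy).mono (by norm_num)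
  | succ m ih =>
    intro hm y hy
    rcases Nat.eq_zero_or_pos m with rfl | hm0
    · exact_mod_cast h1 y hy
    have ih' := ih (by omega)
    obtain ⟨y1, hy1⟩ : ∃ y1 : E, y1 = (y - y ^ N) / π := ⟨_, rfl⟩
    have hyy : y = y ^ N + π * y1 := by
      rw [hy1]
      field_simp
      ring
    have hy10 : P.G 0 y1 := by
      rw [hy1, div_eq_mul_inv]
      have h2 : P.G (-1) π⁻¹ := DV.G_of_le (by rw [P.ord_inv hπ0, hπ])
      have h3 := (hres y hy).mul h2
      simpa using h3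
    have hsplit : ρ (algebraMap E H y) - algebraMap E H y =
        (ρ (algebraMap E H y) - algebraMap E H y) ^ N +
        ((ρ (algebraMap E H π) - algebraMap E H π) * ρ (algebraMap E H y1) +
          algebraMap E H π * (ρ (algebraMap E H y1) - algebraMap E H y1)) := by
      rw [hadd]
      have h2 : algebraMap E H y = algebraMap E H y ^ N + algebraMap E H π * algebraMap E H y1 := by
        conv_lhs => rw [hyy]
        rw [map_add, map_mul, map_pow]
      have h3 : ρ (algebraMap E H y) = ρ (algebraMap E H y) ^ N +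
          ρ (algebraMap E H π) * ρ (algebraMap E H y1) := by
        conv_lhs => rw [h2]
        rw [map_add, map_mul, map_pow]
      linear_combination h3 - h2
    rw [hsplit]
    refine DV.G.add ?_ (DV.G.add ?_ ?_)
    · refine ((ih' y hy).pow N).mono ?_
      have h2 : ((m + 1 : ℕ) : ℤ) ≤ ((N * m : ℕ) : ℤ) := by
        have h3 : m + 1 ≤ N * m := by nlinarith
        exact_mod_cast h3
      push_cast at h2 ⊢
      linarith
    · have h2 := hn.mul ((h.G 0 _).2 (hint y1 hy10))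
      refine h2.mono ?_
      have h3 : ((m + 1 : ℕ) : ℤ) ≤ (n : ℤ) := by exact_mod_cast hm
      linarith
    · have h2 : Q.G 1 (algebraMap E H π) := (hQ.G_one_iff π).2 (DV.G_of_le hπ.ge)
      have h3 := h2.mul (ih' y1 hy10)
      refine h3.mono ?_
      push_cast
      linarith

/-- units congruent to one -/
structure OneU (Q : DV H) (d : ℤ) (x : H) : Prop where
  ne : x ≠ 0
  ord : Q.ord x = 0
  G : Q.G d (x - 1)

theorem OneU.one (Q : DV H) (d : ℤ) : OneU Q d 1 :=
  ⟨one_ne_zero, Q.ord_one, by rw [sub_self]; exact DV.G_zero _⟩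

theorem OneU.mul {Q : DV H} {d : ℤ} {x y : H} (hx : OneU Q d x) (hy : OneU Q d y) :
    OneU Q d (x * y) := by
  refine ⟨mul_ne_zero hx.ne hy.ne, by rw [Q.ord_mul _ _ hx.ne hy.ne, hx.ord, hy.ord, add_zero], ?_⟩
  have h1 : Q.G (0 + d) (x * (y - 1)) := (DV.G_of_le hx.ord.ge : Q.G 0 x).mul hy.G
  rw [zero_add] at h1
  have h2 := h1.add hx.G
  rwa [show x * (y - 1) + (x - 1) = x * y - 1 by ring] at h2

theorem OneU.inv {Q : DV H} {d : ℤ} {x : H} (hx : OneU Q d x) : OneU Q d x⁻¹ := by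
  refine ⟨inv_ne_zero hx.ne, by rw [Q.ord_inv hx.ne, hx.ord, neg_zero], ?_⟩
  have h0 : Q.ord x⁻¹ = 0 := by rw [Q.ord_inv hx.ne, hx.ord, neg_zero]
  have h1 : Q.G (0 + d) (x⁻¹ * (x - 1)) := (DV.G_of_le h0.ge : Q.G 0 x⁻¹).mul hx.G
  rw [zero_add] at h1
  have h2 := h1.neg
  have h3 : -(x⁻¹ * (x - 1)) = x⁻¹ - 1 := by
    have := hx.ne
    field_simp
    ring
  rwa [h3] at h2

theorem OneU.zpow {Q : DV H} {d : ℤ} {x : H} (hx : OneU Q d x) (v : ℤ) : OneU Q d (x ^ v) := by
  have hnat : ∀ n : ℕ, OneU Q d (x ^ n) := by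
    intro n
    induction n with
    | zero =>
      rw [pow_zero]
      exact OneU.one Q d
    | succ n ih =>
      rw [pow_succ]
      exact ih.mul hx
  obtain ⟨n, rfl | rfl⟩ := v.eq_nat_or_neg
  · rw [zpow_natCast]
    exact hnat n
  · rw [zpow_neg, zpow_natCast]
    exact (hnat n).inv

/-- (G4) `Q (ρ π - π) ≤ Q π + Q (ρ z / z - 1)` for every `z` in `E` which is moved -/
theorem Inert.pi_min {Q : DV H} {P : DV E} (hQ : Over Q P) {N : ℕ} (hN : 2 ≤ N)
    (hadd : ∀ x y : H, (x - y) ^ N = x ^ N - y ^ N) (hres : ∀ y : E, P.G 0 y → P.G 1 (y - y ^ N))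
    {ρ : H ≃ₐ[K] H} (h : Inert Q ρ) {π : E} (hπ : P.ord π = 1) {z : E}
    (hz : ρ (algebraMap E H z) ≠ algebraMap E H z) :
    algebraMap E H π - ρ (algebraMap E H π) ≠ 0 ∧
      Q.ord (algebraMap E H π - ρ (algebraMap E H π)) ≤
        Q.ord (algebraMap E H π) + Q.ord (ρ (algebraMap E H z) / algebraMap E H z - 1) := by
  have hz0 : z ≠ 0 := by
    rintro rfl
    exact hz (by rw [map_zero, map_zero])
  have hzH : algebraMap E H z ≠ 0 := by rwa [Ne, map_eq_zero]
  have hπ0 : π ≠ 0 := by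
    rintro rfl
    rw [P.ord_zero] at hπ
    exact zero_ne_one hπ
  have hπH : algebraMap E H π ≠ 0 := by rwa [Ne, map_eq_zero]
  -- the uniformiser is moved
  have hne : ρ (algebraMap E H π) - algebraMap E H π ≠ 0 := by
    intro h0
    have h1 : ∀ y : E, P.G 0 y → ρ (algebraMap E H y) = algebraMap E H y := by
      intro y hy
      by_contra hcon
      have h2 : ρ (algebraMap E H y) - algebraMap E H y ≠ 0 := sub_ne_zero.2 hcon
      obtain ⟨m, hm⟩ : ∃ m : ℕ, Q.ord (ρ (algebraMap E H y) - algebraMap E H y) < m :=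
        ⟨(Q.ord (ρ (algebraMap E H y) - algebraMap E H y)).toNat + 1, by push_cast; omega⟩
      have h3 := h.pi_int hQ hN hadd hres hπ (n := m) (by rw [h0]; exact DV.G_zero _) m le_rfl y hy
      have h4 := h3.le h2
      omega
    by_cases hzi : P.G 0 z
    · exact hz (h1 z hzi)
    · have h2 : P.G 0 z⁻¹ := by
        rw [DV.G_iff hz0] at hzi
        refine DV.G_of_le ?_
        rw [P.ord_inv hz0]
        omega
      have h3 := h1 _ h2
      rw [map_inv₀, map_inv₀] at h3
      exact hz (inv_injective h3)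
  obtain ⟨n, hn⟩ : ∃ n : ℕ, Q.ord (ρ (algebraMap E H π) - algebraMap E H π) = n := by
    have h1 : Q.G 0 (algebraMap E H π) :=
      (hQ.G_zero_iff π).2 ((DV.G_of_le hπ.ge : P.G 1 π).mono (by norm_num))
    have h2 := (h _ h1).le hne
    exact ⟨(Q.ord (ρ (algebraMap E H π) - algebraMap E H π)).toNat, by omega⟩
  have hint := h.pi_int hQ hN hadd hres hπ (n := n) (DV.G_of_le hn.ge) n le_rfl
  obtain ⟨d, hd⟩ : ∃ d : ℤ, d = n - Q.ord (algebraMap E H π) := ⟨_, rfl⟩
  have hπ1 : 0 ≤ Q.ord (algebraMap E H π) :=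
    ((hQ.G_zero_iff π).2 ((DV.G_of_le hπ.ge : P.G 1 π).mono (by norm_num))).le hπH
  have hua : OneU Q d (ρ (algebraMap E H π) / algebraMap E H π) := by
    have hρ0 : ρ (algebraMap E H π) ≠ 0 := (map_ne_zero ρ).2 hπH
    refine ⟨div_ne_zero hρ0 hπH, by rw [Q.ord_div hρ0 hπH, h.ord, sub_self], ?_⟩
    have h1 : ρ (algebraMap E H π) / algebraMap E H π - 1 =
        (ρ (algebraMap E H π) - algebraMap E H π) / algebraMap E H π := by
      field_simp
    rw [h1]
    refine DV.G_of_le ?_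
    rw [Q.ord_div hne hπH, hn, hd]
  -- the unit part
  obtain ⟨u, hu⟩ : ∃ u : E, u = z * π ^ (- P.ord z) := ⟨_, rfl⟩
  have hu0 : u ≠ 0 := by
    rw [hu]
    exact mul_ne_zero hz0 (zpow_ne_zero _ hπ0)
  have huH : algebraMap E H u ≠ 0 := by rwa [Ne, map_eq_zero]
  have huo : P.ord u = 0 := by
    rw [hu, P.ord_mul _ _ hz0 (zpow_ne_zero _ hπ0), P.ord_zpow hπ0, hπ]
    ring
  have hub : OneU Q d (ρ (algebraMap E H u) / algebraMap E H u) := by
    have hρ0 : ρ (algebraMap E H u) ≠ 0 := (map_ne_zero ρ).2 huH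
    have hQu : Q.ord (algebraMap E H u) = 0 := by
      obtain ⟨e, he, h1⟩ := hQ
      rw [h1 u hu0, huo, mul_zero]
    refine ⟨div_ne_zero hρ0 huH, by rw [Q.ord_div hρ0 huH, h.ord, sub_self], ?_⟩
    have h1 : ρ (algebraMap E H u) / algebraMap E H u - 1 =
        (algebraMap E H u)⁻¹ * (ρ (algebraMap E H u) - algebraMap E H u) := by
      field_simp
    rw [h1]
    have h2 : Q.G 0 (algebraMap E H u)⁻¹ := DV.G_of_le (by rw [Q.ord_inv huH, hQu, neg_zero])
    have h3 := h2.mul (hint u (DV.G_of_le huo.ge))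
    refine h3.mono ?_
    rw [hd]
    linarith
  have hzu : ρ (algebraMap E H z) / algebraMap E H z =
      (ρ (algebraMap E H π) / algebraMap E H π) ^ (P.ord z) *
        (ρ (algebraMap E H u) / algebraMap E H u) := by
    have h1 : z = π ^ (P.ord z) * u := by
      rw [hu, zpow_neg]
      field_simp
    have h2 : algebraMap E H z = algebraMap E H π ^ (P.ord z) * algebraMap E H u := by
      conv_lhs => rw [h1]
      rw [map_mul, map_zpow₀]
    rw [h2, map_mul, map_zpow₀, div_zpow, mul_div_mul_comm]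
  have hfin := (hua.zpow (P.ord z)).mul hub
  rw [← hzu] at hfin
  have hz1 : ρ (algebraMap E H z) / algebraMap E H z - 1 ≠ 0 := by
    rw [sub_ne_zero, Ne, div_eq_one_iff_eq hzH]
    exact hz
  have hle := hfin.G.le hz1
  refine ⟨?_, ?_⟩
  · rw [← neg_sub]
    exact neg_ne_zero.2 hne
  · rw [← neg_sub, Q.ord_neg, hn]
    rw [hd] at hle
    linarith

end

end Pool.Agent.FF
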